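import Pool.Agent.H301R2.HR.Defs

set_option autoImplicit false

/-! Statements of the assembly and of the cases. -/

namespace Pool.Agent.H301R2.HR

open Finset

/-! ### Conversions -/

/-- adding vertices / edges can only help -/
def S_EMB : Prop := ∀ {ι ι' K : Type} (a : ι → ℕ) (b : ι' → ℕ)
  (φ : (Σ i, Fin (a i)) → (Σ j, Fin (b j))), Function.Injective φ →
  (∀ x y, x.1 ≠ y.1 → (φ x).1 ≠ (φ y).1) → TCm b K → TCm a K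

/-- general graphs -/
def S_EMBG : Prop := ∀ {ι V K : Type} (a : ι → ℕ) (adj : V → V → Prop)
  (φ : (Σ i, Fin (a i)) → V), Function.Injective φ →
  (∀ x y, x.1 ≠ y.1 → adj (φ x) (φ y)) → TCg adj K → TCm a K

/-- only the number of colours matters -/
def S_CARD : Prop := ∀ {ι K : Type} [Fintype K] (a : ι → ℕ) (k : ℕ), Fintype.card K ≤ k →
  TCm a K → TCm a (Fin k)

/-- reindexing of the parts -/
def S_EQV : Prop := ∀ {ι ι' K : Type} (e : ι ≃ ι') (a : ι' → ℕ),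
  TCm (fun i => a (e i)) K → TCm a K

def S_CONV : Prop := ∀ (p : ℕ) (a : Fin p → ℕ) (k : ℕ), TCm a (Fin k) → TotCol p a k

/-! ### Lower bounds -/

def S_LB1 : Prop := ∀ (p : ℕ) (a : Fin p → ℕ), (∀ i, 0 < a i) → ∀ m : ℕ, (∃ i, a i = m) →
  (∀ i, m ≤ a i) → Even (∑ i, a i) →
  (∑ i, (a i * (a i - m))) < (Finset.univ.filter (fun i => Odd (a i))).card →
  ¬ TotCol p a ((∑ i, a i) - m + 1)

def S_LB2 : Prop := ∀ (a : Fin 2 → ℕ) (m : ℕ), 0 < m → (∀ i, a i = m) → ¬ TotCol 2 a (m + 1)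

/-! ### The cases of the existence part -/

/-- at most one part -/
def S_C0 : Prop := ∀ {ι : Type} [Fintype ι] (a : ι → ℕ) (k : ℕ), 0 < k → Fintype.card ι ≤ 1 →
  TCm a (Fin k)

/-- `n` odd, or large deficiency -/
def S_C1 : Prop := ∀ {ι : Type} [Fintype ι] [DecidableEq ι] (a : ι → ℕ) (a₀ : ℕ), 1 ≤ a₀ →
  (∃ i, a i = a₀) → (∀ i, a₀ ≤ a i) → 2 ≤ Fintype.card ι →
  (Odd (∑ i, a i) ∨ (∑ i, a i) - a₀ ≤ ∑ i, a i * (a i - a₀)) →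
  TCm a (Fin ((∑ i, a i) - a₀ + 1))

/-- `n` even, minimum at least three -/
def S_C2 : Prop := ∀ {ι : Type} [Fintype ι] [DecidableEq ι] (a : ι → ℕ) (a₀ : ℕ), 3 ≤ a₀ →
  (∃ i, a i = a₀) → (∀ i, a₀ ≤ a i) → 3 ≤ Fintype.card ι → Even (∑ i, a i) →
  ∑ i, a i % 2 ≤ ∑ i, a i * (a i - a₀) → ∑ i, a i * (a i - a₀) < (∑ i, a i) - a₀ →
  TCm a (Fin ((∑ i, a i) - a₀ + 1))

/-- `n` even, minimum two -/
def S_C3 : Prop := ∀ {ι : Type} [Fintype ι] [DecidableEq ι] (a : ι → ℕ),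
  (∃ i, a i = 2) → (∀ i, 2 ≤ a i) → 3 ≤ Fintype.card ι → Even (∑ i, a i) →
  ∑ i, a i * (a i - 2) < (∑ i, a i) - 2 → TCm a (Fin ((∑ i, a i) - 1))

/-- `n` even, minimum one -/
def S_C4 : Prop := ∀ {ι : Type} [Fintype ι] [DecidableEq ι] (a : ι → ℕ),
  (∃ i, a i = 1) → (∀ i, 1 ≤ a i) → Even (∑ i, a i) →
  ∑ i, a i % 2 ≤ ∑ i, a i * (a i - 1) → ∑ i, a i * (a i - 1) < (∑ i, a i) - 1 →
  TCm a (Fin (∑ i, a i))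

/-! ### Assembly for `a₀ ≥ 2` from special classes -/

/-- Special classes `H i` (avoiding part `i` up to one unit if `a i` is odd) + a flow on the rest. -/
def S_ASM : Prop := ∀ {ι : Type} [Fintype ι] [DecidableEq ι] (a : ι → ℕ) (a₀ m : ℕ)
  (H : ι → ι → ι → ℕ) (ε : ι → ℤ) (f : ι → ι → ℚ), 0 < a₀ → (∀ i, a₀ ≤ a i) → 0 < m →
  Fintype.card ι + m + a₀ = (∑ i, a i) + 1 →
  (∀ i u v, H i u v = H i v u) → (∀ i u, H i u u = 0) →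
  (∀ i u, ∑ v, H i u v = if u = i then a u % 2 else a u) →
  (∀ u, Even ((a u : ℤ) + ε u)) → (∀ u, -1 ≤ ε u ∧ ε u ≤ 1) →
  (∀ u v, f u v = - f v u) →
  (∀ u v, u ≠ v → |f u v| + ∑ i, (H i u v : ℚ) ≤ a u * a v) →
  (∀ u, |∑ v, f u v + (a u % 2 : ℕ) - m * ε u| ≤ (a u : ℚ) * ((a u : ℚ) - a₀)) →
  ∑ u, a u % 2 ≤ m → TCm a (ι ⊕ Fin m)

/-! ### Case 1 -/

/-- realisation of a degree sequence by a loopless multigraph -/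
def S_HX : Prop := ∀ {ι : Type} [Fintype ι] [DecidableEq ι] (d : ι → ℕ), Even (∑ i, d i) →
  (∀ i, 2 * d i ≤ ∑ j, d j) →
  ∃ h : ι → ι → ℕ, (∀ i j, h i j = h j i) ∧ (∀ i, h i i = 0) ∧ ∀ i, ∑ j, h i j = d i

/-- choice of the signs and of the places of the slack -/
def S_PHI : Prop := ∀ {N : Type} [Fintype N] [DecidableEq N] (w t : N → ℕ) (m : ℕ)
  (h : N → N → ℕ), (∀ u, 2 ≤ w u) → 0 < m → (∀ u v, h u v = h v u) →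
  (∀ u v, u ≠ v → h u v ≤ w u ∧ h u v ≤ w v) →
  (Odd (∑ u, w u) → m ≤ ∑ u, t u ∧ ∀ u, w u = 2 → (t u = 0 ∨ ∀ v, h u v = 0)) →
  ∃ (ε : N → ℤ) (τ : N → ℚ), (∀ u, Even ((w u : ℤ) + ε u)) ∧ (∀ u, -1 ≤ ε u ∧ ε u ≤ 1) ∧
    (∀ u, 0 ≤ τ u ∧ τ u ≤ t u) ∧ ∑ u, ((m : ℚ) * ε u + τ u) = 0 ∧
    ∀ u v, u ≠ v → |(w v : ℚ) * (m * ε u + τ u) - w u * (m * ε v + τ v)| ≤
      m * ((w u : ℚ) * w v - h u v)

/-- admissible pairs (weight, normalised net outflow) for `∑ w` odd -/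
def TyP (x : ℕ) (φ : ℚ) : Prop :=
  (Even x ∧ 0 ≤ φ ∧ φ ≤ 1) ∨ (Odd x ∧ 1 ≤ φ ∧ φ ≤ 3 / 2) ∨ (Odd x ∧ -1 ≤ φ ∧ φ ≤ 0)

/-- the inequality behind `S_PHI` for `∑ w` odd -/
def S_PIN : Prop := ∀ (x y h : ℕ) (φ ψ : ℚ), 2 ≤ x → 2 ≤ y → h ≤ x → h ≤ y →
  (x = 2 → φ = 0 ∨ h = 0) → (y = 2 → ψ = 0 ∨ h = 0) → TyP x φ → TyP y ψ →
  (Odd x → Odd y → 1 ≤ φ → ψ ≤ 0 → φ - 1 ≤ ψ + 1) →
  (Odd x → Odd y → 1 ≤ ψ → φ ≤ 0 → ψ - 1 ≤ φ + 1) →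
  |(y : ℚ) * φ - x * ψ| ≤ (x : ℚ) * y - h

/-- the edge colouring tool: `K(w)` (some nodes complete) minus one class `h`, in `m` classes -/
def S_ECT : Prop := ∀ {N : Type} [Fintype N] [DecidableEq N] (w : N → ℕ) (A : N → N → Prop)
  [DecidableRel A] (m : ℕ) (h : N → N → ℕ) (t : N → ℕ), (∀ u v, u ≠ v → A u v) →
  (∀ u, 2 ≤ w u) → 0 < m → m < ∑ u, w u → (∀ u v, h u v = h v u) → (∀ u, h u u = 0) →
  (∀ u v, u ≠ v → h u v ≤ w u ∧ h u v ≤ w v) →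
  (∀ u, (∑ v, (if v = u then (if A u u then w u * (w u - 1) else 0) else w u * w v - h u v)) + t u
    = m * w u) →
  (Odd (∑ u, w u) → m ≤ ∑ u, t u ∧ ∀ u, w u = 2 → (t u = 0 ∨ ∀ v, h u v = 0)) →
  ∃ X : Fin m → N → N → ℕ, (∀ c u v, X c u v = X c v u) ∧
    (∀ u v, u ≠ v → ∑ c, X c u v = w u * w v - h u v) ∧
    (∀ u, 2 * ∑ c, X c u u = if A u u then w u * (w u - 1) else 0) ∧
    (∀ c u, ∑ v, X c u v + X c u u ≤ w u)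

/-- Case 1 for minimum one -/
def S_C1a : Prop := ∀ {ι : Type} [Fintype ι] [DecidableEq ι] (a : ι → ℕ),
  (∃ i, a i = 1) → (∀ i, 1 ≤ a i) → 2 ≤ Fintype.card ι →
  (Odd (∑ i, a i) ∨ (∑ i, a i) - 1 ≤ ∑ i, a i * (a i - 1)) → TCm a (Fin (∑ i, a i))

/-- Case 1 for minimum at least two -/
def S_C1b : Prop := ∀ {ι : Type} [Fintype ι] [DecidableEq ι] (a : ι → ℕ) (a₀ : ℕ), 2 ≤ a₀ →
  (∃ i, a i = a₀) → (∀ i, a₀ ≤ a i) → 2 ≤ Fintype.card ι →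
  (Odd (∑ i, a i) ∨ (∑ i, a i) - a₀ ≤ ∑ i, a i * (a i - a₀)) →
  TCm a (Option (Fin ((∑ i, a i) - a₀)))

/-- The class missing on the part `i₀` (for `a₀ ≥ 2`). -/
def S_H1 : Prop := ∀ {ι : Type} [Fintype ι] [DecidableEq ι] (a : ι → ℕ) (a₀ : ℕ) (i₀ : ι),
  2 ≤ a₀ → a i₀ = a₀ → (∀ i, a₀ ≤ a i) → 2 ≤ Fintype.card ι →
  (Odd (∑ i, a i) ∨ (∑ i, a i) - a₀ ≤ ∑ i, a i * (a i - a₀)) →
  ∃ h : ι → ι → ℕ, (∀ u v, h u v = h v u) ∧ (∀ u, h u u = 0) ∧ (∀ v, h i₀ v = 0) ∧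
    (∀ u, ∑ v, h u v ≤ a u) ∧ (∀ u, u ≠ i₀ → a u = a₀ → ∑ v, h u v = a₀) ∧
    (Even (∑ i, a i) → 2 * ((∑ i, a i) - a₀) ≤
      (∑ u, ∑ v, h u v) + ∑ i, a i * (a i - a₀))

end Pool.Agent.H301R2.HR
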