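import Mathlib

set_option autoImplicit false

/-! The total chromatic number of complete multipartite graphs (Hoffman-Rodger conjecture):
definitions. helper301 / helper931. -/

namespace Pool.Agent.H301R2.HR

open Finset

/-- Total colouring of the complete multipartite graph with parts `Fin (a i)`, colours in `K`. -/
def TCm {ι : Type} (a : ι → ℕ) (K : Type) : Prop :=
  ∃ cv : (Σ i, Fin (a i)) → K, ∃ ce : (Σ i, Fin (a i)) → (Σ i, Fin (a i)) → K,
    (∀ x y, x.1 ≠ y.1 → cv x ≠ cv y) ∧ (∀ x y, ce x y = ce y x) ∧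
    (∀ x y z, x.1 ≠ y.1 → x.1 ≠ z.1 → y ≠ z → ce x y ≠ ce x z) ∧
    (∀ x y, x.1 ≠ y.1 → cv x ≠ ce x y)

/-- Total colouring of a graph given by its adjacency relation. -/
def TCg {V : Type} (adj : V → V → Prop) (K : Type) : Prop :=
  ∃ cv : V → K, ∃ ce : V → V → K, (∀ x y, adj x y → cv x ≠ cv y) ∧ (∀ x y, ce x y = ce y x) ∧
    (∀ x y z, adj x y → adj x z → y ≠ z → ce x y ≠ ce x z) ∧
    (∀ x y, adj x y → cv x ≠ ce x y)

/-- The existential of the frozen statement, with `k` colours. -/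
def TotCol (p : ℕ) (a : Fin p → ℕ) (k : ℕ) : Prop :=
  ∃ cv : (Σ i : Fin p, Fin (a i)) → Fin k,
    ∃ ce : (SimpleGraph.completeMultipartiteGraph (fun i : Fin p => Fin (a i))).edgeSet → Fin k,
      (∀ u v : (Σ i : Fin p, Fin (a i)),
        (SimpleGraph.completeMultipartiteGraph (fun i : Fin p => Fin (a i))).Adj u v →
          cv u ≠ cv v) ∧
      (∀ e f : (SimpleGraph.completeMultipartiteGraph (fun i : Fin p => Fin (a i))).edgeSet,
        e ≠ f → ∀ v : (Σ i : Fin p, Fin (a i)), v ∈ e.1 → v ∈ f.1 → ce e ≠ ce f) ∧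
      (∀ e : (SimpleGraph.completeMultipartiteGraph (fun i : Fin p => Fin (a i))).edgeSet,
        ∀ v : (Σ i : Fin p, Fin (a i)), v ∈ e.1 → cv v ≠ ce e)

/-- Outline of a (total if `κ = 1`, edge if `κ = 0`) colouring of the blow-up of the nodes `N` with
weights `w`; `A` is the adjacency of the nodes (`A u u` : the node `u` is a complete graph).
`x c u v` = number of edges of colour `c` between `u` and `v`, `x c u u` = number of loops (edges
inside) of `u`, `s c u` = number of vertices of `u` with own colour `c`. -/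
structure Outline {N K : Type} [Fintype N] [Fintype K] [DecidableEq N] (w : N → ℕ)
    (A : N → N → Prop) [DecidableRel A] (x : K → N → N → ℕ) (s : K → N → ℕ) (κ : ℕ) : Prop where
  symm : ∀ c u v, x c u v = x c v u
  tot : ∀ u v, u ≠ v → ∑ c, x c u v = if A u v then w u * w v else 0
  loop : ∀ u, 2 * ∑ c, x c u u = if A u u then w u * (w u - 1) else 0
  own : ∀ u, ∑ c, s c u = κ * w u
  deg : ∀ c u, s c u + ∑ v, x c u v + x c u u ≤ w u
  excl : ∀ c u v, u ≠ v → A u v → s c u = 0 ∨ s c v = 0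
  exclL : ∀ c u, A u u → s c u ≤ 1

/-! ### (K) equitable splitting of bipartite multigraphs -/

/-- Two-sided equitable splitting of a bipartite multigraph (de Werra), matrix form. -/
def S_DW : Prop := ∀ {A B : Type} [Fintype A] [Fintype B] (M : A → B → ℕ) (m : ℕ), 0 < m →
  ∃ X : Fin m → A → B → ℕ, (∀ a b, ∑ c, X c a b = M a b) ∧
    (∀ c a, (∑ b, M a b) / m ≤ ∑ b, X c a b ∧ ∑ b, X c a b ≤ ((∑ b, M a b) + (m - 1)) / m) ∧
    (∀ c b, (∑ a, M a b) / m ≤ ∑ a, X c a b ∧ ∑ a, X c a b ≤ ((∑ a, M a b) + (m - 1)) / m)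

/-- One class covering all vertices of full degree. -/
def S_SEL : Prop := ∀ {K B : Type} [Fintype K] [Fintype B] (M : K → B → ℕ) (W : ℕ) (d : B → ℕ),
  0 < W → (∀ c, ∑ b, M c b ≤ W) → (∀ b, ∑ c, M c b = W * d b) →
  ∃ y : K → B → ℕ, (∀ c b, y c b ≤ M c b) ∧ (∀ c, ∑ b, y c b ≤ 1) ∧
    (∀ c, ∑ b, M c b = W → ∑ b, y c b = 1) ∧ (∀ b, ∑ c, y c b = d b)

/-! ### (O) orientation -/

/-- Rounding of a fractional orientation of a multigraph. -/
def S_ORI : Prop := ∀ {N : Type} [Fintype N] [DecidableEq N] (R : N → N → ℕ) (y : N → N → ℚ)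
  (lo hi : N → ℤ), (∀ u v, R u v = R v u) → (∀ u, R u u = 0) → (∀ u v, 0 ≤ y u v) →
  (∀ u v, y u v + y v u = R u v) → (∀ u, (lo u : ℚ) ≤ ∑ v, y u v) →
  (∀ u, ∑ v, y u v ≤ (hi u : ℚ)) →
  ∃ z : N → N → ℕ, (∀ u v, z u v + z v u = R u v) ∧
    ∀ u, lo u ≤ ∑ v, (z u v : ℤ) ∧ ∑ v, (z u v : ℤ) ≤ hi u

/-- The orientation tool. `R` multigraph on nodes of weights `w`, `L u` loops at `u`, `o u` edges
from `u` to infinity (at most `m` in total), `f` an antisymmetric flow with `|f| ≤ R` and net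
outflow `m ε u - o u` up to the slack: then everything splits into `m` classes with degree at most
`w u` at every node and at most one edge to infinity. -/
def S_OT : Prop := ∀ {N : Type} [Fintype N] [DecidableEq N] (w : N → ℕ) (R : N → N → ℕ)
  (L o : N → ℕ) (m : ℕ) (ε : N → ℤ) (f : N → N → ℚ), 0 < m → (∀ u, 0 < w u) →
  (∀ u v, R u v = R v u) → (∀ u, R u u = 0) →
  (∀ u, Even ((w u : ℤ) + ε u)) → (∀ u, -1 ≤ ε u ∧ ε u ≤ 1) →
  (∀ u v, f u v = - f v u) → (∀ u v, u ≠ v → |f u v| ≤ R u v) →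
  (∀ u, |∑ v, f u v + o u - m * ε u| ≤
    (m * w u : ℚ) - (∑ v, (R u v : ℚ) + 2 * L u + o u)) →
  ∑ u, o u ≤ m →
  ∃ (X : Fin m → N → N → ℕ) (s : Fin m → N → ℕ), (∀ c u v, X c u v = X c v u) ∧
    (∀ u v, u ≠ v → ∑ c, X c u v = R u v) ∧ (∀ u, ∑ c, X c u u = L u) ∧
    (∀ u, ∑ c, s c u = o u) ∧ (∀ c u, s c u + ∑ v, X c u v + X c u u ≤ w u) ∧
    (∀ c, ∑ u, s c u ≤ 1)

/-! ### (D) detachment -/

/-- Splitting one vertex off a node of weight at least two. -/
def S_SPLIT : Prop := ∀ {N K : Type} [Fintype N] [Fintype K] [DecidableEq N] (w : N → ℕ)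
  (A : N → N → Prop) [DecidableRel A] (x : K → N → N → ℕ) (s : K → N → ℕ) (κ : ℕ) (u₀ : N),
  κ ≤ 1 → (∀ u v, A u v → A v u) → 2 ≤ w u₀ → Outline w A x s κ →
  ∃ (x' : K → Option N → Option N → ℕ) (s' : K → Option N → ℕ),
    Outline (N := Option N) (K := K) (fun o => o.elim 1 (fun u => if u = u₀ then w u - 1 else w u))
      (fun a b => A (a.getD u₀) (b.getD u₀)) x' s' κ ∧
    (∀ c a b, x c (a.getD u₀) (b.getD u₀) = 0 → x' c a b = 0)

/-- Complete detachment. -/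
def S_DET : Prop := ∀ {N K : Type} [Fintype N] [Fintype K] [DecidableEq N] (w : N → ℕ)
  (A : N → N → Prop) [DecidableRel A] (x : K → N → N → ℕ) (s : K → N → ℕ) (κ : ℕ),
  κ ≤ 1 → (∀ u v, A u v → A v u) → (∀ u, 0 < w u) → Outline w A x s κ →
  ∃ (X : K → (Σ u, Fin (w u)) → (Σ u, Fin (w u)) → ℕ) (S : K → (Σ u, Fin (w u)) → ℕ),
    Outline (N := Σ u, Fin (w u)) (K := K) (fun _ => 1) (fun a b => A a.1 b.1) X S κ ∧
    (∀ c a b, x c a.1 b.1 = 0 → X c a b = 0)

/-- Total colouring from an outline. -/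
def S_DT : Prop := ∀ {N K : Type} [Fintype N] [Fintype K] [DecidableEq N] (w : N → ℕ)
  (A : N → N → Prop) [DecidableRel A] (x : K → N → N → ℕ) (s : K → N → ℕ),
  (∀ u v, A u v → A v u) → (∀ u, 0 < w u) → Outline w A x s 1 →
  TCg (V := Σ u, Fin (w u)) (fun a b => a ≠ b ∧ A a.1 b.1) K

/-- Edge colouring from an outline (the colours only appear where the outline has them). -/
def S_DE : Prop := ∀ {N K : Type} [Fintype N] [Fintype K] [Nonempty K] [DecidableEq N] (w : N → ℕ)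
  (A : N → N → Prop) [DecidableRel A] (x : K → N → N → ℕ),
  (∀ u v, A u v → A v u) → (∀ u, 0 < w u) → Outline w A x (fun _ _ => 0) 0 →
  ∃ ce : (Σ u, Fin (w u)) → (Σ u, Fin (w u)) → K, (∀ a b, ce a b = ce b a) ∧
    (∀ a b c, a ≠ b → A a.1 b.1 → a ≠ c → A a.1 c.1 → b ≠ c → ce a b ≠ ce a c) ∧
    (∀ a b, a ≠ b → A a.1 b.1 → x (ce a b) a.1 b.1 ≠ 0)

end Pool.Agent.H301R2.HR
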