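import Pool.Agent.H301R2.HR.SP

set_option autoImplicit false

/-! Assembly of the existence part. -/

namespace Pool.Agent.H301R2.HR

open Finset

theorem sum_pos_card {p : ℕ} (a : Fin p → ℕ) : (univ.filter fun i => Odd (a i)).card =
    ∑ i, a i % 2 := by
  rw [Finset.card_filter]
  refine Finset.sum_congr rfl fun i _ => ?_
  by_cases h : Odd (a i)
  · rw [if_pos h]; exact (Nat.odd_iff.mp h).symm
  · rw [if_neg h]; rw [Nat.not_odd_iff_even] at h; exact (Nat.even_iff.mp h).symm

theorem fin_odd (h0 : S_C0) (h1 : S_C1) (hc : S_CONV) (p : ℕ) (a : Fin p → ℕ) (m : ℕ)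
    (hpos : ∀ i, 0 < a i) (hm : ∃ i, a i = m) (hle : ∀ i, m ≤ a i) (hodd : Odd (∑ i, a i)) :
    TotCol p a ((∑ i, a i) - m + 1) := by
  apply hc
  by_cases hp : p ≤ 1
  · exact h0 a _ (Nat.succ_pos _) (by simpa using hp)
  · refine h1 a m ?_ hm hle (by rw [Fintype.card_fin]; omega) (Or.inl hodd)
    obtain ⟨i, hi⟩ := hm
    rw [← hi]; exact hpos i

theorem fin_even (h0 : S_C0) (h1 : S_C1) (h2 : S_C2) (h3 : S_C3) (h4 : S_C4) (hc : S_CONV)
    (p : ℕ) (a : Fin p → ℕ) (m : ℕ)
    (hpos : ∀ i, 0 < a i) (hm : ∃ i, a i = m) (hle : ∀ i, m ≤ a i) (heven : Even (∑ i, a i))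
    (hnr : ¬ (p = 2 ∧ ∀ i j, a i = a j))
    (hD : (univ.filter fun i => Odd (a i)).card ≤ ∑ i, a i * (a i - m)) :
    TotCol p a ((∑ i, a i) - m + 1) := by
  apply hc
  have hm1 : 1 ≤ m := by
    obtain ⟨i, hi⟩ := hm
    rw [← hi]; exact hpos i
  rw [sum_pos_card] at hD
  by_cases hp : p ≤ 1
  · exact h0 a _ (Nat.succ_pos _) (by simpa using hp)
  have hp2 : 2 ≤ p := by omega
  by_cases hD2 : (∑ i, a i) - m ≤ ∑ i, a i * (a i - m)
  · exact h1 a m hm1 hm hle (by simpa using hp2) (Or.inr hD2)
  push Not at hD2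
  have hp3 : 3 ≤ p := by
    by_contra hcon
    have hp' : p = 2 := by omega
    subst hp'
    apply hnr
    refine ⟨rfl, ?_⟩
    rw [Fin.sum_univ_two, Fin.sum_univ_two] at hD2
    obtain ⟨i, hi⟩ := hm
    have e0 := hle 0
    have e1 := hle 1
    have key : a 0 = a 1 := by
      fin_cases i
      · simp only [Fin.zero_eta, Fin.isValue] at hi
        rw [hi] at hD2
        simp only [Fin.isValue, tsub_self, mul_zero, zero_add] at hD2
        have : m + a 1 - m = a 1 := by omega
        rw [this] at hD2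
        have h5 : a 1 - m = 0 := by
          by_contra h6
          have : 1 ≤ a 1 - m := by omega
          nlinarith
        omega
      · simp only [Fin.mk_one, Fin.isValue] at hi
        rw [hi] at hD2
        simp only [Fin.isValue, tsub_self, mul_zero, add_zero] at hD2
        have : a 0 + m - m = a 0 := by omega
        rw [this] at hD2
        have h5 : a 0 - m = 0 := by
          by_contra h6
          have : 1 ≤ a 0 - m := by omega
          nlinarith
        omega
    intro i j
    fin_cases i <;> fin_cases j <;> simp [key]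
  rcases Nat.lt_or_ge m 3 with hm3 | hm3
  · have : m = 1 ∨ m = 2 := by omega
    rcases this with rfl | rfl
    · have hs : (∑ i, a i) - 1 + 1 = ∑ i, a i := by
        have : 1 ≤ ∑ i, a i := by
          obtain ⟨i, hi⟩ := hm
          calc 1 = a i := hi.symm
            _ ≤ ∑ i, a i := Finset.single_le_sum (fun _ _ => Nat.zero_le _) (mem_univ i)
        omega
      rw [hs]
      exact h4 a hm hle heven hD hD2
    · have hs : (∑ i, a i) - 2 + 1 = (∑ i, a i) - 1 := by
        have : 2 ≤ ∑ i, a i := by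
          obtain ⟨i, hi⟩ := hm
          calc 2 = a i := hi.symm
            _ ≤ ∑ i, a i := Finset.single_le_sum (fun _ _ => Nat.zero_le _) (mem_univ i)
        omega
      rw [hs]
      exact h3 a hm hle (by simpa using hp3) heven hD2
  · exact h2 a m hm3 hm hle (by simpa using hp3) heven hD hD2

end Pool.Agent.H301R2.HR
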