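import Pool.Agent.H301R2.HR.Cases

set_option autoImplicit false

/-! Special classes: definitions and statements. -/

namespace Pool.Agent.H301R2.HR

open Finset

/-! ### The core family on `ZMod (2h+1)` -/

/-- the edge `uv` as a symmetric matrix -/
def dl {α : Type} [DecidableEq α] (u v x y : α) : ℤ :=
  (if x = u ∧ y = v then 1 else 0) + (if x = v ∧ y = u then 1 else 0)

/-- `a` copies of the reflection at `i` -/
def Bs {h : ℕ} (a : ℕ) (i x y : ZMod (2 * h + 1)) : ℤ :=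
  if x + y = 2 * i ∧ x ≠ y then a else 0

/-- the slot used by the pair `P, Q` (regular slot `t`) in the class `i` -/
def slt {h : ℕ} (P Q : ZMod (2 * h + 1)) (t : ℕ) (i : ZMod (2 * h + 1)) : ℕ :=
  if P = Q ∧ (i = P + t ∨ i = P - t) then (if t < h then t + 1 else 1) else t

/-- the two ends are interchanged -/
def swp {h : ℕ} (P Q : ZMod (2 * h + 1)) (t : ℕ) (i : ZMod (2 * h + 1)) : Prop :=
  P ≠ Q ∧ (i - t = P ∨ i + t = Q)

instance {h : ℕ} (P Q : ZMod (2 * h + 1)) (t : ℕ) (i : ZMod (2 * h + 1)) :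
    Decidable (swp P Q t i) := by unfold swp; infer_instance

/-- the vertex to which the unit of `P` is attached in the class `i` -/
def uu {h : ℕ} (P Q : ZMod (2 * h + 1)) (t : ℕ) (i : ZMod (2 * h + 1)) : ZMod (2 * h + 1) :=
  if swp P Q t i then i + slt P Q t i else i - slt P Q t i

/-- the vertex to which the unit of `Q` is attached in the class `i` -/
def vv {h : ℕ} (P Q : ZMod (2 * h + 1)) (t : ℕ) (i : ZMod (2 * h + 1)) : ZMod (2 * h + 1) :=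
  if swp P Q t i then i - slt P Q t i else i + slt P Q t i

/-- insertion of the pair of units `P, Q` in the class `i` -/
def INS {h : ℕ} (P Q : ZMod (2 * h + 1)) (t : ℕ) (i x y : ZMod (2 * h + 1)) : ℤ :=
  dl P (uu P Q t i) x y + dl Q (vv P Q t i) x y - dl (uu P Q t i) (vv P Q t i) x y

/-- the core family: pairs of units `P π, Q π`, `π : Fin N`, with slot `π + 1`, active if `act`. -/
def Fc {h N : ℕ} (a : ℕ) (P Q : Fin N → ZMod (2 * h + 1))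
    (act : ZMod (2 * h + 1) → Fin N → Bool) (i x y : ZMod (2 * h + 1)) : ℤ :=
  Bs a i x y + ∑ π, if act i π then INS (P π) (Q π) (π.val + 1) i x y else 0

/-- number of same-part pairs at `x` -/
def nS {α : Type} [DecidableEq α] {N : ℕ} (P Q : Fin N → α) (x : α) : ℕ :=
  (univ.filter fun π => P π = x ∧ Q π = x).card

/-- number of mixed pairs at `x` -/
def nM {α : Type} [DecidableEq α] {N : ℕ} (P Q : Fin N → α) (x : α) : ℕ :=
  (univ.filter fun π => P π ≠ Q π ∧ (P π = x ∨ Q π = x)).card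

/-- (A1) no collisions -/
def S_A1 : Prop := ∀ (h t : ℕ) (P Q i : ZMod (2 * h + 1)), 1 ≤ t → t ≤ h → (P = Q → 2 ≤ h) →
  P ≠ uu P Q t i ∧ Q ≠ vv P Q t i ∧ uu P Q t i ≠ vv P Q t i ∧ uu P Q t i + vv P Q t i = 2 * i

/-- (A3) symmetry, diagonal, degrees -/
def S_A3 : Prop := ∀ (h N a : ℕ) (P Q : Fin N → ZMod (2 * h + 1))
  (act : ZMod (2 * h + 1) → Fin N → Bool), N ≤ h → (∀ π, P π = Q π → 2 ≤ h) →
  (∀ i x y, Fc a P Q act i x y = Fc a P Q act i y x) ∧ (∀ i x, Fc a P Q act i x x = 0) ∧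
  (∀ i x, ∑ y, Fc a P Q act i x y = (if x = i then 0 else (a : ℤ)) +
    (univ.filter fun π => act i π ∧ P π = x).card + (univ.filter fun π => act i π ∧ Q π = x).card)

/-- (A4) positivity -/
def S_A4 : Prop := ∀ (h N a : ℕ) (P Q : Fin N → ZMod (2 * h + 1))
  (act : ZMod (2 * h + 1) → Fin N → Bool), N ≤ h → (∀ π, P π = Q π → 2 ≤ h) → 2 ≤ a →
  ∀ i x y, (if x + y = 2 * i ∧ x ≠ y then (a : ℤ) - 2 else 0) ≤ Fc a P Q act i x y

/-- (A5) the total multiplicity -/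
def S_A5 : Prop := ∀ (h N a : ℕ) (P Q : Fin N → ZMod (2 * h + 1))
  (act : ZMod (2 * h + 1) → Fin N → Bool), N ≤ h → (∀ π, P π = Q π → 2 ≤ h) →
  ∀ x y, x ≠ y → ∑ i, Fc a P Q act i x y ≤
    a + (3 * nS P Q x + 2 * nM P Q x : ℕ) + (3 * nS P Q y + 2 * nM P Q y : ℕ)

/-! ### Pairs of units -/

/-- pairing of the units: as many same-part pairs as possible -/
def S_PAIRS : Prop := ∀ {α : Type} [Fintype α] [DecidableEq α] (e : α → ℕ), Even (∑ x, e x) →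
  ∃ (N : ℕ) (P Q : Fin N → α), 2 * N = ∑ x, e x ∧ (∀ x, nS P Q x = e x / 2) ∧
    (∀ x, nM P Q x = e x % 2)

/-- the mate map of the odd positions -/
def S_MATE : Prop := ∀ {α : Type} [Fintype α] [DecidableEq α] (e : α → ℕ) (N : ℕ)
  (P Q : Fin N → α), (∀ x, nM P Q x = e x % 2) →
  ∃ ρ : α → α, (∀ x, e x % 2 = 0 → ρ x = x) ∧ (∀ x, ρ (ρ x) = x) ∧
    (∀ x, e x % 2 = 1 → ρ x ≠ x ∧ e (ρ x) % 2 = 1 ∧
      ∃ π, P π ≠ Q π ∧ ((P π = x ∧ Q π = ρ x) ∨ (P π = ρ x ∧ Q π = x)))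

/-! ### Special classes on `ZMod (2h+1)` (number of parts odd) -/

/-- what has to be constructed: special classes for parts of sizes `b`, total multiplicity bounded
through `C` -/
def Special {α : Type} [Fintype α] [DecidableEq α] (b : α → ℕ) (a : ℕ) (C : α → ℕ)
    (H : α → α → α → ℕ) : Prop :=
  (∀ i u v, H i u v = H i v u) ∧ (∀ i u, H i u u = 0) ∧
  (∀ i u, ∑ v, H i u v = if u = i then b u % 2 else b u) ∧
  (∀ u v, u ≠ v → ∑ i, H i u v ≤ a + 1 + C u + C v)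

/-- `cE e = 2 e + (e mod 2)` -/
def cE (e : ℕ) : ℕ := 2 * e + e % 2

/-- `a` even, number of parts odd -/
def S_SPoe : Prop := ∀ (h a : ℕ) (e : ZMod (2 * h + 1) → ℕ), 2 ≤ a → Even a → Even (∑ x, e x) →
  ∑ x, e x ≤ 2 * h → (2 ≤ h ∨ ∀ x, e x ≤ 1) →
  ∃ H, Special (fun x => a + e x) a (fun x => cE (e x)) H

/-- `a` odd, number of parts odd -/
def S_SPoo : Prop := ∀ (h a : ℕ) (e : ZMod (2 * h + 1) → ℕ), 2 ≤ a → Odd a → Odd (∑ x, e x) →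
  ∑ x, e x ≤ 2 * h → (2 ≤ h ∨ ∀ x, e x ≤ 1) →
  ∃ H, Special (fun x => a + e x) a (fun x => cE (e x)) H

/-! ### Special classes on `Option (ZMod (2h+1))` (number of parts even) -/

/-- choice of the edges `y-1, y+1` for the class at infinity -/
def S_YCH : Prop := ∀ (h N : ℕ) (P Q : Fin N → ZMod (2 * h + 1)), 1 ≤ h → N ≤ h →
  (∀ π, P π = Q π → 2 ≤ h) →
  ∃ y : Fin N → ZMod (2 * h + 1), Function.Injective y ∧
    ∀ π, P π = Q π → (P π ≠ y π - 1 ∧ P π ≠ y π + 1)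

/-- the class at infinity on the positions: all positions have degree `a` plus all their units
(`κ = 0`: `a` even; `κ = 1`: `a` odd and the position `0` has one unit less) -/
def S_CLI : Prop := ∀ (h N a : ℕ) (P Q : Fin N → ZMod (2 * h + 1)), 1 ≤ h → N ≤ h → 2 ≤ a →
  (∀ π, P π = Q π → 2 ≤ h) →
  ∃ G : ZMod (2 * h + 1) → ZMod (2 * h + 1) → ℕ, (∀ x y, G x y = G y x) ∧ (∀ x, G x x = 0) ∧
    (∀ x, ∑ y, G x y + (if x = 0 then a % 2 else 0) = a + 2 * nS P Q x + nM P Q x) ∧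
    (∀ x y, x ≠ y → G x y ≤ (if x = y + 2 ∨ y = x + 2 then a / 2 else 0) + a % 2 +
      (nS P Q x + nM P Q x) + (nS P Q y + nM P Q y))

/-- `a` even, number of parts even, infinity is a part of size `a` (or `e = 0` and `b` even) -/
def S_SPee : Prop := ∀ (h a b : ℕ) (e : ZMod (2 * h + 1) → ℕ), 1 ≤ h → 3 ≤ a → Even a →
  Even b → Even (∑ x, e x) → ∑ x, e x ≤ 2 * h → (2 ≤ h ∨ ∀ x, e x ≤ 1) →
  (b = a ∨ (b = a + 2 ∧ h = 1 ∧ ∀ x, e x = 0)) →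
  ∃ H, Special (fun x : Option (ZMod (2 * h + 1)) => x.elim b (fun x => a + e x)) a
    (fun x => x.elim (cE (b - a)) (fun x => cE (e x))) H

/-- `a` odd, number of parts even, infinity is a part of size `a` (or `e = 0` and `b` odd) -/
def S_SPeo : Prop := ∀ (h a b : ℕ) (e : ZMod (2 * h + 1) → ℕ), 1 ≤ h → 3 ≤ a → Odd a →
  Odd b → Even (∑ x, e x) → ∑ x, e x ≤ 2 * h → (2 ≤ h ∨ ∀ x, e x ≤ 1) →
  (b = a ∨ (b = a + 2 ∧ h = 1 ∧ ∀ x, e x = 0)) →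
  ∃ H, Special (fun x : Option (ZMod (2 * h + 1)) => x.elim b (fun x => a + e x)) a
    (fun x => x.elim (cE (b - a)) (fun x => cE (e x))) H

/-- transport -/
def S_SPT : Prop := ∀ {α β : Type} [Fintype α] [DecidableEq α] [Fintype β] [DecidableEq β]
  (E : α ≃ β) (b : β → ℕ) (a : ℕ) (C : β → ℕ) (H : β → β → β → ℕ), Special b a C H →
  ∃ H', Special (fun x => b (E x)) a (fun x => C (E x)) H'

/-- special classes in general -/
def S_SP : Prop := ∀ {ι : Type} [Fintype ι] [DecidableEq ι] (a : ι → ℕ) (a₀ : ℕ), 3 ≤ a₀ →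
  (∃ i, a i = a₀) → (∀ i, a₀ ≤ a i) → 3 ≤ Fintype.card ι → Even (∑ i, a i) →
  ∑ i, a i * (a i - a₀) < (∑ i, a i) - a₀ →
  ∃ H, Special a a₀ (fun i => cE (a i - a₀)) H

/-! ### The flow (case 2) -/

/-- elementary consequences of small deficiency: with `e i = a i - a₀`, `E = ∑ e`, `p` parts:
`E + 2 ≤ p`, and if `a₀` is odd then at most half of the odd parts are not minimal -/
def S_SMALL : Prop := ∀ {ι : Type} [Fintype ι] [DecidableEq ι] (a : ι → ℕ) (a₀ : ℕ), 2 ≤ a₀ →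
  (∃ i, a i = a₀) → (∀ i, a₀ ≤ a i) →
  ∑ i, a i * (a i - a₀) < (∑ i, a i) - a₀ →
  (∑ i, (a i - a₀)) + 2 ≤ Fintype.card ι ∧
  (Odd a₀ → 2 * (univ.filter fun i => a i % 2 = 1 ∧ a i ≠ a₀).card ≤
    (univ.filter fun i => a i % 2 = 1).card)

/-- choice of signs -/
def S_EPS : Prop := ∀ {ι : Type} [Fintype ι] [DecidableEq ι] (a : ι → ℕ) (B : Finset ι),
  Even (∑ i, a i) → (∀ i ∈ B, a i % 2 = 1) →
  2 * B.card ≤ (univ.filter fun i => a i % 2 = 1).card →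
  ∃ ε : ι → ℤ, (∀ i, Even ((a i : ℤ) + ε i)) ∧ (∀ i, -1 ≤ ε i ∧ ε i ≤ 1) ∧ ∑ i, ε i = 0 ∧
    (∀ i ∈ B, ε i = -1)

/-- the capacity inequality for one pair (`A` minimum, `p` number of parts, `E` total excess,
`n = p A + E`, `m = (A-1)(p-1) + E`, net outflows `m ε + τ - (size mod 2)`) -/
def CapIneq (A p E x y : ℕ) (ε₁ ε₂ : ℤ) (τ₁ τ₂ : ℚ) : Prop :=
  |((A : ℚ) + y) * ((((A : ℚ) - 1) * (p - 1) + E) * ε₁ + τ₁ - ((A + x) % 2 : ℕ)) -
    ((A : ℚ) + x) * ((((A : ℚ) - 1) * (p - 1) + E) * ε₂ + τ₂ - ((A + y) % 2 : ℕ))| ≤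
  ((p : ℚ) * A + E) * (((A : ℚ) + x) * (A + y) - (A + 1 + cE x + cE y : ℕ))

def S_CAPIo : Prop := ∀ (A p E x y : ℕ) (ε₁ ε₂ : ℤ) (τ₁ τ₂ : ℚ), Odd A → 3 ≤ A → E + 2 ≤ p →
  Even (((A + x : ℕ) : ℤ) + ε₁) → -1 ≤ ε₁ → ε₁ ≤ 1 →
  Even (((A + y : ℕ) : ℤ) + ε₂) → -1 ≤ ε₂ → ε₂ ≤ 1 →
  (0 < x → ε₁ ≤ 0) → (0 < y → ε₂ ≤ 0) →
  0 ≤ τ₁ → τ₁ ≤ p → (x = 0 → τ₁ = 0) → 0 ≤ τ₂ → τ₂ ≤ p → (y = 0 → τ₂ = 0) →
  CapIneq A p E x y ε₁ ε₂ τ₁ τ₂

def S_CAPIe : Prop := ∀ (A p E x y : ℕ) (ε₁ ε₂ : ℤ) (τ₁ τ₂ : ℚ), Even A → 4 ≤ A → E + 2 ≤ p →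
  Even (((A + x : ℕ) : ℤ) + ε₁) → -1 ≤ ε₁ → ε₁ ≤ 1 →
  Even (((A + y : ℕ) : ℤ) + ε₂) → -1 ≤ ε₂ → ε₂ ≤ 1 →
  0 ≤ τ₁ → τ₁ ≤ p → (x = 0 → τ₁ = 0) → 0 ≤ τ₂ → τ₂ ≤ p → (y = 0 → τ₂ = 0) →
  CapIneq A p E x y ε₁ ε₂ τ₁ τ₂

/-! ### Case 3: minimum two -/

/-- the indicator of the positions `± 1, …, ± s` (for `s ≤ h`) -/
def tt (h s : ℕ) (u : ZMod (2 * h + 1)) : ℕ :=
  ((Finset.Icc 1 s).filter fun t : ℕ => u = (t : ZMod (2 * h + 1)) ∨ u = -(t : ZMod (2 * h + 1))).card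

/-- special classes for parts of sizes `2` and `3`, odd number of parts -/
def S_SP2o : Prop := ∀ (h s : ℕ), 1 ≤ h → s ≤ h →
  ∃ H : ZMod (2 * h + 1) → ZMod (2 * h + 1) → ZMod (2 * h + 1) → ℕ,
    (∀ i u v, H i u v = H i v u) ∧ (∀ i u, H i u u = 0) ∧
    (∀ i u, ∑ v, H i u v = if u = i then tt h s u else 2 + tt h s u) ∧
    (∀ u v, u ≠ v → ∑ i, H i u v ≤ 4 + tt h s u * tt h s v)

/-- special classes for parts of sizes `2` and `3`, even number of parts -/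
def S_SP2e : Prop := ∀ (h s : ℕ), 1 ≤ h → s ≤ h → (2 ≤ h ∨ s = 0) →
  ∃ H : Option (ZMod (2 * h + 1)) → Option (ZMod (2 * h + 1)) → Option (ZMod (2 * h + 1)) → ℕ,
    (∀ i u v, H i u v = H i v u) ∧ (∀ i u, H i u u = 0) ∧
    (∀ i u, ∑ v, H i u v = if u = i then u.elim 0 (tt h s) else 2 + u.elim 0 (tt h s)) ∧
    (∀ u v, u ≠ v → ∑ i, H i u v ≤ 4 + u.elim 0 (tt h s) * v.elim 0 (tt h s))

/-- special classes for parts `2, 3` in general, except `2, 2, 3, 3` -/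
def S_SP2 : Prop := ∀ {ι : Type} [Fintype ι] [DecidableEq ι] (a : ι → ℕ),
  (∀ i, a i = 2 ∨ a i = 3) → 2 ≤ (univ.filter fun i => a i = 2).card → 3 ≤ Fintype.card ι →
  Even (∑ i, a i) → ¬ (Fintype.card ι = 4 ∧ ∑ i, a i = 10) →
  ∃ H : ι → ι → ι → ℕ, (∀ i u v, H i u v = H i v u) ∧ (∀ i u, H i u u = 0) ∧
    (∀ i u, ∑ v, H i u v = if u = i then a u % 2 else a u) ∧
    (∀ u v, u ≠ v → ∑ i, H i u v ≤ 4 + (a u % 2) * (a v % 2))

/-- the graph `K(2,2,3,3)` -/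
def S_2233 : Prop := ∀ {ι : Type} [Fintype ι] [DecidableEq ι] (a : ι → ℕ),
  (∀ i, a i = 2 ∨ a i = 3) → Fintype.card ι = 4 → ∑ i, a i = 10 → TCm a (Fin 9)

/-- parts of sizes `2` and `3` (at least two parts of size two) -/
def S_C3a : Prop := ∀ {ι : Type} [Fintype ι] [DecidableEq ι] (a : ι → ℕ),
  (∀ i, a i = 2 ∨ a i = 3) → 2 ≤ (univ.filter fun i => a i = 2).card → 3 ≤ Fintype.card ι →
  Even (∑ i, a i) → TCm a (Fin ((∑ i, a i) - 1))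

/-- splitting a part into two parts -/
def S_REF : Prop := ∀ {ι K : Type} [DecidableEq ι] (a : ι → ℕ) (j : ι) (x : ℕ), x ≤ a j →
  TCm (fun o : Option ι => o.elim x (fun i => if i = j then a i - x else a i)) K → TCm a K

/-! ### Case 4: minimum one -/

/-- the inequalities for the star flow; `r` singletons, `B` the other parts -/
def S_C4I : Prop := ∀ {B : Type} [Fintype B] [DecidableEq B] (b : B → ℕ) (r : ℕ), 1 ≤ r →
  (∀ j, 2 ≤ b j) → Nonempty B → Even (r + ∑ j, b j) →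
  r + ∑ j, b j % 2 ≤ ∑ j, b j * (b j - 1) → ∑ j, b j * (b j - 1) + 1 < r + ∑ j, b j →
  ((∑ j, b j * (b j - 1)) < r + ∑ j, b j % 2 + 4 ∨ ∀ j, 3 ≤ b j) →
  (∀ j, ∑ l, b l + b j % 2 ≤ r + b j) ∧ Fintype.card B ≤ r ∧
  (∑ j, (r + b j - ∑ l, b l - b j % 2) ≤ r * (r - 1)) ∧
  (∀ j, b j % 2 = 0 → b j * (b j - 1) ≤ (r + 1 - Fintype.card B) * b j) ∧
  (∀ j, b j % 2 = 1 → r + ∑ l, b l + 2 ≤ (r + 1 - Fintype.card B) * b j + Fintype.card B ∧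
    b j * (b j - 1) ≤ (r + 1 - Fintype.card B) * b j + (r + ∑ l, b l - Fintype.card B)) ∧
  (∀ j l, j ≠ l → b j % 2 = 1 → b l % 2 = 1 →
    r + ∑ i, b i + b j * (b j - 1) ≤ (r + 1 - Fintype.card B) * b j + Fintype.card B)

/-- minimum one, from the inequalities above: the colouring on the blow-up of the complete node
`none` of weight `r` and the nodes `j : B` -/
def S_C4G : Prop := ∀ {B : Type} [Fintype B] [DecidableEq B] (b : B → ℕ) (r : ℕ), 1 ≤ r →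
  (∀ j, 2 ≤ b j) → Nonempty B → Even (r + ∑ j, b j) →
  r + ∑ j, b j % 2 ≤ ∑ j, b j * (b j - 1) → ∑ j, b j * (b j - 1) + 1 < r + ∑ j, b j →
  ((∑ j, b j * (b j - 1)) < r + ∑ j, b j % 2 + 4 ∨ ∀ j, 3 ≤ b j) →
  TCg (V := Σ u : Option B, Fin (u.elim r b)) (fun x y => x ≠ y ∧ (x.1 ≠ y.1 ∨ x.1 = none))
    (B ⊕ Fin (r + ∑ j, b j - Fintype.card B))

/-- minimum one, after the refinement -/
def S_C4a : Prop := ∀ {ι : Type} [Fintype ι] [DecidableEq ι] (a : ι → ℕ),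
  (∃ i, a i = 1) → (∀ i, 1 ≤ a i) → Even (∑ i, a i) →
  ∑ i, a i % 2 ≤ ∑ i, a i * (a i - 1) → ∑ i, a i * (a i - 1) < (∑ i, a i) - 1 →
  (∑ i, a i * (a i - 1) < ∑ i, a i % 2 + 4 ∨ ∀ i, a i ≠ 2) →
  TCm a (Fin (∑ i, a i))

end Pool.Agent.H301R2.HR
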