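import Pool.Agent.H301R2.HR.SP

set_option autoImplicit false

/-! The graph `K(2,2,3,3)`. -/

namespace Pool.Agent.H301R2.HR

open Finset

/-- the special classes -/
def H2233 : Fin 4 → Fin 4 → Fin 4 → ℕ :=
  ![![![0, 0, 0, 0], ![0, 0, 1, 1], ![0, 1, 0, 2], ![0, 1, 2, 0]],
    ![![0, 0, 1, 1], ![0, 0, 0, 0], ![1, 0, 0, 2], ![1, 0, 2, 0]],
    ![![0, 1, 0, 1], ![1, 0, 0, 1], ![0, 0, 0, 1], ![1, 1, 1, 0]],
    ![![0, 1, 1, 0], ![1, 0, 1, 0], ![1, 1, 0, 1], ![0, 0, 1, 0]]]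

/-- the flow -/
def f2233 : Fin 4 → Fin 4 → ℤ :=
  ![![0, 0, -1, 1], ![0, 0, -1, 1], ![1, 1, 0, 3], ![-1, -1, -3, 0]]

theorem tc2233 (h1 : S_ASM) (h2 : S_CARD) : TCm (![2, 2, 3, 3] : Fin 4 → ℕ) (Fin 9) := by
  refine h2 (K := Fin 4 ⊕ Fin 5) _ 9 (by simp) ?_
  refine h1 (![2, 2, 3, 3] : Fin 4 → ℕ) 2 5 H2233 ![0, 0, 1, -1] (fun u v => (f2233 u v : ℚ))
    (by norm_num) (by decide) (by norm_num) (by decide) (by decide) (by decide) (by decide)
    (by decide) (by decide) ?_ ?_ ?_ (by decide)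
  · have h : ∀ u v, f2233 u v = - f2233 v u := by decide
    intro u v
    have := h u v
    push_cast [this]
    rfl
  · have h : ∀ u v, u ≠ v → |f2233 u v| + ∑ i, (H2233 i u v : ℤ) ≤
        ((![2, 2, 3, 3] : Fin 4 → ℕ) u : ℤ) * ((![2, 2, 3, 3] : Fin 4 → ℕ) v : ℤ) := by decide
    intro u v huv
    have := h u v huv
    exact_mod_cast this
  · have h : ∀ u, |∑ v, f2233 u v + (((![2, 2, 3, 3] : Fin 4 → ℕ) u % 2 : ℕ) : ℤ) -
        5 * (![0, 0, 1, -1] : Fin 4 → ℤ) u| ≤ ((![2, 2, 3, 3] : Fin 4 → ℕ) u : ℤ) *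
          (((![2, 2, 3, 3] : Fin 4 → ℕ) u : ℤ) - 2) := by decide
    intro u
    have h2 := Int.cast_le (R := ℚ).2 (h u)
    push_cast at h2 ⊢
    exact h2

theorem T_2233 (h1 : S_ASM) (h2 : S_CARD) (h3 : S_EQV) : S_2233 := by
  intro ι _ _ a ha hc hs
  obtain ⟨e0⟩ : Nonempty (Fin 4 ≃ ι) := ⟨(Fintype.equivFinOfCardEq hc).symm⟩
  have hmono := Tuple.monotone_sort (fun i => a (e0 i))
  set e : Fin 4 ≃ ι := (Tuple.sort (fun i => a (e0 i))).trans e0 with he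
  refine h3 e a ?_
  have hsum : ∑ i, a (e i) = 10 := by rw [Equiv.sum_comp e a, hs]
  have hm : Monotone fun i => a (e i) := hmono
  have h01 := hm (show (0 : Fin 4) ≤ 1 by decide)
  have h12 := hm (show (1 : Fin 4) ≤ 2 by decide)
  have h23 := hm (show (2 : Fin 4) ≤ 3 by decide)
  simp only at h01 h12 h23
  have k0 := ha (e 0)
  have k1 := ha (e 1)
  have k2 := ha (e 2)
  have k3 := ha (e 3)
  rw [Fin.sum_univ_four] at hsum
  have heq : (fun i => a (e i)) = ![2, 2, 3, 3] := by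
    funext i
    fin_cases i
    · simp; omega
    · simp; omega
    · simp; omega
    · simp; omega
  rw [heq]
  exact tc2233 h1 h2

end Pool.Agent.H301R2.HR
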