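import Pool.Agent.H301R2.HR.SP

set_option autoImplicit false

/-! A1: no collisions (helper617). -/

namespace Pool.Agent.H301R2.HR

open Finset

namespace A1

theorem cast_inj {h x y : ℕ} (hx : x ≤ h) (hy : y ≤ h) (e : (x : ZMod (2 * h + 1)) = y) :
    x = y := by
  rw [ZMod.natCast_eq_natCast_iff', Nat.mod_eq_of_lt (by omega), Nat.mod_eq_of_lt (by omega)] at e
  exact e

theorem add_ne {h x y : ℕ} (hx : 1 ≤ x) (hx' : x ≤ h) (hy' : y ≤ h) :
    (x : ZMod (2 * h + 1)) + y ≠ 0 := by
  intro e
  rw [← Nat.cast_add, ZMod.natCast_eq_zero_iff] at e
  have := Nat.le_of_dvd (by omega) e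
  omega

theorem pm_ne {h s : ℕ} (i : ZMod (2 * h + 1)) (h1 : 1 ≤ s) (h2 : s ≤ h) :
    i + (s : ZMod (2 * h + 1)) ≠ i - s := by
  intro e
  apply add_ne h1 h2 h2
  linear_combination e

end A1

open A1 in
theorem T_A1 : S_A1 := by
  intro h t P Q i h1 h2 hPQ
  have hs : 1 ≤ slt P Q t i ∧ slt P Q t i ≤ h := by
    unfold slt
    split_ifs <;> omega
  have hpm := pm_ne i hs.1 hs.2
  have hpt := pm_ne i h1 h2
  by_cases e : P = Q
  · have hsw : ¬ swp P Q t i := fun hw => hw.1 e
    have key : P ≠ i - slt P Q t i ∧ P ≠ i + slt P Q t i := by
      by_cases hex : i = P + t ∨ i = P - t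
      · have hst : slt P Q t i ≠ t := by
          unfold slt
          rw [if_pos ⟨e, hex⟩]
          have := hPQ e
          split_ifs <;> omega
        rcases hex with hex | hex
        · constructor
          · intro h3
            apply hst
            apply cast_inj hs.2 h2
            linear_combination h3 + hex
          · intro h3
            apply add_ne hs.1 hs.2 h2
            linear_combination -h3 - hex
        · constructor
          · intro h3
            apply add_ne hs.1 hs.2 h2
            linear_combination h3 + hex
          · intro h3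
            apply hst
            apply cast_inj hs.2 h2
            linear_combination -h3 - hex
      · have hst : slt P Q t i = t := by
          unfold slt
          rw [if_neg (fun hh => hex hh.2)]
        rw [hst]
        constructor
        · intro h3
          exact hex (Or.inl (by linear_combination -h3))
        · intro h3
          exact hex (Or.inr (by linear_combination -h3))
    unfold uu vv
    rw [if_neg hsw, if_neg hsw]
    refine ⟨key.1, e ▸ key.2, hpm.symm, by ring⟩
  · have hst : slt P Q t i = t := by
      unfold slt
      rw [if_neg (fun hh => e hh.1)]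
    by_cases hsw : swp P Q t i
    · unfold uu vv
      rw [if_pos hsw, if_pos hsw, hst]
      refine ⟨?_, ?_, hpt, by ring⟩
      · intro h3
        rcases hsw.2 with h4 | h4
        · exact hpt (h3.symm.trans h4.symm)
        · exact e (h3.trans h4)
      · intro h3
        rcases hsw.2 with h4 | h4
        · exact e (h4.symm.trans h3.symm)
        · exact hpt (h4.trans h3)
    · unfold uu vv
      rw [if_neg hsw, if_neg hsw, hst]
      refine ⟨?_, ?_, hpt.symm, by ring⟩
      · intro h3
        exact hsw ⟨e, Or.inl h3.symm⟩
      · intro h3
        exact hsw ⟨e, Or.inr h3.symm⟩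

end Pool.Agent.H301R2.HR
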