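import Pool.Agent.H301R2.HR.SP

set_option autoImplicit false

/-! Symmetry, diagonal and degrees of the core family (helper642). -/

namespace Pool.Agent.H301R2.HR

open Finset

namespace A3aux

theorem dl_symm {α : Type} [DecidableEq α] (u v x y : α) : dl u v x y = dl u v y x := by
  unfold dl
  rw [add_comm]
  congr 1 <;> congr 1 <;> exact propext ⟨fun h => ⟨h.2, h.1⟩, fun h => ⟨h.2, h.1⟩⟩

theorem dl_diag {α : Type} [DecidableEq α] (u v x : α) (h : u ≠ v) : dl u v x x = 0 := by
  unfold dl
  rw [if_neg, if_neg, add_zero]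
  · rintro ⟨h1, h2⟩
    exact h (h2.symm.trans h1)
  · rintro ⟨h1, h2⟩
    exact h (h1.symm.trans h2)

theorem dl_sum {α : Type} [Fintype α] [DecidableEq α] (u v x : α) :
    ∑ y, dl u v x y = (if x = u then 1 else 0) + (if x = v then 1 else 0) := by
  unfold dl
  rw [Finset.sum_add_distrib]
  congr 1
  · by_cases h : x = u
    · simp [h]
    · simp [h]
  · by_cases h : x = v
    · simp [h]
    · simp [h]

theorem two_inj {h : ℕ} (x y : ZMod (2 * h + 1)) (hxy : x + x = y + y) : x = y := by
  have h2 : IsUnit ((2 : ℕ) : ZMod (2 * h + 1)) := by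
    rw [ZMod.isUnit_iff_coprime]
    rw [Nat.coprime_mul_left_add_right]
    exact Nat.coprime_one_right 2
  have h3 : ((2 : ℕ) : ZMod (2 * h + 1)) * x = ((2 : ℕ) : ZMod (2 * h + 1)) * y := by
    push_cast
    linear_combination hxy
  exact h2.mul_left_cancel h3

theorem Bs_symm {h : ℕ} (a : ℕ) (i x y : ZMod (2 * h + 1)) : Bs a i x y = Bs a i y x := by
  unfold Bs
  congr 1
  exact propext ⟨fun h => ⟨(add_comm y x).trans h.1, h.2.symm⟩,
    fun h => ⟨(add_comm x y).trans h.1, h.2.symm⟩⟩

theorem Bs_diag {h : ℕ} (a : ℕ) (i x : ZMod (2 * h + 1)) : Bs a i x x = 0 := by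
  unfold Bs
  rw [if_neg]
  rintro ⟨_, h2⟩
  exact h2 rfl

theorem Bs_sum {h : ℕ} (a : ℕ) (i x : ZMod (2 * h + 1)) :
    ∑ y, Bs a i x y = if x = i then 0 else (a : ℤ) := by
  unfold Bs
  by_cases hx : x = i
  · rw [if_pos hx]
    refine Finset.sum_eq_zero fun y _ => ?_
    rw [if_neg]
    rintro ⟨h1, h2⟩
    apply h2
    rw [hx] at h1
    rw [hx]
    linear_combination -h1
  · rw [if_neg hx, Finset.sum_eq_single (2 * i - x)]
    · rw [if_pos]
      refine ⟨by ring, ?_⟩
      intro h1
      apply hx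
      apply two_inj
      nth_rewrite 2 [h1]
      ring
    · intro y _ hy
      rw [if_neg]
      rintro ⟨h1, _⟩
      apply hy
      rw [← h1]
      ring
    · intro h1
      exact absurd (Finset.mem_univ _) h1

theorem INS_symm {h : ℕ} (P Q : ZMod (2 * h + 1)) (t : ℕ) (i x y : ZMod (2 * h + 1)) :
    INS P Q t i x y = INS P Q t i y x := by
  unfold INS
  rw [dl_symm P, dl_symm Q, dl_symm (uu P Q t i)]

theorem INS_sum {h : ℕ} (P Q : ZMod (2 * h + 1)) (t : ℕ) (i x : ZMod (2 * h + 1)) :
    ∑ y, INS P Q t i x y = (if x = P then 1 else 0) + (if x = Q then 1 else 0) := by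
  unfold INS
  rw [Finset.sum_sub_distrib, Finset.sum_add_distrib, dl_sum, dl_sum, dl_sum]
  ring

end A3aux

open A3aux

theorem T_A3 (h1 : S_A1) : S_A3 := by
  intro h N a P Q act hN hPQ
  refine ⟨?_, ?_, ?_⟩
  · intro i x y
    unfold Fc
    rw [Bs_symm]
    congr 1
    refine Finset.sum_congr rfl fun π _ => ?_
    rw [INS_symm]
  · intro i x
    unfold Fc
    rw [Bs_diag, zero_add]
    refine Finset.sum_eq_zero fun π _ => ?_
    have hπ := π.2
    obtain ⟨e1, e2, e3, -⟩ := h1 h (π.val + 1) (P π) (Q π) i (by omega) (by omega) (hPQ π)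
    have : INS (P π) (Q π) (π.val + 1) i x x = 0 := by
      unfold INS
      rw [dl_diag _ _ _ e1, dl_diag _ _ _ e2, dl_diag _ _ _ e3]
      ring
    rw [this, ite_self]
  · intro i x
    unfold Fc
    rw [Finset.sum_add_distrib, Bs_sum, Finset.sum_comm, add_assoc]
    congr 1
    have e1 : ∀ π : Fin N, (∑ y, if act i π = true then INS (P π) (Q π) (π.val + 1) i x y else 0) =
        (if act i π = true ∧ P π = x then 1 else 0) + (if act i π = true ∧ Q π = x then 1 else 0) := by
      intro π
      by_cases hact : act i π = true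
      · simp only [hact, if_true, true_and]
        rw [INS_sum]
        congr 1 <;> congr 1 <;> exact propext eq_comm
      · simp [hact]
    rw [Finset.sum_congr rfl fun π _ => e1 π, Finset.sum_add_distrib, Finset.sum_boole,
      Finset.sum_boole]

end Pool.Agent.H301R2.HR
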