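import Pool.Agent.H301R2.HR.SP

/-! Task A4 (helper954): positivity of the core family. -/

set_option autoImplicit false

namespace Pool.Agent.H301R2.HR

open Finset

namespace TaskA4

theorem dl_nonneg {α : Type} [DecidableEq α] (u v x y : α) : 0 ≤ dl u v x y := by
  unfold dl
  split_ifs <;> norm_num

theorem dl_le {α : Type} [DecidableEq α] (u v x y : α) (h : u ≠ v) :
    dl u v x y ≤ if (x = u ∧ y = v) ∨ (x = v ∧ y = u) then 1 else 0 := by
  unfold dl
  by_cases h1 : x = u ∧ y = v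
  · have h2 : ¬ (x = v ∧ y = u) := by
      rintro ⟨h3, h4⟩
      exact h (h1.1.symm.trans h3)
    rw [if_pos h1, if_neg h2, if_pos (Or.inl h1)]
    norm_num
  · by_cases h2 : x = v ∧ y = u
    · rw [if_neg h1, if_pos h2, if_pos (Or.inr h2)]
      norm_num
    · rw [if_neg h1, if_neg h2, if_neg (by tauto)]
      norm_num

theorem slt_range {h : ℕ} (P Q : ZMod (2 * h + 1)) (t : ℕ) (i : ZMod (2 * h + 1)) (h1 : 1 ≤ t)
    (h2 : t ≤ h) : 1 ≤ slt P Q t i ∧ slt P Q t i ≤ h := by
  unfold slt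
  split_ifs <;> omega

theorem slt_or {h : ℕ} (P Q : ZMod (2 * h + 1)) (t : ℕ) (i : ZMod (2 * h + 1)) :
    slt P Q t i = t ∨ slt P Q t i = (if t < h then t + 1 else 1) := by
  unfold slt
  by_cases hc : P = Q ∧ (i = P + t ∨ i = P - t)
  · rw [if_pos hc]; exact Or.inr rfl
  · rw [if_neg hc]; exact Or.inl rfl

theorem uv_or {h : ℕ} (P Q : ZMod (2 * h + 1)) (t : ℕ) (i : ZMod (2 * h + 1)) :
    (uu P Q t i = i + slt P Q t i ∧ vv P Q t i = i - slt P Q t i) ∨
    (uu P Q t i = i - slt P Q t i ∧ vv P Q t i = i + slt P Q t i) := by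
  unfold uu vv
  by_cases hc : swp P Q t i
  · rw [if_pos hc, if_pos hc]; exact Or.inl ⟨rfl, rfl⟩
  · rw [if_neg hc, if_neg hc]; exact Or.inr ⟨rfl, rfl⟩

theorem slot_eq {h s s' : ℕ} (h1 : 1 ≤ s) (h2 : s ≤ h) (h1' : 1 ≤ s') (h2' : s' ≤ h)
    (he : (s : ZMod (2 * h + 1)) = s' ∨ (s : ZMod (2 * h + 1)) = -s') : s = s' := by
  rcases he with he | he
  · rw [ZMod.natCast_eq_natCast_iff'] at he
    rw [Nat.mod_eq_of_lt (by omega), Nat.mod_eq_of_lt (by omega)] at he
    exact he
  · exfalso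
    have h3 : ((s + s' : ℕ) : ZMod (2 * h + 1)) = 0 := by
      push_cast
      rw [he]; ring
    rw [ZMod.natCast_eq_zero_iff] at h3
    have := Nat.le_of_dvd (by omega) h3
    omega

/-- matching -/
def Mt {h : ℕ} (P Q : ZMod (2 * h + 1)) (t : ℕ) (i x y : ZMod (2 * h + 1)) : Prop :=
  (x = uu P Q t i ∧ y = vv P Q t i) ∨ (x = vv P Q t i ∧ y = uu P Q t i)

instance {h : ℕ} (P Q : ZMod (2 * h + 1)) (t : ℕ) (i x y : ZMod (2 * h + 1)) :
    Decidable (Mt P Q t i x y) := by unfold Mt; infer_instance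

theorem Mt_pm {h : ℕ} (P Q : ZMod (2 * h + 1)) (t : ℕ) (i x y : ZMod (2 * h + 1))
    (hm : Mt P Q t i x y) : x = i + slt P Q t i ∨ x = i - slt P Q t i := by
  unfold Mt at hm
  rcases uv_or P Q t i with ⟨e1, e2⟩ | ⟨e1, e2⟩ <;> rw [e1, e2] at hm <;> tauto

theorem slt_unique {h : ℕ} (P Q P' Q' : ZMod (2 * h + 1)) (t t' : ℕ) (i x y : ZMod (2 * h + 1))
    (h1 : 1 ≤ t) (h2 : t ≤ h) (h1' : 1 ≤ t') (h2' : t' ≤ h)
    (hm : Mt P Q t i x y) (hm' : Mt P' Q' t' i x y) : slt P Q t i = slt P' Q' t' i := by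
  obtain ⟨a1, a2⟩ := slt_range P Q t i h1 h2
  obtain ⟨b1, b2⟩ := slt_range P' Q' t' i h1' h2'
  apply slot_eq a1 a2 b1 b2
  rcases Mt_pm P Q t i x y hm with e | e <;> rcases Mt_pm P' Q' t' i x y hm' with e' | e'
  · left; exact add_left_cancel (e.symm.trans e')
  · right
    have := e.symm.trans e'
    rw [sub_eq_add_neg] at this
    exact add_left_cancel this
  · right
    have := e.symm.trans e'
    rw [sub_eq_add_neg] at this
    have := add_left_cancel this
    rw [← this, neg_neg]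
  · left
    have := e.symm.trans e'
    rw [sub_eq_add_neg, sub_eq_add_neg] at this
    exact neg_injective (add_left_cancel this)

theorem card_Mt {h N : ℕ} (P Q : Fin N → ZMod (2 * h + 1)) (hN : N ≤ h)
    (i x y : ZMod (2 * h + 1)) :
    (univ.filter fun π : Fin N => Mt (P π) (Q π) (π.val + 1) i x y).card ≤ 2 := by
  rcases (univ.filter fun π : Fin N => Mt (P π) (Q π) (π.val + 1) i x y).eq_empty_or_nonempty
    with he | ⟨π₀, hπ₀⟩
  · rw [he]; simp
  · rw [mem_filter] at hπ₀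
    obtain ⟨s₀, hs₀⟩ : ∃ s₀, s₀ = slt (P π₀) (Q π₀) (π₀.val + 1) i := ⟨_, rfl⟩
    have hsub : (univ.filter fun π : Fin N => Mt (P π) (Q π) (π.val + 1) i x y) ⊆
        (univ.filter fun π : Fin N => π.val + 1 = s₀) ∪
        (univ.filter fun π : Fin N => (if π.val + 1 < h then π.val + 1 + 1 else 1) = s₀) := by
      intro π hπ
      rw [mem_filter] at hπ
      have hl := π.2
      have hl₀ := π₀.2
      have hu := slt_unique (P π) (Q π) (P π₀) (Q π₀) (π.val + 1) (π₀.val + 1) i x y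
        (by omega) (by omega) (by omega) (by omega) hπ.2 hπ₀.2
      rw [← hs₀] at hu
      rw [mem_union, mem_filter, mem_filter]
      rcases slt_or (P π) (Q π) (π.val + 1) i with e | e
      · left; exact ⟨mem_univ _, e.symm.trans hu⟩
      · right; exact ⟨mem_univ _, e.symm.trans hu⟩
    have c1 : (univ.filter fun π : Fin N => π.val + 1 = s₀).card ≤ 1 := by
      rw [card_le_one]
      intro π hπ π' hπ'
      rw [mem_filter] at hπ hπ'
      apply Fin.ext
      omega
    have c2 : (univ.filter fun π : Fin N =>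
        (if π.val + 1 < h then π.val + 1 + 1 else 1) = s₀).card ≤ 1 := by
      rw [card_le_one]
      intro π hπ π' hπ'
      rw [mem_filter] at hπ hπ'
      apply Fin.ext
      have hl := π.2
      have hl' := π'.2
      obtain ⟨-, e⟩ := hπ
      obtain ⟨-, e'⟩ := hπ'
      rw [← e'] at e
      split_ifs at e <;> omega
    calc _ ≤ _ := card_le_card hsub
      _ ≤ _ := card_union_le _ _
      _ ≤ 2 := by omega

end TaskA4

open TaskA4

theorem T_A4 (h1 : S_A1) : S_A4 := by
  intro h N a P Q act hN hPQ ha i x y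
  have key : -(((univ.filter fun π : Fin N => Mt (P π) (Q π) (π.val + 1) i x y).card : ℕ) : ℤ) ≤
      ∑ π, if act i π then INS (P π) (Q π) (π.val + 1) i x y else 0 := by
    rw [card_filter]
    push_cast
    rw [← sum_neg_distrib]
    apply sum_le_sum
    intro π _
    have hl := π.2
    obtain ⟨-, -, h3, -⟩ := h1 h (π.val + 1) (P π) (Q π) i (by omega) (by omega) (hPQ π)
    have d1 := dl_nonneg (P π) (uu (P π) (Q π) (π.val + 1) i) x y
    have d2 := dl_nonneg (Q π) (vv (P π) (Q π) (π.val + 1) i) x y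
    have d3 := dl_le (uu (P π) (Q π) (π.val + 1) i) (vv (P π) (Q π) (π.val + 1) i) x y h3
    have hM : (if Mt (P π) (Q π) (π.val + 1) i x y then (1 : ℤ) else 0) =
        if (x = uu (P π) (Q π) (π.val + 1) i ∧ y = vv (P π) (Q π) (π.val + 1) i) ∨
          (x = vv (P π) (Q π) (π.val + 1) i ∧ y = uu (P π) (Q π) (π.val + 1) i)
          then (1 : ℤ) else 0 := rfl
    rw [hM]
    by_cases hact : act i π
    · rw [if_pos hact]
      unfold INS
      linarith
    · rw [if_neg hact]
      split_ifs <;> norm_num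
  have hc := card_Mt P Q hN i x y
  unfold Fc Bs
  by_cases hxy : x + y = 2 * i ∧ x ≠ y
  · rw [if_pos hxy, if_pos hxy]
    have : (((univ.filter fun π : Fin N => Mt (P π) (Q π) (π.val + 1) i x y).card : ℕ) : ℤ) ≤ 2 :=
      by exact_mod_cast hc
    linarith
  · rw [if_neg hxy, if_neg hxy]
    have he : (univ.filter fun π : Fin N => Mt (P π) (Q π) (π.val + 1) i x y) = ∅ := by
      rw [filter_eq_empty_iff]
      intro π _ hM
      have hl := π.2
      obtain ⟨-, -, h3, h4⟩ := h1 h (π.val + 1) (P π) (Q π) i (by omega) (by omega) (hPQ π)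
      apply hxy
      rcases hM with ⟨e1, e2⟩ | ⟨e1, e2⟩
      · exact ⟨by rw [e1, e2]; exact h4, by rw [e1, e2]; exact h3⟩
      · exact ⟨by rw [e1, e2]; exact (add_comm _ _).trans h4, by rw [e1, e2]; exact h3.symm⟩
    rw [he] at key
    simpa using key

end Pool.Agent.H301R2.HR
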