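import Pool.Agent.H301R2.HR.SP

set_option autoImplicit false

namespace Pool.Agent.H301R2.HR

open Finset

theorem a5_cast_ne {h s : ℕ} (h1 : 1 ≤ s) (h2 : s ≤ 2 * h) : (s : ZMod (2 * h + 1)) ≠ 0 := by
  intro hc
  rw [ZMod.natCast_eq_zero_iff] at hc
  have := Nat.le_of_dvd (by omega) hc
  omega

theorem a5_two {h : ℕ} {x : ZMod (2 * h + 1)} (hx : 2 * x = 0) : x = 0 := by
  have h1 : ((h + 1 : ℕ) : ZMod (2 * h + 1)) * 2 = 1 := by
    have h2 : ((2 * h + 1 : ℕ) : ZMod (2 * h + 1)) = 0 := ZMod.natCast_self _
    push_cast at h2 ⊢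
    linear_combination h2
  calc x = ((h + 1 : ℕ) : ZMod (2 * h + 1)) * (2 * x) := by rw [← mul_assoc, h1, one_mul]
    _ = 0 := by rw [hx, mul_zero]

/-- distinct small naturals stay distinct -/
theorem a5_cast_inj {h s t : ℕ} (hs : s ≤ h) (ht : t ≤ h)
    (he : (s : ZMod (2 * h + 1)) = t) : s = t := by
  rw [ZMod.natCast_eq_natCast_iff'] at he
  rw [Nat.mod_eq_of_lt (by omega), Nat.mod_eq_of_lt (by omega)] at he
  exact he

/-- the part of the count seen from `x` -/
def a5c {h : ℕ} (P Q : ZMod (2 * h + 1)) (t : ℕ) (x y i : ZMod (2 * h + 1)) : ℤ :=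
  (if x = P ∧ y = uu P Q t i then 1 else 0) + (if x = Q ∧ y = vv P Q t i then 1 else 0)

theorem a5_dl {h : ℕ} (P Q : ZMod (2 * h + 1)) (t : ℕ) (x y i : ZMod (2 * h + 1)) :
    dl P (uu P Q t i) x y + dl Q (vv P Q t i) x y = a5c P Q t x y i + a5c P Q t y x i := by
  unfold dl a5c
  have q1 : (if x = uu P Q t i ∧ y = P then (1 : ℤ) else 0) =
      (if y = P ∧ x = uu P Q t i then 1 else 0) := if_congr and_comm rfl rfl
  have q2 : (if x = vv P Q t i ∧ y = Q then (1 : ℤ) else 0) =
      (if y = Q ∧ x = vv P Q t i then 1 else 0) := if_congr and_comm rfl rfl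
  rw [q1, q2]
  ring

/-- the weight -/
def a5w {h : ℕ} (P Q x : ZMod (2 * h + 1)) : ℤ :=
  3 * (if P = x ∧ Q = x then 1 else 0) + 2 * (if P ≠ Q ∧ (P = x ∨ Q = x) then 1 else 0)

theorem a5_same {h t t' : ℕ} (P y : ZMod (2 * h + 1)) (h1 : 1 ≤ t) (h2 : t ≤ h) (h1' : 1 ≤ t')
    (h2' : t' ≤ h) (hne : t ≠ t') (g : ZMod (2 * h + 1) → ℕ)
    (hg : ∀ i, g i = if i = P + t ∨ i = P - t then t' else t) :
    ∑ i : ZMod (2 * h + 1), ((if y = i - (g i : ZMod (2 * h + 1)) then (1 : ℤ) else 0) +
      (if y = i + (g i : ZMod (2 * h + 1)) then 1 else 0)) ≤ 3 := by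
  have e1 : (t : ZMod (2 * h + 1)) ≠ 0 := a5_cast_ne h1 (by omega)
  have e2 : (t' : ZMod (2 * h + 1)) ≠ 0 := a5_cast_ne h1' (by omega)
  have e3 : (t : ZMod (2 * h + 1)) + t' ≠ 0 := by
    have := a5_cast_ne (h := h) (s := t + t') (by omega) (by omega)
    push_cast at this
    exact this
  have e4 : (t : ZMod (2 * h + 1)) - t' ≠ 0 := by
    intro hc
    exact hne (a5_cast_inj h2 h2' (sub_eq_zero.mp hc))
  have key : ∀ i : ZMod (2 * h + 1), ((if y = i - (g i : ZMod (2 * h + 1)) then (1 : ℤ) else 0) +
      (if y = i + (g i : ZMod (2 * h + 1)) then 1 else 0)) ≤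
      (if i = y + t then 1 else 0) + (if i = y - t then 1 else 0) +
      (if i = P + t then (if y = P + t - t' ∨ y = P + t + t' then 1 else 0) else 0) +
      (if i = P - t then (if y = P - t - t' ∨ y = P - t + t' then 1 else 0) else 0) := by
    intro i
    by_cases hi1 : i = P + t
    · have hgi : g i = t' := by rw [hg i, if_pos (Or.inl hi1)]
      rw [hgi, if_pos hi1]
      have n1 : (0 : ℤ) ≤ (if i = y + t then 1 else 0) + (if i = y - t then 1 else 0) := by
        split_ifs <;> norm_num
      have n2 : (0 : ℤ) ≤ (if i = P - t then (if y = P - t - t' ∨ y = P - t + t' then 1 else 0)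
          else 0) := by split_ifs <;> norm_num
      have n3 : ((if y = i - (t' : ZMod (2 * h + 1)) then (1 : ℤ) else 0) +
          (if y = i + (t' : ZMod (2 * h + 1)) then 1 else 0)) ≤
          (if y = P + t - t' ∨ y = P + t + t' then 1 else 0) := by
        by_cases ha : y = i - t'
        · by_cases hb : y = i + t'
          · exfalso
            apply e2
            apply a5_two
            linear_combination ha - hb
          · rw [if_pos ha, if_neg hb, if_pos (Or.inl (by rw [ha, hi1]))]
            norm_num
        · by_cases hb : y = i + t'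
          · rw [if_neg ha, if_pos hb, if_pos (Or.inr (by rw [hb, hi1]))]
            norm_num
          · rw [if_neg ha, if_neg hb]
            split_ifs <;> norm_num
      linarith
    · by_cases hi2 : i = P - t
      · have hgi : g i = t' := by rw [hg i, if_pos (Or.inr hi2)]
        rw [hgi, if_neg hi1, if_pos hi2]
        have n1 : (0 : ℤ) ≤ (if i = y + t then 1 else 0) + (if i = y - t then 1 else 0) := by
          split_ifs <;> norm_num
        have n3 : ((if y = i - (t' : ZMod (2 * h + 1)) then (1 : ℤ) else 0) +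
            (if y = i + (t' : ZMod (2 * h + 1)) then 1 else 0)) ≤
            (if y = P - t - t' ∨ y = P - t + t' then 1 else 0) := by
          by_cases ha : y = i - t'
          · by_cases hb : y = i + t'
            · exfalso
              apply e2
              apply a5_two
              linear_combination ha - hb
            · rw [if_pos ha, if_neg hb, if_pos (Or.inl (by rw [ha, hi2]))]
              norm_num
          · by_cases hb : y = i + t'
            · rw [if_neg ha, if_pos hb, if_pos (Or.inr (by rw [hb, hi2]))]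
              norm_num
            · rw [if_neg ha, if_neg hb]
              split_ifs <;> norm_num
        linarith
      · have hgi : g i = t := by
          rw [hg i, if_neg]
          rintro (hh | hh)
          exacts [hi1 hh, hi2 hh]
        rw [hgi, if_neg hi1, if_neg hi2]
        have q1 : (y = i - t) ↔ (i = y + t) := by
          constructor
          · intro hh; rw [hh]; ring
          · intro hh; rw [hh]; ring
        have q2 : (y = i + t) ↔ (i = y - t) := by
          constructor
          · intro hh; rw [hh]; ring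
          · intro hh; rw [hh]; ring
        simp only [q1, q2]
        linarith
  refine (Finset.sum_le_sum fun i _ => key i).trans ?_
  rw [Finset.sum_add_distrib, Finset.sum_add_distrib, Finset.sum_add_distrib]
  rw [Finset.sum_ite_eq' univ (y + (t : ZMod (2 * h + 1))), Finset.sum_ite_eq' univ
    (y - (t : ZMod (2 * h + 1))), Finset.sum_ite_eq' univ (P + (t : ZMod (2 * h + 1))),
    Finset.sum_ite_eq' univ (P - (t : ZMod (2 * h + 1)))]
  simp only [Finset.mem_univ, if_true]
  by_cases hA : y = P + t - t' ∨ y = P + t + t'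
  · have hB : ¬ (y = P - t - t' ∨ y = P - t + t') := by
      rintro (hb | hb)
      · rcases hA with ha | ha
        · exact e1 (a5_two (by linear_combination hb - ha))
        · exact e3 (a5_two (by linear_combination hb - ha))
      · rcases hA with ha | ha
        · exact e4 (a5_two (by linear_combination hb - ha))
        · exact e1 (a5_two (by linear_combination hb - ha))
    rw [if_pos hA, if_neg hB]
    norm_num
  · rw [if_neg hA]
    split_ifs <;> norm_num

theorem a5_main {h t : ℕ} (P Q x y : ZMod (2 * h + 1)) (h1 : 1 ≤ t) (h2 : t ≤ h)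
    (h3 : P = Q → 2 ≤ h) : ∑ i, a5c P Q t x y i ≤ a5w P Q x := by
  by_cases hPQ : P = Q
  · subst hPQ
    have hh := h3 rfl
    by_cases hx : x = P
    · subst hx
      have hw : a5w x x x = 3 := by simp [a5w]
      rw [hw]
      have hc : ∀ i, a5c x x t x y i =
          (if y = i - (slt x x t i : ZMod (2 * h + 1)) then (1 : ℤ) else 0) +
          (if y = i + (slt x x t i : ZMod (2 * h + 1)) then 1 else 0) := by
        intro i
        have hs : ¬ swp x x t i := by simp [swp]
        simp [a5c, uu, vv, hs]
      rw [Finset.sum_congr rfl fun i _ => hc i]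
      refine a5_same (t := t) (t' := if t < h then t + 1 else 1) x y h1 h2 ?_ ?_ ?_ _ ?_
      · split_ifs <;> omega
      · split_ifs <;> omega
      · split_ifs <;> omega
      · intro i
        simp [slt]
    · have hc : ∀ i, a5c P P t x y i = 0 := by
        intro i
        simp [a5c, hx]
      rw [Finset.sum_congr rfl fun i _ => hc i, Finset.sum_const_zero]
      unfold a5w
      split_ifs <;> norm_num
  · have hsl : ∀ i, slt P Q t i = t := by
      intro i
      simp [slt, hPQ]
    have q1 : ∀ i : ZMod (2 * h + 1), (y = i - t) ↔ (i = y + t) := by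
      intro i
      constructor
      · intro hh; rw [hh]; ring
      · intro hh; rw [hh]; ring
    have q2 : ∀ i : ZMod (2 * h + 1), (y = i + t) ↔ (i = y - t) := by
      intro i
      constructor
      · intro hh; rw [hh]; ring
      · intro hh; rw [hh]; ring
    have hb : ∀ i, a5c P Q t x y i ≤ (if P = x ∨ Q = x then
        ((if i = y + t then 1 else 0) + (if i = y - t then 1 else 0)) else 0) := by
      intro i
      by_cases hxP : x = P
      · subst hxP
        have hxQ : ¬ x = Q := hPQ
        rw [if_pos (Or.inl rfl)]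
        unfold a5c
        rw [if_neg (fun hh : x = Q ∧ y = vv x Q t i => hxQ hh.1), add_zero]
        unfold uu
        rw [hsl i]
        by_cases hs : swp x Q t i
        · rw [if_pos hs]
          simp only [true_and, q2]
          split_ifs <;> norm_num
        · rw [if_neg hs]
          simp only [true_and, q1]
          split_ifs <;> norm_num
      · by_cases hxQ : x = Q
        · subst hxQ
          rw [if_pos (Or.inr rfl)]
          unfold a5c
          rw [if_neg (fun hh : x = P ∧ y = uu P x t i => hxP hh.1), zero_add]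
          unfold vv
          rw [hsl i]
          by_cases hs : swp P x t i
          · rw [if_pos hs]
            simp only [true_and, q1]
            split_ifs <;> norm_num
          · rw [if_neg hs]
            simp only [true_and, q2]
            split_ifs <;> norm_num
        · rw [if_neg (by rintro (hh | hh); exacts [hxP hh.symm, hxQ hh.symm])]
          unfold a5c
          rw [if_neg (fun hh : x = P ∧ y = uu P Q t i => hxP hh.1),
            if_neg (fun hh : x = Q ∧ y = vv P Q t i => hxQ hh.1), add_zero]
    refine (Finset.sum_le_sum fun i _ => hb i).trans ?_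
    unfold a5w
    by_cases hx : P = x ∨ Q = x
    · simp only [if_pos hx]
      rw [Finset.sum_add_distrib, Finset.sum_ite_eq' univ (y + (t : ZMod (2 * h + 1))),
        Finset.sum_ite_eq' univ (y - (t : ZMod (2 * h + 1)))]
      rw [if_pos (c := P ≠ Q ∧ (P = x ∨ Q = x)) ⟨hPQ, hx⟩]
      simp only [Finset.mem_univ, if_true]
      split_ifs <;> norm_num
    · simp only [if_neg hx]
      rw [Finset.sum_const_zero]
      split_ifs <;> norm_num

theorem a5_dl_nonneg {α : Type} [DecidableEq α] (u v x y : α) : 0 ≤ dl u v x y := by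
  unfold dl
  split_ifs <;> norm_num

theorem a5_pi {h t : ℕ} (P Q x y : ZMod (2 * h + 1)) (h1 : 1 ≤ t) (h2 : t ≤ h)
    (h3 : P = Q → 2 ≤ h) (act : ZMod (2 * h + 1) → Bool) :
    ∑ i, (if act i then INS P Q t i x y else 0) ≤ a5w P Q x + a5w P Q y := by
  have hb : ∀ i, (if act i then INS P Q t i x y else 0) ≤ a5c P Q t x y i + a5c P Q t y x i := by
    intro i
    rw [← a5_dl]
    have n1 := a5_dl_nonneg P (uu P Q t i) x y
    have n2 := a5_dl_nonneg Q (vv P Q t i) x y
    have n3 := a5_dl_nonneg (uu P Q t i) (vv P Q t i) x y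
    split_ifs
    · unfold INS
      linarith
    · linarith
  refine (Finset.sum_le_sum fun i _ => hb i).trans ?_
  rw [Finset.sum_add_distrib]
  exact add_le_add (a5_main P Q x y h1 h2 h3) (a5_main P Q y x h1 h2 h3)

theorem a5_Bs {h : ℕ} (a : ℕ) (x y : ZMod (2 * h + 1)) : ∑ i, Bs a i x y ≤ a := by
  by_cases hex : ∃ i0 : ZMod (2 * h + 1), x + y = 2 * i0 ∧ x ≠ y
  · obtain ⟨i0, hi0, hxy⟩ := hex
    have hb : ∀ i, Bs a i x y = if i = i0 then (a : ℤ) else 0 := by
      intro i
      unfold Bs
      by_cases hi : i = i0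
      · subst hi
        rw [if_pos ⟨hi0, hxy⟩, if_pos rfl]
      · rw [if_neg hi, if_neg]
        rintro ⟨hc, -⟩
        apply hi
        have : i - i0 = 0 := a5_two (by linear_combination hi0 - hc)
        exact sub_eq_zero.mp this
    rw [Finset.sum_congr rfl fun i _ => hb i]
    simp
  · have hb : ∀ i, Bs a i x y = 0 := by
      intro i
      unfold Bs
      rw [if_neg]
      exact fun hc => hex ⟨i, hc⟩
    rw [Finset.sum_congr rfl fun i _ => hb i]
    simp

theorem a5_w {h N : ℕ} (P Q : Fin N → ZMod (2 * h + 1)) (x : ZMod (2 * h + 1)) :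
    ∑ π, a5w (P π) (Q π) x = ((3 * nS P Q x + 2 * nM P Q x : ℕ) : ℤ) := by
  unfold a5w nS nM
  rw [Finset.sum_add_distrib, ← Finset.mul_sum, ← Finset.mul_sum, Finset.sum_boole,
    Finset.sum_boole]
  push_cast
  rfl

theorem T_A5 (h1 : S_A1) : S_A5 := by
  intro h N a P Q act hN hP x y _
  unfold Fc
  rw [Finset.sum_add_distrib, Finset.sum_comm]
  have hpi : ∀ π : Fin N, ∑ i, (if act i π then INS (P π) (Q π) (π.val + 1) i x y else 0) ≤
      a5w (P π) (Q π) x + a5w (P π) (Q π) y := fun π =>
    a5_pi (P π) (Q π) x y (by omega) (by have := π.2; omega) (hP π) (fun i => act i π)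
  have hsum := Finset.sum_le_sum fun π (_ : π ∈ (univ : Finset (Fin N))) => hpi π
  rw [Finset.sum_add_distrib, a5_w, a5_w] at hsum
  have hB := a5_Bs (h := h) a x y
  linarith

end Pool.Agent.H301R2.HR
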