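import Pool.Agent.H301R2.HR.SP

set_option autoImplicit false

/-! Assembly for minimum at least two. -/

namespace Pool.Agent.H301R2.HR

open Finset

theorem T_ASM (h1 : S_OT) (h2 : S_DT) (h3 : S_EMBG) : S_ASM := by
  intro ι _ _ a a₀ m H ε f ha₀ ha hm hcard Hsym Hdiag Hsum hev hbd fanti hcap hflow ho
  classical
  have hapos : ∀ u, 0 < a u := fun u => lt_of_lt_of_le ha₀ (ha u)
  have hle : ∀ u v, u ≠ v → ∑ i, H i u v ≤ a u * a v := by
    intro u v huv
    have h4 := hcap u v huv
    have h5 := abs_nonneg (f u v)
    have h6 : (∑ i, (H i u v : ℚ)) ≤ a u * a v := by linarith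
    exact_mod_cast h6
  set R : ι → ι → ℕ := fun u v => if u = v then 0 else a u * a v - ∑ i, H i u v with hR
  have hRne : ∀ u v, u ≠ v → R u v = a u * a v - ∑ i, H i u v := fun u v huv => by
    rw [hR]; simp only; rw [if_neg huv]
  have hRd : ∀ u, R u u = 0 := fun u => by rw [hR]; exact if_pos rfl
  have hRq : ∀ u v, u ≠ v → (R u v : ℚ) = a u * a v - ∑ i, (H i u v : ℚ) := by
    intro u v huv
    rw [hRne u v huv, Nat.cast_sub (hle u v huv)]
    push_cast
    ring
  have hRsym : ∀ u v, R u v = R v u := by
    intro u v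
    by_cases huv : u = v
    · rw [huv]
    · rw [hRne u v huv, hRne v u (Ne.symm huv), mul_comm]
      congr 1
      exact Finset.sum_congr rfl fun i _ => Hsym i u v
  -- the sum of the multiplicities
  have hn : ((Fintype.card ι : ℕ) : ℚ) + m + a₀ = (∑ i, (a i : ℚ)) + 1 := by exact_mod_cast hcard
  have hRsum : ∀ u, (∑ v, (R u v : ℚ)) = a u * ((∑ i, (a i : ℚ)) - a u) -
      (((Fintype.card ι : ℕ) : ℚ) - 1) * a u - (a u % 2 : ℕ) := by
    intro u
    have e1 : ∀ v, (R u v : ℚ) = (if v = u then 0 else (a u : ℚ) * a v) -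
        ∑ i, (H i u v : ℚ) := by
      intro v
      by_cases huv : v = u
      · subst huv
        rw [hRd, if_pos rfl]
        simp [Hdiag]
      · rw [hRq u v (Ne.symm huv), if_neg huv]
    have e2 : ∑ v, (if v = u then 0 else (a u : ℚ) * a v) =
        a u * ((∑ i, (a i : ℚ)) - a u) := by
      have e3 : ∀ v, (if v = u then 0 else (a u : ℚ) * a v) =
          (a u : ℚ) * a v - (if v = u then (a u : ℚ) * a v else 0) := by
        intro v; split_ifs <;> ring
      rw [Finset.sum_congr rfl fun v _ => e3 v, Finset.sum_sub_distrib,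
        Finset.sum_ite_eq' univ u, if_pos (mem_univ u), ← Finset.mul_sum]
      ring
    have e4 : ∑ v, ∑ i, (H i u v : ℚ) =
        (((Fintype.card ι : ℕ) : ℚ) - 1) * a u + (a u % 2 : ℕ) := by
      rw [Finset.sum_comm]
      have e5 : ∀ i, ∑ v, (H i u v : ℚ) = (a u : ℚ) +
          (if u = i then ((a u % 2 : ℕ) : ℚ) - a u else 0) := by
        intro i
        have := Hsum i u
        have e6 : ∑ v, (H i u v : ℚ) = ((if u = i then a u % 2 else a u : ℕ) : ℚ) := by
          exact_mod_cast this
        rw [e6]
        split_ifs <;> ring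
      rw [Finset.sum_congr rfl fun i _ => e5 i, Finset.sum_add_distrib, Finset.sum_ite_eq univ u,
        if_pos (mem_univ u), Finset.sum_const, Finset.card_univ, nsmul_eq_mul]
      ring
    rw [Finset.sum_congr rfl fun v _ => e1 v, Finset.sum_sub_distrib, e2, e4]
    ring
  obtain ⟨X, s, Xsym, Xtot, Xloop, sown, Xdeg, sexc⟩ := h1 a R (fun _ => 0) (fun u => a u % 2) m ε f
    hm hapos hRsym hRd hev hbd fanti
    (fun u v huv => by
      have := hcap u v huv
      rw [hRq u v huv]
      linarith)
    (fun u => by
      have h4 := hflow u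
      rw [hRsum u]
      have e1 : (m * a u : ℚ) - (a u * ((∑ i, (a i : ℚ)) - a u) -
          (((Fintype.card ι : ℕ) : ℚ) - 1) * a u - (a u % 2 : ℕ) + 2 * ((0 : ℕ) : ℚ) +
          ((a u % 2 : ℕ) : ℚ)) = (a u : ℚ) * ((a u : ℚ) - a₀) := by
        have hm2 : (m : ℚ) = (∑ i, (a i : ℚ)) + 1 - a₀ - ((Fintype.card ι : ℕ) : ℚ) := by
          linarith
        rw [hm2]
        push_cast
        ring
      rw [e1]
      exact h4)
    ho
  -- the outline
  have hout : Outline (N := ι) (K := ι ⊕ Fin m) a (fun u v => u ≠ v)
      (fun c => Sum.elim H X c)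
      (fun c => Sum.elim (fun i u => if u = i then a i - a i % 2 else 0) s c) 1 := by
    constructor
    · rintro (i | c) u v
      · exact Hsym i u v
      · exact Xsym c u v
    · intro u v huv
      rw [Fintype.sum_sum_type, if_pos huv]
      simp only [Sum.elim_inl, Sum.elim_inr]
      rw [Xtot u v huv, hRne u v huv]
      have := hle u v huv
      omega
    · intro u
      rw [Fintype.sum_sum_type, if_neg (by simp)]
      simp only [Sum.elim_inl, Sum.elim_inr]
      rw [Xloop u]
      simp [Hdiag]
    · intro u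
      rw [Fintype.sum_sum_type]
      simp only [Sum.elim_inl, Sum.elim_inr]
      rw [sown u, Finset.sum_ite_eq univ u, if_pos (mem_univ u)]
      have := Nat.mod_le (a u) 2
      omega
    · rintro (i | c) u
      · simp only [Sum.elim_inl]
        rw [Hsum i u, Hdiag i u]
        by_cases hu : u = i
        · subst hu
          rw [if_pos rfl, if_pos rfl]
          have := Nat.mod_le (a u) 2
          omega
        · rw [if_neg hu, if_neg hu]
          omega
      · simp only [Sum.elim_inr]
        exact Xdeg c u
    · rintro (i | c) u v huv _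
      · simp only [Sum.elim_inl]
        by_cases hu : u = i
        · right
          rw [if_neg (fun h => huv (hu.trans h.symm))]
        · left
          rw [if_neg hu]
      · simp only [Sum.elim_inr]
        by_contra hcon
        push Not at hcon
        have h4 : s c u + s c v ≤ ∑ z, s c z := by
          rw [← Finset.sum_pair huv]
          exact Finset.sum_le_sum_of_subset (subset_univ _)
        have h5 := sexc c
        omega
    · intro c u huu
      exact absurd rfl huu
  have htc := h2 (N := ι) (K := ι ⊕ Fin m) a (fun u v => u ≠ v) _ _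
    (fun u v huv => Ne.symm huv) hapos hout
  exact h3 (K := ι ⊕ Fin m) a (fun x y : (Σ u, Fin (a u)) => x ≠ y ∧ x.1 ≠ y.1) (fun x => x)
    Function.injective_id (fun x y hxy => ⟨fun e => hxy (by rw [e]), hxy⟩) htc

end Pool.Agent.H301R2.HR
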