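import Pool.Agent.H301R2.HR.SP

set_option autoImplicit false

/-! Case 1 (helper642). -/

namespace Pool.Agent.H301R2.HR

open Finset

theorem T_C1 (h1 : S_C1a) (h2 : S_C1b) (h3 : S_CARD) : S_C1 := by
  intro ι _ _ a a₀ ha₀ hmin hle hcard hcond
  rcases Nat.lt_or_ge a₀ 2 with h | h
  · have h4 : a₀ = 1 := by omega
    subst h4
    have h5 := h1 a hmin hle hcard hcond
    have h6 : 1 ≤ ∑ i, a i := by
      obtain ⟨i, hi⟩ := hmin
      have : a i ≤ ∑ i, a i := Finset.single_le_sum (fun j _ => Nat.zero_le _) (Finset.mem_univ i)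
      omega
    have h7 : (∑ i, a i) - 1 + 1 = ∑ i, a i := by omega
    rw [h7]
    exact h5
  · have h5 := h2 a a₀ h hmin hle hcard hcond
    refine h3 a _ ?_ h5
    rw [Fintype.card_option, Fintype.card_fin]

end Pool.Agent.H301R2.HR
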