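import Pool.Agent.H301R2.HR.SP

set_option autoImplicit false

/-! Case 1 for minimum one. -/

namespace Pool.Agent.H301R2.HR

open Finset

namespace C1ax

/-- weights of the blow-up -/
def ww {B : Type} (r : ℕ) (b : B → ℕ) : Option B → ℕ := fun u => u.elim (r + 1) b

/-- slack -/
def tt' {B : Type} (b : B → ℕ) : Option B → ℕ := fun u => u.elim 0 (fun j => b j * (b j - 1))

/-- adjacency -/
def AA {B : Type} (u v : Option B) : Prop := u ≠ v ∨ u = none

instance {B : Type} [DecidableEq B] : DecidableRel (AA (B := B)) := fun u v => by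
  unfold AA; infer_instance

theorem AA_symm {B : Type} (u v : Option B) (h : AA u v) : AA v u := by
  rcases h with h | h
  · exact Or.inl (Ne.symm h)
  · by_cases hv : v = none
    · exact Or.inr hv
    · exact Or.inl (fun e => hv (e.trans h))

theorem AA_some {B : Type} (j : B) : ¬ AA (some j) (some j) := by
  rintro (h | h)
  · exact h rfl
  · exact absurd h (by simp)

theorem deg_eq {B : Type} [Fintype B] [DecidableEq B] (r : ℕ) (b : B → ℕ)
    (hb : ∀ j, 2 ≤ b j) (u : Option B) :
    (∑ v, (if v = u then (if AA u u then ww r b u * (ww r b u - 1) else 0)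
      else ww r b u * ww r b v - 0)) + tt' b u = (r + ∑ j, b j) * ww r b u := by
  rw [Fintype.sum_option]
  rcases u with _ | j
  · have h0 : AA (none : Option B) none := Or.inr rfl
    rw [if_pos rfl, if_pos h0]
    have e1 : ∀ j : B, (if (some j : Option B) = none then
        (ww r b none * (ww r b none - 1))
        else ww r b none * ww r b (some j) - 0) = (r + 1) * b j := by
      intro j
      rw [if_neg (by simp)]
      rfl
    rw [Finset.sum_congr rfl fun j _ => e1 j, ← Finset.mul_sum]
    change (r + 1) * (r + 1 - 1) + (r + 1) * ∑ j, b j + 0 = (r + ∑ j, b j) * (r + 1)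
    rw [Nat.add_sub_cancel]
    ring
  · rw [if_neg (by simp)]
    have e1 : ∀ l : B, (if (some l : Option B) = some j then
        (if AA (some j : Option B) (some j) then ww r b (some j) * (ww r b (some j) - 1) else 0)
        else ww r b (some j) * ww r b (some l) - 0) + (if l = j then b j * b j else 0) =
        b j * b l := by
      intro l
      by_cases h : l = j
      · subst h
        rw [if_pos rfl, if_neg (AA_some l), if_pos rfl, zero_add]
      · rw [if_neg (fun e => h (Option.some_injective _ e)), if_neg h]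
        rfl
    have e2 : ∑ l : B, (if (some l : Option B) = some j then
        (if AA (some j : Option B) (some j) then ww r b (some j) * (ww r b (some j) - 1) else 0)
        else ww r b (some j) * ww r b (some l) - 0) + b j * b j = b j * ∑ l, b l := by
      rw [Finset.mul_sum, ← Finset.sum_congr rfl fun l _ => e1 l, Finset.sum_add_distrib,
        Finset.sum_ite_eq' univ j, if_pos (mem_univ j)]
    change b j * (r + 1) - 0 + _ + b j * (b j - 1) = (r + ∑ j, b j) * b j
    obtain ⟨k, hk⟩ : ∃ k, b j = k + 1 := ⟨b j - 1, by have := hb j; omega⟩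
    have e3 : b j * (b j - 1) + b j = b j * b j := by
      rw [hk, Nat.add_sub_cancel]; ring
    have e4 : b j * (r + 1) = b j * r + b j := by ring
    have e5 : (r + ∑ j, b j) * b j = b j * r + b j * ∑ l, b l := by ring
    rw [e5, ← e2, e4]
    omega

end C1ax

open C1ax in
theorem T_C1a (h1 : S_ECT) (h2 : S_DE) : S_C1a := by
  intro ι _ _ a hex hpos hcard hor
  classical
  set S : Finset ι := univ.filter (fun i => a i = 1) with hS
  set r : ℕ := S.card with hr
  have hr1 : 1 ≤ r := by
    obtain ⟨i, hi⟩ := hex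
    exact Finset.card_pos.2 ⟨i, Finset.mem_filter.2 ⟨mem_univ i, hi⟩⟩
  let B : Type := {i : ι // 2 ≤ a i}
  let b : B → ℕ := fun j => a j.1
  have hb : ∀ j : B, 2 ≤ b j := fun j => j.2
  have hnot : univ.filter (fun i => ¬ a i = 1) = univ.filter (fun i => 2 ≤ a i) := by
    ext i
    have := hpos i
    simp only [Finset.mem_filter, mem_univ, true_and]
    omega
  have hsub : ∀ f : ι → ℕ, ∑ j : B, f j.1 = ∑ i ∈ univ.filter (fun i => 2 ≤ a i), f i := by
    intro f
    exact (Finset.sum_subtype (univ.filter (fun i => 2 ≤ a i)) (by simp) f).symm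
  have hn : ∑ i, a i = r + ∑ j : B, b j := by
    rw [hsub a, ← Finset.sum_filter_add_sum_filter_not univ (fun i => a i = 1) a, hnot]
    congr 1
    rw [Finset.sum_congr rfl (g := fun _ => 1) (fun i hi => (Finset.mem_filter.1 hi).2)]
    simp [hr, hS]
  have hD : ∑ i, a i * (a i - 1) = ∑ u, tt' b u := by
    rw [Fintype.sum_option]
    change _ = 0 + ∑ j : B, a j.1 * (a j.1 - 1)
    rw [hsub (fun i => a i * (a i - 1)),
      ← Finset.sum_filter_add_sum_filter_not univ (fun i => a i = 1) (fun i => a i * (a i - 1)),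
      hnot]
    congr 1
    refine Finset.sum_eq_zero fun i hi => ?_
    rw [(Finset.mem_filter.1 hi).2]
    rfl
  have hDeven : Even (∑ i, a i * (a i - 1)) := by
    refine Finset.even_sum _ fun i _ => ?_
    exact Nat.even_mul_pred_self (a i)
  have hW : ∑ u, ww r b u = ∑ i, a i + 1 := by
    rw [Fintype.sum_option, hn]
    change r + 1 + ∑ j : B, b j = _
    ring
  have hn2 : 2 ≤ ∑ i, a i := by
    have : Fintype.card ι ≤ ∑ i, a i := by
      rw [← Finset.card_univ, Finset.card_eq_sum_ones]
      exact Finset.sum_le_sum fun i _ => hpos i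
    omega
  obtain ⟨X, Xs, Xt, Xl, Xd⟩ := h1 (N := Option B) (ww r b) AA (∑ i, a i) (fun _ _ => 0) (tt' b)
    (fun u v huv => Or.inl huv)
    (fun u => by
      rcases u with _ | j
      · change 2 ≤ r + 1; omega
      · exact hb j)
    (by omega) (by rw [hW]; omega) (fun _ _ => rfl) (fun _ => rfl)
    (fun _ _ _ => ⟨Nat.zero_le _, Nat.zero_le _⟩)
    (fun u => by rw [hn]; exact deg_eq r b hb u)
    (fun hodd => by
      rw [hW] at hodd
      have hev : ¬ Odd (∑ i, a i) := by
        intro h
        have := h.add_one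
        exact (Nat.not_even_iff_odd.2 hodd) this
      refine ⟨?_, fun u _ => Or.inr fun _ => rfl⟩
      rcases hor with h | h
      · exact absurd h hev
      · rw [hD] at h hDeven
        rw [Nat.odd_iff] at hev
        rw [Nat.even_iff] at hDeven
        omega)
  have hm0 : 0 < ∑ i, a i := by omega
  have : Nonempty (Fin (∑ i, a i)) := ⟨⟨0, hm0⟩⟩
  have hout : Outline (N := Option B) (K := Fin (∑ i, a i)) (ww r b) AA X (fun _ _ => 0) 0 := by
    refine ⟨Xs, ?_, Xl, ?_, ?_, ?_, ?_⟩
    · intro u v huv
      have h3 : AA u v := Or.inl huv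
      rw [if_pos h3]
      exact Xt u v huv
    · intro u; simp
    · intro c u
      have := Xd c u
      omega
    · exact fun _ _ _ _ _ => Or.inl rfl
    · exact fun _ _ _ => Nat.zero_le _
  obtain ⟨ce, ces, cep, -⟩ := h2 (N := Option B) (K := Fin (∑ i, a i)) (ww r b) AA X AA_symm
    (fun u => by
      rcases u with _ | j
      · change 0 < r + 1; omega
      · exact lt_of_lt_of_le (by norm_num) (hb j)) hout
  -- the embedding
  have hone : ∀ x : (Σ i, Fin (a i)), ¬ 2 ≤ a x.1 → a x.1 = 1 := by
    intro x hx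
    have := hpos x.1
    omega
  have hmemS : ∀ x : (Σ i, Fin (a i)), ¬ 2 ≤ a x.1 → x.1 ∈ S := fun x hx =>
    Finset.mem_filter.2 ⟨mem_univ _, hone x hx⟩
  let φ : (Σ i, Fin (a i)) → (Σ u : Option B, Fin (ww r b u)) := fun x =>
    if hx : 2 ≤ a x.1 then ⟨some ⟨x.1, hx⟩, x.2⟩
    else ⟨none, ⟨(S.equivFin ⟨x.1, hmemS x hx⟩ : ℕ), by
      change _ < r + 1
      exact Nat.lt_succ_of_lt (S.equivFin ⟨x.1, hmemS x hx⟩).2⟩⟩
  have hφ1 : ∀ x (hx : 2 ≤ a x.1), φ x = ⟨some ⟨x.1, hx⟩, x.2⟩ := fun x hx => dif_pos hx
  have hφ2 : ∀ x (hx : ¬ 2 ≤ a x.1), φ x = ⟨none, ⟨(S.equivFin ⟨x.1, hmemS x hx⟩ : ℕ), by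
      change _ < r + 1
      exact Nat.lt_succ_of_lt (S.equivFin ⟨x.1, hmemS x hx⟩).2⟩⟩ := fun x hx => dif_neg hx
  let inf : (Σ u : Option B, Fin (ww r b u)) := ⟨none, ⟨r, Nat.lt_succ_self r⟩⟩
  have hinf : ∀ x, inf ≠ φ x := by
    intro x hx
    by_cases h : 2 ≤ a x.1
    · rw [hφ1 x h] at hx
      have := congrArg Sigma.fst hx
      exact absurd this (by simp [inf])
    · rw [hφ2 x h] at hx
      have h3 := congrArg (fun z : (Σ u : Option B, Fin (ww r b u)) => (z.2 : ℕ)) hx
      have h4 : r = (S.equivFin ⟨x.1, hmemS x h⟩ : ℕ) := h3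
      have h5 := (S.equivFin ⟨x.1, hmemS x h⟩).2
      omega
  have hinj : Function.Injective φ := by
    intro x y hxy
    by_cases hx : 2 ≤ a x.1
    · by_cases hy : 2 ≤ a y.1
      · rw [hφ1 x hx, hφ1 y hy] at hxy
        have e1 : x.1 = y.1 := by
          have := congrArg Sigma.fst hxy
          have h3 := Option.some_injective _ this
          exact congrArg Subtype.val h3
        have e2 : (x.2 : ℕ) = y.2 :=
          congrArg (fun z : (Σ u : Option B, Fin (ww r b u)) => (z.2 : ℕ)) hxy
        obtain ⟨i, u⟩ := x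
        obtain ⟨j, v⟩ := y
        simp only at e1
        subst e1
        simp only at e2
        rw [Fin.ext e2]
      · rw [hφ1 x hx, hφ2 y hy] at hxy
        have := congrArg Sigma.fst hxy
        exact absurd this (by simp)
    · by_cases hy : 2 ≤ a y.1
      · rw [hφ2 x hx, hφ1 y hy] at hxy
        have := congrArg Sigma.fst hxy
        exact absurd this (by simp)
      · rw [hφ2 x hx, hφ2 y hy] at hxy
        have e2 : (S.equivFin ⟨x.1, hmemS x hx⟩ : ℕ) = (S.equivFin ⟨y.1, hmemS y hy⟩ : ℕ) :=
          congrArg (fun z : (Σ u : Option B, Fin (ww r b u)) => (z.2 : ℕ)) hxy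
        have e3 := S.equivFin.injective (Fin.ext e2)
        have e1 : x.1 = y.1 := congrArg Subtype.val e3
        have hx1 := hone x hx
        have hy1 := hone y hy
        have e4 : (x.2 : ℕ) = y.2 := by
          have h5 := x.2.2
          have h6 := y.2.2
          omega
        obtain ⟨i, u⟩ := x
        obtain ⟨j, v⟩ := y
        simp only at e1
        subst e1
        simp only at e4
        rw [Fin.ext e4]
  have hadj : ∀ x y, x.1 ≠ y.1 → AA (φ x).1 (φ y).1 := by
    intro x y hxy
    by_cases h : (φ x).1 = none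
    · exact Or.inr h
    · left
      intro e
      by_cases hx : 2 ≤ a x.1
      · by_cases hy : 2 ≤ a y.1
        · rw [hφ1 x hx, hφ1 y hy] at e
          exact hxy (congrArg Subtype.val (Option.some_injective _ e))
        · rw [hφ1 x hx, hφ2 y hy] at e
          exact absurd e (by simp)
      · rw [hφ2 x hx] at h
        exact h rfl
  have hnn : ∀ x, AA (φ x).1 inf.1 := by
    intro x
    by_cases h : (φ x).1 = none
    · exact Or.inr h
    · exact Or.inl h
  refine ⟨fun x => ce inf (φ x), fun x y => ce (φ x) (φ y), ?_, ?_, ?_, ?_⟩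
  · intro x y hxy
    exact cep inf (φ x) (φ y) (hinf x) (Or.inr rfl) (hinf y) (Or.inr rfl)
      (fun e => hxy (by rw [hinj e]))
  · exact fun x y => ces _ _
  · intro x y z hxy hxz hyz
    exact cep (φ x) (φ y) (φ z) (fun e => hxy (by rw [hinj e])) (hadj x y hxy)
      (fun e => hxz (by rw [hinj e])) (hadj x z hxz) (fun e => hyz (hinj e))
  · intro x y hxy
    change ce inf (φ x) ≠ ce (φ x) (φ y)
    rw [ces inf (φ x)]
    exact cep (φ x) inf (φ y) (Ne.symm (hinf x)) (hnn x)
      (fun e => hxy (by rw [hinj e])) (hadj x y hxy) (hinf y)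

end Pool.Agent.H301R2.HR
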