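import Pool.Agent.H301R2.HR.SP

/-! Task C1b (helper954): case 1, minimum at least two. -/

set_option autoImplicit false

namespace Pool.Agent.H301R2.HR

open Finset

namespace TaskC1b

variable {ι : Type} [Fintype ι] [DecidableEq ι]

/-- weights: one more vertex in the part `i₀` -/
def ww (a : ι → ℕ) (i₀ : ι) (u : ι) : ℕ := if u = i₀ then a u + 1 else a u

omit [Fintype ι] in
theorem le_ww (a : ι → ℕ) (i₀ u : ι) : a u ≤ ww a i₀ u := by
  unfold ww; split_ifs <;> omega

theorem sum_ww (a : ι → ℕ) (i₀ : ι) : ∑ u, ww a i₀ u = ∑ u, a u + 1 := by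
  have : ∀ u, ww a i₀ u = a u + if u = i₀ then 1 else 0 := by
    intro u; unfold ww; split_ifs <;> rfl
  simp_rw [this, sum_add_distrib]
  simp

/-- the slack -/
def tq (a : ι → ℕ) (a₀ : ℕ) (i₀ : ι) (h : ι → ι → ℕ) (u : ι) : ℕ :=
  if u = i₀ then 0 else a u * a u + (∑ v, h u v) - a u * (a₀ + 1)

theorem tq_eq (a : ι → ℕ) (a₀ : ℕ) (i₀ : ι) (h : ι → ι → ℕ) (ha : ∀ i, a₀ ≤ a i)
    (hd : ∀ u, u ≠ i₀ → a u = a₀ → ∑ v, h u v = a₀) (u : ι) (hu : u ≠ i₀) :
    tq a a₀ i₀ h u + a u * (a₀ + 1) = a u * a u + ∑ v, h u v := by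
  unfold tq
  rw [if_neg hu]
  apply Nat.sub_add_cancel
  rcases (ha u).eq_or_lt with e | e
  · rw [hd u hu e.symm, ← e]
    ring_nf; exact le_refl _
  · have : a u * (a₀ + 1) ≤ a u * a u := Nat.mul_le_mul_left _ e
    omega

theorem row (w : ι → ℕ) (h : ι → ι → ℕ) (hdiag : ∀ u, h u u = 0)
    (hle : ∀ u v, u ≠ v → h u v ≤ w u * w v) (u : ι) :
    (∑ v, (if v = u then 0 else w u * w v - h u v)) + (∑ v, h u v) + w u * w u =
      w u * ∑ v, w v := by
  have e1 : w u * w u = ∑ v, (if v = u then w u * w u else 0) := by simp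
  rw [e1]
  rw [← sum_add_distrib, ← sum_add_distrib, mul_sum]
  apply sum_congr rfl
  intro v _
  by_cases hv : v = u
  · subst hv
    simp [hdiag]
  · rw [if_neg hv, if_neg hv, add_zero]
    exact Nat.sub_add_cancel (hle u v (Ne.symm hv))

/-- the embedding -/
def ph (a : ι → ℕ) (i₀ : ι) (x : Σ i, Fin (a i)) : Σ u, Fin (ww a i₀ u) :=
  ⟨x.1, ⟨x.2.1, lt_of_lt_of_le x.2.2 (le_ww a i₀ x.1)⟩⟩

/-- the new vertex -/
def inf (a : ι → ℕ) (i₀ : ι) : Σ u, Fin (ww a i₀ u) :=
  ⟨i₀, ⟨a i₀, by unfold ww; rw [if_pos rfl]; omega⟩⟩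

omit [Fintype ι] in
theorem ph_inj (a : ι → ℕ) (i₀ : ι) : Function.Injective (ph a i₀) := by
  rintro ⟨i, k⟩ ⟨j, l⟩ h
  unfold ph at h
  obtain ⟨h1, h2⟩ := Sigma.mk.inj_iff.1 h
  simp only at h1
  subst h1
  have h3 := eq_of_heq h2
  simp only [Fin.mk.injEq] at h3
  rw [Fin.ext h3]

omit [Fintype ι] in
theorem ph_ne_inf (a : ι → ℕ) (i₀ : ι) (x : Σ i, Fin (a i)) : ph a i₀ x ≠ inf a i₀ := by
  obtain ⟨i, k⟩ := x
  intro h
  unfold ph inf at h
  obtain ⟨h1, h2⟩ := Sigma.mk.inj_iff.1 h
  simp only at h1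
  subst h1
  have h3 := eq_of_heq h2
  simp only [Fin.mk.injEq] at h3
  have := k.2
  omega

end TaskC1b

open TaskC1b

theorem T_C1b (h1 : S_ECT) (h2 : S_DE) (h3 : S_H1) : S_C1b := by
  intro ι _ _ a a₀ ha₀ ⟨i₀, hi₀⟩ ha hcard hcase
  obtain ⟨h, hsymm, hdiag, hi, hdeg, hmin, heven⟩ := h3 a a₀ i₀ ha₀ hi₀ ha hcard hcase
  obtain ⟨n, hn⟩ : ∃ n, n = ∑ i, a i := ⟨_, rfl⟩
  rw [← hn] at heven ⊢
  obtain ⟨j, hj⟩ : ∃ j, j ≠ i₀ := by
    have : Nontrivial ι := Fintype.one_lt_card_iff_nontrivial.1 (by omega)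
    exact exists_ne i₀
  have hnn : a₀ + 2 ≤ n := by
    rw [hn, ← add_sum_erase univ a (mem_univ i₀), hi₀]
    have : a j ≤ ∑ i ∈ univ.erase i₀, a i :=
      single_le_sum (f := a) (fun _ _ => Nat.zero_le _) (mem_erase.2 ⟨hj, mem_univ _⟩)
    have := ha j
    omega
  obtain ⟨m, hm⟩ : ∃ m, m = n - a₀ := ⟨_, rfl⟩
  have hmn : m + a₀ = n := by omega
  rw [← hm]
  have hsum : ∑ u, ww a i₀ u = n + 1 := by rw [sum_ww, hn]
  have hw0 : ww a i₀ i₀ = a₀ + 1 := by unfold ww; rw [if_pos rfl, hi₀]
  have hw1 : ∀ u, u ≠ i₀ → ww a i₀ u = a u := fun u hu => by unfold ww; rw [if_neg hu]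
  have hw2 : ∀ u, 2 ≤ ww a i₀ u := fun u =>
    le_trans (le_trans ha₀ (ha u)) (le_ww a i₀ u)
  have hle1 : ∀ u v, h u v ≤ ww a i₀ u := by
    intro u v
    refine le_trans ?_ (le_trans (hdeg u) (le_ww a i₀ u))
    exact single_le_sum (f := fun v => h u v) (fun _ _ => Nat.zero_le _) (mem_univ v)
  have hle2 : ∀ u v, h u v ≤ ww a i₀ v := fun u v => by rw [hsymm]; exact hle1 v u
  have hle3 : ∀ u v, h u v ≤ ww a i₀ u * ww a i₀ v := by
    intro u v
    refine le_trans (hle1 u v) (Nat.le_mul_of_pos_right _ ?_)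
    have := hw2 v
    omega
  have hrow := row (ww a i₀) h hdiag (fun u v _ => hle3 u v)
  have htq := tq_eq a a₀ i₀ h ha hmin
  have hect := h1 (ww a i₀) (fun u v => u ≠ v) m h (tq a a₀ i₀ h) (fun u v huv => huv) hw2
    (by omega) (by rw [hsum]; omega) hsymm hdiag (fun u v _ => ⟨hle1 u v, hle2 u v⟩)
    (by
      intro u
      have e1 : (∑ v, (if v = u then (if u ≠ u then ww a i₀ u * (ww a i₀ u - 1) else 0)
          else ww a i₀ u * ww a i₀ v - h u v)) =
          ∑ v, (if v = u then 0 else ww a i₀ u * ww a i₀ v - h u v) := by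
        apply sum_congr rfl
        intro v _
        simp
      rw [e1]
      have hr := hrow u
      rw [hsum] at hr
      by_cases hu : u = i₀
      · subst hu
        have hz : ∑ v, h u v = 0 := by simp [hi]
        rw [hz, hw0] at hr
        rw [hw0]
        have htz : tq a a₀ u h u = 0 := by unfold tq; rw [if_pos rfl]
        rw [htz]
        rw [← hmn] at hr
        nlinarith
      · have ht := htq u hu
        rw [hw1 u hu] at hr ⊢
        rw [← hmn] at hr
        nlinarith)
    (by
      intro hodd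
      rw [hsum] at hodd
      have hev : Even n := by
        rcases Nat.even_or_odd n with he | ho
        · exact he
        · exact absurd hodd (by rw [Nat.not_odd_iff_even]; exact ho.add_one)
      have hE := heven hev
      constructor
      · have e2 : ∀ u, tq a a₀ i₀ h u + (if u = i₀ then 0 else a u) =
            a u * (a u - a₀) + ∑ v, h u v := by
          intro u
          by_cases hu : u = i₀
          · subst hu
            have hz : ∑ v, h u v = 0 := by simp [hi]
            unfold tq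
            rw [if_pos rfl, if_pos rfl, hz, hi₀]
            simp
          · rw [if_neg hu]
            have ht := htq u hu
            have hau := ha u
            obtain ⟨d, hd⟩ : ∃ d, a u = a₀ + d := ⟨a u - a₀, by omega⟩
            have : a u - a₀ = d := by omega
            rw [this]
            rw [hd] at ht ⊢
            nlinarith
        have e3 : ∑ u, (tq a a₀ i₀ h u + (if u = i₀ then 0 else a u)) =
            ∑ u, (a u * (a u - a₀) + ∑ v, h u v) := sum_congr rfl (fun u _ => e2 u)
        rw [sum_add_distrib, sum_add_distrib] at e3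
        have e4 : ∑ u, (if u = i₀ then 0 else a u) + a₀ = n := by
          have : ∑ u, (if u = i₀ then 0 else a u) + ∑ u, (if u = i₀ then a u else 0) =
              ∑ u, a u := by
            rw [← sum_add_distrib]
            apply sum_congr rfl
            intro u _
            split_ifs <;> simp
          rw [hn, ← this]
          simp [hi₀]
        omega
      · intro u hu2
        left
        by_cases hu : u = i₀
        · subst hu; rw [hw0] at hu2; omega
        · have ht := htq u hu
          rw [hw1 u hu] at hu2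
          have hau := ha u
          have ha2 : a₀ = 2 := by omega
          rw [hmin u hu (by omega), hu2] at ht
          omega)
  obtain ⟨X, X1, X2, X3, X4⟩ := hect
  have hout : Outline (ww a i₀) (fun u v => u ≠ v)
      (fun (c : Option (Fin m)) u v => c.elim (h u v) (fun c => X c u v))
      (fun _ _ => 0) 0 := by
    refine ⟨?_, ?_, ?_, ?_, ?_, ?_, ?_⟩
    · intro c u v
      cases c with
      | none => exact hsymm u v
      | some c => exact X1 c u v
    · intro u v huv
      rw [Fintype.sum_option]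
      simp only [Option.elim_none, Option.elim_some]
      rw [X2 u v huv, if_pos huv]
      have := hle3 u v
      omega
    · intro u
      rw [Fintype.sum_option]
      simp only [Option.elim_none, Option.elim_some]
      have := X3 u
      rw [if_neg (by simp)] at this ⊢
      rw [hdiag]
      omega
    · intro u; simp
    · intro c u
      cases c with
      | none =>
        simp only [Option.elim_none]
        rw [hdiag]
        have := hdeg u
        have := le_ww a i₀ u
        omega
      | some c =>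
        simp only [Option.elim_some]
        have := X4 c u
        omega
    · intro c u v _ _; left; rfl
    · intro c u _; omega
  obtain ⟨ce, c1, c2, c3⟩ := h2 (ww a i₀) (fun u v => u ≠ v)
    (fun (c : Option (Fin m)) u v => c.elim (h u v) (fun c => X c u v))
    (fun u v huv => Ne.symm huv) (fun u => by have := hw2 u; omega) hout
  -- edges at `i₀` are never coloured `none`
  have hnone : ∀ p q : (Σ u, Fin (ww a i₀ u)), p.1 = i₀ → q.1 ≠ i₀ → ce p q ≠ none := by
    intro p q hp hq hc
    have hpq : p ≠ q := fun he => hq (by rw [← he]; exact hp)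
    have h1 : p.1 ≠ q.1 := fun he => hq (by rw [← he]; exact hp)
    have := c3 p q hpq h1
    rw [hc] at this
    simp only [Option.elim_none] at this
    rw [hp] at this
    exact this (hi q.1)
  refine ⟨fun x => if x.1 = i₀ then none else ce (inf a i₀) (ph a i₀ x),
    fun x y => ce (ph a i₀ x) (ph a i₀ y), ?_, ?_, ?_, ?_⟩
  · intro x y hxy
    simp only
    by_cases hx : x.1 = i₀
    · have hy : y.1 ≠ i₀ := fun hy => hxy (hx.trans hy.symm)
      rw [if_pos hx, if_neg hy]
      exact (hnone (inf a i₀) (ph a i₀ y) rfl hy).symm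
    · by_cases hy : y.1 = i₀
      · rw [if_neg hx, if_pos hy]
        exact hnone (inf a i₀) (ph a i₀ x) rfl hx
      · rw [if_neg hx, if_neg hy]
        refine c2 (inf a i₀) (ph a i₀ x) (ph a i₀ y) (ph_ne_inf a i₀ x).symm
          (fun he => hx he.symm) (ph_ne_inf a i₀ y).symm (fun he => hy he.symm) ?_
        intro he
        exact hxy (by rw [ph_inj a i₀ he])
  · intro x y
    exact c1 _ _
  · intro x y z hxy hxz hyz
    refine c2 (ph a i₀ x) (ph a i₀ y) (ph a i₀ z) ?_ hxy ?_ hxz ?_
    · intro he; exact hxy (by rw [ph_inj a i₀ he])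
    · intro he; exact hxz (by rw [ph_inj a i₀ he])
    · intro he; exact hyz (ph_inj a i₀ he)
  · intro x y hxy
    simp only
    by_cases hx : x.1 = i₀
    · have hy : y.1 ≠ i₀ := fun hy => hxy (hx.trans hy.symm)
      rw [if_pos hx]
      exact (hnone (ph a i₀ x) (ph a i₀ y) hx hy).symm
    · rw [if_neg hx, c1 (inf a i₀)]
      refine c2 (ph a i₀ x) (inf a i₀) (ph a i₀ y) (ph_ne_inf a i₀ x) hx ?_ hxy
        (ph_ne_inf a i₀ y).symm
      intro he; exact hxy (by rw [ph_inj a i₀ he])

end Pool.Agent.H301R2.HR
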