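import Pool.Agent.H301R2.HR.SP

set_option autoImplicit false

/-! Case 2: `n` even, minimum at least three. -/

namespace Pool.Agent.H301R2.HR

open Finset

theorem T_C2 (h1 : S_SP) (h2 : S_SMALL) (h3 : S_EPS) (h4 : S_CAPIo) (h5 : S_CAPIe) (h6 : S_ASM)
    (h7 : S_CARD) : S_C2 := by
  intro ι _ _ a A hA hmin hle hp hev hqD hDn
  obtain ⟨H, hHs, hHd, hHr, hHt⟩ := h1 a A hA hmin hle hp hev hDn
  obtain ⟨hEp, hodd⟩ := h2 a A (by omega) hmin hle hDn
  set p : ℕ := Fintype.card ι with hpdef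
  set e : ι → ℕ := fun i => a i - A with he
  have hae : ∀ i, a i = A + e i := fun i => by have := hle i; simp only [he]; omega
  set E : ℕ := ∑ i, e i with hE
  have hn : ∑ i, a i = p * A + E := by
    rw [Finset.sum_congr rfl fun i _ => hae i, Finset.sum_add_distrib, Finset.sum_const,
      Finset.card_univ, smul_eq_mul]
  set D : ℕ := ∑ i, a i * (a i - A) with hD
  set q : ℕ := ∑ i, a i % 2 with hq
  set m : ℕ := (A - 1) * (p - 1) + E with hm
  have hcount : p + m + A = (∑ i, a i) + 1 := by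
    rw [hn, hm]
    obtain ⟨A', rfl⟩ : ∃ A', A = A' + 1 := ⟨A - 1, by omega⟩
    obtain ⟨p', hp'⟩ : ∃ p', p = p' + 1 := ⟨p - 1, by omega⟩
    rw [hp']
    simp only [Nat.add_sub_cancel]
    ring
  have hqp : q ≤ p := by
    rw [hq, hpdef]
    calc ∑ i, a i % 2 ≤ ∑ _i : ι, 1 := Finset.sum_le_sum fun i _ => by omega
      _ = Fintype.card ι := by simp
  have hpm : p ≤ m := by
    have h8 : 2 * (p - 1) ≤ (A - 1) * (p - 1) := Nat.mul_le_mul_right _ (by omega)
    omega
  -- signs
  obtain ⟨ε, hε1, hε2, hε3, hε4⟩ := h3 a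
    (if A % 2 = 1 then (univ.filter fun i => a i % 2 = 1 ∧ a i ≠ A) else ∅) hev
    (by
      intro i hi
      split_ifs at hi with h
      · exact (Finset.mem_filter.mp hi).2.1
      · simp at hi)
    (by
      split_ifs with h
      · exact hodd (Nat.odd_iff.mpr h)
      · simp)
  -- the slack
  set τ : ι → ℚ := fun i => (q : ℚ) * ((a i : ℚ) * (e i : ℚ)) / (D : ℚ) with hτ
  have hDq : (D : ℚ) = ∑ i, (a i : ℚ) * (e i : ℚ) := by
    rw [hD]
    push_cast
    rfl
  have hqD' : (q : ℚ) ≤ D := by exact_mod_cast hqD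
  have hq0 : (0 : ℚ) ≤ q := Nat.cast_nonneg _
  have hterm : ∀ i, (a i : ℚ) * (e i : ℚ) ≤ D := by
    intro i
    rw [hDq]
    exact Finset.single_le_sum (f := fun i => (a i : ℚ) * (e i : ℚ))
      (fun j _ => by positivity) (Finset.mem_univ i)
  have hterm0 : ∀ i, (0 : ℚ) ≤ (a i : ℚ) * (e i : ℚ) := fun i => by positivity
  have hτ0 : ∀ i, 0 ≤ τ i := fun i => by
    simp only [hτ]
    positivity
  have hτle : ∀ i, τ i ≤ (a i : ℚ) * (e i : ℚ) := by
    intro i
    simp only [hτ]
    by_cases hD0 : (D : ℚ) = 0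
    · rw [hD0, div_zero]
      exact hterm0 i
    · have hDpos : (0 : ℚ) < D := lt_of_le_of_ne (Nat.cast_nonneg _) (Ne.symm hD0)
      rw [div_le_iff₀ hDpos, mul_comm]
      exact mul_le_mul_of_nonneg_left hqD' (hterm0 i)
  have hτq : ∀ i, τ i ≤ q := by
    intro i
    simp only [hτ]
    by_cases hD0 : (D : ℚ) = 0
    · rw [hD0, div_zero]
      exact hq0
    · have hDpos : (0 : ℚ) < D := lt_of_le_of_ne (Nat.cast_nonneg _) (Ne.symm hD0)
      rw [div_le_iff₀ hDpos]
      exact mul_le_mul_of_nonneg_left (hterm i) hq0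
  have hτp : ∀ i, τ i ≤ p := fun i => (hτq i).trans (by exact_mod_cast hqp)
  have hτz : ∀ i, e i = 0 → τ i = 0 := by
    intro i hi
    simp only [hτ, hi]
    simp
  have hτs : ∑ i, τ i = q := by
    simp only [hτ]
    rw [← Finset.sum_div, ← Finset.mul_sum, ← hDq]
    by_cases hD0 : (D : ℚ) = 0
    · rw [hD0, div_zero]
      have : (q : ℚ) ≤ 0 := by rw [← hD0]; exact hqD'
      linarith
    · field_simp
  -- the net outflow
  set g : ι → ℚ := fun i => (m : ℚ) * ε i + τ i - ((a i % 2 : ℕ) : ℚ) with hg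
  have hgs : ∑ i, g i = 0 := by
    simp only [hg]
    rw [Finset.sum_sub_distrib, Finset.sum_add_distrib, ← Finset.mul_sum, hτs]
    have h8 : ∑ i, ((ε i : ℤ) : ℚ) = 0 := by exact_mod_cast hε3
    have h9 : ∑ i, ((a i % 2 : ℕ) : ℚ) = q := by rw [hq]; push_cast; rfl
    rw [h8, h9]
    ring
  set n : ℚ := ∑ i, (a i : ℚ) with hndef
  have hnq : n = (p : ℚ) * A + E := by
    rw [hndef]
    exact_mod_cast hn
  have hn0 : 0 < n := by
    rw [hnq]
    have : (0 : ℚ) < p := by exact_mod_cast (by omega : 0 < p)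
    have : (0 : ℚ) < A := by exact_mod_cast (by omega : 0 < A)
    positivity
  have hmq : (m : ℚ) = ((A : ℚ) - 1) * (p - 1) + E := by
    rw [hm]
    push_cast [Nat.cast_sub (by omega : 1 ≤ A), Nat.cast_sub (by omega : 1 ≤ p)]
    ring
  set f : ι → ι → ℚ := fun u v => ((a v : ℚ) * g u - (a u : ℚ) * g v) / n with hf
  have hcap : ∀ u v, CapIneq A p E (e u) (e v) (ε u) (ε v) (τ u) (τ v) := by
    intro u v
    have hεu : Even (((A + e u : ℕ) : ℤ) + ε u) := by rw [← hae]; exact hε1 u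
    have hεv : Even (((A + e v : ℕ) : ℤ) + ε v) := by rw [← hae]; exact hε1 v
    rcases Nat.even_or_odd A with hAe | hAo
    · have hA4 : 4 ≤ A := by
        obtain ⟨k, hk⟩ := hAe
        omega
      exact h5 A p E (e u) (e v) (ε u) (ε v) (τ u) (τ v) hAe hA4 hEp hεu (hε2 u).1 (hε2 u).2
        hεv (hε2 v).1 (hε2 v).2 (hτ0 u) (hτp u) (hτz u) (hτ0 v) (hτp v) (hτz v)
    · have hneg : ∀ i, 0 < e i → ε i ≤ 0 := by
        intro i hi
        rcases Nat.even_or_odd (a i) with hai | hai
        · have h8 : Even (ε i) := by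
            have := hε1 i
            rw [Int.even_add] at this
            exact this.mp (by exact_mod_cast hai)
          obtain ⟨k, hk⟩ := h8
          have := (hε2 i).2
          omega
        · have h8 : ε i = -1 := by
            apply hε4
            rw [if_pos (Nat.odd_iff.mp hAo)]
            rw [Finset.mem_filter]
            refine ⟨Finset.mem_univ _, Nat.odd_iff.mp hai, ?_⟩
            rw [hae i]
            omega
          omega
      exact h4 A p E (e u) (e v) (ε u) (ε v) (τ u) (τ v) hAo hA hEp hεu (hε2 u).1 (hε2 u).2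
        hεv (hε2 v).1 (hε2 v).2 (hneg u) (hneg v) (hτ0 u) (hτp u) (hτz u) (hτ0 v) (hτp v) (hτz v)
  have hfle : ∀ u v, |f u v| ≤ (a u : ℚ) * a v - ((A + 1 + cE (e u) + cE (e v) : ℕ) : ℚ) := by
    intro u v
    have h8 := hcap u v
    unfold CapIneq at h8
    rw [← hnq, ← hmq, ← hae, ← hae] at h8
    have hau : (A : ℚ) + (e u : ℚ) = a u := by rw [hae u]; push_cast; ring
    have hav : (A : ℚ) + (e v : ℚ) = a v := by rw [hae v]; push_cast; ring
    rw [hau, hav] at h8
    simp only [hf, hg]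
    rw [abs_div, abs_of_pos hn0, div_le_iff₀ hn0]
    calc |(a v : ℚ) * ((m : ℚ) * ε u + τ u - ((a u % 2 : ℕ) : ℚ)) -
          (a u : ℚ) * ((m : ℚ) * ε v + τ v - ((a v % 2 : ℕ) : ℚ))| ≤ _ := h8
      _ = _ := by ring
  have hTC : TCm a (ι ⊕ Fin m) := by
    refine h6 a A m H ε f (by omega) hle (by omega) hcount hHs hHd hHr hε1 hε2 ?_ ?_ ?_ (by
      exact hqp.trans hpm)
    · intro u v
      simp only [hf]
      ring
    · intro u v huv
      have h8 := hfle u v
      have h9 : ∑ i, (H i u v : ℚ) ≤ ((A + 1 + cE (e u) + cE (e v) : ℕ) : ℚ) := by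
        exact_mod_cast hHt u v huv
      linarith
    · intro u
      have h8 : ∑ v, f u v = g u := by
        simp only [hf]
        rw [← Finset.sum_div, Finset.sum_sub_distrib, ← Finset.sum_mul, ← Finset.mul_sum, hgs,
          ← hndef]
        field_simp
        ring
      rw [h8]
      have h9 : g u + ((a u % 2 : ℕ) : ℚ) - m * ε u = τ u := by
        simp only [hg]
        ring
      rw [h9, abs_of_nonneg (hτ0 u)]
      refine (hτle u).trans (le_of_eq ?_)
      have hau : (e u : ℚ) = (a u : ℚ) - A := by rw [hae u]; push_cast; ring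
      rw [hau]
  apply h7 a _ _ hTC
  rw [Fintype.card_sum, Fintype.card_fin, ← hpdef]
  omega

end Pool.Agent.H301R2.HR
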