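import Pool.Agent.H301R2.HR.SP

set_option autoImplicit false

/-! Task C3: `n` even, minimum two. -/

namespace Pool.Agent.H301R2.HR

open Finset

theorem C3_aux (h1 : S_C3a) (h2 : S_REF) : ∀ (D : ℕ) {ι : Type} [Fintype ι] [DecidableEq ι]
    (a : ι → ℕ), ∑ i, a i * (a i - 2) = D → (∃ i, a i = 2) → (∀ i, 2 ≤ a i) →
    3 ≤ Fintype.card ι → Even (∑ i, a i) →
    ∑ i, a i * (a i - 2) < (∑ i, a i) - 2 → TCm a (Fin ((∑ i, a i) - 1)) := by
  intro D
  induction D using Nat.strong_induction_on with
  | _ D ih =>
    intro ι _ _ a hD hex hmin hcard heven hlt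
    by_cases hbig : ∃ j, 4 ≤ a j
    · obtain ⟨j, hj⟩ := hbig
      let b : Option ι → ℕ := fun o => o.elim 2 (fun i => if i = j then a i - 2 else a i)
      have hsum : ∑ o, b o = ∑ i, a i := by
        rw [Fintype.sum_option]
        have e1 : ∑ i, (if i = j then a i - 2 else a i) + 2 = ∑ i, a i := by
          rw [← Finset.add_sum_erase _ _ (mem_univ j), ← Finset.add_sum_erase (a := j) _ a (mem_univ j),
            if_pos rfl]
          have e2 : ∑ i ∈ univ.erase j, (if i = j then a i - 2 else a i) = ∑ i ∈ univ.erase j, a i :=
            sum_congr rfl fun i hi => if_neg (ne_of_mem_erase hi)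
          rw [e2]
          omega
        show 2 + ∑ i, (if i = j then a i - 2 else a i) = _
        omega
      have hD' : ∑ o, b o * (b o - 2) + 4 * (a j - 2) = ∑ i, a i * (a i - 2) := by
        rw [Fintype.sum_option]
        have e0 : b none * (b none - 2) = 0 := rfl
        have e1 : ∑ i, b (some i) * (b (some i) - 2) + 4 * (a j - 2) = ∑ i, a i * (a i - 2) := by
          rw [← Finset.add_sum_erase _ _ (mem_univ j),
            ← Finset.add_sum_erase (a := j) _ (fun i => a i * (a i - 2)) (mem_univ j)]
          have e2 : ∑ i ∈ univ.erase j, b (some i) * (b (some i) - 2) =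
              ∑ i ∈ univ.erase j, a i * (a i - 2) := by
            refine sum_congr rfl fun i hi => ?_
            have : b (some i) = a i := if_neg (ne_of_mem_erase hi)
            rw [this]
          have e3 : b (some j) = a j - 2 := if_pos rfl
          rw [e2, e3]
          obtain ⟨c, hc⟩ : ∃ c, a j = c + 4 := ⟨a j - 4, by omega⟩
          rw [hc]
          have e4 : c + 4 - 2 = c + 2 := by omega
          have e5 : c + 2 - 2 = c := by omega
          rw [e4, e5]
          ring
        rw [e0, zero_add]
        exact e1
      have hlt' : ∑ o, b o * (b o - 2) < D := by omega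
      have hT := ih _ hlt' b rfl ⟨none, rfl⟩
        (by
          intro o
          cases o with
          | none => exact le_rfl
          | some i =>
            show 2 ≤ (if i = j then a i - 2 else a i)
            split_ifs with hi
            · rw [hi]; omega
            · exact hmin i)
        (by rw [Fintype.card_option]; omega) (by rw [hsum]; exact heven)
        (by rw [hsum]; omega)
      rw [hsum] at hT
      exact h2 a j 2 (hmin j) hT
    · push Not at hbig
      have h23 : ∀ i, a i = 2 ∨ a i = 3 := by
        intro i
        have := hmin i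
        have := hbig i
        omega
      refine h1 a h23 ?_ hcard heven
      have hpt : ∀ i, a i = 2 * (if a i = 2 then 1 else 0) + a i * (a i - 2) := by
        intro i
        rcases h23 i with h | h <;> rw [h] <;> norm_num
      have hsum : ∑ i, a i = 2 * (univ.filter fun i => a i = 2).card + ∑ i, a i * (a i - 2) := by
        rw [card_filter, mul_sum, ← sum_add_distrib]
        exact sum_congr rfl fun i _ => hpt i
      omega

theorem T_C3 (h1 : S_C3a) (h2 : S_REF) (h3 : S_CARD) : S_C3 := by
  intro ι _ _ a hex hmin hcard heven hlt
  exact C3_aux h1 h2 _ a rfl hex hmin hcard heven hlt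

end Pool.Agent.H301R2.HR
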