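import Pool.Agent.H301R2.HR.SP

set_option autoImplicit false

/-! Parts of sizes 2 and 3. -/

namespace Pool.Agent.H301R2.HR

open Finset

/-- the sign of a part of size two is zero -/
theorem C3a_eps_two {e : ℤ} {x : ℕ} (hx : x = 2) (h : Even ((x : ℤ) + e)) (h1 : -1 ≤ e)
    (h2 : e ≤ 1) : e = 0 := by
  subst hx
  obtain ⟨k, hk⟩ := h
  push_cast at hk
  omega

theorem C3a_cap (n m : ℚ) (x y : ℕ) (e e' : ℤ) (hn : 0 < n) (hm : 0 ≤ m) (hmn : m ≤ n)
    (hmn3 : 3 * m ≤ 2 * n) (hx : x = 2 ∨ x = 3) (hy : y = 2 ∨ y = 3)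
    (he : Even ((x : ℤ) + e)) (he1 : -1 ≤ e) (he2 : e ≤ 1)
    (he' : Even ((y : ℤ) + e')) (he1' : -1 ≤ e') (he2' : e' ≤ 1) :
    |((y : ℚ) * (m * e) - x * (m * e')) / n| + (4 + ((x % 2 : ℕ) : ℚ) * ((y % 2 : ℕ) : ℚ)) ≤
      (x : ℚ) * y := by
  have q1 : (-1 : ℚ) ≤ e := by exact_mod_cast he1
  have q2 : (e : ℚ) ≤ 1 := by exact_mod_cast he2
  have q1' : (-1 : ℚ) ≤ e' := by exact_mod_cast he1'
  have q2' : (e' : ℚ) ≤ 1 := by exact_mod_cast he2'
  have a1 : m * e ≤ m := by nlinarith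
  have a2 : -m ≤ m * e := by nlinarith
  have a3 : m * e' ≤ m := by nlinarith
  have a4 : -m ≤ m * e' := by nlinarith
  rw [abs_div, abs_of_pos hn]
  have key : ∀ c : ℚ, |(y : ℚ) * (m * e) - x * (m * e')| ≤ c * n →
      |(y : ℚ) * (m * e) - x * (m * e')| / n ≤ c := fun c hc => by
    rw [div_le_iff₀ hn]; exact hc
  rcases hx with hx | hx <;> rcases hy with hy | hy
  · have z1 := C3a_eps_two hx he he1 he2
    have z2 := C3a_eps_two hy he' he1' he2'
    subst hx hy z1 z2
    have := key 0 (by simp)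
    norm_num at this ⊢
    try linarith
  · have z1 := C3a_eps_two hx he he1 he2
    subst hx hy z1
    have := key 2 (by
      rw [abs_le]
      push_cast
      constructor <;> linarith)
    push_cast at this ⊢
    norm_num at this ⊢
    linarith
  · have z2 := C3a_eps_two hy he' he1' he2'
    subst hx hy z2
    have := key 2 (by
      rw [abs_le]
      push_cast
      constructor <;> linarith)
    push_cast at this ⊢
    norm_num at this ⊢
    linarith
  · subst hx hy
    have := key 4 (by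
      rw [abs_le]
      push_cast
      constructor <;> linarith)
    push_cast at this ⊢
    norm_num at this ⊢
    linarith

theorem T_C3a (h1 : S_SP2) (h2 : S_2233) (h3 : S_EPS) (h4 : S_ASM) (h5 : S_CARD) : S_C3a := by
  intro ι _ _ a ha hr hp hev
  by_cases hex : Fintype.card ι = 4 ∧ ∑ i, a i = 10
  · have := h2 a ha hex.1 hex.2
    rw [hex.2]
    exact this
  obtain ⟨H, hHs, hHd, hHdeg, hHc⟩ := h1 a ha hr hp hev hex
  obtain ⟨ε, hε1, hε2, hε3, -⟩ := h3 a ∅ hev (by simp) (by simp)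
  -- counting
  have hsum : ∑ i, a i = 2 * Fintype.card ι + ∑ i, a i % 2 := by
    have e1 : ∀ i ∈ (univ : Finset ι), a i = 2 + a i % 2 := by
      intro i _
      rcases ha i with h | h <;> rw [h]
    rw [Finset.sum_congr rfl e1, Finset.sum_add_distrib, Finset.sum_const, Finset.card_univ,
      smul_eq_mul, mul_comm]
  have hcard : (univ.filter fun i => a i = 2).card + ∑ i, a i % 2 = Fintype.card ι := by
    rw [Finset.card_filter, ← Finset.sum_add_distrib, ← Finset.card_univ, Finset.card_eq_sum_ones]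
    apply Finset.sum_congr rfl
    intro i _
    rcases ha i with h | h <;> rw [h] <;> rfl
  set t := ∑ i, a i % 2 with ht
  set p := Fintype.card ι with hpdef
  obtain ⟨m, hm⟩ : ∃ m, m = p + t - 1 := ⟨_, rfl⟩
  have hm0 : 0 < m := by omega
  have hn : ∑ i, a i = p + m + 1 := by omega
  have hnq : (∑ i, (a i : ℚ)) = p + m + 1 := by exact_mod_cast hn
  have hmq : (0 : ℚ) ≤ m := by positivity
  have hN0 : (0 : ℚ) < ∑ i, (a i : ℚ) := by rw [hnq]; positivity
  have hmN : (m : ℚ) ≤ ∑ i, (a i : ℚ) := by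
    rw [hnq]
    have : (0 : ℚ) ≤ p := by positivity
    linarith
  have hmN3 : 3 * (m : ℚ) ≤ 2 * ∑ i, (a i : ℚ) := by
    rw [hnq]
    have : 3 * m ≤ 2 * (p + m + 1) := by omega
    exact_mod_cast this
  set n : ℚ := ∑ i, (a i : ℚ) with hndef
  have hε3q : ∑ i, (ε i : ℚ) = 0 := by exact_mod_cast hε3
  have hres : TCm a (ι ⊕ Fin m) := by
    refine h4 a 2 m H ε (fun u v => ((a v : ℚ) * (m * ε u) - a u * (m * ε v)) / n) (by norm_num)
      ?_ hm0 ?_ hHs hHd ?_ hε1 hε2 ?_ ?_ ?_ ?_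
    · intro i
      rcases ha i with h | h <;> omega
    · change p + m + 2 = ∑ i, a i + 1
      omega
    · exact hHdeg
    · intro u v
      ring
    · intro u v huv
      have hc := hHc u v huv
      have hcq : ∑ i, (H i u v : ℚ) ≤ 4 + ((a u % 2 : ℕ) : ℚ) * ((a v % 2 : ℕ) : ℚ) := by
        exact_mod_cast hc
      have := C3a_cap n m (a u) (a v) (ε u) (ε v) hN0 hmq hmN hmN3 (ha u) (ha v) (hε1 u)
        (hε2 u).1 (hε2 u).2 (hε1 v) (hε2 v).1 (hε2 v).2
      change |((a v : ℚ) * (m * ε u) - a u * (m * ε v)) / n| + ∑ i, (H i u v : ℚ) ≤ a u * a v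
      linarith
    · intro u
      have hflow : ∑ v, ((a v : ℚ) * (m * ε u) - a u * (m * ε v)) / n = m * ε u := by
        rw [← Finset.sum_div, Finset.sum_sub_distrib, ← Finset.sum_mul, ← Finset.mul_sum,
          ← Finset.mul_sum, hε3q, mul_zero, mul_zero, sub_zero, mul_div_assoc,
          ← hndef]
        field_simp
      rw [hflow]
      rcases ha u with h | h <;> rw [h] <;> norm_num
    · change t ≤ m
      omega
  have hfin := h5 a (∑ i, a i - 1) (by
    rw [Fintype.card_sum, Fintype.card_fin]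
    change p + m ≤ _
    omega) hres
  exact hfin

end Pool.Agent.H301R2.HR
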