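import Pool.Agent.H301R2.HR.SP

set_option autoImplicit false

/-! Case 4: minimum one, by splitting the parts of size two. -/

namespace Pool.Agent.H301R2.HR

open Finset

theorem C4_sum {ι : Type} [Fintype ι] [DecidableEq ι] (a : ι → ℕ) (j : ι) (F : ℕ → ℕ) :
    (∑ o : Option ι, F ((fun o : Option ι => o.elim 1 (fun i => if i = j then a i - 1 else a i)) o)) +
      F (a j) =
      F 1 + (∑ i, F (a i)) + F (a j - 1) := by
  rw [Fintype.sum_option]
  simp only [Option.elim]
  rw [← Finset.add_sum_erase univ (fun i => F (if i = j then a i - 1 else a i)) (mem_univ j),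
    ← Finset.add_sum_erase univ (fun i => F (a i)) (mem_univ j)]
  have : ∑ i ∈ univ.erase j, F (if i = j then a i - 1 else a i) = ∑ i ∈ univ.erase j, F (a i) := by
    refine Finset.sum_congr rfl fun i hi => ?_
    rw [if_neg (Finset.ne_of_mem_erase hi)]
  rw [this]
  simp only [if_true]
  ring

theorem C4_ind (h1 : S_C4a) (h2 : S_REF) (t : ℕ) : ∀ {ι : Type} [Fintype ι] [DecidableEq ι]
    (a : ι → ℕ), (∑ i, if a i = 2 then 1 else 0) = t → (∃ i, a i = 1) → (∀ i, 1 ≤ a i) →
    Even (∑ i, a i) → ∑ i, a i % 2 ≤ ∑ i, a i * (a i - 1) →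
    ∑ i, a i * (a i - 1) < (∑ i, a i) - 1 → TCm a (Fin (∑ i, a i)) := by
  induction t with
  | zero =>
    intro ι _ _ a ht hex hle hev hq hD
    refine h1 a hex hle hev hq hD (Or.inr fun i hi => ?_)
    rw [Finset.sum_eq_zero_iff] at ht
    have := ht i (mem_univ i)
    rw [if_pos hi] at this
    omega
  | succ t ih =>
    intro ι _ _ a ht hex hle hev hq hD
    by_cases hlt : ∑ i, a i * (a i - 1) < ∑ i, a i % 2 + 4
    · exact h1 a hex hle hev hq hD (Or.inl hlt)
    obtain ⟨j, hj⟩ : ∃ j, a j = 2 := by
      by_contra hcon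
      push Not at hcon
      rw [Finset.sum_eq_zero (fun i _ => if_neg (hcon i))] at ht
      omega
    obtain ⟨b, hb⟩ : ∃ b : Option ι → ℕ,
        b = fun o : Option ι => o.elim 1 (fun i => if i = j then a i - 1 else a i) := ⟨_, rfl⟩
    have e1 : (∑ o, b o) + 2 = 1 + (∑ i, a i) + 1 := by
      have := C4_sum a j (fun k => k)
      rw [hj, ← hb] at this
      exact this
    have e2 : (∑ o, b o % 2) + 0 = 1 + (∑ i, a i % 2) + 1 := by
      have := C4_sum a j (fun k => k % 2)
      rw [hj, ← hb] at this
      exact this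
    have e3 : (∑ o, b o * (b o - 1)) + 2 = 0 + (∑ i, a i * (a i - 1)) + 0 := by
      have := C4_sum a j (fun k => k * (k - 1))
      rw [hj, ← hb] at this
      exact this
    have e4 : (∑ o, if b o = 2 then 1 else 0) + 1 = 0 + (∑ i, if a i = 2 then 1 else 0) + 0 := by
      have := C4_sum a j (fun k => if k = 2 then 1 else 0)
      rw [hj, ← hb] at this
      exact this
    refine h2 a j 1 (hle j) ?_
    rw [← hb]
    have e5 : (∑ o, b o) = ∑ i, a i := by omega
    have key := ih b ?_ ⟨none, by rw [hb]; rfl⟩ ?_ ?_ ?_ ?_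
    · rw [e5] at key
      exact key
    · omega
    · intro o
      rw [hb]
      cases o with
      | none => exact le_rfl
      | some i =>
        simp only [Option.elim]
        split_ifs with h
        · subst h
          omega
        · exact hle i
    · rw [e5]
      exact hev
    · omega
    · omega

theorem T_C4 (h1 : S_C4a) (h2 : S_REF) : S_C4 := by
  intro ι _ _ a hex hle hev hq hD
  exact C4_ind h1 h2 _ a rfl hex hle hev hq hD

end Pool.Agent.H301R2.HR
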