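import Pool.Agent.H301R2.HR.SP

/-!
# C4G: minimum one, the construction
-/

set_option autoImplicit false

namespace Pool.Agent.H301R2.HR

open Finset

/-- the special classes -/
def C4G_x {B : Type} [DecidableEq B] (b lam : B → ℕ) (j : B) : Option B → Option B → ℕ
  | none, none => lam j
  | none, some l => if l = j then b l % 2 else b l
  | some l, none => if l = j then b l % 2 else b l
  | some _, some _ => 0

/-- own colours in the special classes -/
def C4G_s {B : Type} [DecidableEq B] (b : B → ℕ) (j : B) : Option B → ℕ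
  | none => 0
  | some l => if l = j then b l - b l % 2 else 0

/-- the remaining multigraph -/
def C4G_R {B : Type} [DecidableEq B] (b : B → ℕ) (c : ℕ) : Option B → Option B → ℕ
  | none, none => 0
  | none, some l => c * b l - b l % 2
  | some l, none => c * b l - b l % 2
  | some l, some l' => if l = l' then 0 else b l * b l'

/-- the remaining loops -/
def C4G_L {B : Type} (L0 : ℕ) : Option B → ℕ
  | none => L0
  | some _ => 0

/-- the remaining own colours -/
def C4G_o {B : Type} (b : B → ℕ) (r : ℕ) : Option B → ℕ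
  | none => r
  | some l => b l % 2

/-- the star flow -/
def C4G_f {B : Type} (g : B → ℚ) : Option B → Option B → ℚ
  | none, none => 0
  | none, some l => - g l
  | some l, none => g l
  | some _, some _ => 0

/-- the signs -/
def C4G_e {B : Type} (ε : B → ℤ) (r : ℕ) : Option B → ℤ
  | none => ((r % 2 : ℕ) : ℤ)
  | some l => ε l

theorem C4G_eps {B : Type} [Fintype B] [DecidableEq B] (b : B → ℕ) (r : ℕ)
    (hev : Even (r + ∑ j, b j)) : ∃ ε : B → ℤ, (∀ l, b l % 2 = 0 → ε l = 0) ∧
      (∀ l, b l % 2 = 1 → (ε l = -1 ∨ (ε l = 1 ∧ ∃ j, l ≠ j ∧ b j % 2 = 1))) ∧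
      ∑ l, ε l = -((r % 2 : ℕ) : ℤ) := by
  set O : Finset B := univ.filter (fun l => b l % 2 = 1) with hO
  have hOc : O.card = ∑ l, b l % 2 := by
    rw [hO, card_filter]
    refine sum_congr rfl fun l _ => ?_
    rcases Nat.mod_two_eq_zero_or_one (b l) with h | h <;> simp [h]
  have hpar : (r + O.card) % 2 = 0 := by
    have h1 : (∑ l, b l) % 2 = (∑ l, b l % 2) % 2 := by
      rw [sum_nat_mod]
    have h2 := Nat.even_iff.mp hev
    rw [hOc]
    omega
  obtain ⟨P, hPO, hPc⟩ := exists_subset_card_eq (s := O) (n := (O.card - r % 2) / 2) (by omega)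
  have hOP : O.card = 2 * P.card + r % 2 := by omega
  refine ⟨fun l => if l ∈ P then 1 else if l ∈ O then -1 else 0, ?_, ?_, ?_⟩
  · intro l hl
    have h1 : l ∉ O := by
      rw [hO, mem_filter]
      rintro ⟨-, h⟩
      omega
    have h2 : l ∉ P := fun h => h1 (hPO h)
    simp only [h1, h2, if_false]
  · intro l hl
    have h1 : l ∈ O := by
      rw [hO, mem_filter]
      exact ⟨mem_univ l, hl⟩
    by_cases h2 : l ∈ P
    · right
      refine ⟨by simp only [h2, if_true], ?_⟩
      have h3 : 0 < (O \ P).card := by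
        rw [card_sdiff_of_subset hPO]
        have : 0 < P.card := card_pos.mpr ⟨l, h2⟩
        omega
      obtain ⟨j, hj⟩ := card_pos.mp h3
      rw [mem_sdiff, hO, mem_filter] at hj
      refine ⟨j, ?_, hj.1.2⟩
      rintro rfl
      exact hj.2 h2
    · left
      simp only [h1, h2, if_true, if_false]
  · have h1 : ∀ l : B, (if l ∈ P then (1 : ℤ) else if l ∈ O then -1 else 0) =
        2 * (if l ∈ P then 1 else 0) - (if l ∈ O then 1 else 0) := by
      intro l
      by_cases h2 : l ∈ P
      · have h3 : l ∈ O := hPO h2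
        simp only [h2, h3, if_true]
        norm_num
      · by_cases h3 : l ∈ O
        · simp only [h2, h3, if_true, if_false]
          norm_num
        · simp only [h2, h3, if_false]
          norm_num
    rw [sum_congr rfl fun l _ => h1 l, sum_sub_distrib, ← mul_sum]
    rw [sum_ite_mem, sum_ite_mem, univ_inter, univ_inter, sum_const, sum_const, hOP]
    simp

theorem C4G_tau {B : Type} [Fintype B] (d : B → ℕ) (q : ℕ) (hq : q ≤ ∑ j, d j) :
    ∃ τ : B → ℚ, (∀ l, 0 ≤ τ l ∧ τ l ≤ d l) ∧ ∑ l, τ l = q := by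
  by_cases h0 : ∑ j, d j = 0
  · refine ⟨fun _ => 0, fun l => ⟨le_rfl, by positivity⟩, ?_⟩
    rw [sum_const_zero]
    have : q = 0 := by omega
    rw [this]
    simp
  · have hD : (0 : ℚ) < (∑ j, d j : ℕ) := by
      exact_mod_cast Nat.pos_of_ne_zero h0
    have hq' : (q : ℚ) ≤ (∑ j, d j : ℕ) := by exact_mod_cast hq
    refine ⟨fun l => q / (∑ j, d j : ℕ) * d l, fun l => ⟨by positivity, ?_⟩, ?_⟩
    · have h1 : (q : ℚ) / (∑ j, d j : ℕ) ≤ 1 := by
        rw [div_le_one hD]
        exact hq'
      calc (q : ℚ) / (∑ j, d j : ℕ) * d l ≤ 1 * d l :=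
            mul_le_mul_of_nonneg_right h1 (by positivity)
        _ = d l := one_mul _
    · rw [← mul_sum]
      have h2 : ∑ l, (d l : ℚ) = (∑ j, d j : ℕ) := by push_cast; rfl
      rw [h2, div_mul_cancel₀ _ hD.ne']

theorem T_C4G (h1 : S_C4I) (h2 : S_OT) (h3 : S_DT) : S_C4G := by
  intro B _ _ b r hr hb hne hev hq hD halt
  obtain ⟨i1, i2, i3, i4, i5, i6⟩ := h1 b r hr hb hne hev hq hD halt
  obtain ⟨ε, hε0, hε1, hεs⟩ := C4G_eps b r hev
  obtain ⟨τ, hτ, hτs⟩ := C4G_tau (fun j => b j * (b j - 1)) (r + ∑ j, b j % 2) hq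
  set NB : ℕ := ∑ j, b j with hNB
  set s : ℕ := Fintype.card B with hs
  set O : ℕ := ∑ j, b j % 2 with hO
  obtain ⟨c, hc⟩ : ∃ c, c = r + 1 - s := ⟨_, rfl⟩
  rw [← hc] at i4 i5 i6
  have hcs : c + s = r + 1 := by omega
  have hspos : 0 < s := Fintype.card_pos
  have hNBs : 2 * s ≤ NB := by
    rw [hs, hNB, ← Finset.card_univ, mul_comm, ← smul_eq_mul, ← sum_const]
    exact sum_le_sum fun j _ => hb j
  have hOs : O + s ≤ NB := by
    rw [hs, hNB, hO, ← Finset.card_univ, card_eq_sum_ones, ← sum_add_distrib]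
    refine sum_le_sum fun j _ => ?_
    have := hb j
    omega
  obtain ⟨m, hm⟩ : ∃ m, m = r + NB - s := ⟨_, rfl⟩
  have hms : m + s = r + NB := by omega
  rw [← hm]
  -- the loops
  have hev2 := Nat.even_iff.mp hev
  obtain ⟨lam, hlam⟩ : ∃ lam : B → ℕ, ∀ j, 2 * lam j + NB + b j % 2 = r + b j := by
    refine ⟨fun j => (r + b j - NB - b j % 2) / 2, fun j => ?_⟩
    have := i1 j
    change 2 * ((r + b j - NB - b j % 2) / 2) + NB + b j % 2 = r + b j
    omega
  have hlams : ∑ j, 2 * lam j ≤ r * (r - 1) := by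
    refine le_trans (le_of_eq (sum_congr rfl fun j _ => ?_)) i3
    have := hlam j
    omega
  obtain ⟨L0, hL0⟩ : ∃ L0 : ℕ, 2 * L0 + ∑ j, 2 * lam j = r * (r - 1) := by
    have h4 : Even (r * (r - 1)) := Nat.even_mul_pred_self r
    obtain ⟨t, ht⟩ := h4
    refine ⟨t - ∑ j, lam j, ?_⟩
    rw [← mul_sum] at hlams ⊢
    omega
  -- rational forms
  have qNB : (NB : ℚ) = ∑ j, (b j : ℚ) := by rw [hNB]; push_cast; rfl
  have qO : (O : ℚ) = ∑ j, ((b j % 2 : ℕ) : ℚ) := by rw [hO]; push_cast; rfl
  have qc : (c : ℚ) = r + 1 - s := by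
    have : ((c + s : ℕ) : ℚ) = ((r + 1 : ℕ) : ℚ) := by rw [hcs]
    push_cast at this
    linarith
  have qm : (m : ℚ) = r + NB - s := by
    have : ((m + s : ℕ) : ℚ) = ((r + NB : ℕ) : ℚ) := by rw [hms]
    push_cast at this
    linarith
  have hr1 : ((r - 1 : ℕ) : ℚ) = r - 1 := by
    rw [Nat.cast_sub hr]
    simp
  have qlam : ∑ j, (2 * (lam j : ℚ)) = s * r + NB - s * NB - O := by
    have h5 : ∀ j, (2 * (lam j : ℚ)) = r + b j - NB - ((b j % 2 : ℕ) : ℚ) := by
      intro j
      have h6 : ((2 * lam j + NB + b j % 2 : ℕ) : ℚ) = ((r + b j : ℕ) : ℚ) := by rw [hlam j]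
      rw [Nat.cast_add, Nat.cast_add, Nat.cast_add, Nat.cast_mul] at h6
      push_cast at h6 ⊢
      linarith
    rw [sum_congr rfl fun j _ => h5 j, sum_sub_distrib, sum_sub_distrib, sum_add_distrib,
      sum_const, sum_const, ← qNB, ← qO, Finset.card_univ, ← hs, nsmul_eq_mul, nsmul_eq_mul]
  have qL : 2 * (L0 : ℚ) + (s * r + NB - s * NB - O) = r * (r - 1) := by
    have h6 : ((2 * L0 + ∑ j, 2 * lam j : ℕ) : ℚ) = ((r * (r - 1) : ℕ) : ℚ) := by rw [hL0]
    rw [Nat.cast_add, Nat.cast_mul, Nat.cast_mul, hr1, Nat.cast_sum] at h6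
    rw [← qlam, ← h6]
    push_cast
    rfl
  have hsub : ∀ l, b l % 2 ≤ c * b l := by
    intro l
    have h7 : 1 ≤ c := by omega
    calc b l % 2 ≤ 1 * b l := by have := hb l; omega
      _ ≤ c * b l := Nat.mul_le_mul_right _ h7
  have qR : ∀ l, ((c * b l - b l % 2 : ℕ) : ℚ) = c * b l - ((b l % 2 : ℕ) : ℚ) := by
    intro l
    rw [Nat.cast_sub (hsub l), Nat.cast_mul]
  have qb1 : ∀ l, ((b l - 1 : ℕ) : ℚ) = b l - 1 := by
    intro l
    rw [Nat.cast_sub (by have := hb l; omega)]
    simp
  have qbb : ∀ l, ((b l * (b l - 1) : ℕ) : ℚ) = b l * (b l - 1) := by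
    intro l
    rw [Nat.cast_mul, qb1]
  obtain ⟨g, hg⟩ : ∃ g : B → ℚ, ∀ l, g l = m * ε l + τ l - ((b l % 2 : ℕ) : ℚ) :=
    ⟨_, fun _ => rfl⟩
  have hgs : ∑ l, g l = -(m * ((r % 2 : ℕ) : ℚ)) + r := by
    rw [sum_congr rfl fun l _ => hg l, sum_sub_distrib, sum_add_distrib, ← mul_sum, hτs, ← qO]
    have h8 : ∑ l, (ε l : ℚ) = -((r % 2 : ℕ) : ℚ) := by
      have : ((∑ l, ε l : ℤ) : ℚ) = ((-((r % 2 : ℕ) : ℤ) : ℤ) : ℚ) := by rw [hεs]
      rw [Int.cast_sum, Int.cast_neg, Int.cast_natCast] at this
      exact this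
    rw [h8, Nat.cast_add]
    ring
  have hgR : ∀ l, |g l| ≤ ((c * b l - b l % 2 : ℕ) : ℚ) := by
    intro l
    have hτl := hτ l
    rw [qbb] at hτl
    rw [hg l, qR l, abs_le]
    rcases Nat.mod_two_eq_zero_or_one (b l) with hl | hl
    · rw [hε0 l hl, hl]
      have h9 : ((b l * (b l - 1) : ℕ) : ℚ) ≤ ((c * b l : ℕ) : ℚ) := by exact_mod_cast i4 l hl
      rw [qbb, Nat.cast_mul] at h9
      have h10 : (0 : ℚ) ≤ c * b l := by positivity
      push_cast
      constructor <;> linarith [hτl.1, hτl.2]
    · obtain ⟨h9, h10⟩ := i5 l hl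
      have h9' : ((r + NB + 2 : ℕ) : ℚ) ≤ ((c * b l + s : ℕ) : ℚ) := by exact_mod_cast h9
      have h10' : ((b l * (b l - 1) : ℕ) : ℚ) ≤ ((c * b l + (r + NB - s) : ℕ) : ℚ) := by
        exact_mod_cast h10
      rw [← hm] at h10'
      rw [qbb] at h10'
      push_cast at h9' h10'
      rcases hε1 l hl with hv | ⟨hv, j, hlj, hj⟩
      · rw [hv, hl]
        push_cast
        constructor <;> linarith [hτl.1, hτl.2]
      · have h11 := i6 l j hlj hl hj
        have h11' : ((r + NB + b l * (b l - 1) : ℕ) : ℚ) ≤ ((c * b l + s : ℕ) : ℚ) := by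
          exact_mod_cast h11
        rw [Nat.cast_add, qbb] at h11'
        push_cast at h11'
        rw [hv, hl]
        have h12 : (0 : ℚ) ≤ c * b l := by positivity
        have h13 : (1 : ℚ) ≤ m := by
          have : 1 ≤ m := by omega
          exact_mod_cast this
        push_cast
        constructor <;> linarith [hτl.1, hτl.2]
  -- row sums of R
  have hRsymm : ∀ u v, C4G_R b c u v = C4G_R b c v u := by
    rintro (_ | l) (_ | l')
    · rfl
    · rfl
    · rfl
    · change (if l = l' then 0 else b l * b l') = (if l' = l then 0 else b l' * b l)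
      by_cases h : l = l'
      · rw [if_pos h, if_pos h.symm]
      · rw [if_neg h, if_neg (fun hh => h hh.symm), mul_comm]
  have hRdiag : ∀ u, C4G_R b c u u = 0 := by
    rintro (_ | l)
    · rfl
    · simp [C4G_R]
  have hRnone : ∑ v, (C4G_R b c none v : ℚ) = c * NB - O := by
    rw [Fintype.sum_option]
    have h14 : ∀ l, (C4G_R b c none (some l) : ℚ) = c * b l - ((b l % 2 : ℕ) : ℚ) := fun l => qR l
    rw [sum_congr rfl fun l _ => h14 l, sum_sub_distrib, ← mul_sum, ← qNB, ← qO]
    have h15 : (C4G_R b c none none : ℚ) = 0 := by simp [C4G_R]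
    rw [h15, zero_add]
  have hRsome : ∀ l, ∑ v, (C4G_R b c (some l) v : ℚ) =
      (c * b l - ((b l % 2 : ℕ) : ℚ)) + b l * (NB - b l) := by
    intro l
    rw [Fintype.sum_option]
    have h14 : (C4G_R b c (some l) none : ℚ) = c * b l - ((b l % 2 : ℕ) : ℚ) := qR l
    rw [h14]
    congr 1
    have h15 : ∀ l', (C4G_R b c (some l) (some l') : ℚ) =
        b l * b l' - (if l = l' then (b l : ℚ) * b l' else 0) := by
      intro l'
      change (((if l = l' then 0 else b l * b l') : ℕ) : ℚ) = _
      by_cases h : l = l'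
      · rw [if_pos h, if_pos h]
        push_cast
        ring
      · rw [if_neg h, if_neg h]
        push_cast
        ring
    rw [sum_congr rfl fun l' _ => h15 l', sum_sub_distrib, ← mul_sum, ← qNB, sum_ite_eq,
      if_pos (mem_univ l)]
    ring
  -- the tool
  have hOT := h2 (N := Option B) (fun u => u.elim r b) (C4G_R b c) (C4G_L L0) (C4G_o b r) m
    (C4G_e ε r) (C4G_f g) (by omega)
    (by
      rintro (_ | l)
      · exact hr
      · have := hb l
        change 0 < b l
        omega)
    hRsymm hRdiag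
    (by
      rintro (_ | l)
      · change Even ((r : ℤ) + ((r % 2 : ℕ) : ℤ))
        rw [Int.even_iff]
        omega
      · change Even ((b l : ℤ) + ε l)
        rw [Int.even_iff]
        rcases Nat.mod_two_eq_zero_or_one (b l) with hl | hl
        · rw [hε0 l hl]
          omega
        · rcases hε1 l hl with hv | ⟨hv, -⟩
          · rw [hv]
            omega
          · rw [hv]
            omega)
    (by
      rintro (_ | l)
      · change -1 ≤ ((r % 2 : ℕ) : ℤ) ∧ ((r % 2 : ℕ) : ℤ) ≤ 1
        omega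
      · change -1 ≤ ε l ∧ ε l ≤ 1
        rcases Nat.mod_two_eq_zero_or_one (b l) with hl | hl
        · rw [hε0 l hl]
          omega
        · rcases hε1 l hl with hv | ⟨hv, -⟩
          · rw [hv]
            omega
          · rw [hv]
            omega)
    (by
      rintro (_ | l) (_ | l')
      · simp [C4G_f]
      · rfl
      · simp [C4G_f]
      · simp [C4G_f])
    (by
      rintro (_ | l) (_ | l') huv
      · exact absurd rfl huv
      · change |-(g l')| ≤ ((c * b l' - b l' % 2 : ℕ) : ℚ)
        rw [abs_neg]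
        exact hgR l'
      · exact hgR l
      · change |(0 : ℚ)| ≤ _
        rw [abs_zero]
        positivity)
    (by
      rintro (_ | l)
      · rw [hRnone, Fintype.sum_option]
        change |0 + ∑ l, -(g l) + (r : ℚ) - m * (((r % 2 : ℕ) : ℤ) : ℚ)| ≤
          m * (r : ℚ) - (c * NB - O + 2 * (L0 : ℚ) + (r : ℚ))
        rw [sum_neg_distrib, hgs]
        have h16 : (0 : ℚ) + -(-(m * ((r % 2 : ℕ) : ℚ)) + r) + (r : ℚ) -
            m * (((r % 2 : ℕ) : ℤ) : ℚ) = 0 := by
          rw [Int.cast_natCast]
          ring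
        rw [h16, abs_zero]
        have h17 : 2 * (L0 : ℚ) = r * (r - 1) - (s * r + NB - s * NB - O) := by linarith
        rw [h17, qm, qc]
        apply le_of_eq
        ring
      · rw [hRsome, Fintype.sum_option]
        change |g l + ∑ l', (0 : ℚ) + ((b l % 2 : ℕ) : ℚ) - m * (ε l : ℚ)| ≤
          m * (b l : ℚ) - ((c * b l - ((b l % 2 : ℕ) : ℚ)) + b l * (NB - b l) + 2 * ((0 : ℕ) : ℚ) +
            ((b l % 2 : ℕ) : ℚ))
        have hτl := hτ l
        rw [qbb] at hτl
        rw [sum_const_zero, hg l]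
        have h16 : (m : ℚ) * ε l + τ l - ((b l % 2 : ℕ) : ℚ) + 0 + ((b l % 2 : ℕ) : ℚ) -
            m * (ε l : ℚ) = τ l := by ring
        rw [h16, abs_of_nonneg hτl.1, qm, qc]
        refine hτl.2.trans (le_of_eq ?_)
        push_cast
        ring)
    (by
      rw [Fintype.sum_option]
      change r + ∑ l, b l % 2 ≤ m
      rw [← hO]
      omega)
  obtain ⟨X, S, hX1, hX2, hX3, hX4, hX5, hX6⟩ := hOT
  refine h3 (N := Option B) (K := B ⊕ Fin m) (fun u => u.elim r b)
    (fun u v => u ≠ v ∨ u = none)
    (fun k u v => Sum.elim (fun j => C4G_x b lam j u v) (fun i => X i u v) k)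
    (fun k u => Sum.elim (fun j => C4G_s b j u) (fun i => S i u) k) ?_ ?_ ?_
  · rintro u v (h | h)
    · exact Or.inl (Ne.symm h)
    · by_cases hv : v = none
      · exact Or.inr hv
      · left
        rw [h]
        exact hv
  · rintro (_ | l)
    · exact hr
    · have := hb l
      change 0 < b l
      omega
  -- sums of the special classes
  have hsx : ∀ l : B, ∑ j, (if l = j then b l % 2 else b l) + b l = s * b l + b l % 2 := by
    intro l
    rw [← add_sum_erase univ _ (mem_univ l), if_pos rfl]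
    have h18 : ∑ j ∈ univ.erase l, (if l = j then b l % 2 else b l) = (s - 1) * b l := by
      rw [sum_congr rfl (g := fun _ => b l) fun j hj => if_neg (ne_of_mem_erase hj).symm,
        sum_const, card_erase_of_mem (mem_univ l), Finset.card_univ, smul_eq_mul]
    rw [h18]
    have h19 : s * b l = (s - 1) * b l + b l := by
      obtain ⟨s', hs'⟩ : ∃ s', s = s' + 1 := ⟨s - 1, by omega⟩
      rw [hs']
      simp only [Nat.add_sub_cancel]
      ring
    omega
  have hcb : ∀ l : B, c * b l + s * b l = r * b l + b l := by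
    intro l
    rw [← add_mul, hcs, add_mul, one_mul]
  have htot : ∀ l : B, ∑ j, (if l = j then b l % 2 else b l) + (c * b l - b l % 2) = r * b l := by
    intro l
    have h20 := hsx l
    have h21 := hcb l
    have h22 := hsub l
    omega
  refine ⟨?_, ?_, ?_, ?_, ?_, ?_, ?_⟩
  · -- symm
    rintro (j | i) u v
    · rcases u with _ | l <;> rcases v with _ | l' <;> rfl
    · exact hX1 i u v
  · -- tot
    intro u v huv
    rw [if_pos (Or.inl huv), Fintype.sum_sum_type]
    simp only [Sum.elim_inl, Sum.elim_inr]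
    rw [hX2 u v huv]
    rcases u with _ | l <;> rcases v with _ | l'
    · exact absurd rfl huv
    · exact htot l'
    · change ∑ j, (if l = j then b l % 2 else b l) + (c * b l - b l % 2) = b l * r
      rw [htot l, mul_comm]
    · change ∑ j : B, 0 + (if l = l' then 0 else b l * b l') = b l * b l'
      rw [if_neg (fun h => huv (by rw [h])), sum_const_zero, zero_add]
  · -- loop
    intro u
    rw [Fintype.sum_sum_type]
    simp only [Sum.elim_inl, Sum.elim_inr]
    rw [hX3 u]
    rcases u with _ | l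
    · rw [if_pos (Or.inr rfl)]
      change 2 * (∑ j, lam j + L0) = r * (r - 1)
      rw [← hL0, ← mul_sum]
      ring
    · rw [if_neg (by simp)]
      change 2 * (∑ j : B, 0 + 0) = 0
      simp
  · -- own
    intro u
    rw [Fintype.sum_sum_type]
    simp only [Sum.elim_inl, Sum.elim_inr]
    rw [hX4 u]
    rcases u with _ | l
    · change ∑ j : B, 0 + r = 1 * r
      simp
    · change ∑ j, (if l = j then b l - b l % 2 else 0) + b l % 2 = 1 * b l
      rw [sum_ite_eq, if_pos (mem_univ l)]
      have := Nat.mod_le (b l) 2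
      omega
  · -- deg
    rintro (j | i) u
    · simp only [Sum.elim_inl]
      rw [Fintype.sum_option]
      rcases u with _ | l
      · change 0 + (lam j + ∑ l, (if l = j then b l % 2 else b l)) + lam j ≤ r
        have h23 : ∑ l, (if l = j then b l % 2 else b l) + b j = NB + b j % 2 := by
          rw [hNB, ← add_sum_erase univ _ (mem_univ j), if_pos rfl,
            ← add_sum_erase univ b (mem_univ j),
            sum_congr rfl (g := b) fun l hl => if_neg (ne_of_mem_erase hl)]
          ring
        have h24 := hlam j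
        omega
      · change (if l = j then b l - b l % 2 else 0) + ((if l = j then b l % 2 else b l) +
          ∑ l' : B, 0) + 0 ≤ b l
        rw [sum_const_zero]
        have := Nat.mod_le (b l) 2
        by_cases h : l = j
        · rw [if_pos h, if_pos h]
          omega
        · rw [if_neg h, if_neg h]
          omega
    · exact hX5 i u
  · -- excl
    rintro (j | i) u v huv _
    · simp only [Sum.elim_inl]
      rcases u with _ | l
      · exact Or.inl rfl
      · rcases v with _ | l'
        · exact Or.inr rfl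
        · by_cases h : l = j
          · right
            have : l' ≠ j := by
              rintro rfl
              exact huv (by rw [h])
            exact if_neg this
          · left
            exact if_neg h
    · simp only [Sum.elim_inr]
      by_contra hcon
      push Not at hcon
      have h25 : S i u + S i v ≤ ∑ w, S i w := by
        rw [← sum_pair huv]
        exact sum_le_sum_of_subset (subset_univ _)
      have h26 := hX6 i
      omega
  · -- exclL
    rintro (j | i) u hu
    · rcases hu with hu | rfl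
      · exact absurd rfl hu
      · exact Nat.zero_le 1
    · exact (single_le_sum (f := fun u => S i u) (fun _ _ => Nat.zero_le _) (mem_univ u)).trans
        (hX6 i)

end Pool.Agent.H301R2.HR
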