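import Pool.Agent.H301R2.HR.SP

namespace Pool.Agent.H301R2.HR

open Finset

theorem c4i_split {B : Type} [Fintype B] [DecidableEq B] (f : B → ℕ) (j : B) :
    ∑ l, f l = f j + ∑ l ∈ univ.erase j, f l := (Finset.add_sum_erase univ f (mem_univ j)).symm

theorem c4i_split2 {B : Type} [Fintype B] [DecidableEq B] (f : B → ℕ) (j l : B) (h : j ≠ l) :
    ∑ m, f m = f j + (f l + ∑ m ∈ (univ.erase j).erase l, f m) := by
  rw [c4i_split f j, Finset.add_sum_erase (univ.erase j) f (mem_erase.2 ⟨h.symm, mem_univ l⟩)]

theorem T_C4I : S_C4I := by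
  intro B _ _ b r hr hb hne hev hq hD halt
  have hdd : ∀ l, b l * (b l - 1) + b l = b l * b l := by
    intro l
    have := hb l
    obtain ⟨c, hc⟩ : ∃ c, b l = c + 1 := ⟨b l - 1, by omega⟩
    rw [hc]; simp; ring
  have ho : ∀ l, b l % 2 ≤ 1 := fun l => by omega
  have hpar : (∀ l, 3 ≤ b l) ∨ ∑ j, b j * (b j - 1) ≤ r + ∑ j, b j % 2 + 2 := by
    rcases halt with h | h
    · right
      have h1 : (∑ j, b j * (b j - 1)) % 2 = 0 := by
        have : Even (∑ j, b j * (b j - 1)) :=
          Finset.even_sum _ (fun l _ => Nat.even_mul_pred_self _)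
        exact Nat.even_iff.1 this
      have h2 : (∑ j, b j) % 2 = (∑ j, b j % 2) % 2 := Finset.sum_nat_mod univ 2 b
      have h3 := Nat.even_iff.1 hev
      omega
    · left; exact h
  -- termwise facts on a subset
  have t1 : ∀ S : Finset B, 2 * S.card ≤ ∑ l ∈ S, b l := by
    intro S
    rw [mul_comm, ← smul_eq_mul, ← Finset.sum_const]
    exact Finset.sum_le_sum (fun l _ => hb l)
  have t2 : ∀ S : Finset B, ∑ l ∈ S, b l + ∑ l ∈ S, b l % 2 ≤ ∑ l ∈ S, b l * (b l - 1) := by
    intro S
    rw [← Finset.sum_add_distrib]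
    refine Finset.sum_le_sum (fun l _ => ?_)
    have h1 := hdd l
    have h2 := hb l
    have h3 := ho l
    rcases Nat.lt_or_ge (b l) 3 with h | h
    · have : b l = 2 := by omega
      rw [this]
    · nlinarith
  have t3 : ∀ S : Finset B, ∑ l ∈ S, b l + 2 * S.card + 2 * ∑ l ∈ S, b l % 2
      ≤ 2 * ∑ l ∈ S, b l * (b l - 1) := by
    intro S
    have e : 2 * S.card = ∑ l ∈ S, 2 := by rw [Finset.sum_const, smul_eq_mul, mul_comm]
    rw [e, Finset.mul_sum, Finset.mul_sum, ← Finset.sum_add_distrib, ← Finset.sum_add_distrib]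
    refine Finset.sum_le_sum (fun l _ => ?_)
    have h1 := hdd l
    have h2 := hb l
    have h3 := ho l
    rcases Nat.lt_or_ge (b l) 3 with h | h
    · have : b l = 2 := by omega
      rw [this]; norm_num
    · nlinarith
  have t4 : (∀ l, 3 ≤ b l) → ∀ S : Finset B, 2 * ∑ l ∈ S, b l ≤ ∑ l ∈ S, b l * (b l - 1) := by
    intro h S
    rw [Finset.mul_sum]
    refine Finset.sum_le_sum (fun l _ => ?_)
    have h1 := hdd l
    have h2 := h l
    nlinarith
  have t5 : (∀ l, 3 ≤ b l) → ∀ S : Finset B, 3 * S.card ≤ ∑ l ∈ S, b l := by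
    intro h S
    rw [mul_comm, ← smul_eq_mul, ← Finset.sum_const]
    exact Finset.sum_le_sum (fun l _ => h l)
  have hcard : ∀ j : B, Fintype.card B = 1 + (univ.erase j).card := by
    intro j
    rw [Finset.card_erase_of_mem (mem_univ j), Finset.card_univ]
    have : 0 < Fintype.card B := Fintype.card_pos_iff.2 ⟨j⟩
    omega
  -- (1)
  have c1 : ∀ j, ∑ l, b l + b j % 2 ≤ r + b j := by
    intro j
    rw [c4i_split b j]
    rw [c4i_split (fun l => b l * (b l - 1)) j, c4i_split b j] at hD
    rw [c4i_split (fun l => b l * (b l - 1)) j, c4i_split (fun l => b l % 2) j] at hpar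
    have h1 := hdd j
    have h2 := hb j
    have h3 := ho j
    have h4 := t2 (univ.erase j)
    rcases hpar with h | h
    · have h5 := t4 h (univ.erase j)
      have h6 := h j
      nlinarith
    · rcases Nat.lt_or_ge (b j) 3 with h7 | h7
      · have e : b j = 2 := by omega
        rw [e] at h h1 ⊢
        omega
      · nlinarith
  -- (2)
  have c2 : Fintype.card B ≤ r := by
    obtain ⟨j⟩ := hne
    have hc := hcard j
    have h1 := hdd j
    have h2 := hb j
    have h3 := ho j
    rw [c4i_split (fun l => b l * (b l - 1)) j, c4i_split b j] at hD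
    rw [c4i_split (fun l => b l * (b l - 1)) j, c4i_split (fun l => b l % 2) j] at hpar
    have h4 := t2 (univ.erase j)
    have h8 := t1 (univ.erase j)
    rcases hpar with h | h
    · have h5 := t4 h (univ.erase j)
      have h6 := h j
      nlinarith
    · rcases Nat.eq_zero_or_pos (univ.erase j).card with h9 | h9
      · omega
      · rcases Nat.lt_or_ge (b j) 3 with h7 | h7
        · have e : b j = 2 := by omega
          rw [e] at h h1
          omega
        · nlinarith
  -- main lower bound for x = r + 1 - s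
  obtain ⟨x, hx⟩ : ∃ x, r = x + Fintype.card B - 1 ∧ r + 1 - Fintype.card B = x := by
    refine ⟨r + 1 - Fintype.card B, ?_, rfl⟩
    omega
  obtain ⟨hx1, hx2⟩ := hx
  have hspos : 0 < Fintype.card B := Fintype.card_pos_iff.2 hne
  refine ⟨c1, c2, ?_, ?_, ?_, ?_⟩
  · -- (3)
    have hb1 : ∀ j, r + b j - ∑ l, b l - b j % 2 + 2 * (Fintype.card B - 1) + b j % 2 ≤ r := by
      intro j
      have h1 := c1 j
      have h2 := t1 (univ.erase j)
      have h3 := hcard j
      have h4 := c4i_split b j
      omega
    rcases Nat.lt_or_ge (Fintype.card B) 2 with hs | hs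
    · have hs1 : Fintype.card B = 1 := by omega
      obtain ⟨j⟩ := hne
      haveI : Unique B := by
        haveI : Subsingleton B := Fintype.card_le_one_iff_subsingleton.1 (by omega)
        exact ⟨⟨j⟩, fun a => Subsingleton.elim _ _⟩
      rw [Fintype.sum_unique]
      have h1 := hb1 default
      rw [Fintype.sum_unique] at h1 ⊢
      rw [Fintype.sum_unique] at hev
      have h3 := Nat.even_iff.1 hev
      rcases Nat.lt_or_ge r 2 with h4 | h4
      · have : r = 1 := by omega
        subst this
        omega
      · have : r * 1 ≤ r * (r - 1) := Nat.mul_le_mul_left _ (by omega)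
        omega
    · have h1 : ∑ j, (r + b j - ∑ l, b l - b j % 2) ≤ ∑ _j : B, (r - Fintype.card B) := by
        refine Finset.sum_le_sum (fun j _ => ?_)
        have := hb1 j
        omega
      rw [Finset.sum_const, Finset.card_univ, smul_eq_mul] at h1
      refine h1.trans (Nat.mul_le_mul c2 (by omega))
  · -- (4)
    intro j hj
    rw [hx2, mul_comm]
    refine Nat.mul_le_mul_right _ ?_
    have hc := hcard j
    have h1 := hdd j
    have h2 := hb j
    have h3 := ho j
    rw [c4i_split (fun l => b l * (b l - 1)) j, c4i_split b j] at hD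
    rw [c4i_split (fun l => b l * (b l - 1)) j, c4i_split (fun l => b l % 2) j] at hpar
    have h4 := t2 (univ.erase j)
    have h8 := t1 (univ.erase j)
    suffices b j ≤ x + 1 by omega
    rcases hpar with h | h
    · have h5 := t4 h (univ.erase j)
      have h6 := h j
      have : r + 1 = x + (1 + (univ.erase j).card) := by omega
      nlinarith
    · have hr1 : r + 1 = x + (1 + (univ.erase j).card) := by omega
      rcases Nat.lt_or_ge (b j) 3 with h7 | h7
      · have e : b j = 2 := by omega
        rw [e] at h h1 ⊢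
        omega
      · nlinarith
  · -- (5)
    intro j hj
    rw [hx2]
    have hc := hcard j
    have h1 := hdd j
    have h2 := hb j
    have h3 := ho j
    have hb3 : 3 ≤ b j := by omega
    have hN := c4i_split b j
    rw [c4i_split (fun l => b l * (b l - 1)) j, c4i_split b j] at hD
    rw [c4i_split (fun l => b l * (b l - 1)) j, c4i_split (fun l => b l % 2) j] at hpar
    have h4 := t2 (univ.erase j)
    have h8 := t1 (univ.erase j)
    have h9 := t3 (univ.erase j)
    have hr1 : r + 1 = x + (1 + (univ.erase j).card) := by omega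
    -- x * 2 >= N + 1 and x >= b - 1
    have key : ∑ l, b l + 1 ≤ 2 * x ∧ b j ≤ x + 1 := by
      rw [hN]
      rcases hpar with h | h
      · have h5 := t4 h (univ.erase j)
        have h6 := t5 h (univ.erase j)
        constructor <;> nlinarith
      · rw [hj] at h
        constructor <;> nlinarith
    obtain ⟨k1, k2⟩ := key
    constructor
    · have : 2 * x ≤ (b j - 1) * x := Nat.mul_le_mul_right _ (by omega)
      have h10 : x * b j = (b j - 1) * x + x := by
        obtain ⟨c, hc⟩ : ∃ c, b j = c + 1 := ⟨b j - 1, by omega⟩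
        rw [hc]; simp; ring
      rw [h10]
      omega
    · have : b j * (b j - 1) ≤ x * b j := by
        rw [mul_comm]
        exact Nat.mul_le_mul_right _ (by omega)
      omega
  · -- (6)
    intro j l hjl hj hl
    rw [hx2]
    have hcl : Fintype.card B = 2 + ((univ.erase j).erase l).card := by
      rw [hcard j, ← Finset.card_erase_add_one (mem_erase.2 ⟨hjl.symm, mem_univ l⟩)]
      ring
    have h1 := hdd j
    have h1l := hdd l
    have hb3 : 3 ≤ b j := by have := hb j; omega
    have hl3 : 3 ≤ b l := by have := hb l; omega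
    have hN := c4i_split2 b j l hjl
    rw [c4i_split2 (fun m => b m * (b m - 1)) j l hjl, c4i_split2 b j l hjl] at hD
    rw [c4i_split2 (fun m => b m * (b m - 1)) j l hjl, c4i_split2 (fun m => b m % 2) j l hjl]
      at hpar
    have h4 := t2 ((univ.erase j).erase l)
    have h8 := t1 ((univ.erase j).erase l)
    have h9 := t3 ((univ.erase j).erase l)
    have hr1 : r + 1 = x + (2 + ((univ.erase j).erase l).card) := by omega
    have key : ∑ m, b m + b j * (b j - 1) ≤ (b j - 1) * x + 1 := by
      rw [hN]
      obtain ⟨c, hc⟩ : ∃ c, b j = c + 3 := ⟨b j - 3, by omega⟩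
      obtain ⟨e, he⟩ : ∃ e, b l = e + 3 := ⟨b l - 3, by omega⟩
      have e1 : b j - 1 = c + 2 := by omega
      have e2 : b l - 1 = e + 2 := by omega
      have h5 : (∀ l, 3 ≤ b l) → 2 * ∑ m ∈ (univ.erase j).erase l, b m
        ≤ ∑ m ∈ (univ.erase j).erase l, b m * (b m - 1) := fun h => t4 h _
      have h6 : (∀ l, 3 ≤ b l) → 3 * ((univ.erase j).erase l).card
        ≤ ∑ m ∈ (univ.erase j).erase l, b m := fun h => t5 h _
      clear t1 t2 t3 t4 t5 c1
      generalize ∑ m ∈ (univ.erase j).erase l, b m = N at *
      generalize ∑ m ∈ (univ.erase j).erase l, b m * (b m - 1) = D at *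
      generalize ∑ m ∈ (univ.erase j).erase l, b m % 2 = Q at *
      generalize ((univ.erase j).erase l).card = s at *
      rcases hpar with h | h
      · replace h5 := h5 h
        replace h6 := h6 h
        rw [e1, e2, hc, he] at hD
        rw [e1, hc, he]
        have hx3 : c * c + 4 * c + e + N + 7 ≤ x + s := by nlinarith
        have : (c + 2) * (c * c + 4 * c + e + N + 7) ≤ (c + 2) * (x + s) :=
          Nat.mul_le_mul_left _ hx3
        nlinarith
      · rw [hj, hl, e1, e2, hc, he] at h
        rw [e1, hc, he]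
        have hx3 : 2 * (c * c + 5 * c + 5 * e + 7) + N ≤ 2 * x := by nlinarith
        have : (c + 2) * (2 * (c * c + 5 * c + 5 * e + 7) + N) ≤ (c + 2) * (2 * x) :=
          Nat.mul_le_mul_left _ hx3
        nlinarith
    have h10 : x * b j = (b j - 1) * x + x := by
      obtain ⟨c, hc⟩ : ∃ c, b j = c + 1 := ⟨b j - 1, by omega⟩
      rw [hc]; simp; ring
    rw [h10]
    omega

end Pool.Agent.H301R2.HR
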