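import Pool.Agent.H301R2.HR.SP

set_option autoImplicit false

/-! Task C4a (helper355): minimum one, after the refinement. -/

namespace Pool.Agent.H301R2.HR

open Finset

/-- the map into the blow-up -/
def phiC4a {ι : Type} (a : ι → ℕ) (r : ℕ) (e : {i // ¬ 2 ≤ a i} → Fin r) :
    (Σ i, Fin (a i)) → (Σ u : Option {i // 2 ≤ a i}, Fin (u.elim r (fun j => a j.1))) :=
  fun x => if h : 2 ≤ a x.1 then ⟨some ⟨x.1, h⟩, x.2⟩ else ⟨none, e ⟨x.1, h⟩⟩

theorem T_C4a (h1 : S_C4G) (h2 : S_EMBG) (h3 : S_CARD) : S_C4a := by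
  intro ι _ _ a hex hpos heven hq hD hlast
  classical
  set r : ℕ := Fintype.card {i // ¬ 2 ≤ a i} with hr
  have hone : ∀ i : {i // ¬ 2 ≤ a i}, a i.1 = 1 := by
    intro i
    have := hpos i.1
    have := i.2
    omega
  have hr1 : 1 ≤ r := by
    obtain ⟨i, hi⟩ := hex
    rw [hr]
    exact Fintype.card_pos_iff.2 ⟨⟨i, by omega⟩⟩
  have s1 : ∑ i, a i = r + ∑ j : {i // 2 ≤ a i}, a j.1 := by
    rw [← Fintype.sum_subtype_add_sum_subtype (fun i => 2 ≤ a i) a, add_comm]
    congr 1
    rw [sum_congr rfl fun i _ => hone i]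
    simp [hr]
  have s2 : ∑ i, a i % 2 = r + ∑ j : {i // 2 ≤ a i}, a j.1 % 2 := by
    rw [← Fintype.sum_subtype_add_sum_subtype (fun i => 2 ≤ a i) (fun i => a i % 2), add_comm]
    congr 1
    rw [sum_congr rfl fun i _ => by rw [hone i]]
    simp [hr]
  have s3 : ∑ i, a i * (a i - 1) = ∑ j : {i // 2 ≤ a i}, a j.1 * (a j.1 - 1) := by
    rw [← Fintype.sum_subtype_add_sum_subtype (fun i => 2 ≤ a i) (fun i => a i * (a i - 1))]
    have : ∑ i : {i // ¬ 2 ≤ a i}, a i.1 * (a i.1 - 1) = 0 := by
      apply sum_eq_zero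
      intro i _
      rw [hone i]
      rfl
    rw [this, add_zero]
  have hne : Nonempty {i // 2 ≤ a i} := by
    by_contra hcon
    rw [not_nonempty_iff] at hcon
    rw [s3, s2, Fintype.sum_empty, Fintype.sum_empty] at hq
    omega
  have hcardB : Fintype.card {i // 2 ≤ a i} ≤ ∑ j : {i // 2 ≤ a i}, a j.1 := by
    calc Fintype.card {i // 2 ≤ a i} = ∑ _j : {i // 2 ≤ a i}, 1 := by simp
      _ ≤ _ := sum_le_sum fun j _ => by have := j.2; omega
  have hG := h1 (B := {i // 2 ≤ a i}) (fun j => a j.1) r hr1 (fun j => j.2) hne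
    (by rw [← s1]; exact heven) (by rw [← s2, ← s3]; exact hq)
    (by rw [← s1, ← s3]; omega)
    (by
      rcases hlast with h | h
      · left
        rw [← s3, ← s2]
        exact h
      · right
        intro j
        have := j.2
        have := h j.1
        omega)
  have e : {i // ¬ 2 ≤ a i} ≃ Fin r := Fintype.equivFin _
  refine h3 a _ ?_ (h2 a _ (phiC4a a r e) ?_ ?_ hG)
  · rw [Fintype.card_sum, Fintype.card_fin, s1]
    omega
  · rintro ⟨i, x⟩ ⟨j, y⟩ hxy
    unfold phiC4a at hxy
    by_cases hi : 2 ≤ a i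
    · by_cases hj : 2 ≤ a j
      · simp only [hi, hj, dif_pos] at hxy
        have h4 := (Sigma.mk.inj_iff.1 hxy).1
        have h5 : i = j := by
          have := Option.some.inj h4
          exact congrArg Subtype.val this
        subst h5
        have h6 := eq_of_heq (Sigma.mk.inj_iff.1 hxy).2
        exact congrArg _ h6
      · simp only [hi, hj, dif_pos, dif_neg, not_false_eq_true] at hxy
        exact absurd (Sigma.mk.inj_iff.1 hxy).1 (by simp)
    · by_cases hj : 2 ≤ a j
      · simp only [hi, hj, dif_pos, dif_neg, not_false_eq_true] at hxy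
        exact absurd (Sigma.mk.inj_iff.1 hxy).1 (by simp)
      · simp only [hi, hj, dif_neg, not_false_eq_true] at hxy
        have h6 := eq_of_heq (Sigma.mk.inj_iff.1 hxy).2
        have h7 := e.injective h6
        have h5 : i = j := congrArg Subtype.val h7
        subst h5
        have h8 : a i = 1 := hone ⟨i, hi⟩
        have h9 : x = y := by
          apply Fin.ext
          have := x.2
          have := y.2
          omega
        rw [h9]
  · rintro ⟨i, x⟩ ⟨j, y⟩ hij
    unfold phiC4a
    by_cases hi : 2 ≤ a i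
    · have hne1 : (some (⟨i, hi⟩ : {i // 2 ≤ a i}) : Option {i // 2 ≤ a i}) ≠
          if h : 2 ≤ a j then some ⟨j, h⟩ else none := by
        by_cases hj : 2 ≤ a j
        · rw [dif_pos hj]
          intro h
          exact hij (congrArg Subtype.val (Option.some.inj h))
        · rw [dif_neg hj]
          simp
      by_cases hj : 2 ≤ a j
      · rw [dif_pos hj] at hne1
        simp only [hi, hj, dif_pos]
        exact ⟨fun h => hne1 (Sigma.mk.inj_iff.1 h).1, Or.inl hne1⟩
      · rw [dif_neg hj] at hne1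
        simp only [hi, hj, dif_pos, dif_neg, not_false_eq_true]
        exact ⟨fun h => hne1 (Sigma.mk.inj_iff.1 h).1, Or.inl hne1⟩
    · by_cases hj : 2 ≤ a j
      · simp only [hi, hj, dif_pos, dif_neg, not_false_eq_true]
        refine ⟨fun h => ?_, Or.inr (by simp)⟩
        exact absurd (Sigma.mk.inj_iff.1 h).1 (by simp)
      · simp only [hi, hj, dif_neg, not_false_eq_true]
        refine ⟨fun h => ?_, Or.inr (by simp)⟩
        have h6 := eq_of_heq (Sigma.mk.inj_iff.1 h).2
        exact hij (congrArg Subtype.val (e.injective h6))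

end Pool.Agent.H301R2.HR
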