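import Pool.Agent.H301R2.HR.SP

set_option autoImplicit false

namespace Pool.Agent.H301R2.HR

/-- bound for one net outflow, `A` even -/
theorem CAPIe_g (A p E x : ℕ) (ε : ℤ) (τ : ℚ) (hA : Even A) (hA4 : 4 ≤ A) (hE : E + 2 ≤ p)
    (he : Even (((A + x : ℕ) : ℤ) + ε)) (e1 : -1 ≤ ε) (e2 : ε ≤ 1) (t0 : 0 ≤ τ) (t1 : τ ≤ p) :
    |((((A : ℚ) - 1) * (p - 1) + E) * ε + τ - ((A + x) % 2 : ℕ))| ≤
      ((p : ℚ) * A + E) * ((x % 2 : ℕ) + 1 / 4) := by
  have hA' : (4 : ℚ) ≤ A := by exact_mod_cast hA4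
  have hp : (E : ℚ) + 2 ≤ p := by exact_mod_cast hE
  have hE0 : (0 : ℚ) ≤ E := by positivity
  have hpA : (4 : ℚ) * p ≤ p * A := by nlinarith
  rcases Nat.even_or_odd x with hx | hx
  · -- even size
    have hx2 : x % 2 = 0 := Nat.even_iff.1 hx
    have hAx : (A + x) % 2 = 0 := Nat.even_iff.1 (hA.add hx)
    have hε : ε = 0 := by
      have h1 : Even ((A + x : ℕ) : ℤ) := by exact_mod_cast hA.add hx
      have h2 : Even ε := (Int.even_add.1 he).1 h1
      obtain ⟨k, hk⟩ := h2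
      omega
    rw [hε, hx2, hAx]
    push_cast
    rw [abs_le]
    constructor <;> nlinarith
  · have hx2 : x % 2 = 1 := Nat.odd_iff.1 hx
    have hAx : (A + x) % 2 = 1 := Nat.odd_iff.1 (hA.add_odd hx)
    have hε : ε = 1 ∨ ε = -1 := by
      have h1 : ¬ Even ((A + x : ℕ) : ℤ) := by
        have : Odd (A + x) := hA.add_odd hx
        rw [Int.not_even_iff_odd]
        exact_mod_cast this
      have h2 : ¬ Even ε := fun h => h1 ((Int.even_add.1 he).2 h)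
      have h3 : ε ≠ 0 := fun h => h2 (by rw [h]; exact Even.zero)
      omega
    rw [hx2, hAx]
    have hM : ((A : ℚ) - 1) * (p - 1) + E + 1 ≤ p * A + E := by nlinarith
    have hM0 : (0 : ℚ) ≤ ((A : ℚ) - 1) * (p - 1) + E := by
      have : (0 : ℚ) ≤ ((A : ℚ) - 1) * (p - 1) := mul_nonneg (by linarith) (by linarith)
      linarith
    rcases hε with h | h
    · rw [h]
      push_cast
      rw [abs_le]
      constructor <;> nlinarith
    · rw [h]
      push_cast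
      rw [abs_le]
      constructor <;> nlinarith

theorem T_CAPIe : S_CAPIe := by
  intro A p E x y ε₁ ε₂ τ₁ τ₂ hA hA4 hE he1 h1l h1u he2 h2l h2u t10 t1p _ t20 t2p _
  unfold CapIneq
  have g1 := CAPIe_g A p E x ε₁ τ₁ hA hA4 hE he1 h1l h1u t10 t1p
  have g2 := CAPIe_g A p E y ε₂ τ₂ hA hA4 hE he2 h2l h2u t20 t2p
  set G1 : ℚ := (((A : ℚ) - 1) * (p - 1) + E) * ε₁ + τ₁ - ((A + x) % 2 : ℕ) with hG1
  set G2 : ℚ := (((A : ℚ) - 1) * (p - 1) + E) * ε₂ + τ₂ - ((A + y) % 2 : ℕ) with hG2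
  set n : ℚ := (p : ℚ) * A + E with hn
  have hA' : (4 : ℚ) ≤ A := by exact_mod_cast hA4
  have hn0 : 0 ≤ n := by rw [hn]; positivity
  have hx0 : (0 : ℚ) ≤ x := by positivity
  have hy0 : (0 : ℚ) ≤ y := by positivity
  have hL : |((A : ℚ) + y) * G1 - ((A : ℚ) + x) * G2| ≤
      ((A : ℚ) + y) * |G1| + ((A : ℚ) + x) * |G2| := by
    have := abs_sub (((A : ℚ) + y) * G1) (((A : ℚ) + x) * G2)
    rw [abs_mul, abs_mul, abs_of_nonneg (show (0 : ℚ) ≤ A + y by linarith),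
      abs_of_nonneg (show (0 : ℚ) ≤ A + x by linarith)] at this
    exact this
  have h1 : ((A : ℚ) + y) * |G1| ≤ ((A : ℚ) + y) * (n * ((x % 2 : ℕ) + 1 / 4)) :=
    mul_le_mul_of_nonneg_left g1 (by linarith)
  have h2 : ((A : ℚ) + x) * |G2| ≤ ((A : ℚ) + x) * (n * ((y % 2 : ℕ) + 1 / 4)) :=
    mul_le_mul_of_nonneg_left g2 (by linarith)
  have key : ((A : ℚ) + y) * ((x % 2 : ℕ) + 1 / 4) + ((A : ℚ) + x) * ((y % 2 : ℕ) + 1 / 4) ≤
      ((A : ℚ) + x) * (A + y) - (A + 1 + cE x + cE y : ℕ) := by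
    unfold cE
    have hxy : (0 : ℚ) ≤ (x : ℚ) * y := mul_nonneg hx0 hy0
    have hAx : (0 : ℚ) ≤ ((A : ℚ) - 4) * x := mul_nonneg (by linarith) hx0
    have hAy : (0 : ℚ) ≤ ((A : ℚ) - 4) * y := mul_nonneg (by linarith) hy0
    rcases Nat.mod_two_eq_zero_or_one x with hx | hx <;>
      rcases Nat.mod_two_eq_zero_or_one y with hy | hy
    · rw [hx, hy]
      push_cast
      nlinarith
    · rw [hx, hy]
      push_cast
      nlinarith
    · rw [hx, hy]
      push_cast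
      nlinarith
    · rw [hx, hy]
      have hx1 : (1 : ℚ) ≤ x := by
        have : 1 ≤ x := by omega
        exact_mod_cast this
      have hy1 : (1 : ℚ) ≤ y := by
        have : 1 ≤ y := by omega
        exact_mod_cast this
      have hxy1 : (0 : ℚ) ≤ ((x : ℚ) - 1) * (y - 1) := mul_nonneg (by linarith) (by linarith)
      have hAx1 : (0 : ℚ) ≤ ((A : ℚ) - 4) * (x - 1) := mul_nonneg (by linarith) (by linarith)
      have hAy1 : (0 : ℚ) ≤ ((A : ℚ) - 4) * (y - 1) := mul_nonneg (by linarith) (by linarith)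
      push_cast
      nlinarith
  calc |((A : ℚ) + y) * G1 - ((A : ℚ) + x) * G2|
      ≤ ((A : ℚ) + y) * |G1| + ((A : ℚ) + x) * |G2| := hL
    _ ≤ ((A : ℚ) + y) * (n * ((x % 2 : ℕ) + 1 / 4)) + ((A : ℚ) + x) * (n * ((y % 2 : ℕ) + 1 / 4)) :=
        add_le_add h1 h2
    _ = n * (((A : ℚ) + y) * ((x % 2 : ℕ) + 1 / 4) + ((A : ℚ) + x) * ((y % 2 : ℕ) + 1 / 4)) := by
        ring
    _ ≤ n * (((A : ℚ) + x) * (A + y) - (A + 1 + cE x + cE y : ℕ)) :=
        mul_le_mul_of_nonneg_left key hn0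

end Pool.Agent.H301R2.HR
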