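import Pool.Agent.H301R2.HR.SP

set_option autoImplicit false

namespace Pool.Agent.H301R2.HR

/-- types of net outflows, `A` odd; `u = m + 1` -/
def CAPIo_ty (p u : ℚ) (x : ℕ) (g : ℚ) : Prop :=
  (x = 0 ∧ (g = u - 2 ∨ g = -u)) ∨ (2 ≤ x ∧ x % 2 = 0 ∧ -u ≤ g ∧ g ≤ -u + p) ∨
    (1 ≤ x ∧ x % 2 = 1 ∧ 0 ≤ g ∧ g ≤ p)

theorem CAPIo_g (A p E x : ℕ) (ε : ℤ) (τ : ℚ) (hA : Odd A)
    (he : Even (((A + x : ℕ) : ℤ) + ε)) (e1 : -1 ≤ ε) (e2 : ε ≤ 1) (hx0 : 0 < x → ε ≤ 0)
    (t0 : 0 ≤ τ) (t1 : τ ≤ p) (tx : x = 0 → τ = 0) :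
    CAPIo_ty p ((((A : ℚ) - 1) * (p - 1) + E) + 1) x
      ((((A : ℚ) - 1) * (p - 1) + E) * ε + τ - ((A + x) % 2 : ℕ)) := by
  unfold CAPIo_ty
  rcases Nat.even_or_odd x with hx | hx
  · -- odd size
    have hx2 : x % 2 = 0 := Nat.even_iff.1 hx
    have hAx : (A + x) % 2 = 1 := Nat.odd_iff.1 (hA.add_even hx)
    have hε : ε = 1 ∨ ε = -1 := by
      have h1 : ¬ Even ((A + x : ℕ) : ℤ) := by
        have : Odd (A + x) := hA.add_even hx
        rw [Int.not_even_iff_odd]
        exact_mod_cast this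
      have h2 : ¬ Even ε := fun h => h1 ((Int.even_add.1 he).2 h)
      have h3 : ε ≠ 0 := fun h => h2 (by rw [h]; exact Even.zero)
      omega
    rw [hAx]
    by_cases h0 : x = 0
    · left
      refine ⟨h0, ?_⟩
      rw [tx h0]
      rcases hε with h | h
      · left; rw [h]; push_cast; ring
      · right; rw [h]; push_cast; ring
    · right; left
      have hxp : 0 < x := Nat.pos_of_ne_zero h0
      have hεm : ε = -1 := by
        have := hx0 hxp
        omega
      refine ⟨by omega, hx2, ?_, ?_⟩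
      · rw [hεm]; push_cast; linarith
      · rw [hεm]; push_cast; linarith
  · have hx2 : x % 2 = 1 := Nat.odd_iff.1 hx
    have hAx : (A + x) % 2 = 0 := Nat.even_iff.1 (hA.add_odd hx)
    have hε : ε = 0 := by
      have h1 : Even ((A + x : ℕ) : ℤ) := by exact_mod_cast hA.add_odd hx
      have h2 : Even ε := (Int.even_add.1 he).1 h1
      obtain ⟨k, hk⟩ := h2
      omega
    rw [hAx, hε]
    right; right
    refine ⟨by omega, hx2, ?_, ?_⟩
    · push_cast; linarith
    · push_cast; linarith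

/-- the one-sided inequality -/
theorem CAPIo_one (A p u n : ℚ) (x y : ℕ) (g₁ g₂ : ℚ) (hA : 3 ≤ A) (hp : 2 ≤ p) (hpu : p ≤ u)
    (hun : u ≤ n) (hs : (A + 1) * u ≤ A * n) (hpn : A * p ≤ n) (t1 : CAPIo_ty p u x g₁)
    (t2 : CAPIo_ty p u y g₂) :
    (A + y) * g₁ - (A + x) * g₂ ≤
      n * ((A + x) * (A + y) - (A + 1 + (2 * x + (x % 2 : ℕ)) + (2 * y + (y % 2 : ℕ)))) := by
  have hx0 : (0 : ℚ) ≤ x := by positivity
  have hy0 : (0 : ℚ) ≤ y := by positivity
  have hu0 : 0 ≤ u := by linarith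
  have hn0 : 0 ≤ n := by linarith
  have hxy : (0 : ℚ) ≤ (x : ℚ) * y := mul_nonneg hx0 hy0
  have hAx : (0 : ℚ) ≤ (A - 3) * x := mul_nonneg (by linarith) hx0
  have hAy : (0 : ℚ) ≤ (A - 3) * y := mul_nonneg (by linarith) hy0
  have hyp : (y : ℚ) * p ≤ y * n := mul_le_mul_of_nonneg_left (by linarith) hy0
  have hyu : (y : ℚ) * u ≤ y * n := mul_le_mul_of_nonneg_left hun hy0
  have hxu : (x : ℚ) * u ≤ x * n := mul_le_mul_of_nonneg_left hun hx0
  have hAu : A * u ≤ A * n := mul_le_mul_of_nonneg_left hun (by linarith)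
  -- generic step
  have fin : ∀ L S R : ℚ, L ≤ n * S → S ≤ R → L ≤ n * R := fun L S R h1 h2 =>
    h1.trans (mul_le_mul_of_nonneg_left h2 hn0)
  rcases t1 with ⟨x1, a1⟩ | ⟨x1, x2, a1, a2⟩ | ⟨x1, x2, a1, a2⟩
  · -- x = 0
    subst x1
    have a3 : g₁ ≤ u := by rcases a1 with h | h <;> linarith
    have a3' : g₁ ≤ u - 2 := by rcases a1 with h | h <;> linarith
    rcases t2 with ⟨y1, b1⟩ | ⟨y1, y2, b1, b2⟩ | ⟨y1, y2, b1, b2⟩
    · subst y1
      have b3 : -u ≤ g₂ := by rcases b1 with h | h <;> linarith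
      push_cast
      have h1 : A * (g₁ - g₂) ≤ A * (2 * u) := mul_le_mul_of_nonneg_left (by linarith) (by linarith)
      have h2 : (A + 1) * (A * (2 * u)) ≤ (A + 1) * (n * (A * A - (A + 1))) := by
        have h3 : (A + 1) * (A * (2 * u)) = (2 * A) * ((A + 1) * u) := by ring
        rw [h3]
        have h4 : (2 * A) * ((A + 1) * u) ≤ (2 * A) * (A * n) :=
          mul_le_mul_of_nonneg_left hs (by linarith)
        have h5 : 2 * A * A ≤ (A + 1) * (A * A - (A + 1)) := by nlinarith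
        have h6 : n * (2 * A * A) ≤ n * ((A + 1) * (A * A - (A + 1))) :=
          mul_le_mul_of_nonneg_left h5 hn0
        nlinarith
      have h3 := le_of_mul_le_mul_left h2 (by linarith : (0 : ℚ) < A + 1)
      nlinarith
    · push_cast
      rw [y2]
      push_cast
      have h0 : (A + y) * g₁ ≤ (A + y) * u := mul_le_mul_of_nonneg_left a3 (by linarith)
      have h0' : A * (-g₂) ≤ A * u := mul_le_mul_of_nonneg_left (by linarith) (by linarith)
      have h2 : (A + 1) * ((2 * A + y) * u) ≤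
          (A + 1) * (n * (A * A + A * y - (A + 1) - 2 * y)) := by
        have h3 : (A + 1) * ((2 * A + y) * u) = (2 * A + y) * ((A + 1) * u) := by ring
        rw [h3]
        have h4 : (2 * A + y) * ((A + 1) * u) ≤ (2 * A + y) * (A * n) :=
          mul_le_mul_of_nonneg_left hs (by linarith)
        have h5 : (2 * A + y) * A ≤ (A + 1) * (A * A + A * y - (A + 1) - 2 * y) := by
          have h7 : 2 * A * A ≤ (A + 1) * (A * A - (A + 1)) := by nlinarith
          have h8 : A * y ≤ (A + 1) * (A * y - 2 * y) := by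
            have : A ≤ (A + 1) * (A - 2) := by nlinarith
            have h9 := mul_le_mul_of_nonneg_left this hy0
            nlinarith
          nlinarith
        have h6 := mul_le_mul_of_nonneg_left h5 hn0
        nlinarith
      have h3 := le_of_mul_le_mul_left h2 (by linarith : (0 : ℚ) < A + 1)
      nlinarith
    · push_cast
      rw [y2]
      push_cast
      have h0 : (A + y) * g₁ ≤ (A + y) * u := mul_le_mul_of_nonneg_left a3 (by linarith)
      have h0' : 0 ≤ A * g₂ := mul_nonneg (by linarith) b1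
      refine fin _ (A + y) _ (by nlinarith) (by nlinarith)
  · -- x even ≥ 2
    have hx2' : (2 : ℚ) ≤ x := by exact_mod_cast x1
    rw [x2]
    rcases t2 with ⟨y1, b1⟩ | ⟨y1, y2, b1, b2⟩ | ⟨y1, y2, b1, b2⟩
    · subst y1
      have b3 : -u ≤ g₂ := by rcases b1 with h | h <;> linarith
      push_cast
      have h1 : A * g₁ ≤ A * (-u + p) := mul_le_mul_of_nonneg_left a2 (by linarith)
      have h2 : (A + x) * (-g₂) ≤ (A + x) * u :=
        mul_le_mul_of_nonneg_left (by linarith) (by linarith)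
      refine fin _ (1 + x) _ (by nlinarith) (by nlinarith)
    · rw [y2]
      push_cast
      have h1 : (A + y) * g₁ ≤ (A + y) * (-u + p) := mul_le_mul_of_nonneg_left a2 (by linarith)
      have h2 : (A + x) * (-g₂) ≤ (A + x) * u :=
        mul_le_mul_of_nonneg_left (by linarith) (by linarith)
      have h3 : 0 ≤ (y : ℚ) * u := mul_nonneg hy0 hu0
      refine fin _ (1 + x + y) _ (by nlinarith) (by nlinarith)
    · rw [y2]
      push_cast
      have h1 : (A + y) * (-g₁) ≥ 0 := mul_nonneg (by linarith) (by linarith)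
      have h2 : (A + x) * g₂ ≥ 0 := mul_nonneg (by linarith) b1
      refine fin _ 0 _ (by nlinarith) (by nlinarith)
  · -- x odd
    have hx1' : (1 : ℚ) ≤ x := by exact_mod_cast x1
    rw [x2]
    rcases t2 with ⟨y1, b1⟩ | ⟨y1, y2, b1, b2⟩ | ⟨y1, y2, b1, b2⟩
    · subst y1
      have b3 : -u ≤ g₂ := by rcases b1 with h | h <;> linarith
      push_cast
      have h1 : A * g₁ ≤ A * p := mul_le_mul_of_nonneg_left a2 (by linarith)
      have h2 : (A + x) * (-g₂) ≤ (A + x) * u :=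
        mul_le_mul_of_nonneg_left (by linarith) (by linarith)
      refine fin _ (1 + A + x) _ (by nlinarith) (by nlinarith)
    · rw [y2]
      push_cast
      have h1 : (A + y) * g₁ ≤ (A + y) * p := mul_le_mul_of_nonneg_left a2 (by linarith)
      have h2 : (A + x) * (-g₂) ≤ (A + x) * u :=
        mul_le_mul_of_nonneg_left (by linarith) (by linarith)
      refine fin _ (1 + y + A + x) _ (by nlinarith) (by nlinarith)
    · rw [y2]
      push_cast
      have hy1' : (1 : ℚ) ≤ y := by exact_mod_cast y1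
      have h1 : (A + y) * g₁ ≤ (A + y) * p := mul_le_mul_of_nonneg_left a2 (by linarith)
      have h2 : (A + x) * g₂ ≥ 0 := mul_nonneg (by linarith) b1
      refine fin _ (1 + y) _ (by nlinarith) (by nlinarith)

theorem T_CAPIo : S_CAPIo := by
  intro A p E x y ε₁ ε₂ τ₁ τ₂ hA hA3 hE he1 h1l h1u he2 h2l h2u hx hy t10 t1p t1x t20 t2p t2x
  unfold CapIneq
  have g1 := CAPIo_g A p E x ε₁ τ₁ hA he1 h1l h1u hx t10 t1p t1x
  have g2 := CAPIo_g A p E y ε₂ τ₂ hA he2 h2l h2u hy t20 t2p t2x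
  have hA' : (3 : ℚ) ≤ A := by exact_mod_cast hA3
  have hp : (E : ℚ) + 2 ≤ p := by exact_mod_cast hE
  have hE0 : (0 : ℚ) ≤ E := by positivity
  have hpu : (p : ℚ) ≤ ((((A : ℚ) - 1) * (p - 1) + E) + 1) := by
    have : (0 : ℚ) ≤ ((A : ℚ) - 3) * (p - 1) := mul_nonneg (by linarith) (by linarith)
    nlinarith
  have hun : ((((A : ℚ) - 1) * (p - 1) + E) + 1) ≤ (p : ℚ) * A + E := by nlinarith
  have hs : ((A : ℚ) + 1) * ((((A : ℚ) - 1) * (p - 1) + E) + 1) ≤ A * ((p : ℚ) * A + E) := by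
    nlinarith
  have hpn : (A : ℚ) * p ≤ (p : ℚ) * A + E := by nlinarith
  have h1 := CAPIo_one A p _ _ x y _ _ hA' (by linarith) hpu hun hs hpn g1 g2
  have h2 := CAPIo_one A p _ _ y x _ _ hA' (by linarith) hpu hun hs hpn g2 g1
  rw [abs_le]
  unfold cE
  push_cast at h1 h2 ⊢
  constructor
  · nlinarith
  · nlinarith

end Pool.Agent.H301R2.HR
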