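import Pool.Agent.H301R2.HR.SP

set_option autoImplicit false

namespace Pool.Agent.H301R2.HR

theorem T_CARD : S_CARD := by
  intro ι K _ a k hk ⟨cv, ce, h1, h2, h3, h4⟩
  obtain ⟨f⟩ : Nonempty (K ↪ Fin k) :=
    Function.Embedding.nonempty_of_card_le (by simpa using hk)
  exact ⟨fun x => f (cv x), fun x y => f (ce x y),
    fun x y h => fun h' => h1 x y h (f.injective h'),
    fun x y => congrArg f (h2 x y),
    fun x y z hy hz hyz h' => h3 x y z hy hz hyz (f.injective h'),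
    fun x y h h' => h4 x y h (f.injective h')⟩

lemma cmg {p : ℕ} {a : Fin p → ℕ} {u v : Σ i : Fin p, Fin (a i)}
    (h : (SimpleGraph.completeMultipartiteGraph (fun i : Fin p => Fin (a i))).Adj u v) :
    u.1 ≠ v.1 := by
  simpa [SimpleGraph.completeMultipartiteGraph] using h

theorem T_CONV : S_CONV := by
  intro p a k ⟨cv, ce, h1, h2, h3, h4⟩
  refine ⟨cv, fun e => Sym2.lift ⟨ce, h2⟩ e.1, ?_, ?_, ?_⟩
  · intro u v huv
    exact h1 u v (cmg huv)
  · rintro ⟨e, he⟩ ⟨f, hf⟩ hef v hve hvf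
    obtain ⟨w, rfl⟩ := hve
    obtain ⟨w', rfl⟩ := hvf
    rw [SimpleGraph.mem_edgeSet] at he hf
    have he : v.1 ≠ w.1 := cmg he
    have hf : v.1 ≠ w'.1 := cmg hf
    have hww : w ≠ w' := by
      rintro rfl
      exact hef rfl
    simpa using h3 v w w' he hf hww
  · rintro ⟨e, he⟩ v hve
    obtain ⟨w, rfl⟩ := hve
    rw [SimpleGraph.mem_edgeSet] at he
    have he : v.1 ≠ w.1 := cmg he
    simpa using h4 v w he

end Pool.Agent.H301R2.HR
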