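import Pool.Agent.H301R2.HR.SP

set_option autoImplicit false

/-! The class at infinity on the positions. -/

namespace Pool.Agent.H301R2.HR

open Finset

namespace CLIx

variable {h : ℕ}

theorem two_cancel (x : ZMod (2 * h + 1)) (hx : 2 * x = 0) : x = 0 := by
  have h1 : (2 : ZMod (2 * h + 1)) * ((h : ZMod (2 * h + 1)) + 1) = 1 := by
    have h2 : ((2 * h + 1 : ℕ) : ZMod (2 * h + 1)) = 0 := ZMod.natCast_self _
    push_cast at h2
    linear_combination h2
  linear_combination ((h : ZMod (2 * h + 1)) + 1) * hx - x * h1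

theorem one_ne (hh : 1 ≤ h) : (1 : ZMod (2 * h + 1)) ≠ 0 := by
  intro e
  have e2 : ((1 : ℕ) : ZMod (2 * h + 1)) = 0 := by exact_mod_cast e
  rw [ZMod.natCast_eq_zero_iff] at e2
  have := Nat.le_of_dvd (by norm_num) e2
  omega

theorem two_ne (hh : 1 ≤ h) : (2 : ZMod (2 * h + 1)) ≠ 0 := by
  intro e
  exact one_ne hh (two_cancel 1 (by linear_combination e))

theorem four_ne (hh : 1 ≤ h) : (4 : ZMod (2 * h + 1)) ≠ 0 := by
  intro e
  exact two_ne hh (two_cancel 2 (by linear_combination e))

theorem dl_symm {α : Type} [DecidableEq α] (u v x y : α) : dl u v x y = dl u v y x := by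
  unfold dl
  rw [add_comm]
  congr 1 <;> simp only [and_comm]

theorem dl_symm' {α : Type} [DecidableEq α] (u v x y : α) : dl u v x y = dl v u x y := by
  unfold dl
  rw [add_comm]

theorem dl_diag {α : Type} [DecidableEq α] {u v : α} (huv : u ≠ v) (x : α) :
    dl u v x x = 0 := by
  unfold dl
  rw [if_neg, if_neg]
  · rfl
  · rintro ⟨rfl, h2⟩; exact huv h2.symm
  · rintro ⟨rfl, h2⟩; exact huv h2

theorem dl_sum {α : Type} [Fintype α] [DecidableEq α] (u v x : α) :
    ∑ y, dl u v x y = (if x = u then 1 else 0) + (if x = v then 1 else 0) := by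
  unfold dl
  rw [sum_add_distrib]
  congr 1
  · by_cases h1 : x = u <;> simp [h1]
  · by_cases h1 : x = v <;> simp [h1]

theorem dl_nonneg {α : Type} [DecidableEq α] (u v x y : α) : 0 ≤ dl u v x y := by
  unfold dl
  positivity

/-- the bound for one pair -/
theorem pair_bound {α : Type} [DecidableEq α] (P Q u v x y : α) (huv : u ≠ v) :
    dl P u x y + dl Q v x y ≤
      ((if P = x ∧ Q = x then 1 else 0) + (if P ≠ Q ∧ (P = x ∨ Q = x) then 1 else 0)) +
      ((if P = y ∧ Q = y then 1 else 0) + (if P ≠ Q ∧ (P = y ∨ Q = y) then 1 else 0)) := by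
  have key : ∀ x y : α, ((if x = P ∧ y = u then 1 else 0) : ℤ) + (if x = Q ∧ y = v then 1 else 0) ≤
      (if P = x ∧ Q = x then 1 else 0) + (if P ≠ Q ∧ (P = x ∨ Q = x) then 1 else 0) := by
    intro x y
    by_cases h1 : x = P ∧ y = u
    · obtain ⟨rfl, rfl⟩ := h1
      by_cases h2 : x = Q
      · subst h2
        simp [huv]
      · have h3 : Q ≠ x := fun h => h2 h.symm
        simp [h2, h3]
    · by_cases h2 : x = Q ∧ y = v
      · obtain ⟨rfl, rfl⟩ := h2
        by_cases h3 : x = P
        · subst h3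
          have h4 : y ≠ u := fun h => huv h.symm
          simp [h4]
        · have h4 : P ≠ x := fun h => h3 h.symm
          simp [h3, h4]
      · rw [if_neg h1, if_neg h2]
        positivity
  have k1 := key x y
  have k2 := key y x
  have e : dl P u x y + dl Q v x y =
      (((if x = P ∧ y = u then 1 else 0) : ℤ) + (if x = Q ∧ y = v then 1 else 0)) +
      ((if y = P ∧ x = u then 1 else 0) + (if y = Q ∧ x = v then 1 else 0)) := by
    unfold dl
    simp only [and_comm (a := x = u), and_comm (a := x = v)]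
    ring
  rw [e]
  exact add_le_add k1 k2

theorem inj_bound {N : ℕ} {α : Type} [DecidableEq α] (y : Fin N → α) (hy : Function.Injective y)
    (p : Prop) [Decidable p] (b : α) :
    ∑ π, (if y π = b ∧ p then (1 : ℤ) else 0) ≤ if p then 1 else 0 := by
  by_cases hp : p
  · simp only [hp, and_true, if_true]
    rw [sum_boole]
    have : (univ.filter fun π => y π = b).card ≤ 1 := by
      rw [card_le_one]
      intro i hi j hj
      simp only [mem_filter, mem_univ, true_and] at hi hj
      exact hy (hi.trans hj.symm)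
    exact_mod_cast this
  · simp [hp]

end CLIx

open CLIx in
theorem T_CLI (hy : S_YCH) : S_CLI := by
  intro h N a P Q hh hN ha hPQ
  obtain ⟨y, yinj, hy2⟩ := hy h N P Q hh hN hPQ
  have h2 : (2 : ZMod (2 * h + 1)) ≠ 0 := two_ne hh
  have h4 : (4 : ZMod (2 * h + 1)) ≠ 0 := four_ne hh
  have hpm : ∀ w : ZMod (2 * h + 1), w - 1 ≠ w + 1 := by
    intro w e
    exact h2 (by linear_combination -e)
  have hch : ∀ π, ∃ u v : ZMod (2 * h + 1), P π ≠ u ∧ Q π ≠ v ∧
      ((u = y π - 1 ∧ v = y π + 1) ∨ (u = y π + 1 ∧ v = y π - 1)) := by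
    intro π
    by_cases hc : P π ≠ y π - 1 ∧ Q π ≠ y π + 1
    · exact ⟨y π - 1, y π + 1, hc.1, hc.2, Or.inl ⟨rfl, rfl⟩⟩
    · refine ⟨y π + 1, y π - 1, ?_, ?_, Or.inr ⟨rfl, rfl⟩⟩
      · by_cases he : P π = Q π
        · exact (hy2 π he).2
        · rw [not_and_or, not_not, not_not] at hc
          rcases hc with hc | hc
          · rw [hc]; exact hpm _
          · rw [← hc]; exact he
      · by_cases he : P π = Q π
        · rw [← he]; exact (hy2 π he).1
        · rw [not_and_or, not_not, not_not] at hc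
          rcases hc with hc | hc
          · rw [← hc]; exact fun h => he h.symm
          · rw [hc]; exact (hpm _).symm
  choose u v hPu hQv huv using hch
  have huv' : ∀ π, u π ≠ v π := by
    intro π
    rcases huv π with ⟨h1, h2⟩ | ⟨h1, h2⟩
    · rw [h1, h2]; exact hpm _
    · rw [h1, h2]; exact (hpm _).symm
  set Gz : ZMod (2 * h + 1) → ZMod (2 * h + 1) → ℤ := fun x z =>
    ((a / 2 : ℕ) : ℤ) * ((if z = x + 2 then 1 else 0) + (if x = z + 2 then 1 else 0)) +
    (if x + z = 0 ∧ x ≠ z then ((a % 2 : ℕ) : ℤ) else 0) +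
    ∑ π, (dl (P π) (u π) x z + dl (Q π) (v π) x z - dl (u π) (v π) x z) with hGz
  -- the deleted edges
  have hdel : ∀ x z, ∑ π, dl (u π) (v π) x z ≤
      (if z = x + 2 then 1 else 0) + (if x = z + 2 then 1 else 0) := by
    intro x z
    have e : ∀ π, dl (u π) (v π) x z =
        (if y π = x + 1 ∧ z = x + 2 then 1 else 0) + (if y π = z + 1 ∧ x = z + 2 then 1 else 0) := by
      intro π
      have e1 : dl (u π) (v π) x z = dl (y π - 1) (y π + 1) x z := by
        rcases huv π with ⟨h1, h2⟩ | ⟨h1, h2⟩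
        · rw [h1, h2]
        · rw [h1, h2, dl_symm']
      rw [e1]
      unfold dl
      congr 1
      · apply if_congr _ rfl rfl
        constructor
        · rintro ⟨h1, h2⟩
          exact ⟨by rw [h1]; ring, by rw [h1, h2]; ring⟩
        · rintro ⟨h1, h2⟩
          exact ⟨by rw [h1]; ring, by rw [h1, h2]; ring⟩
      · apply if_congr _ rfl rfl
        constructor
        · rintro ⟨h1, h2⟩
          exact ⟨by rw [h2]; ring, by rw [h1, h2]; ring⟩
        · rintro ⟨h1, h2⟩
          exact ⟨by rw [h1, h2]; ring, by rw [h1]; ring⟩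
    rw [sum_congr rfl fun π _ => e π, sum_add_distrib]
    exact add_le_add (inj_bound y yinj _ _) (inj_bound y yinj _ _)
  have hnn : ∀ x z, 0 ≤ Gz x z := by
    intro x z
    have h3 := hdel x z
    have h5 : 0 ≤ ∑ π, (dl (P π) (u π) x z + dl (Q π) (v π) x z) :=
      sum_nonneg fun π _ => add_nonneg (dl_nonneg _ _ _ _) (dl_nonneg _ _ _ _)
    have h6 : (1 : ℤ) ≤ ((a / 2 : ℕ) : ℤ) := by
      have : 1 ≤ a / 2 := by omega
      exact_mod_cast this
    have h7 : (0 : ℤ) ≤ (if z = x + 2 then 1 else 0) + (if x = z + 2 then 1 else 0) := by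
      positivity
    have h8 : (0 : ℤ) ≤ (if x + z = 0 ∧ x ≠ z then ((a % 2 : ℕ) : ℤ) else 0) := by
      positivity
    have h9 : ∑ π, (dl (P π) (u π) x z + dl (Q π) (v π) x z - dl (u π) (v π) x z) =
        ∑ π, (dl (P π) (u π) x z + dl (Q π) (v π) x z) - ∑ π, dl (u π) (v π) x z := by
      rw [sum_sub_distrib]
    simp only [hGz]
    rw [h9]
    nlinarith [mul_nonneg (sub_nonneg.2 h6) h7]
  have hsym : ∀ x z, Gz x z = Gz z x := by
    intro x z
    simp only [hGz]
    congr 1
    · congr 1
      · rw [add_comm (if z = x + 2 then (1 : ℤ) else 0)]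
      · apply if_congr _ rfl rfl
        rw [add_comm x z, ne_comm]
    · exact sum_congr rfl fun π _ => by
        rw [dl_symm (P π), dl_symm (Q π), dl_symm (u π)]
  have hdiag : ∀ x, Gz x x = 0 := by
    intro x
    have h3 : ¬ (x = x + 2) := by
      intro e
      exact h2 (by linear_combination -e)
    simp only [hGz]
    rw [if_neg h3, if_neg (by tauto)]
    have : ∑ π, (dl (P π) (u π) x x + dl (Q π) (v π) x x - dl (u π) (v π) x x) = 0 := by
      apply sum_eq_zero
      intro π _
      rw [dl_diag (hPu π), dl_diag (hQv π), dl_diag (huv' π)]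
      ring
    rw [this]
    ring
  have hcount : ∀ x, ∑ π, ((if x = P π then (1 : ℤ) else 0) + (if x = Q π then 1 else 0)) =
      ((2 * nS P Q x + nM P Q x : ℕ) : ℤ) := by
    intro x
    have e : ∀ π, ((if x = P π then (1 : ℤ) else 0) + (if x = Q π then 1 else 0)) =
        2 * (if P π = x ∧ Q π = x then 1 else 0) +
        (if P π ≠ Q π ∧ (P π = x ∨ Q π = x) then 1 else 0) := by
      intro π
      by_cases h1 : x = P π
      · by_cases h3 : x = Q π
        · rw [← h1, ← h3]; simp
        · have h5 : ¬ (Q π = x) := fun h => h3 h.symm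
          rw [← h1]; simp [h3, h5]
      · have h6 : ¬ (P π = x) := fun h => h1 h.symm
        by_cases h3 : x = Q π
        · rw [← h3]; simp [h1, h6]
        · have h5 : ¬ (Q π = x) := fun h => h3 h.symm
          simp [h1, h3, h5, h6]
    rw [sum_congr rfl fun π _ => e π, sum_add_distrib, ← mul_sum, sum_boole, sum_boole]
    unfold nS nM
    push_cast
    rfl
  have hdeg : ∀ x, ∑ z, Gz x z + (if x = 0 then ((a % 2 : ℕ) : ℤ) else 0) =
      ((a + 2 * nS P Q x + nM P Q x : ℕ) : ℤ) := by
    intro x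
    simp only [hGz]
    rw [sum_add_distrib, sum_add_distrib, ← mul_sum, sum_add_distrib]
    have e1 : ∑ z, (if z = x + 2 then (1 : ℤ) else 0) = 1 := by simp
    have e2 : ∑ z, (if x = z + 2 then (1 : ℤ) else 0) = 1 := by
      have : ∀ z, (x = z + 2) ↔ (z = x - 2) := fun z => by
        constructor
        · intro h; rw [h]; ring
        · intro h; rw [h]; ring
      simp [this]
    have e3 : ∑ z, (if x + z = 0 ∧ x ≠ z then ((a % 2 : ℕ) : ℤ) else 0) =
        if x = 0 then 0 else ((a % 2 : ℕ) : ℤ) := by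
      by_cases hx : x = 0
      · rw [if_pos hx]
        apply sum_eq_zero
        intro z _
        rw [if_neg]
        rintro ⟨h5, h6⟩
        apply h6
        rw [hx] at h5 ⊢
        rw [zero_add] at h5
        exact h5.symm
      · rw [if_neg hx, sum_eq_single (-x)]
        · rw [if_pos]
          refine ⟨by ring, fun h5 => hx (two_cancel x ?_)⟩
          linear_combination h5
        · intro z _ hz
          rw [if_neg]
          rintro ⟨h5, _⟩
          exact hz (by linear_combination h5)
        · intro h5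
          exact absurd (mem_univ _) h5
    have e4 : ∑ z, ∑ π, (dl (P π) (u π) x z + dl (Q π) (v π) x z - dl (u π) (v π) x z) =
        ∑ π, ((if x = P π then (1 : ℤ) else 0) + (if x = Q π then 1 else 0)) := by
      rw [sum_comm]
      apply sum_congr rfl
      intro π _
      rw [sum_sub_distrib, sum_add_distrib, dl_sum, dl_sum, dl_sum]
      ring
    rw [e1, e2, e3, e4, hcount]
    have e5 : a = 2 * (a / 2) + a % 2 := by omega
    have e6 : (a : ℤ) = 2 * ((a / 2 : ℕ) : ℤ) + ((a % 2 : ℕ) : ℤ) := by exact_mod_cast e5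
    push_cast at e6 ⊢
    by_cases hx : x = 0
    · simp only [hx, if_true]
      linarith
    · simp only [hx, if_false]
      linarith
  have hbd : ∀ x z, Gz x z ≤
      (if x = z + 2 ∨ z = x + 2 then ((a / 2 : ℕ) : ℤ) else 0) + ((a % 2 : ℕ) : ℤ) +
      ((nS P Q x + nM P Q x : ℕ) : ℤ) + ((nS P Q z + nM P Q z : ℕ) : ℤ) := by
    intro x z
    have b1 : ((a / 2 : ℕ) : ℤ) * ((if z = x + 2 then 1 else 0) + (if x = z + 2 then 1 else 0)) ≤
        (if x = z + 2 ∨ z = x + 2 then ((a / 2 : ℕ) : ℤ) else 0) := by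
      by_cases c1 : z = x + 2
      · have c2 : ¬ (x = z + 2) := by
          intro c2
          exact h4 (by linear_combination -c1 - c2)
        rw [if_pos c1, if_neg c2, if_pos (Or.inr c1)]
        simp
      · by_cases c2 : x = z + 2
        · rw [if_neg c1, if_pos c2, if_pos (Or.inl c2)]
          simp
        · rw [if_neg c1, if_neg c2]
          simp [c1, c2]
    have b2 : (if x + z = 0 ∧ x ≠ z then ((a % 2 : ℕ) : ℤ) else 0) ≤ ((a % 2 : ℕ) : ℤ) := by
      split_ifs
      · exact le_refl _
      · positivity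
    have b3 : ∑ π, (dl (P π) (u π) x z + dl (Q π) (v π) x z - dl (u π) (v π) x z) ≤
        ((nS P Q x + nM P Q x : ℕ) : ℤ) + ((nS P Q z + nM P Q z : ℕ) : ℤ) := by
      have e : ∑ π, (((if P π = x ∧ Q π = x then (1 : ℤ) else 0) +
          (if P π ≠ Q π ∧ (P π = x ∨ Q π = x) then 1 else 0)) +
          ((if P π = z ∧ Q π = z then 1 else 0) +
          (if P π ≠ Q π ∧ (P π = z ∨ Q π = z) then 1 else 0))) =
          ((nS P Q x + nM P Q x : ℕ) : ℤ) + ((nS P Q z + nM P Q z : ℕ) : ℤ) := by
        rw [sum_add_distrib, sum_add_distrib, sum_add_distrib, sum_boole, sum_boole, sum_boole,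
          sum_boole]
        unfold nS nM
        push_cast
        rfl
      rw [← e]
      apply sum_le_sum
      intro π _
      have k1 := pair_bound (P π) (Q π) (u π) (v π) x z (huv' π)
      have k2 := dl_nonneg (u π) (v π) x z
      linarith
    simp only [hGz]
    linarith
  refine ⟨fun x z => (Gz x z).toNat, fun x z => by simp only; rw [hsym], fun x => by
    simp only; rw [hdiag]; rfl, ?_, ?_⟩
  · intro x
    have h5 := hdeg x
    have h6 : ((∑ z, (Gz x z).toNat : ℕ) : ℤ) = ∑ z, Gz x z := by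
      push_cast
      exact sum_congr rfl fun z _ => Int.toNat_of_nonneg (hnn x z)
    have h7 : (((∑ z, (Gz x z).toNat) + (if x = 0 then a % 2 else 0) : ℕ) : ℤ) =
        ((a + 2 * nS P Q x + nM P Q x : ℕ) : ℤ) := by
      rw [Nat.cast_add, h6, ← h5]
      congr 1
      split_ifs <;> simp
    exact_mod_cast h7
  · intro x z _
    have h5 := hbd x z
    have h6 : ((Gz x z).toNat : ℤ) = Gz x z := Int.toNat_of_nonneg (hnn x z)
    have h7 : (((Gz x z).toNat : ℕ) : ℤ) ≤ (((if x = z + 2 ∨ z = x + 2 then a / 2 else 0) + a % 2 +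
      (nS P Q x + nM P Q x) + (nS P Q z + nM P Q z) : ℕ) : ℤ) := by
      rw [h6]
      refine h5.trans (le_of_eq ?_)
      push_cast
      split_ifs <;> simp
    exact_mod_cast h7

end Pool.Agent.H301R2.HR
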