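import Pool.Agent.H301R2.HR.SP

set_option autoImplicit false

/-! Edge colouring from an outline. -/

namespace Pool.Agent.H301R2.HR

open Finset

theorem T_DE (h : S_DET) : S_DE := by
  intro N K _ _ _ _ w A _ x hA hw hO
  obtain ⟨X, S, hX, hsup⟩ := h w A x (fun _ _ => 0) 0 (by omega) hA hw hO
  have key : ∀ a b : (Σ u, Fin (w u)), a ≠ b → A a.1 b.1 →
      X (Classical.epsilon fun c => X c a b ≠ 0) a b ≠ 0 := by
    intro a b hab hAab
    have hex : ∃ c, X c a b ≠ 0 := by
      by_contra hcon
      push Not at hcon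
      have h1 := hX.tot a b hab
      rw [if_pos hAab, Finset.sum_eq_zero fun c _ => hcon c] at h1
      omega
    exact Classical.epsilon_spec hex
  refine ⟨fun a b => Classical.epsilon fun c => X c a b ≠ 0, ?_, ?_, ?_⟩
  · intro a b
    exact congrArg Classical.epsilon (funext fun c => by rw [hX.symm c a b])
  · intro a b c hab hAab hac hAac hbc heq
    have h1 := key a b hab hAab
    have h2 := key a c hac hAac
    have heq' : (Classical.epsilon fun k => X k a b ≠ 0) =
        Classical.epsilon fun k => X k a c ≠ 0 := heq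
    rw [← heq'] at h2
    generalize (Classical.epsilon fun k => X k a b ≠ 0) = k at h1 h2
    have hdeg := hX.deg k a
    have hle : ∑ v ∈ ({b, c} : Finset (Σ u, Fin (w u))), X k a v ≤ ∑ v, X k a v :=
      Finset.sum_le_sum_of_subset (Finset.subset_univ _)
    rw [Finset.sum_pair hbc] at hle
    have h3 : 1 ≤ X k a b := Nat.one_le_iff_ne_zero.2 h1
    have h4 : 1 ≤ X k a c := Nat.one_le_iff_ne_zero.2 h2
    have hdeg' : S k a + ∑ v, X k a v + X k a a ≤ 1 := hdeg
    omega
  · intro a b hab hAab h0
    exact key a b hab hAab (hsup _ a b h0)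

end Pool.Agent.H301R2.HR
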