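import Pool.Agent.H301R2.HR.SP

set_option autoImplicit false

namespace Pool.Agent.H301R2.HR

open Finset

namespace DETh

/-- transport of an outline along a bijection -/
theorem tr {N N' K : Type} [Fintype N] [Fintype N'] [Fintype K] [DecidableEq N] [DecidableEq N']
    (e : N' ≃ N) (w : N → ℕ) (A : N → N → Prop) [DecidableRel A] (x : K → N → N → ℕ)
    (s : K → N → ℕ) (κ : ℕ) (w' : N' → ℕ) (A' : N' → N' → Prop) [DecidableRel A']
    (hw : ∀ a, w' a = w (e a)) (hA : ∀ a b, A' a b ↔ A (e a) (e b)) (h : Outline w A x s κ) :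
    Outline w' A' (fun c a b => x c (e a) (e b)) (fun c a => s c (e a)) κ where
  symm c u v := h.symm c _ _
  tot u v huv := by
    have h1 := h.tot (e u) (e v) (e.injective.ne huv)
    rw [h1, hw, hw]
    by_cases hc : A (e u) (e v)
    · rw [if_pos hc, if_pos ((hA u v).2 hc)]
    · rw [if_neg hc, if_neg (fun h' => hc ((hA u v).1 h'))]
  loop u := by
    have h1 := h.loop (e u)
    rw [h1, hw]
    by_cases hc : A (e u) (e u)
    · rw [if_pos hc, if_pos ((hA u u).2 hc)]
    · rw [if_neg hc, if_neg (fun h' => hc ((hA u u).1 h'))]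
  own u := by
    rw [h.own (e u), hw]
  deg c u := by
    have h1 := h.deg c (e u)
    have h2 : ∑ v, x c (e u) (e v) = ∑ v, x c (e u) v := Equiv.sum_comp e (fun v => x c (e u) v)
    rw [h2, hw]
    exact h1
  excl c u v huv hc := h.excl c _ _ (e.injective.ne huv) ((hA u v).1 hc)
  exclL c u hc := h.exclL c _ ((hA u u).1 hc)

/-- the new weights -/
def nw {N : Type} [DecidableEq N] (w : N → ℕ) (u₀ : N) (o : Option N) : ℕ :=
  o.elim 1 (fun u => if u = u₀ then w u - 1 else w u)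

theorem nw_le {N : Type} [DecidableEq N] (w : N → ℕ) (u₀ u : N) : nw w u₀ (some u) ≤ w u := by
  show (if u = u₀ then w u - 1 else w u) ≤ w u
  split_ifs <;> omega

theorem nw_self {N : Type} [DecidableEq N] (w : N → ℕ) (u₀ : N) :
    nw w u₀ (some u₀) = w u₀ - 1 := if_pos rfl

theorem nw_ne {N : Type} [DecidableEq N] (w : N → ℕ) (u₀ u : N) (h : u ≠ u₀) :
    nw w u₀ (some u) = w u := if_neg h

theorem sig_ext {N : Type} {w : N → ℕ} {a b : Σ u, Fin (w u)} (h1 : a.1 = b.1)
    (h2 : (a.2 : ℕ) = b.2) : a = b := by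
  obtain ⟨u, i⟩ := a
  obtain ⟨v, j⟩ := b
  simp only at h1 h2
  subst h1
  rw [Fin.ext h2]

/-- the map from the vertices after the splitting to the vertices -/
def psi {N : Type} [DecidableEq N] (w : N → ℕ) (u₀ : N) (h0 : 2 ≤ w u₀) :
    (Σ o, Fin (nw w u₀ o)) → (Σ u, Fin (w u))
  | ⟨none, _⟩ => ⟨u₀, ⟨w u₀ - 1, by omega⟩⟩
  | ⟨some u, i⟩ => ⟨u, ⟨i, lt_of_lt_of_le i.2 (nw_le w u₀ u)⟩⟩

theorem psi_fst {N : Type} [DecidableEq N] (w : N → ℕ) (u₀ : N) (h0 : 2 ≤ w u₀)
    (a : Σ o, Fin (nw w u₀ o)) : (psi w u₀ h0 a).1 = a.1.getD u₀ := by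
  obtain ⟨_ | u, i⟩ := a <;> rfl

theorem psi_bij {N : Type} [DecidableEq N] (w : N → ℕ) (u₀ : N) (h0 : 2 ≤ w u₀) :
    Function.Bijective (psi w u₀ h0) := by
  constructor
  · rintro ⟨_ | u, i⟩ ⟨_ | v, j⟩ h
    · have hi : (i : ℕ) < 1 := i.2
      have hj : (j : ℕ) < 1 := j.2
      have hij : i = j := Fin.ext (by omega)
      rw [hij]
    · exfalso
      have h1 : u₀ = v := congrArg Sigma.fst h
      have h2 : w u₀ - 1 = (j : ℕ) := congrArg (fun a : Σ u, Fin (w u) => (a.2 : ℕ)) h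
      subst h1
      have hj : (j : ℕ) < w u₀ - 1 := lt_of_lt_of_eq j.2 (nw_self w u₀)
      omega
    · exfalso
      have h1 : u = u₀ := congrArg Sigma.fst h
      have h2 : (i : ℕ) = w u₀ - 1 := congrArg (fun a : Σ u, Fin (w u) => (a.2 : ℕ)) h
      subst h1
      have hi : (i : ℕ) < w u - 1 := lt_of_lt_of_eq i.2 (nw_self w u)
      omega
    · have h1 : u = v := congrArg Sigma.fst h
      have h2 : (i : ℕ) = (j : ℕ) := congrArg (fun a : Σ u, Fin (w u) => (a.2 : ℕ)) h
      exact sig_ext (congrArg some h1) h2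
  · rintro ⟨u, i⟩
    by_cases hu : u = u₀
    · subst hu
      by_cases hi : (i : ℕ) = w u - 1
      · exact ⟨⟨none, ⟨0, Nat.one_pos⟩⟩, sig_ext rfl hi.symm⟩
      · have h1 : (i : ℕ) < w u := i.2
        exact ⟨⟨some u, ⟨i, by rw [nw_self]; omega⟩⟩, sig_ext rfl rfl⟩
    · exact ⟨⟨some u, ⟨i, by rw [nw_ne w u₀ u hu]; exact i.2⟩⟩, sig_ext rfl rfl⟩

theorem main (h : S_SPLIT) : ∀ (k : ℕ) {N K : Type} [Fintype N] [Fintype K] [DecidableEq N]
    (w : N → ℕ) (A : N → N → Prop) [DecidableRel A] (x : K → N → N → ℕ) (s : K → N → ℕ) (κ : ℕ),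
    ∑ u, (w u - 1) = k →
    κ ≤ 1 → (∀ u v, A u v → A v u) → (∀ u, 0 < w u) → Outline w A x s κ →
    ∃ (X : K → (Σ u, Fin (w u)) → (Σ u, Fin (w u)) → ℕ) (S : K → (Σ u, Fin (w u)) → ℕ),
      Outline (N := Σ u, Fin (w u)) (K := K) (fun _ => 1) (fun a b => A a.1 b.1) X S κ ∧
      (∀ c a b, x c a.1 b.1 = 0 → X c a b = 0) := by
  intro k
  induction k using Nat.strong_induction_on with
  | _ k ih =>
    intro N K _ _ _ w A _ x s κ hk hκ hA hw hO
    by_cases hall : ∀ u, w u = 1
    · -- all weights are one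
      have hbij : Function.Bijective (fun a : Σ u, Fin (w u) => a.1) := by
        constructor
        · intro a b hab
          apply sig_ext hab
          have h1 : (a.2 : ℕ) < 1 := lt_of_lt_of_eq a.2.2 (hall a.1)
          have h2 : (b.2 : ℕ) < 1 := lt_of_lt_of_eq b.2.2 (hall b.1)
          omega
        · intro u
          exact ⟨⟨u, ⟨0, hw u⟩⟩, rfl⟩
      exact ⟨_, _, tr (Equiv.ofBijective _ hbij) w A x s κ (fun _ => 1) (fun a b => A a.1 b.1)
        (fun a => (hall a.1).symm) (fun a b => Iff.rfl) hO, fun c a b hab => hab⟩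
    · push Not at hall
      obtain ⟨u₀, hu₀⟩ := hall
      have h2 : 2 ≤ w u₀ := by
        have := hw u₀
        omega
      obtain ⟨x', s', hO', hx'⟩ := h w A x s κ u₀ hκ hA h2 hO
      have hO'' : Outline (nw w u₀) (fun a b => A (a.getD u₀) (b.getD u₀)) x' s' κ := hO'
      have hsum : ∑ o, (nw w u₀ o - 1) < k := by
        rw [Fintype.sum_option, ← hk]
        have h3 : nw w u₀ none - 1 = 0 := rfl
        rw [h3, zero_add]
        apply Finset.sum_lt_sum
        · intro u _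
          have := nw_le w u₀ u
          omega
        · refine ⟨u₀, Finset.mem_univ _, ?_⟩
          rw [nw_self]
          omega
      have hpos : ∀ o, 0 < nw w u₀ o := by
        rintro (_ | u)
        · exact Nat.one_pos
        · by_cases hu : u = u₀
          · subst hu
            rw [nw_self]
            omega
          · rw [nw_ne w u₀ u hu]
            exact hw u
      obtain ⟨X', S', hX', hX0⟩ := ih _ hsum (nw w u₀) (fun a b => A (a.getD u₀) (b.getD u₀))
        x' s' κ rfl hκ (fun u v huv => hA _ _ huv) hpos hO''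
      set φ := (Equiv.ofBijective _ (psi_bij w u₀ h2)).symm with hφ
      have hφ1 : ∀ a : Σ u, Fin (w u), (φ a).1.getD u₀ = a.1 := by
        intro a
        rw [← psi_fst w u₀ h2]
        have h4 : psi w u₀ h2 (φ a) = a := (Equiv.ofBijective _ (psi_bij w u₀ h2)).apply_symm_apply a
        rw [h4]
      refine ⟨_, _, tr φ (fun _ => 1) (fun a b => A (a.1.getD u₀) (b.1.getD u₀)) X' S' κ
        (fun _ => 1) (fun a b => A a.1 b.1) (fun _ => rfl) (fun a b => ?_) hX', ?_⟩
      · show A a.1 b.1 ↔ A ((φ a).1.getD u₀) ((φ b).1.getD u₀)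
        rw [hφ1, hφ1]
      · intro c a b hab
        apply hX0
        apply hx'
        rw [hφ1, hφ1]
        exact hab

end DETh

theorem T_DET (h : S_SPLIT) : S_DET := by
  intro N K _ _ _ w A _ x s κ hκ hA hw hO
  exact DETh.main h _ w A x s κ rfl hκ hA hw hO

end Pool.Agent.H301R2.HR
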