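import Pool.Agent.H301R2.HR.Defs

set_option autoImplicit false

/-! Total colouring from an outline. -/

namespace Pool.Agent.H301R2.HR

open Finset

theorem T_DT (h : S_DET) : S_DT := by
  classical
  intro N K _ _ _ w A _ x s hA hw hO
  obtain ⟨X, S, hX, -⟩ := h w A x s 1 le_rfl hA hw hO
  have hown : ∀ a : (Σ u, Fin (w u)), ∃ c, S c a ≠ 0 := by
    intro a
    by_contra hc
    push Not at hc
    have h1 := hX.own a
    rw [Finset.sum_eq_zero (fun c _ => hc c)] at h1
    simp at h1
  choose cv hcv using hown
  have htot : ∀ a b : (Σ u, Fin (w u)), a ≠ b → A a.1 b.1 → ∃ c, X c a b ≠ 0 := by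
    intro a b hab hA'
    by_contra hc
    push Not at hc
    have h1 := hX.tot a b hab
    rw [Finset.sum_eq_zero (fun c _ => hc c), if_pos hA'] at h1
    simp at h1
  rcases isEmpty_or_nonempty (Σ u, Fin (w u)) with hV | ⟨⟨a0⟩⟩
  · exact ⟨cv, fun a => isEmptyElim a, fun a => isEmptyElim a, fun a => isEmptyElim a,
      fun a => isEmptyElim a, fun a => isEmptyElim a⟩
  · have : Nonempty K := ⟨cv a0⟩
    have hce : ∀ a b : (Σ u, Fin (w u)), a ≠ b ∧ A a.1 b.1 →
        X (Classical.epsilon (fun c => X c a b ≠ 0)) a b ≠ 0 := fun a b hab =>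
      Classical.epsilon_spec (htot a b hab.1 hab.2)
    refine ⟨cv, fun a b => Classical.epsilon (fun c => X c a b ≠ 0), ?_, ?_, ?_, ?_⟩
    · intro a b hab hc
      rcases hX.excl (cv a) a b hab.1 hab.2 with h1 | h1
      · exact hcv a h1
      · rw [hc] at h1
        exact hcv b h1
    · intro a b
      have : (fun c => X c a b ≠ 0) = (fun c => X c b a ≠ 0) := by
        funext c
        rw [hX.symm c a b]
      simp only [this]
    · intro a b c hab hac hbc he
      have h1 := hce a b hab
      have h2 := hce a c hac
      simp only at he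
      rw [← he] at h2
      set k := Classical.epsilon (fun c => X c a b ≠ 0)
      have h3 := hX.deg k a
      have h4 : X k a b + X k a c ≤ ∑ v, X k a v := by
        rw [← Finset.sum_pair hbc]
        exact Finset.sum_le_sum_of_subset (Finset.subset_univ _)
      omega
    · intro a b hab he
      have h1 := hce a b hab
      have h2 := hcv a
      simp only at he
      rw [← he] at h1
      have h3 := hX.deg (cv a) a
      have h4 : X (cv a) a b ≤ ∑ v, X (cv a) a v :=
        Finset.single_le_sum (f := fun v => X (cv a) a v) (fun _ _ => Nat.zero_le _)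
          (Finset.mem_univ b)
      omega

end Pool.Agent.H301R2.HR
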