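import Pool.Agent.H301R2.HR.SP

open Finset

namespace Pool.Agent.H301R2.HR

namespace DW

theorem koenig_aux {E A B : Type} [Fintype A] [Fintype B] [DecidableEq E] [DecidableEq A]
    [DecidableEq B] (src : E → A) (tgt : E → B) (hAB : Fintype.card A = Fintype.card B) :
    ∀ (k : ℕ) (F : Finset E), (∀ a, (F.filter (fun e => src e = a)).card = k) →
      (∀ b, (F.filter (fun e => tgt e = b)).card = k) →
      ∃ c : E → ℕ, (∀ e ∈ F, c e < k) ∧
        (∀ e ∈ F, ∀ e' ∈ F, src e = src e' → c e = c e' → e = e') ∧
        (∀ e ∈ F, ∀ e' ∈ F, tgt e = tgt e' → c e = c e' → e = e') := by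
  intro k
  induction k with
  | zero =>
    intro F h1 _
    have hF : ∀ e ∈ F, False := by
      intro e he
      have := h1 (src e)
      rw [Finset.card_eq_zero] at this
      have h2 : e ∈ F.filter (fun e' => src e' = src e) := by
        rw [Finset.mem_filter]; exact ⟨he, rfl⟩
      rw [this] at h2
      simp at h2
    exact ⟨fun _ => 0, fun e he => (hF e he).elim, fun e he => (hF e he).elim,
      fun e he => (hF e he).elim⟩
  | succ k ih =>
    intro F h1 h2
    -- Hall's condition
    let N : A → Finset B := fun a => (F.filter (fun e => src e = a)).image tgt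
    have hall : ∀ S : Finset A, S.card ≤ (S.biUnion N).card := by
      intro S
      have c1 : (F.filter (fun e => src e ∈ S)).card = S.card * (k + 1) := by
        rw [Finset.card_eq_sum_card_fiberwise (f := src) (t := S)]
        · rw [Finset.sum_congr rfl (g := fun _ => k + 1)]
          · simp
          · intro a ha
            rw [← h1 a]
            congr 1
            ext e
            simp only [Finset.mem_filter]
            constructor
            · rintro ⟨⟨h3, -⟩, h4⟩; exact ⟨h3, h4⟩
            · rintro ⟨h3, h4⟩; exact ⟨⟨h3, by rw [h4]; exact ha⟩, h4⟩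
        · intro e he
          rw [Finset.mem_coe, Finset.mem_filter] at he
          exact he.2
      have c2 : (F.filter (fun e => tgt e ∈ S.biUnion N)).card = (S.biUnion N).card * (k + 1) := by
        rw [Finset.card_eq_sum_card_fiberwise (f := tgt) (t := S.biUnion N)]
        · rw [Finset.sum_congr rfl (g := fun _ => k + 1)]
          · simp
          · intro b hb
            rw [← h2 b]
            congr 1
            ext e
            simp only [Finset.mem_filter]
            constructor
            · rintro ⟨⟨h3, -⟩, h4⟩; exact ⟨h3, h4⟩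
            · rintro ⟨h3, h4⟩; exact ⟨⟨h3, by rw [h4]; exact hb⟩, h4⟩
        · intro e he
          rw [Finset.mem_coe, Finset.mem_filter] at he
          exact he.2
      have c3 : F.filter (fun e => src e ∈ S) ⊆ F.filter (fun e => tgt e ∈ S.biUnion N) := by
        intro e he
        rw [Finset.mem_filter] at he ⊢
        refine ⟨he.1, ?_⟩
        rw [Finset.mem_biUnion]
        exact ⟨src e, he.2, Finset.mem_image.mpr ⟨e, by rw [Finset.mem_filter]; exact ⟨he.1, rfl⟩,
          rfl⟩⟩
      have c4 := Finset.card_le_card c3
      rw [c1, c2] at c4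
      exact Nat.le_of_mul_le_mul_right c4 (by omega)
    obtain ⟨m, hm1, hm2⟩ := (Finset.all_card_le_biUnion_card_iff_exists_injective N).mp hall
    have hex : ∀ a, ∃ e ∈ F, src e = a ∧ tgt e = m a := by
      intro a
      have := hm2 a
      simp only [N, Finset.mem_image, Finset.mem_filter] at this
      obtain ⟨e, ⟨he1, he2⟩, he3⟩ := this
      exact ⟨e, he1, he2, he3⟩
    choose M hM1 hM2 hM3 using hex
    have hmbij : Function.Bijective m := by
      rw [Fintype.bijective_iff_injective_and_card]
      exact ⟨hm1, hAB⟩
    have hMinj : Function.Injective M := by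
      intro a a' h
      rw [← hM2 a, ← hM2 a', h]
    let F' : Finset E := F.filter (fun e => e ≠ M (src e))
    have hF'mem : ∀ e, e ∈ F' ↔ e ∈ F ∧ e ≠ M (src e) := by
      intro e; simp only [F', Finset.mem_filter]
    have g1 : ∀ a, (F'.filter (fun e => src e = a)).card = k := by
      intro a
      have h3 : F'.filter (fun e => src e = a) = (F.filter (fun e => src e = a)).erase (M a) := by
        ext e
        simp only [Finset.mem_filter, Finset.mem_erase, hF'mem]
        constructor
        · rintro ⟨⟨h4, h5⟩, h6⟩
          rw [h6] at h5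
          exact ⟨h5, h4, h6⟩
        · rintro ⟨h5, h4, h6⟩
          refine ⟨⟨h4, ?_⟩, h6⟩
          rw [h6]; exact h5
      rw [h3, Finset.card_erase_of_mem, h1 a]
      · rfl
      · rw [Finset.mem_filter]; exact ⟨hM1 a, hM2 a⟩
    have g2 : ∀ b, (F'.filter (fun e => tgt e = b)).card = k := by
      intro b
      obtain ⟨a, ha⟩ := hmbij.2 b
      have h3 : F'.filter (fun e => tgt e = b) = (F.filter (fun e => tgt e = b)).erase (M a) := by
        ext e
        simp only [Finset.mem_filter, Finset.mem_erase, hF'mem]
        constructor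
        · rintro ⟨⟨h4, h5⟩, h6⟩
          refine ⟨?_, h4, h6⟩
          rintro rfl
          exact h5 (by rw [hM2])
        · rintro ⟨h5, h4, h6⟩
          refine ⟨⟨h4, ?_⟩, h6⟩
          intro h7
          have h8 : tgt e = m (src e) := by rw [h7, hM3, hM2]
          rw [h6, ← ha] at h8
          have h9 := hm1 h8
          exact h5 (by rw [h9]; exact h7)
      rw [h3, Finset.card_erase_of_mem, h2 b]
      · rfl
      · rw [Finset.mem_filter]; exact ⟨hM1 a, by rw [hM3, ha]⟩
    obtain ⟨c, hc1, hc2, hc3⟩ := ih F' g1 g2
    refine ⟨fun e => if e = M (src e) then k else c e, ?_, ?_, ?_⟩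
    · intro e he
      simp only
      split_ifs with h3
      · omega
      · have := hc1 e ((hF'mem e).mpr ⟨he, h3⟩)
        omega
    · intro e he e' he' hs hc
      simp only at hc
      split_ifs at hc with h3 h4 h4
      · rw [h3, h4, hs]
      · have := hc1 e' ((hF'mem e').mpr ⟨he', h4⟩); omega
      · have := hc1 e ((hF'mem e).mpr ⟨he, h3⟩); omega
      · exact hc2 e ((hF'mem e).mpr ⟨he, h3⟩) e' ((hF'mem e').mpr ⟨he', h4⟩) hs hc
    · intro e he e' he' hs hc
      simp only at hc
      split_ifs at hc with h3 h4 h4
      · have h5 : tgt e = m (src e) := by rw [h3, hM3, hM2]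
        have h6 : tgt e' = m (src e') := by rw [h4, hM3, hM2]
        rw [h5, h6] at hs
        rw [h3, h4, hm1 hs]
      · have := hc1 e' ((hF'mem e').mpr ⟨he', h4⟩); omega
      · have := hc1 e ((hF'mem e).mpr ⟨he, h3⟩); omega
      · exact hc3 e ((hF'mem e).mpr ⟨he, h3⟩) e' ((hF'mem e').mpr ⟨he', h4⟩) hs hc


theorem fcongr {α : Type} [Fintype α] {P Q : α → Prop} [DecidablePred P] [DecidablePred Q]
    (h : ∀ x, P x ↔ Q x) : (Finset.univ.filter P).card = (Finset.univ.filter Q).card := by
  congr 1
  ext x
  simp [h x]

theorem fzero {α : Type} [Fintype α] {P : α → Prop} [DecidablePred P]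
    (h : ∀ x, ¬ P x) : (Finset.univ.filter P).card = 0 := by
  rw [Finset.card_eq_zero]
  ext x
  simp [h x]

/-- a bipartite multigraph of maximum degree `≤ m` has a proper edge colouring with `m` colours -/
theorem koenig_le {E A B : Type} [Fintype E] [Fintype A] [Fintype B] (s : E → A) (t : E → B)
    (m : ℕ) (hs : ∀ a, Nat.card {e // s e = a} ≤ m) (ht : ∀ b, Nat.card {e // t e = b} ≤ m) :
    ∃ c : E → Fin m, (∀ e e', s e = s e' → c e = c e' → e = e') ∧
      (∀ e e', t e = t e' → c e = c e' → e = e') := by
  classical
  -- the deficiency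
  let df : A ⊕ B → ℕ := Sum.elim (fun a => m - Nat.card {e // s e = a})
    (fun b => m - Nat.card {e // t e = b})
  let E' : Type := E ⊕ E ⊕ (Σ v : A ⊕ B, Fin (df v))
  let src : E' → A ⊕ B := Sum.elim (fun e => Sum.inl (s e))
    (Sum.elim (fun e => Sum.inr (t e)) (fun p => p.1))
  let tgt : E' → A ⊕ B := Sum.elim (fun e => Sum.inr (t e))
    (Sum.elim (fun e => Sum.inl (s e)) (fun p => p.1))
  have hsig : ∀ v : A ⊕ B, (Finset.univ.filter fun p : (Σ v : A ⊕ B, Fin (df v)) => p.1 = v).card
      = df v := by
    intro v
    have : (Finset.univ.filter fun p : (Σ v : A ⊕ B, Fin (df v)) => p.1 = v) =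
        Finset.univ.map ⟨fun i : Fin (df v) => (⟨v, i⟩ : Σ v : A ⊕ B, Fin (df v)), by
          intro i j h
          simpa using h⟩ := by
      ext p
      simp only [Finset.mem_filter, Finset.mem_univ, true_and, Finset.mem_map,
        Function.Embedding.coeFn_mk]
      constructor
      · rintro rfl
        exact ⟨p.2, rfl⟩
      · rintro ⟨i, rfl⟩
        rfl
    rw [this, Finset.card_map, Finset.card_univ, Fintype.card_fin]
  have hcs : ∀ a, (Finset.univ.filter fun e : E => s e = a).card = Nat.card {e // s e = a} := by
    intro a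
    rw [Nat.card_eq_fintype_card, Fintype.card_subtype]
  have hct : ∀ b, (Finset.univ.filter fun e : E => t e = b).card = Nat.card {e // t e = b} := by
    intro b
    rw [Nat.card_eq_fintype_card, Fintype.card_subtype]
  have hsum : ∀ P : E' → Prop, ∀ [DecidablePred P],
      ((Finset.univ : Finset E').filter P).card =
      (Finset.univ.filter fun e : E => P (Sum.inl e)).card +
      ((Finset.univ.filter fun e : E => P (Sum.inr (Sum.inl e))).card +
      (Finset.univ.filter fun p : (Σ v : A ⊕ B, Fin (df v)) => P (Sum.inr (Sum.inr p))).card) := by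
    intro P _
    simp only [Finset.card_filter]
    rw [Fintype.sum_sum_type, Fintype.sum_sum_type]
  have h1 : ∀ v, ((Finset.univ : Finset E').filter (fun e => src e = v)).card = m := by
    intro v
    rw [hsum]
    have A3 : (Finset.univ.filter fun p : (Σ v : A ⊕ B, Fin (df v)) =>
        src (Sum.inr (Sum.inr p)) = v).card = df v := by
      rw [← hsig v]
      exact fcongr (fun p => by simp [src])
    rw [A3]
    rcases v with a | b
    · have A1 : (Finset.univ.filter fun e : E => src (Sum.inl e) = Sum.inl a).card =
          Nat.card {e // s e = a} := by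
        rw [← hcs a]
        exact fcongr (fun e => by simp [src])
      have A2 : (Finset.univ.filter fun e : E => src (Sum.inr (Sum.inl e)) = Sum.inl a).card = 0 :=
        fzero (fun e => by simp [src])
      have A4 : df (Sum.inl a) = m - Nat.card {e // s e = a} := rfl
      rw [A1, A2, A4]
      have := hs a
      omega
    · have A1 : (Finset.univ.filter fun e : E => src (Sum.inr (Sum.inl e)) = Sum.inr b).card =
          Nat.card {e // t e = b} := by
        rw [← hct b]
        exact fcongr (fun e => by simp [src])
      have A2 : (Finset.univ.filter fun e : E => src (Sum.inl e) = Sum.inr b).card = 0 :=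
        fzero (fun e => by simp [src])
      have A4 : df (Sum.inr b) = m - Nat.card {e // t e = b} := rfl
      rw [A1, A2, A4]
      have := ht b
      omega
  have h2 : ∀ v, ((Finset.univ : Finset E').filter (fun e => tgt e = v)).card = m := by
    intro v
    rw [hsum]
    have A3 : (Finset.univ.filter fun p : (Σ v : A ⊕ B, Fin (df v)) =>
        tgt (Sum.inr (Sum.inr p)) = v).card = df v := by
      rw [← hsig v]
      exact fcongr (fun p => by simp [tgt])
    rw [A3]
    rcases v with a | b
    · have A1 : (Finset.univ.filter fun e : E => tgt (Sum.inr (Sum.inl e)) = Sum.inl a).card =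
          Nat.card {e // s e = a} := by
        rw [← hcs a]
        exact fcongr (fun e => by simp [tgt])
      have A2 : (Finset.univ.filter fun e : E => tgt (Sum.inl e) = Sum.inl a).card = 0 :=
        fzero (fun e => by simp [tgt])
      have A4 : df (Sum.inl a) = m - Nat.card {e // s e = a} := rfl
      rw [A1, A2, A4]
      have := hs a
      omega
    · have A1 : (Finset.univ.filter fun e : E => tgt (Sum.inl e) = Sum.inr b).card =
          Nat.card {e // t e = b} := by
        rw [← hct b]
        exact fcongr (fun e => by simp [tgt])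
      have A2 : (Finset.univ.filter fun e : E => tgt (Sum.inr (Sum.inl e)) = Sum.inr b).card = 0 :=
        fzero (fun e => by simp [tgt])
      have A4 : df (Sum.inr b) = m - Nat.card {e // t e = b} := rfl
      rw [A1, A2, A4]
      have := ht b
      omega
  obtain ⟨c, hc1, hc2, hc3⟩ := koenig_aux src tgt rfl m Finset.univ h1 h2
  refine ⟨fun e => ⟨c (Sum.inl e), hc1 _ (Finset.mem_univ _)⟩, ?_, ?_⟩
  · intro e e' h h'
    have := hc2 (Sum.inl e) (Finset.mem_univ _) (Sum.inl e') (Finset.mem_univ _)
      (by simp [src, h]) (by simpa using h')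
    exact Sum.inl_injective this
  · intro e e' h h'
    have := hc3 (Sum.inl e) (Finset.mem_univ _) (Sum.inl e') (Finset.mem_univ _)
      (by simp [tgt, h]) (by simpa using h')
    exact Sum.inl_injective this

/-- numbering of the edges at every vertex -/
theorem num {E A : Type} [Fintype E] (s : E → A) : ∃ idx : E → ℕ,
    (∀ e, idx e < Nat.card {e' // s e' = s e}) ∧
    (∀ e e', s e = s e' → idx e = idx e' → e = e') := by
  classical
  have hfe : ∀ a, Nonempty ({e' // s e' = a} ≃ Fin (Nat.card {e' // s e' = a})) := fun a =>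
    ⟨Finite.equivFin _⟩
  let f := fun a => (hfe a).some
  refine ⟨fun e => (f (s e) ⟨e, rfl⟩ : ℕ), fun e => (f (s e) ⟨e, rfl⟩).2, ?_⟩
  intro e e' h h'
  have key : ∀ a (x : {e' // s e' = a}) (hx : s x.1 = a),
      ((f (s x.1) ⟨x.1, rfl⟩ : Fin _) : ℕ) = ((f a x : Fin _) : ℕ) := by
    rintro a ⟨x, rfl⟩ _
    rfl
  have k1 := key (s e') ⟨e, h⟩ h
  simp only at h' k1
  rw [k1] at h'
  have := (f (s e')).injective (Fin.ext h')
  exact congrArg Subtype.val this

/-- the count of one colour at one vertex -/
theorem cnt {E A : Type} [Fintype E] [DecidableEq A] (s : E → A) (m : ℕ) (hm : 0 < m)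
    (idx : E → ℕ) (h1 : ∀ e, idx e < Nat.card {e' // s e' = s e})
    (h2 : ∀ e e', s e = s e' → idx e = idx e' → e = e') (col : E → Fin m)
    (h3 : ∀ e e', s e = s e' → idx e / m = idx e' / m → col e = col e' → e = e') (c : Fin m)
    (a : A) : Nat.card {e' // s e' = a} / m ≤ (Finset.univ.filter fun e => s e = a ∧ col e = c).card
      ∧ (Finset.univ.filter fun e => s e = a ∧ col e = c).card ≤
        (Nat.card {e' // s e' = a} + (m - 1)) / m := by
  classical
  set d := Nat.card {e' // s e' = a} with hd
  have hcd : (Finset.univ.filter fun e : E => s e = a).card = d := by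
    rw [hd, Nat.card_eq_fintype_card, Fintype.card_subtype]
  constructor
  · rw [show d / m = (Finset.range (d / m)).card by simp]
    refine Finset.card_le_card_of_surjOn (fun e => idx e / m) ?_
    intro q hq
    rw [Finset.coe_range, Set.mem_Iio] at hq
    -- all indices are attained
    have hsurj : ∀ i < d, ∃ e, s e = a ∧ idx e = i := by
      have himg : (Finset.univ.filter fun e : E => s e = a).image idx = Finset.range d := by
        apply Finset.eq_of_subset_of_card_le
        · intro i hi
          rw [Finset.mem_image] at hi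
          obtain ⟨e, he, rfl⟩ := hi
          rw [Finset.mem_filter] at he
          rw [Finset.mem_range]
          have := h1 e
          rwa [he.2] at this
        · rw [Finset.card_range, Finset.card_image_of_injOn, hcd]
          intro e he e' he' hee
          rw [Finset.mem_coe, Finset.mem_filter] at he he'
          exact h2 e e' (he.2.trans he'.2.symm) hee
      intro i hi
      have : i ∈ (Finset.univ.filter fun e : E => s e = a).image idx := by
        rw [himg, Finset.mem_range]; exact hi
      rw [Finset.mem_image] at this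
      obtain ⟨e, he, hei⟩ := this
      rw [Finset.mem_filter] at he
      exact ⟨e, he.2, hei⟩
    have hqm : q * m + m ≤ d := by
      have : (q + 1) * m ≤ d := by
        calc (q + 1) * m ≤ (d / m) * m := Nat.mul_le_mul_right _ hq
          _ ≤ d := Nat.div_mul_le_self d m
      linarith [this, Nat.succ_mul q m]
    choose g hg1 hg2 using fun r : Fin m => hsurj (q * m + r) (by have := r.2; omega)
    have hdiv : ∀ r, idx (g r) / m = q := by
      intro r
      rw [hg2 r, Nat.add_comm, Nat.add_mul_div_right _ _ hm, Nat.div_eq_of_lt r.2, zero_add]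
    have hinj : Function.Injective (fun r => col (g r)) := by
      intro r r' hrr
      have := h3 (g r) (g r') ((hg1 r).trans (hg1 r').symm) ((hdiv r).trans (hdiv r').symm) hrr
      have h4 := hg2 r
      rw [this, hg2 r'] at h4
      exact Fin.ext (by omega)
    obtain ⟨r, hr⟩ := (Finite.injective_iff_surjective.mp hinj) c
    refine ⟨g r, ?_, hdiv r⟩
    rw [Finset.mem_coe, Finset.mem_filter]
    exact ⟨Finset.mem_univ _, hg1 r, hr⟩
  · rw [show (d + (m - 1)) / m = (Finset.range ((d + (m - 1)) / m)).card by simp]
    refine Finset.card_le_card_of_injOn (fun e => idx e / m) ?_ ?_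
    · intro e he
      rw [Finset.mem_coe, Finset.mem_filter] at he
      rw [Finset.mem_coe, Finset.mem_range]
      have h4 := h1 e
      rw [he.2.1] at h4
      show idx e / m < (d + (m - 1)) / m
      rw [Nat.div_lt_iff_lt_mul hm]
      have h5 : d + (m - 1) < ((d + (m - 1)) / m + 1) * m := by
        rw [← Nat.div_lt_iff_lt_mul hm]; omega
      have h6 : ((d + (m - 1)) / m + 1) * m = (d + (m - 1)) / m * m + m := by ring
      omega
    · intro e he e' he' hee
      rw [Finset.mem_coe, Finset.mem_filter] at he he'
      exact h3 e e' (he.2.1.trans he'.2.1.symm) hee (he.2.2.trans he'.2.2.symm)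

end DW

open DW in
theorem T_DW : S_DW := by
  classical
  intro A B _ _ M m hm
  let E : Type := Σ a : A, Σ b : B, Fin (M a b)
  let s : E → A := fun e => e.1
  let t : E → B := fun e => e.2.1
  obtain ⟨ia, ia1, ia2⟩ := num s
  obtain ⟨ib, ib1, ib2⟩ := num t
  set N := Fintype.card E + 1 with hN
  have hia : ∀ e, ia e / m < N := by
    intro e
    have h1 := ia1 e
    have h2 : Nat.card {e' // s e' = s e} ≤ Fintype.card E := by
      rw [Nat.card_eq_fintype_card]; exact Fintype.card_subtype_le _
    have h3 := Nat.div_le_self (ia e) m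
    omega
  have hib : ∀ e, ib e / m < N := by
    intro e
    have h1 := ib1 e
    have h2 : Nat.card {e' // t e' = t e} ≤ Fintype.card E := by
      rw [Nat.card_eq_fintype_card]; exact Fintype.card_subtype_le _
    have h3 := Nat.div_le_self (ib e) m
    omega
  have hdeg : ∀ {A' : Type} (s' : E → A') (i' : E → ℕ) (hN' : ∀ e, i' e / m < N)
      (_ : ∀ e e', s' e = s' e' → i' e = i' e' → e = e') (v : A' × Fin N),
      Nat.card {e // (s' e, (⟨i' e / m, hN' e⟩ : Fin N)) = v} ≤ m := by
    intro A' s' i' hN' hinj v
    refine le_trans (Nat.card_le_card_of_injective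
      (fun e : {e // (s' e, (⟨i' e / m, hN' e⟩ : Fin N)) = v} =>
        (⟨i' e.1 % m, Nat.mod_lt _ hm⟩ : Fin m)) ?_) (le_of_eq (by simp))
    intro e e' h
    rw [Fin.mk.injEq] at h
    apply Subtype.ext
    have q1 := e.2
    have q2 := e'.2
    rw [Prod.ext_iff] at q1 q2
    simp only at q1 q2
    apply hinj _ _ (q1.1.trans q2.1.symm)
    have q3 := congrArg Fin.val (q1.2.trans q2.2.symm)
    simp only at q3
    rw [← Nat.div_add_mod (i' e.1) m, ← Nat.div_add_mod (i' e'.1) m, q3, h]
  obtain ⟨col, hc1, hc2⟩ := koenig_le (fun e => (s e, (⟨ia e / m, hia e⟩ : Fin N)))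
    (fun e => (t e, (⟨ib e / m, hib e⟩ : Fin N))) m (hdeg s ia hia ia2) (hdeg t ib hib ib2)
  have ga := fun c a => cnt s m hm ia ia1 ia2 col
    (fun e e' h1 h2 h3 => hc1 e e' (by simp [h1, h2]) h3) c a
  have gb := fun c b => cnt t m hm ib ib1 ib2 col
    (fun e e' h1 h2 h3 => hc2 e e' (by simp [h1, h2]) h3) c b
  have hda : ∀ a, Nat.card {e' // s e' = a} = ∑ b, M a b := by
    intro a
    have e1 : Function.Bijective (fun x : (Σ b : B, Fin (M a b)) =>
        (⟨⟨a, x⟩, rfl⟩ : {e' : E // s e' = a})) := by
      constructor
      · rintro x x' h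
        have h' : (⟨a, x⟩ : E) = ⟨a, x'⟩ := congrArg Subtype.val h
        exact eq_of_heq (Sigma.mk.inj_iff.mp h').2
      · rintro ⟨⟨a', x⟩, rfl⟩
        exact ⟨x, rfl⟩
    rw [← Nat.card_congr (Equiv.ofBijective _ e1), Nat.card_eq_fintype_card, Fintype.card_sigma]
    simp
  have hdb : ∀ b, Nat.card {e' // t e' = b} = ∑ a, M a b := by
    intro b
    have e1 : Function.Bijective (fun x : (Σ a : A, Fin (M a b)) =>
        (⟨⟨x.1, b, x.2⟩, rfl⟩ : {e' : E // t e' = b})) := by
      constructor
      · rintro ⟨a, x⟩ ⟨a', x'⟩ h
        have h' : (⟨a, b, x⟩ : E) = ⟨a', b, x'⟩ := congrArg Subtype.val h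
        obtain ⟨rfl, h2⟩ := Sigma.mk.inj_iff.mp h'
        have h3 := (Sigma.mk.inj_iff.mp (eq_of_heq h2)).2
        rw [eq_of_heq h3]
      · rintro ⟨⟨a', b', x⟩, rfl⟩
        exact ⟨⟨a', x⟩, rfl⟩
    rw [← Nat.card_congr (Equiv.ofBijective _ e1), Nat.card_eq_fintype_card, Fintype.card_sigma]
    simp
  have hdab : ∀ a b, (Finset.univ.filter fun e : E => s e = a ∧ t e = b).card = M a b := by
    intro a b
    have e1 : Function.Bijective (fun x : Fin (M a b) =>
        (⟨⟨a, b, x⟩, rfl, rfl⟩ : {e' : E // s e' = a ∧ t e' = b})) := by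
      constructor
      · rintro x x' h
        have h' : (⟨a, b, x⟩ : E) = ⟨a, b, x'⟩ := congrArg Subtype.val h
        have h2 := eq_of_heq (Sigma.mk.inj_iff.mp h').2
        exact eq_of_heq (Sigma.mk.inj_iff.mp h2).2
      · rintro ⟨⟨a', b', x⟩, rfl, rfl⟩
        exact ⟨x, rfl⟩
    rw [← Fintype.card_subtype, ← Fintype.card_congr (Equiv.ofBijective _ e1), Fintype.card_fin]
  refine ⟨fun c a b => (Finset.univ.filter fun e : E => (s e = a ∧ t e = b) ∧ col e = c).card,
    ?_, ?_, ?_⟩
  · intro a b
    rw [← hdab a b, Finset.card_eq_sum_card_fiberwise (f := col) (t := Finset.univ)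
      (fun _ _ => Finset.mem_coe.mpr (Finset.mem_univ _))]
    refine Finset.sum_congr rfl fun c _ => ?_
    rw [Finset.filter_filter]
  · intro c a
    have hsum : ∑ b, (Finset.univ.filter fun e : E => (s e = a ∧ t e = b) ∧ col e = c).card =
        (Finset.univ.filter fun e : E => s e = a ∧ col e = c).card := by
      rw [Finset.card_eq_sum_card_fiberwise (f := t) (t := Finset.univ)
        (fun _ _ => Finset.mem_coe.mpr (Finset.mem_univ _))]
      refine Finset.sum_congr rfl fun b _ => ?_
      rw [Finset.filter_filter]
      congr 1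
      ext e
      simp only [Finset.mem_filter, Finset.mem_univ, true_and]
      tauto
    rw [hsum, ← hda a]
    exact ga c a
  · intro c b
    have hsum : ∑ a, (Finset.univ.filter fun e : E => (s e = a ∧ t e = b) ∧ col e = c).card =
        (Finset.univ.filter fun e : E => t e = b ∧ col e = c).card := by
      rw [Finset.card_eq_sum_card_fiberwise (f := s) (t := Finset.univ)
        (fun _ _ => Finset.mem_coe.mpr (Finset.mem_univ _))]
      refine Finset.sum_congr rfl fun a _ => ?_
      rw [Finset.filter_filter]
      congr 1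
      ext e
      simp only [Finset.mem_filter, Finset.mem_univ, true_and]
      tauto
    rw [hsum, ← hdb b]
    exact gb c b

end Pool.Agent.H301R2.HR
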