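import Pool.Agent.H301R2.HR.SP

set_option autoImplicit false

namespace Pool.Agent.H301R2.HR

open Finset

theorem T_ECT (h1 : S_OT) (h2 : S_PHI) : S_ECT := by
  intro N _ _ w A _ m h t hA hw hm hmn hsym hdiag hle hdeg hodd
  obtain ⟨ε, τ, hε1, hε2, hτ, hsum, hphi⟩ := h2 w t m h hw hm hsym hle hodd
  set n' : ℚ := ∑ u, (w u : ℚ) with hn'
  have hmn' : (m : ℚ) < n' := by
    rw [hn']
    exact_mod_cast hmn
  have hm0 : (0 : ℚ) < m := by exact_mod_cast hm
  have hn0 : 0 < n' := hm0.trans hmn'
  set g : N → ℚ := fun u => (m : ℚ) * ε u + τ u with hg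
  have hhle : ∀ u v, u ≠ v → h u v ≤ w u * w v := fun u v huv =>
    (hle u v huv).1.trans (Nat.le_mul_of_pos_right _ (by have := hw v; omega))
  have hev : ∀ u, 2 * (w u * (w u - 1) / 2) = w u * (w u - 1) := by
    intro u
    have : Even (w u * (w u - 1)) := Nat.even_mul_pred_self (w u)
    exact Nat.mul_div_cancel' this.two_dvd
  let R : N → N → ℕ := fun u v => if u = v then 0 else w u * w v - h u v
  let L : N → ℕ := fun u => if A u u then w u * (w u - 1) / 2 else 0
  have hL2 : ∀ u, 2 * L u = if A u u then w u * (w u - 1) else 0 := by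
    intro u
    simp only [L]
    split_ifs with hu
    · exact hev u
    · rfl
  let f : N → N → ℚ := fun u v => ((w v : ℚ) * g u - w u * g v) / n'
  have hfsum : ∀ u, ∑ v, f u v = g u := by
    intro u
    simp only [f]
    rw [← Finset.sum_div, Finset.sum_sub_distrib, ← Finset.sum_mul, ← Finset.mul_sum, hsum, ← hn']
    field_simp
    simp
  have key := h1 w R L (fun _ => 0) m ε f hm (fun u => by have := hw u; omega)
    (fun u v => by
      simp only [R]
      by_cases huv : u = v
      · subst huv; rfl
      · rw [if_neg huv, if_neg (Ne.symm huv), hsym u v, mul_comm])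
    (fun u => by simp [R]) hε1 hε2
    (fun u v => by
      simp only [f]
      rw [← neg_div]
      congr 1
      ring)
    (fun u v huv => by
      simp only [f, R]
      rw [if_neg huv, Nat.cast_sub (hhle u v huv), abs_div, abs_of_pos hn0, div_le_iff₀ hn0]
      have h3 := hphi u v huv
      have h4 : (0 : ℚ) ≤ (w u : ℚ) * w v - h u v := by
        have := hhle u v huv
        have h5 : (h u v : ℚ) ≤ (w u : ℚ) * w v := by exact_mod_cast this
        linarith
      push_cast
      refine h3.trans ?_
      rw [mul_comm]
      exact mul_le_mul_of_nonneg_left hmn'.le h4)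
    (fun u => by
      rw [hfsum u]
      have h5 : ((∑ v, (R u v : ℚ)) + 2 * (L u : ℚ)) + t u = m * w u := by
        have h6 := hdeg u
        have h7 : (∑ v, (if v = u then (if A u u then w u * (w u - 1) else 0)
            else w u * w v - h u v)) = ∑ v, R u v + 2 * L u := by
          rw [hL2 u]
          have h8 : ∀ v, (if v = u then (if A u u then w u * (w u - 1) else 0)
              else w u * w v - h u v) = R u v + (if v = u then
                (if A u u then w u * (w u - 1) else 0) else 0) := by
            intro v
            simp only [R]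
            by_cases hv : v = u
            · subst hv; simp
            · rw [if_neg hv, if_neg (Ne.symm hv), if_neg hv, add_zero]
          rw [Finset.sum_congr rfl fun v _ => h8 v, Finset.sum_add_distrib]
          congr 1
          rw [Finset.sum_ite_eq' Finset.univ u]
          simp
        rw [h7] at h6
        have h9 : (((∑ v, R u v + 2 * L u) + t u : ℕ) : ℚ) = ((m * w u : ℕ) : ℚ) := by rw [h6]
        push_cast at h9
        exact h9
      have h10 : g u + ((0 : ℕ) : ℚ) - m * ε u = τ u := by
        simp only [hg]; push_cast; ring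
      rw [h10, abs_of_nonneg (hτ u).1]
      have := (hτ u).2
      push_cast
      linarith)
    (by simp)
  obtain ⟨X, s, hX1, hX2, hX3, _, hX5, _⟩ := key
  refine ⟨X, hX1, ?_, ?_, ?_⟩
  · intro u v huv
    rw [hX2 u v huv]
    simp only [R]
    rw [if_neg huv]
  · intro u
    rw [hX3 u, hL2 u]
  · intro c u
    have := hX5 c u
    omega

end Pool.Agent.H301R2.HR
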