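import Pool.Agent.H301R2.HR.SP

set_option autoImplicit false

/-! Embeddings and reindexing. -/

namespace Pool.Agent.H301R2.HR

namespace EMBx

theorem sig_ext {ι : Type} {a : ι → ℕ} {x y : Σ i, Fin (a i)} (h1 : x.1 = y.1)
    (h2 : (x.2 : ℕ) = y.2) : x = y := by
  obtain ⟨i, u⟩ := x
  obtain ⟨j, v⟩ := y
  simp only at h1
  subst h1
  simp only at h2
  rw [Fin.ext h2]

end EMBx

theorem T_EMBG : S_EMBG := by
  intro ι V K a adj φ hφ hadj h
  obtain ⟨cv, ce, h1, h2, h3, h4⟩ := h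
  refine ⟨fun x => cv (φ x), fun x y => ce (φ x) (φ y), ?_, ?_, ?_, ?_⟩
  · exact fun x y hxy => h1 _ _ (hadj x y hxy)
  · exact fun x y => h2 _ _
  · exact fun x y z hxy hxz hyz => h3 _ _ _ (hadj x y hxy) (hadj x z hxz) (fun e => hyz (hφ e))
  · exact fun x y hxy => h4 _ _ (hadj x y hxy)

theorem T_EMB : S_EMB := by
  intro ι ι' K a b φ hφ hadj h
  obtain ⟨cv, ce, h1, h2, h3, h4⟩ := h
  refine ⟨fun x => cv (φ x), fun x y => ce (φ x) (φ y), ?_, ?_, ?_, ?_⟩
  · exact fun x y hxy => h1 _ _ (hadj x y hxy)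
  · exact fun x y => h2 _ _
  · exact fun x y z hxy hxz hyz => h3 _ _ _ (hadj x y hxy) (hadj x z hxz) (fun e => hyz (hφ e))
  · exact fun x y hxy => h4 _ _ (hadj x y hxy)

theorem T_EQV : S_EQV := by
  intro ι ι' K e a h
  refine T_EMB a (fun i => a (e i))
    (fun x => ⟨e.symm x.1, Fin.cast (by rw [e.apply_symm_apply]) x.2⟩) ?_ ?_ h
  · intro x y hxy
    have h1 : e.symm x.1 = e.symm y.1 := congrArg Sigma.fst hxy
    have h2 : ((⟨e.symm x.1, Fin.cast (by rw [e.apply_symm_apply]) x.2⟩ :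
        Σ i, Fin (a (e i))).2 : ℕ) =
        ((⟨e.symm y.1, Fin.cast (by rw [e.apply_symm_apply]) y.2⟩ :
        Σ i, Fin (a (e i))).2 : ℕ) :=
      congrArg (fun z : Σ i, Fin (a (e i)) => (z.2 : ℕ)) hxy
    exact EMBx.sig_ext (e.symm.injective h1) h2
  · intro x y hxy h1
    exact hxy (e.symm.injective h1)

namespace EMBx

/-- sizes after splitting a part -/
def sz {ι : Type} [DecidableEq ι] (a : ι → ℕ) (j : ι) (x : ℕ) : Option ι → ℕ :=
  fun o : Option ι => o.elim x (fun i => if i = j then a i - x else a i)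

/-- the splitting map -/
def sp {ι : Type} [DecidableEq ι] (a : ι → ℕ) (j : ι) (x : ℕ) (hx : x ≤ a j)
    (u : Σ i, Fin (a i)) : Σ o, Fin (sz a j x o) :=
  if h : u.1 = j then
    (if h' : (u.2 : ℕ) < a u.1 - x then ⟨some u.1, ⟨u.2, by
        change (u.2 : ℕ) < (if u.1 = j then a u.1 - x else a u.1)
        rw [if_pos h]; exact h'⟩⟩
      else ⟨none, ⟨u.2 - (a u.1 - x), by
        change (u.2 : ℕ) - (a u.1 - x) < x
        have h1 := u.2.2
        have h2 : x ≤ a u.1 := by rw [h]; exact hx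
        omega⟩⟩)
  else ⟨some u.1, ⟨u.2, by
        change (u.2 : ℕ) < (if u.1 = j then a u.1 - x else a u.1)
        rw [if_neg h]; exact u.2.2⟩⟩

theorem sp1 {ι : Type} [DecidableEq ι] (a : ι → ℕ) (j : ι) (x : ℕ) (hx : x ≤ a j)
    (u : Σ i, Fin (a i)) (h : u.1 = j) (h' : (u.2 : ℕ) < a u.1 - x) :
    (sp a j x hx u).1 = some u.1 ∧ ((sp a j x hx u).2 : ℕ) = u.2 := by
  unfold sp
  rw [dif_pos h, dif_pos h']
  exact ⟨rfl, rfl⟩

theorem sp2 {ι : Type} [DecidableEq ι] (a : ι → ℕ) (j : ι) (x : ℕ) (hx : x ≤ a j)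
    (u : Σ i, Fin (a i)) (h : u.1 = j) (h' : ¬ (u.2 : ℕ) < a u.1 - x) :
    (sp a j x hx u).1 = none ∧ ((sp a j x hx u).2 : ℕ) = u.2 - (a u.1 - x) := by
  unfold sp
  rw [dif_pos h, dif_neg h']
  exact ⟨rfl, rfl⟩

theorem sp3 {ι : Type} [DecidableEq ι] (a : ι → ℕ) (j : ι) (x : ℕ) (hx : x ≤ a j)
    (u : Σ i, Fin (a i)) (h : ¬ u.1 = j) :
    (sp a j x hx u).1 = some u.1 ∧ ((sp a j x hx u).2 : ℕ) = u.2 := by
  unfold sp
  rw [dif_neg h]
  exact ⟨rfl, rfl⟩

end EMBx

open EMBx in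
theorem T_REF : S_REF := by
  intro ι K _ a j x hx h
  refine T_EMB a (sz a j x) (sp a j x hx) ?_ ?_ h
  · intro u v huv
    have e1 : (sp a j x hx u).1 = (sp a j x hx v).1 := by rw [huv]
    have e2 : ((sp a j x hx u).2 : ℕ) = ((sp a j x hx v).2 : ℕ) := by rw [huv]
    by_cases hu : u.1 = j
    · by_cases hu' : (u.2 : ℕ) < a u.1 - x
      · obtain ⟨p1, p2⟩ := sp1 a j x hx u hu hu'
        by_cases hv : v.1 = j
        · by_cases hv' : (v.2 : ℕ) < a v.1 - x
          · obtain ⟨q1, q2⟩ := sp1 a j x hx v hv hv'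
            exact sig_ext (hu.trans hv.symm) (by rw [← p2, ← q2, e2])
          · obtain ⟨q1, q2⟩ := sp2 a j x hx v hv hv'
            rw [p1, q1] at e1
            exact absurd e1 (by simp)
        · obtain ⟨q1, q2⟩ := sp3 a j x hx v hv
          rw [p1, q1] at e1
          exact absurd ((Option.some_injective _ e1).symm.trans hu) hv
      · obtain ⟨p1, p2⟩ := sp2 a j x hx u hu hu'
        by_cases hv : v.1 = j
        · by_cases hv' : (v.2 : ℕ) < a v.1 - x
          · obtain ⟨q1, q2⟩ := sp1 a j x hx v hv hv'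
            rw [p1, q1] at e1
            exact absurd e1 (by simp)
          · obtain ⟨q1, q2⟩ := sp2 a j x hx v hv hv'
            rw [p2, q2] at e2
            have e3 : a u.1 = a v.1 := by rw [hu, hv]
            exact sig_ext (hu.trans hv.symm) (by omega)
        · obtain ⟨q1, q2⟩ := sp3 a j x hx v hv
          rw [p1, q1] at e1
          exact absurd e1 (by simp)
    · obtain ⟨p1, p2⟩ := sp3 a j x hx u hu
      by_cases hv : v.1 = j
      · by_cases hv' : (v.2 : ℕ) < a v.1 - x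
        · obtain ⟨q1, q2⟩ := sp1 a j x hx v hv hv'
          rw [p1, q1] at e1
          exact absurd ((Option.some_injective _ e1).trans hv) hu
        · obtain ⟨q1, q2⟩ := sp2 a j x hx v hv hv'
          rw [p1, q1] at e1
          exact absurd e1 (by simp)
      · obtain ⟨q1, q2⟩ := sp3 a j x hx v hv
        rw [p1, q1] at e1
        exact sig_ext (Option.some_injective _ e1) (by rw [← p2, ← q2, e2])
  · intro u v huv e1
    by_cases hu : u.1 = j
    · by_cases hu' : (u.2 : ℕ) < a u.1 - x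
      · obtain ⟨p1, p2⟩ := sp1 a j x hx u hu hu'
        by_cases hv : v.1 = j
        · exact huv (hu.trans hv.symm)
        · obtain ⟨q1, q2⟩ := sp3 a j x hx v hv
          rw [p1, q1] at e1
          exact huv (Option.some_injective _ e1)
      · obtain ⟨p1, p2⟩ := sp2 a j x hx u hu hu'
        by_cases hv : v.1 = j
        · exact huv (hu.trans hv.symm)
        · obtain ⟨q1, q2⟩ := sp3 a j x hx v hv
          rw [p1, q1] at e1
          exact absurd e1 (by simp)
    · obtain ⟨p1, p2⟩ := sp3 a j x hx u hu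
      by_cases hv : v.1 = j
      · by_cases hv' : (v.2 : ℕ) < a v.1 - x
        · obtain ⟨q1, q2⟩ := sp1 a j x hx v hv hv'
          rw [p1, q1] at e1
          exact huv (Option.some_injective _ e1)
        · obtain ⟨q1, q2⟩ := sp2 a j x hx v hv hv'
          rw [p1, q1] at e1
          exact absurd e1 (by simp)
      · obtain ⟨q1, q2⟩ := sp3 a j x hx v hv
        rw [p1, q1] at e1
        exact huv (Option.some_injective _ e1)

theorem T_C0 : S_C0 := by
  intro ι _ a k hk hc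
  have hsub : Subsingleton ι := Fintype.card_le_one_iff_subsingleton.1 hc
  have hno : ∀ x y : (Σ i, Fin (a i)), x.1 = y.1 := fun x y => Subsingleton.elim _ _
  exact ⟨fun _ => ⟨0, hk⟩, fun _ _ => ⟨0, hk⟩, fun x y h => absurd (hno x y) h, fun _ _ => rfl,
    fun x y _ h => absurd (hno x y) h, fun x y h => absurd (hno x y) h⟩

end Pool.Agent.H301R2.HR
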