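import Pool.Agent.H301R2.HR.SP

/-!
Task EPS: choice of signs.
-/

namespace Pool.Agent.H301R2.HR

open Finset

theorem T_EPS : S_EPS := by
  intro ι _ _ a B hsum hB hcard
  classical
  set O : Finset ι := univ.filter fun i => a i % 2 = 1 with hO
  have hOeven : Even O.card := by
    have h := (Finset.even_sum_iff_even_card_odd (s := (univ : Finset ι)) a).mp hsum
    have h2 : (univ.filter fun i => Odd (a i)) = O := by
      rw [hO]
      refine Finset.filter_congr fun i _ => ?_
      exact Nat.odd_iff
    rw [← h2]
    convert h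
  have hBO : B ⊆ O := fun i hi => by rw [hO, mem_filter]; exact ⟨mem_univ _, hB i hi⟩
  obtain ⟨r, hr⟩ := hOeven
  obtain ⟨M, hBM, hMO, hMc⟩ := Finset.exists_subsuperset_card_eq hBO (n := r) (by omega) (by omega)
  refine ⟨fun i => if i ∈ M then -1 else if i ∈ O then 1 else 0, ?_, ?_, ?_, ?_⟩
  · intro i
    by_cases h1 : i ∈ M
    · have h2 : i ∈ O := hMO h1
      rw [hO, mem_filter] at h2
      have h3 := h2.2
      simp only [h1, if_true]
      rw [Int.even_iff]
      omega
    · by_cases h2 : i ∈ O
      · have h3 := h2
        rw [hO, mem_filter] at h3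
        have h4 := h3.2
        simp only [h1, h2, if_true, if_false]
        rw [Int.even_iff]
        omega
      · have h3 : ¬ a i % 2 = 1 := fun h => h2 (by rw [hO, mem_filter]; exact ⟨mem_univ _, h⟩)
        simp only [h1, h2, if_false]
        rw [Int.even_iff]
        omega
  · intro i
    dsimp only
    split_ifs <;> constructor <;> norm_num
  · have h1 : (∑ i, if i ∈ M then (-1 : ℤ) else if i ∈ O then 1 else 0) =
        ∑ i, ((if i ∈ O then (1 : ℤ) else 0) - 2 * (if i ∈ M then (1 : ℤ) else 0)) := by
      refine Finset.sum_congr rfl fun i _ => ?_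
      by_cases h1 : i ∈ M
      · have h2 : i ∈ O := hMO h1
        simp [h1, h2]
      · simp [h1]
    rw [h1, Finset.sum_sub_distrib, ← Finset.mul_sum, Finset.sum_boole, Finset.sum_boole]
    simp only [Finset.filter_mem_eq_inter, Finset.univ_inter]
    rw [hMc, hr]
    push_cast
    ring
  · intro i hi
    simp [hBM hi]

end Pool.Agent.H301R2.HR
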