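import Pool.Agent.H301R2.HR.Cases

set_option autoImplicit false

/-! The class missing on the part `i₀`.  Prover: helper676. -/

namespace Pool.Agent.H301R2.HR

open Finset

theorem T_H1 (h : S_HX) : S_H1 := by
  intro ι _ _ a a₀ i₀ ha2 hi₀ hmin hcard hcond
  classical
  -- the index `L`
  have hne : (univ.erase i₀).Nonempty := by
    rw [← Finset.card_pos, Finset.card_erase_of_mem (mem_univ _), Finset.card_univ]
    omega
  obtain ⟨L, hL, hLmax⟩ := Finset.exists_max_image (univ.erase i₀) a hne
  have hLi : L ≠ i₀ := (Finset.mem_erase.1 hL).1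
  set T : Finset ι := (univ.erase i₀).erase L with hT
  set b : ℕ := a L with hb
  set R : ℕ := ∑ i ∈ T, a i with hR
  have hsplit : ∀ f : ι → ℕ, ∑ i, f i = f i₀ + (f L + ∑ i ∈ T, f i) := by
    intro f
    rw [← Finset.add_sum_erase univ f (mem_univ i₀), ← Finset.add_sum_erase _ f hL]
  have hTm : ∀ i, i ∈ T ↔ i ≠ L ∧ i ≠ i₀ := by
    intro i
    rw [hT, Finset.mem_erase, Finset.mem_erase]
    simp
  have hTb : ∀ i ∈ T, a i ≤ b := fun i hi => hLmax i (Finset.mem_erase.1 hi).2
  have hTR : ∀ i ∈ T, a i ≤ R := fun i hi =>
    Finset.single_le_sum (f := a) (fun _ _ => Nat.zero_le _) hi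
  have hn : ∑ i, a i = a₀ + (b + R) := by
    rw [hsplit, hi₀]
  have hbmin : a₀ ≤ b := hmin L
  have hS : (∑ i, a i) - a₀ = b + R := by omega
  set D : ℕ := ∑ i, a i * (a i - a₀) with hD
  set D' : ℕ := ∑ i ∈ T, a i * (a i - a₀) with hD'
  have hDD : D = b * (b - a₀) + D' := by
    rw [hD, hsplit, hi₀, Nat.sub_self, mul_zero, zero_add]
  -- parity of `D`
  have hDeven : Even (∑ i, a i) → Even D := by
    intro he
    have h1 : D + (a₀ + 1) * ∑ i, a i = ∑ i, a i * (a i + 1) := by
      rw [hD, Finset.mul_sum, ← Finset.sum_add_distrib]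
      refine Finset.sum_congr rfl fun i _ => ?_
      obtain ⟨e, he⟩ := Nat.exists_eq_add_of_le (hmin i)
      rw [he, Nat.add_sub_cancel_left]
      ring
    have h2 : Even (∑ i, a i * (a i + 1)) :=
      Finset.even_sum _ fun i _ => Nat.even_mul_succ_self _
    rw [← h1, Nat.even_add] at h2
    exact h2.2 (he.mul_left _)
  -- the case `b = a₀`
  have hbeq : b = a₀ → D = 0 ∧ R = T.card * a₀ := by
    intro hbe
    have h1 : ∀ i ∈ T, a i = a₀ := fun i hi => le_antisymm (hbe ▸ hTb i hi) (hmin i)
    constructor
    · rw [hDD, hbe, Nat.sub_self, mul_zero, zero_add, hD']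
      exact Finset.sum_eq_zero fun i hi => by rw [h1 i hi, Nat.sub_self, mul_zero]
    · rw [hR, Finset.sum_congr rfl h1, Finset.sum_const, smul_eq_mul]
  -- it suffices to choose the degree at `L`
  have key : ∀ dL : ℕ, dL ≤ b → Even (dL + R) → dL ≤ R → (∀ i ∈ T, 2 * a i ≤ dL + R) →
      (b = a₀ → dL = a₀) → (Even (∑ i, a i) → 2 * (b + R) ≤ dL + R + D) →
      ∃ h : ι → ι → ℕ, (∀ u v, h u v = h v u) ∧ (∀ u, h u u = 0) ∧ (∀ v, h i₀ v = 0) ∧
        (∀ u, ∑ v, h u v ≤ a u) ∧ (∀ u, u ≠ i₀ → a u = a₀ → ∑ v, h u v = a₀) ∧
        (Even (∑ i, a i) → 2 * ((∑ i, a i) - a₀) ≤ (∑ u, ∑ v, h u v) + D) := by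
    intro dL h1 h2 h3 h4 h5 h6
    have hsum : ∑ i, (if i = i₀ then 0 else if i = L then dL else a i) = dL + R := by
      rw [hsplit, if_pos rfl, if_neg hLi, if_pos rfl, zero_add]
      congr 1
      refine Finset.sum_congr rfl fun i hi => ?_
      rw [if_neg ((hTm i).1 hi).2, if_neg ((hTm i).1 hi).1]
    obtain ⟨g, g1, g2, g3⟩ := h (fun i => if i = i₀ then 0 else if i = L then dL else a i)
      (by rw [hsum]; exact h2) (by
        intro i
        rw [hsum]
        split_ifs with e1 e2
        · omega
        · omega
        · exact h4 i ((hTm i).2 ⟨e2, e1⟩))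
    refine ⟨g, g1, g2, ?_, ?_, ?_, ?_⟩
    · intro v
      have := g3 i₀
      rw [if_pos rfl, Finset.sum_eq_zero_iff] at this
      exact this v (mem_univ v)
    · intro u
      rw [g3 u]
      split_ifs with e1 e2
      · omega
      · rw [e2]
        exact h1
      · exact le_rfl
    · intro u hu hau
      rw [g3 u, if_neg hu]
      split_ifs with e2
      · apply h5
        rw [hb, ← e2, hau]
      · exact hau
    · intro he
      have := h6 he
      rw [hS, Finset.sum_congr rfl fun u _ => g3 u, hsum]
      exact this
  rcases lt_or_ge R b with hRb | hRb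
  · -- one large part
    refine key R hRb.le ⟨R, rfl⟩ le_rfl (fun i hi => ?_) (fun hbe => ?_) (fun he => ?_)
    · have := hTR i hi
      omega
    · obtain ⟨hD0, hRT⟩ := hbeq hbe
      exfalso
      have hR0 : R = 0 := by
        rcases Nat.eq_zero_or_pos T.card with h0 | h0
        · rw [hRT, h0, zero_mul]
        · have := Nat.le_mul_of_pos_left a₀ h0
          omega
      rcases hcond with hc | hc
      · rw [hn, hR0, hbe] at hc
        rw [Nat.odd_iff] at hc
        omega
      · omega
    · have hSD : b + R ≤ D := by
        rcases hcond with hc | hc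
        · exact absurd he (Nat.not_even_iff_odd.2 hc)
        · omega
      rcases Nat.lt_or_ge b (a₀ + 2) with hb2 | hb2
      · exfalso
        rcases (by omega : b = a₀ ∨ b = a₀ + 1) with hbe | hbe
        · have := (hbeq hbe).1
          omega
        · have hle : ∀ i ∈ T, a i * (a i - a₀) ≤ a i := by
            intro i hi
            have h1 := hTb i hi
            have h2 : a i - a₀ ≤ 1 := by omega
            calc a i * (a i - a₀) ≤ a i * 1 := Nat.mul_le_mul_left _ h2
              _ = a i := mul_one _
          rcases Nat.eq_zero_or_pos R with hR0 | hR0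
          · rw [hn, hR0, hbe, Nat.even_iff] at he
            omega
          · obtain ⟨i, hi, hipos⟩ : ∃ i ∈ T, a i ≠ 0 := by
              by_contra hcon
              push Not at hcon
              rw [hR, Finset.sum_eq_zero hcon] at hR0
              exact absurd hR0 (lt_irrefl _)
            have hia : a i = a₀ := by
              have h1 := hTR i hi
              have h2 := hmin i
              omega
            have hlt : D' < R := by
              rw [hD', hR]
              apply Finset.sum_lt_sum hle
              refine ⟨i, hi, ?_⟩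
              rw [hia, Nat.sub_self, mul_zero]
              omega
            rw [hDD, hbe, Nat.add_sub_cancel_left, mul_one] at hSD
            omega
      · have h1 : b * 2 ≤ b * (b - a₀) := Nat.mul_le_mul_left b (by omega)
        omega
  · -- no large part
    refine key (b - (b + R) % 2) (Nat.sub_le _ _) ?_ (by omega) (fun i hi => ?_) (fun hbe => ?_)
      (fun he => ?_)
    · rw [Nat.even_iff]
      omega
    · have := hTb i hi
      omega
    · obtain ⟨hD0, hRT⟩ := hbeq hbe
      have hc : Odd (∑ i, a i) := by
        rcases hcond with hc | hc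
        · exact hc
        · omega
      have h1 : (b + R) % 2 = 0 := by
        have e1 : ∑ i, a i = (2 + T.card) * a₀ := by
          rw [hn, hRT, hbe]
          ring
        have e2 : b + R = (1 + T.card) * a₀ := by
          rw [hRT, hbe]
          ring
        rw [e1, Nat.odd_mul] at hc
        have h3 : Even (1 + T.card) := by
          have := hc.1
          rw [Nat.odd_iff] at this
          rw [Nat.even_iff]
          omega
        rw [e2, ← Nat.even_iff]
        exact h3.mul_right _
      omega
    · have hSD : b + R ≤ D := by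
        rcases hcond with hc | hc
        · exact absurd he (Nat.not_even_iff_odd.2 hc)
        · omega
      have := hDeven he
      rw [Nat.even_iff] at this
      omega

end Pool.Agent.H301R2.HR
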