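import Pool.Agent.H301R2.HR.SP

set_option autoImplicit false

namespace Pool.Agent.H301R2.HR

namespace HXx

theorem key {ι : Type} [Fintype ι] [DecidableEq ι] (n : ℕ) : ∀ d : ι → ℕ, ∑ i, d i = 2 * n →
    (∀ i, 2 * d i ≤ 2 * n) →
    ∃ h : ι → ι → ℕ, (∀ i j, h i j = h j i) ∧ (∀ i, h i i = 0) ∧ ∀ i, ∑ j, h i j = d i := by
  induction n with
  | zero =>
    intro d _ hd
    refine ⟨fun _ _ => 0, fun _ _ => rfl, fun _ => rfl, fun i => ?_⟩
    have := hd i
    simp only [Finset.sum_const_zero]
    omega
  | succ n ih =>
    intro d hs hd
    have hne : (Finset.univ : Finset ι).Nonempty := by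
      by_contra h0
      rw [Finset.not_nonempty_iff_eq_empty] at h0
      rw [h0, Finset.sum_empty] at hs
      omega
    obtain ⟨i, -, hi⟩ := Finset.exists_max_image Finset.univ d hne
    have hsi := Finset.add_sum_erase Finset.univ d (Finset.mem_univ i)
    have hdi0 : 0 < d i := by
      by_contra h0
      have h1 : ∑ k, d k = 0 := Finset.sum_eq_zero (fun k _ => by
        have := hi k (Finset.mem_univ k)
        omega)
      omega
    have hne2 : (Finset.univ.erase i).Nonempty := by
      by_contra h0
      rw [Finset.not_nonempty_iff_eq_empty] at h0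
      rw [h0, Finset.sum_empty] at hsi
      have := hd i
      omega
    obtain ⟨j, hj, hjm⟩ := Finset.exists_max_image (Finset.univ.erase i) d hne2
    have hji : j ≠ i := (Finset.mem_erase.1 hj).1
    have hsj := Finset.add_sum_erase (Finset.univ.erase i) d hj
    have hdj0 : 0 < d j := by
      by_contra h0
      have h1 : ∑ k ∈ Finset.univ.erase i, d k = 0 := Finset.sum_eq_zero (fun k hk => by
        have := hjm k hk
        omega)
      have := hd i
      omega
    have hdij : d j ≤ d i := hi j (Finset.mem_univ j)
    set d' : ι → ℕ := fun k => if k = i then d k - 1 else if k = j then d k - 1 else d k with hd'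
    have hrest : ∀ k, k ≠ i → k ≠ j → d k ≤ ∑ k ∈ (Finset.univ.erase i).erase j, d k :=
      fun k h1 h2 => Finset.single_le_sum (f := d) (fun _ _ => Nat.zero_le _)
        (Finset.mem_erase.2 ⟨h2, Finset.mem_erase.2 ⟨h1, Finset.mem_univ k⟩⟩)
    have hs' : ∑ k, d' k = 2 * n := by
      have e1 := Finset.add_sum_erase Finset.univ d' (Finset.mem_univ i)
      have e2 := Finset.add_sum_erase (Finset.univ.erase i) d' hj
      have e3 : ∑ k ∈ (Finset.univ.erase i).erase j, d' k =
          ∑ k ∈ (Finset.univ.erase i).erase j, d k := by
        refine Finset.sum_congr rfl (fun k hk => ?_)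
        have h1 := (Finset.mem_erase.1 hk).1
        have h2 := (Finset.mem_erase.1 (Finset.mem_erase.1 hk).2).1
        rw [hd']
        simp only [h1, h2, if_false]
      have e4 : d' i = d i - 1 := by rw [hd']; simp
      have e5 : d' j = d j - 1 := by rw [hd']; simp [hji]
      omega
    have hle' : ∀ k, 2 * d' k ≤ 2 * n := by
      intro k
      by_cases hki : k = i
      · have e4 : d' k = d i - 1 := by rw [hd', hki]; simp
        have := hd i
        omega
      · by_cases hkj : k = j
        · have e5 : d' k = d j - 1 := by rw [hd', hkj]; simp [hji]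
          have := hd j
          omega
        · have e6 : d' k = d k := by rw [hd']; simp [hki, hkj]
          have h1 := hrest k hki hkj
          have h2 := hjm k (Finset.mem_erase.2 ⟨hki, Finset.mem_univ k⟩)
          omega
    obtain ⟨h, hsym, hdiag, hrow⟩ := ih d' hs' hle'
    refine ⟨fun a b => h a b + (if a = i ∧ b = j then 1 else 0) + (if a = j ∧ b = i then 1 else 0),
      ?_, ?_, ?_⟩
    · intro a b
      simp only
      rw [hsym a b]
      have c1 : (if a = i ∧ b = j then 1 else 0) = (if b = j ∧ a = i then 1 else 0 : ℕ) := by
        simp only [and_comm]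
      have c2 : (if a = j ∧ b = i then 1 else 0) = (if b = i ∧ a = j then 1 else 0 : ℕ) := by
        simp only [and_comm]
      rw [c1, c2]
      ring
    · intro a
      simp only
      rw [hdiag a, if_neg, if_neg]
      · rintro ⟨h1, h2⟩
        exact hji (h1.symm.trans h2)
      · rintro ⟨h1, h2⟩
        exact hji (h2.symm.trans h1)
    · intro a
      simp only
      rw [Finset.sum_add_distrib, Finset.sum_add_distrib, hrow a]
      by_cases hai : a = i
      · subst hai
        have e4 : d' a = d a - 1 := by rw [hd']; simp
        simp [hji.symm, e4]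
        omega
      · by_cases haj : a = j
        · subst haj
          have e5 : d' a = d a - 1 := by rw [hd']; simp [hji]
          simp [hai, e5]
          omega
        · have e6 : d' a = d a := by rw [hd']; simp [hai, haj]
          simp [hai, haj, e6]

end HXx

theorem T_HX : S_HX := by
  intro ι _ _ d hev hd
  obtain ⟨n, hn⟩ := hev
  have hn' : ∑ i, d i = 2 * n := by omega
  exact HXx.key n d hn' (fun i => by have := hd i; omega)

end Pool.Agent.H301R2.HR
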