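import Pool.Agent.H301R2.HR.SP

/-! The total chromatic number of complete multipartite graphs (Hoffman-Rodger conjecture):
task MATE, the mate map. helper862. -/

set_option autoImplicit false

namespace Pool.Agent.H301R2.HR

open Finset

namespace MATEx

/-- `π` is a mixed pair with the ends `x` and `y` -/
def Lk {α : Type} {N : ℕ} (P Q : Fin N → α) (π : Fin N) (x y : α) : Prop :=
  P π ≠ Q π ∧ ((P π = x ∧ Q π = y) ∨ (P π = y ∧ Q π = x))

theorem Lk.symm {α : Type} {N : ℕ} {P Q : Fin N → α} {π : Fin N} {x y : α}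
    (h : Lk P Q π x y) : Lk P Q π y x := ⟨h.1, h.2.symm⟩

theorem Lk.ne {α : Type} {N : ℕ} {P Q : Fin N → α} {π : Fin N} {x y : α}
    (h : Lk P Q π x y) : y ≠ x := by
  rintro rfl
  obtain ⟨h1, ⟨h2, h3⟩ | ⟨h2, h3⟩⟩ := h
  · exact h1 (h2.trans h3.symm)
  · exact h1 (h2.trans h3.symm)

theorem Lk.mem {α : Type} [DecidableEq α] {N : ℕ} {P Q : Fin N → α} {π : Fin N} {x y : α}
    (h : Lk P Q π x y) : π ∈ univ.filter fun π => P π ≠ Q π ∧ (P π = x ∨ Q π = x) := by
  rw [mem_filter]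
  refine ⟨mem_univ _, h.1, ?_⟩
  rcases h.2 with h2 | h2
  · exact Or.inl h2.1
  · exact Or.inr h2.2

theorem Lk.pos {α : Type} [DecidableEq α] {N : ℕ} {P Q : Fin N → α} {π : Fin N} {x y : α}
    (h : Lk P Q π x y) : 0 < nM P Q x := card_pos.2 ⟨π, h.mem⟩

theorem Lk.uniq {α : Type} [DecidableEq α] {N : ℕ} {P Q : Fin N → α} {π π' : Fin N} {x y y' : α}
    (hx : nM P Q x ≤ 1) (h : Lk P Q π x y) (h' : Lk P Q π' x y') : y = y' := by
  have e : π = π' := card_le_one.1 hx π h.mem π' h'.mem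
  subst e
  rcases h.2 with ⟨h1, h2⟩ | ⟨h1, h2⟩ <;> rcases h'.2 with ⟨h3, h4⟩ | ⟨h3, h4⟩
  · exact h2.symm.trans h4
  · exact absurd (h1.trans h4.symm) h.1
  · exact absurd (h3.trans h2.symm) h.1
  · exact h1.symm.trans h3

theorem exists_Lk {α : Type} [DecidableEq α] {N : ℕ} {P Q : Fin N → α} {x : α}
    (hx : 0 < nM P Q x) : ∃ y π, Lk P Q π x y := by
  obtain ⟨π, hπ⟩ := card_pos.1 hx
  rw [mem_filter] at hπ
  obtain ⟨-, h1, h2 | h2⟩ := hπ
  · exact ⟨Q π, π, h1, Or.inl ⟨h2, rfl⟩⟩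
  · exact ⟨P π, π, h1, Or.inr ⟨rfl, h2⟩⟩

end MATEx

open MATEx in
/-- the mate map of the odd positions -/
theorem T_MATE : S_MATE := by
  classical
  intro α _ hα e N P Q hM
  have hle : ∀ x, nM P Q x ≤ 1 := fun x => by rw [hM x]; omega
  set ρ : α → α := fun x => if h : ∃ y π, Lk P Q π x y then h.choose else x with hρ
  have key : ∀ x y π, Lk P Q π x y → ρ x = y := by
    intro x y π h
    have h1 : ∃ y π, Lk P Q π x y := ⟨y, π, h⟩
    have h2 : ρ x = h1.choose := by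
      simp only [hρ]
      rw [dif_pos h1]
    obtain ⟨π', h3⟩ := h1.choose_spec
    rw [h2]
    exact h3.uniq (hle x) h
  have key2 : ∀ x, (¬ ∃ y π, Lk P Q π x y) → ρ x = x := by
    intro x h
    simp only [hρ]
    rw [dif_neg h]
  refine ⟨ρ, ?_, ?_, ?_⟩
  · intro x hx
    apply key2
    rintro ⟨y, π, h⟩
    have h1 := h.pos
    rw [hM x, hx] at h1
    exact lt_irrefl _ h1
  · intro x
    by_cases h : ∃ y π, Lk P Q π x y
    · obtain ⟨y, π, h⟩ := h
      rw [key x y π h, key y x π h.symm]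
    · rw [key2 x h, key2 x h]
  · intro x hx
    obtain ⟨y, π, h⟩ := exists_Lk (P := P) (Q := Q) (x := x) (by rw [hM x, hx]; exact one_pos)
    rw [key x y π h]
    refine ⟨h.ne, ?_, π, h.1, h.2⟩
    have h1 := h.symm.pos
    rw [hM y] at h1
    omega

end Pool.Agent.H301R2.HR
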