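import Pool.Agent.H301R2.HR.Defs

set_option autoImplicit false

/-! ORI: rounding of a fractional orientation. -/

namespace Pool.Agent.H301R2.HR

open Finset

namespace ORIx

theorem exists_nat (q : ℚ) (hq : 0 ≤ q) (T : ℕ) (hT : q.den ∣ T) : ∃ Y : ℕ, (Y : ℚ) = T * q := by
  obtain ⟨c, rfl⟩ := hT
  refine ⟨c * q.num.toNat, ?_⟩
  have h1 : (0 : ℤ) ≤ q.num := Rat.num_nonneg.mpr hq
  have h2 : ((q.num.toNat : ℕ) : ℚ) = (q.num : ℚ) := by
    have := Int.toNat_of_nonneg h1
    exact_mod_cast this
  have h3 := Rat.mul_den_eq_num q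
  push_cast
  rw [h2, ← h3]
  ring

/-- sum over all pairs of a function supported on the pairs `a < b` with `u = a` or `u = b` -/
theorem sum_pairs {N : Type} [Fintype N] [DecidableEq N] {n : ℕ} (e : N ≃ Fin n)
    (F : N × N → N → ℕ) (hF : ∀ p u, F p u ≠ 0 → e p.1 < e p.2 ∧ (u = p.1 ∨ u = p.2)) (u : N) :
    ∑ p, F p u = ∑ v, (if e u < e v then F (u, v) u else if e v < e u then F (v, u) u else 0) := by
  have h1 : ∀ p : N × N, F p u = (if p.1 = u then F p u else 0) + (if p.2 = u then F p u else 0) := by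
    intro p
    by_cases h0 : F p u = 0
    · simp [h0]
    obtain ⟨h2, h3⟩ := hF p u h0
    rcases h3 with h3 | h3
    · rw [if_pos h3.symm, if_neg, add_zero]
      intro h4
      rw [h4, ← h3] at h2
      exact lt_irrefl _ h2
    · rw [if_pos h3.symm, if_neg, zero_add]
      intro h4
      rw [h4, ← h3] at h2
      exact lt_irrefl _ h2
  rw [Finset.sum_congr rfl fun p _ => h1 p, Finset.sum_add_distrib, Fintype.sum_prod_type,
    Fintype.sum_prod_type_right]
  simp only
  have h2 : ∑ a : N, ∑ b : N, (if a = u then F (a, b) u else 0) = ∑ b : N, F (u, b) u := by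
    rw [Finset.sum_comm]
    refine Finset.sum_congr rfl fun b _ => ?_
    rw [Finset.sum_ite_eq' Finset.univ u fun a => F (a, b) u, if_pos (Finset.mem_univ _)]
  have h3 : ∑ b : N, ∑ a : N, (if b = u then F (a, b) u else 0) = ∑ a : N, F (a, u) u := by
    rw [Finset.sum_comm]
    refine Finset.sum_congr rfl fun a _ => ?_
    rw [Finset.sum_ite_eq' Finset.univ u fun b => F (a, b) u, if_pos (Finset.mem_univ _)]
  rw [h2, h3, ← Finset.sum_add_distrib]
  refine Finset.sum_congr rfl fun v _ => ?_
  split_ifs with h4 h5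
  · have : F (v, u) u = 0 := by
      by_contra h
      exact absurd (hF _ _ h).1 (not_lt.mpr h4.le)
    omega
  · have : F (u, v) u = 0 := by
      by_contra h
      exact h4 (hF _ _ h).1
    omega
  · have h6 : F (v, u) u = 0 := by
      by_contra h
      exact h5 (hF _ _ h).1
    have h7 : F (u, v) u = 0 := by
      by_contra h
      exact h4 (hF _ _ h).1
    omega

end ORIx

open ORIx in
theorem T_ORI (h : S_DW) : S_ORI := by
  intro N _ _ R y lo hi hsymm hdiag hy0 hyR hlo hhi
  classical
  set T : ℕ := ∏ p : N × N, (y p.1 p.2).den with hT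
  have hTpos : 0 < T := Finset.prod_pos fun p _ => (y p.1 p.2).den_pos
  have hYex : ∀ u v, ∃ Y : ℕ, (Y : ℚ) = T * y u v := by
    intro u v
    refine exists_nat _ (hy0 u v) T ?_
    exact Finset.dvd_prod_of_mem (fun p : N × N => (y p.1 p.2).den) (Finset.mem_univ (u, v))
  choose Y hY using hYex
  have hYR : ∀ u v, Y u v + Y v u = T * R u v := by
    intro u v
    have h1 : ((Y u v + Y v u : ℕ) : ℚ) = ((T * R u v : ℕ) : ℚ) := by
      push_cast
      rw [hY, hY, ← mul_add, hyR]
    exact_mod_cast h1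
  have hYd : ∀ u, Y u u = 0 := by
    intro u
    have := hYR u u
    rw [hdiag] at this
    omega
  set e := Fintype.equivFin N with he
  set M : N × N → N → ℕ := fun p u => if e p.1 < e p.2 then
    (if u = p.1 then Y p.1 p.2 else if u = p.2 then Y p.2 p.1 else 0) else 0 with hM
  have hMs : ∀ p u, M p u ≠ 0 → e p.1 < e p.2 ∧ (u = p.1 ∨ u = p.2) := by
    intro p u hp
    simp only [hM] at hp
    split_ifs at hp with h1 h2 h3
    · exact ⟨h1, Or.inl h2⟩
    · exact ⟨h1, Or.inr h3⟩
    · exact absurd rfl hp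
    · exact absurd rfl hp
  have hcolM : ∀ u, ∑ p, M p u = ∑ v, Y u v := by
    intro u
    rw [sum_pairs e M hMs u]
    refine Finset.sum_congr rfl fun v _ => ?_
    simp only [hM]
    split_ifs with h1 h2 h3
    · rfl
    · exfalso
      rw [h3] at h2
      exact lt_irrefl _ h2
    · rfl
    · have : u = v := by
        apply e.injective
        exact le_antisymm (not_lt.mp h2) (not_lt.mp h1)
      rw [this, hYd]
  have hrow : ∀ (F : N × N → N → ℕ), (∀ p u, F p u ≠ 0 → e p.1 < e p.2 ∧ (u = p.1 ∨ u = p.2)) →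
      ∀ a b, e a < e b → ∑ u, F (a, b) u = F (a, b) a + F (a, b) b := by
    intro F hF a b hab
    have hne : a ≠ b := fun h => by rw [h] at hab; exact lt_irrefl _ hab
    rw [← Finset.sum_pair (f := fun u => F (a, b) u) hne]
    symm
    apply Finset.sum_subset (Finset.subset_univ _)
    intro u _ hu
    by_contra hne'
    rw [Finset.mem_insert, Finset.mem_singleton] at hu
    exact hu (hF _ _ hne').2
  obtain ⟨X, hX1, hX2, hX3⟩ := @h (N × N) N _ _ M T hTpos
  set X0 := X ⟨0, hTpos⟩ with hX0
  have hX0M : ∀ p u, X0 p u ≤ M p u := by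
    intro p u
    rw [← hX1 p u]
    exact Finset.single_le_sum (f := fun c => X c p u) (fun c _ => Nat.zero_le _)
      (Finset.mem_univ (⟨0, hTpos⟩ : Fin T))
  have hX0s : ∀ p u, X0 p u ≠ 0 → e p.1 < e p.2 ∧ (u = p.1 ∨ u = p.2) := by
    intro p u hp
    refine hMs p u ?_
    have := hX0M p u
    omega
  have hX0r : ∀ a b, e a < e b → X0 (a, b) a + X0 (a, b) b = R a b := by
    intro a b hab
    have hne : b ≠ a := fun h => by rw [h] at hab; exact lt_irrefl _ hab
    rw [← hrow X0 hX0s a b hab]
    have h1 := hX2 ⟨0, hTpos⟩ (a, b)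
    have h2 : ∑ u, M (a, b) u = T * R a b := by
      rw [hrow M hMs a b hab, ← hYR]
      simp only [hM]
      simp [hab, hne]
    rw [h2] at h1
    have h3 : T * R a b / T = R a b := Nat.mul_div_cancel_left _ hTpos
    have h4 : (T * R a b + (T - 1)) / T = R a b := by
      rw [Nat.mul_add_div hTpos, Nat.div_eq_of_lt (by omega), add_zero]
    rw [h3, h4] at h1
    exact le_antisymm h1.2 h1.1
  refine ⟨fun u v => if e u < e v then X0 (u, v) u else if e v < e u then X0 (v, u) u else 0,
    ?_, ?_⟩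
  · intro u v
    simp only
    rcases lt_trichotomy (e u) (e v) with h1 | h1 | h1
    · rw [if_pos h1, if_neg (not_lt.mpr h1.le), if_pos h1]
      exact hX0r u v h1
    · rw [if_neg (by rw [h1]; exact lt_irrefl _), if_neg (by rw [h1]; exact lt_irrefl _),
        if_neg (by rw [h1]; exact lt_irrefl _), if_neg (by rw [h1]; exact lt_irrefl _),
        e.injective h1, hdiag]
    · rw [if_neg (not_lt.mpr h1.le), if_pos h1, if_pos h1, hsymm u v, add_comm]
      exact hX0r v u h1
  · intro u
    have h1 := hX3 ⟨0, hTpos⟩ u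
    rw [hcolM u] at h1
    have h2 : ∑ p, X ⟨0, hTpos⟩ p u =
        ∑ v, (if e u < e v then X0 (u, v) u else if e v < e u then X0 (v, u) u else 0) :=
      sum_pairs e X0 hX0s u
    rw [h2] at h1
    have h3 : ∑ v, ((if e u < e v then X0 (u, v) u else if e v < e u then X0 (v, u) u else 0 : ℕ) : ℤ)
        = ((∑ v, (if e u < e v then X0 (u, v) u else if e v < e u then X0 (v, u) u else 0) : ℕ) : ℤ) := by
      rw [Nat.cast_sum]
    rw [h3]
    set Z : ℕ := ∑ v, (if e u < e v then X0 (u, v) u else if e v < e u then X0 (v, u) u else 0) with hZ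
    set S : ℕ := ∑ v, Y u v with hS
    have h4 : (S : ℚ) = T * ∑ v, y u v := by
      rw [hS, Nat.cast_sum, Finset.mul_sum]
      exact Finset.sum_congr rfl fun v _ => hY u v
    have hTq : (0 : ℚ) < T := by exact_mod_cast hTpos
    have hlo' : lo u * (T : ℤ) ≤ S := by
      have h5 : (lo u : ℚ) * T ≤ S := by
        rw [h4, mul_comm]
        exact mul_le_mul_of_nonneg_left (hlo u) hTq.le
      exact_mod_cast h5
    have hhi' : (S : ℤ) ≤ hi u * (T : ℤ) := by
      have h5 : (S : ℚ) ≤ (hi u : ℚ) * T := by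
        rw [h4, mul_comm]
        exact mul_le_mul_of_nonneg_right (hhi u) hTq.le
      exact_mod_cast h5
    have hTz : (0 : ℤ) < T := by exact_mod_cast hTpos
    constructor
    · calc lo u ≤ (S : ℤ) / (T : ℤ) := (Int.le_ediv_iff_mul_le hTz).mpr hlo'
        _ = ((S / T : ℕ) : ℤ) := by rw [Int.natCast_ediv]
        _ ≤ (Z : ℤ) := by exact_mod_cast h1.1
    · calc (Z : ℤ) ≤ (((S + (T - 1)) / T : ℕ) : ℤ) := by exact_mod_cast h1.2
        _ = ((S : ℤ) + (T - 1)) / T := by
          rw [Int.natCast_ediv]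
          congr 1
          push_cast [Nat.cast_sub hTpos]
          ring
        _ ≤ hi u := by
          apply Int.le_of_lt_add_one
          apply Int.ediv_lt_of_lt_mul hTz
          rw [add_mul, one_mul]
          linarith

end Pool.Agent.H301R2.HR
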