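import Pool.Agent.H301R2.HR.Defs

set_option autoImplicit false

namespace Pool.Agent.H301R2.HR

open Finset

theorem OT_div (a m α : ℕ) (hm : 0 < m) (h : a ≤ m * α) : (a + (m - 1)) / m ≤ α := by
  have h1 : (a + (m - 1)) / m < α + 1 := by
    rw [Nat.div_lt_iff_lt_mul hm]
    have : (α + 1) * m = m * α + m := by ring
    omega
  omega

theorem T_OT (h1 : S_DW) (h2 : S_ORI) : S_OT := by
  intro N _ _ w R L o m ε f hm hw hRs hR0 hpar hε hf hfR hfl ho
  -- the halves of the weights
  have hα : ∀ u, ∃ α : ℕ, (w u : ℤ) + ε u = 2 * α := by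
    intro u
    obtain ⟨k, hk⟩ := hpar u
    have h3 := hw u
    have h4 := (hε u).1
    have hk0 : 0 ≤ k := by omega
    refine ⟨k.toNat, ?_⟩
    rw [Int.toNat_of_nonneg hk0]
    omega
  choose α hα using hα
  have hβ : ∀ u, ∃ β : ℕ, (w u : ℤ) - ε u = 2 * β := by
    intro u
    have h3 := hα u
    have h4 := (hε u).2
    have h5 := hw u
    refine ⟨((w u : ℤ) - α u).toNat, ?_⟩
    rw [Int.toNat_of_nonneg (by omega)]
    omega
  choose β hβ using hβ
  have hαβ : ∀ u, α u + β u = w u := by
    intro u
    have h3 := hα u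
    have h4 := hβ u
    omega
  have hf0 : ∀ u, f u u = 0 := by
    intro u
    have := hf u u
    linarith
  have hαq : ∀ u, (w u : ℚ) + ε u = 2 * α u := by
    intro u; exact_mod_cast hα u
  have hβq : ∀ u, (w u : ℚ) - ε u = 2 * β u := by
    intro u; exact_mod_cast hβ u
  have hsumy : ∀ u, ∑ v, ((R u v : ℚ) + f u v) / 2 = (∑ v, (R u v : ℚ) + ∑ v, f u v) / 2 := by
    intro u
    rw [← Finset.sum_div, Finset.sum_add_distrib]
  obtain ⟨z, hz1, hz2⟩ := h2 R (fun u v => ((R u v : ℚ) + f u v) / 2)
    (fun u => (∑ v, (R u v : ℤ)) - (m * β u - L u)) (fun u => m * α u - L u - o u) hRs hR0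
    (by
      intro u v
      by_cases huv : u = v
      · subst huv
        simp [hf0, hR0]
      · have := (abs_le.1 (hfR u v huv)).1
        have h3 : 0 ≤ (R u v : ℚ) + f u v := by linarith
        positivity)
    (by
      intro u v
      rw [hf u v, hRs v u]
      ring)
    (by
      intro u
      rw [hsumy]
      have h3 := (abs_le.1 (hfl u)).1
      have h4 := hβq u
      push_cast
      have h5 : (m : ℚ) * (w u - ε u) = m * (2 * β u) := by rw [h4]
      nlinarith)
    (by
      intro u
      rw [hsumy]
      have h3 := (abs_le.1 (hfl u)).2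
      have h4 := hαq u
      push_cast
      have h5 : (m : ℚ) * (w u + ε u) = m * (2 * α u) := by rw [h4]
      nlinarith)
  have hz0 : ∀ u, z u u = 0 := by
    intro u
    have := hz1 u u
    rw [hR0] at this
    omega
  have hrow : ∀ u, o u + ∑ v, z u v + L u ≤ m * α u := by
    intro u
    have h3 := (hz2 u).2
    have h4 : ((o u + ∑ v, z u v + L u : ℕ) : ℤ) ≤ ((m * α u : ℕ) : ℤ) := by
      push_cast
      linarith
    exact_mod_cast h4
  have hcol : ∀ v, ∑ u, z u v + L v ≤ m * β v := by
    intro v
    have h3 := (hz2 v).1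
    have h4 : ∑ u, (R v u : ℤ) = ∑ u, (z v u : ℤ) + ∑ u, (z u v : ℤ) := by
      rw [← Finset.sum_add_distrib]
      refine Finset.sum_congr rfl fun u _ => ?_
      have := hz1 v u
      exact_mod_cast this.symm
    have h5 : ((∑ u, z u v + L v : ℕ) : ℤ) ≤ ((m * β v : ℕ) : ℤ) := by
      push_cast
      linarith
    exact_mod_cast h5
  obtain ⟨X, hX1, hX2, hX3⟩ := h1 (A := N) (B := Option N)
    (fun u b => b.elim (o u) (fun v => z u v + if u = v then L u else 0)) m hm
  simp only [Fintype.sum_option, Option.elim_none, Option.elim_some] at hX1 hX2 hX3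
  have hXrow : ∀ c u, X c u none + ∑ v, X c u (some v) ≤ α u := by
    intro c u
    refine (hX2 c u).2.trans (OT_div _ m _ hm ?_)
    rw [Finset.sum_add_distrib, Finset.sum_ite_eq, if_pos (Finset.mem_univ _), ← add_assoc]
    exact hrow u
  have hXcol : ∀ c v, ∑ u, X c u (some v) ≤ β v := by
    intro c v
    refine (hX3 c (some v)).2.trans (OT_div _ m _ hm ?_)
    simp only [Option.elim_some]
    rw [Finset.sum_add_distrib, Finset.sum_ite_eq', if_pos (Finset.mem_univ _)]
    exact hcol v
  have hXnone : ∀ c, ∑ u, X c u none ≤ 1 := by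
    intro c
    refine (hX3 c none).2.trans (OT_div _ m _ hm ?_)
    simp only [Option.elim_none, mul_one]
    exact ho
  have hsome : ∀ u v, ∑ c, X c u (some v) = z u v + if u = v then L u else 0 := by
    intro u v
    have := hX1 u (some v)
    simpa using this
  have hnone : ∀ u, ∑ c, X c u none = o u := by
    intro u
    have := hX1 u none
    simpa using this
  refine ⟨fun c u v => if u = v then X c u (some u) else X c u (some v) + X c v (some u),
    fun c u => X c u none, ?_, ?_, ?_, hnone, ?_, hXnone⟩
  · intro c u v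
    by_cases huv : u = v
    · subst huv; rfl
    · simp only [if_neg huv, if_neg (Ne.symm huv)]
      ring
  · intro u v huv
    simp only [if_neg huv]
    rw [Finset.sum_add_distrib, hsome, hsome, if_neg huv, if_neg (Ne.symm huv), add_zero, add_zero,
      hz1]
  · intro u
    simp only [if_true]
    rw [hsome, if_pos rfl, hz0, zero_add]
  · intro c u
    simp only [if_true]
    have h3 : ∑ v, (if u = v then X c u (some u) else X c u (some v) + X c v (some u)) +
        X c u (some u) = ∑ v, X c u (some v) + ∑ v, X c v (some u) := by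
      have h4 : X c u (some u) = ∑ v, if u = v then X c u (some u) else 0 := by
        rw [Finset.sum_ite_eq, if_pos (Finset.mem_univ _)]
      conv_lhs => rw [h4]
      rw [← Finset.sum_add_distrib, ← Finset.sum_add_distrib]
      refine Finset.sum_congr rfl fun v _ => ?_
      by_cases huv : u = v
      · subst huv; simp
      · simp [huv]
    have h4 := hXrow c u
    have h5 := hXcol c u
    have h6 := hαβ u
    omega

end Pool.Agent.H301R2.HR
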