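import Pool.Agent.H301R2.HR.SP

set_option autoImplicit false

/-! Task PAIRS: pairing of the units. -/

namespace Pool.Agent.H301R2.HR

open Finset

theorem nS_cons {α : Type} [DecidableEq α] {N : ℕ} (P Q : Fin N → α) (p q x : α) :
    nS (Fin.cons p P : Fin (N + 1) → α) (Fin.cons q Q : Fin (N + 1) → α) x =
      (if p = x ∧ q = x then 1 else 0) + nS P Q x := by
  unfold nS
  rw [Finset.card_filter, Finset.card_filter, Fin.sum_univ_succ]
  simp only [Fin.cons_zero, Fin.cons_succ]

theorem nM_cons {α : Type} [DecidableEq α] {N : ℕ} (P Q : Fin N → α) (p q x : α) :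
    nM (Fin.cons p P : Fin (N + 1) → α) (Fin.cons q Q : Fin (N + 1) → α) x =
      (if p ≠ q ∧ (p = x ∨ q = x) then 1 else 0) + nM P Q x := by
  unfold nM
  rw [Finset.card_filter, Finset.card_filter, Fin.sum_univ_succ]
  simp only [Fin.cons_zero, Fin.cons_succ]

theorem T_PAIRS_aux {α : Type} [Fintype α] [DecidableEq α] : ∀ (N : ℕ) (e : α → ℕ),
    2 * N = ∑ x, e x → ∃ (P Q : Fin N → α), (∀ x, nS P Q x = e x / 2) ∧
      (∀ x, nM P Q x = e x % 2) := by
  intro N
  induction N with
  | zero =>
    intro e he
    have h0 : ∀ x, e x = 0 := by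
      intro x
      have h1 : ∑ x, e x = 0 := by omega
      exact (Finset.sum_eq_zero_iff.1 h1) x (Finset.mem_univ x)
    refine ⟨fun i => i.elim0, fun i => i.elim0, ?_, ?_⟩
    · intro x; rw [h0 x]; simp [nS]
    · intro x; rw [h0 x]; simp [nM]
  | succ N ih =>
    intro e he
    by_cases h2 : ∃ x, 2 ≤ e x
    · obtain ⟨a, ha⟩ := h2
      obtain ⟨P, Q, hS, hM⟩ := ih (fun x => if x = a then e x - 2 else e x) (by
        have h1 : ∑ x, e x = ∑ x, ((if x = a then e x - 2 else e x) + if x = a then 2 else 0) := by
          refine Finset.sum_congr rfl fun x _ => ?_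
          by_cases h : x = a
          · subst h; simp only [if_true]; omega
          · simp only [if_neg h, add_zero]
        rw [Finset.sum_add_distrib, Finset.sum_ite_eq' Finset.univ a] at h1
        simp only [Finset.mem_univ, if_true] at h1
        omega)
      refine ⟨Fin.cons a P, Fin.cons a Q, ?_, ?_⟩
      · intro x
        rw [nS_cons, hS]
        by_cases h : x = a
        · subst h; simp only [and_self, if_true]; omega
        · have h' : ¬ (a = x ∧ a = x) := fun h3 => h h3.1.symm
          simp only [if_neg h, if_neg h']; omega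
      · intro x
        rw [nM_cons, hM]
        by_cases h : x = a
        · subst h; simp only [ne_eq, not_true_eq_false, false_and, if_false, if_true]; omega
        · simp only [ne_eq, not_true_eq_false, false_and, if_false, if_neg h]; omega
    · have h1 : ∀ x, e x ≤ 1 := fun x => by
        by_contra h; exact h2 ⟨x, by omega⟩
      have hpos : ∃ a, e a = 1 := by
        by_contra h
        have h3 : ∀ x, e x = 0 := fun x => by
          have := h1 x
          by_contra h4
          exact h ⟨x, by omega⟩
        rw [Finset.sum_eq_zero (fun x _ => h3 x)] at he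
        omega
      obtain ⟨a, ha⟩ := hpos
      have hpos2 : ∃ b, b ≠ a ∧ e b = 1 := by
        by_contra h
        have h3 : ∀ x, x ≠ a → e x = 0 := fun x hx => by
          have := h1 x
          by_contra h4
          exact h ⟨x, hx, by omega⟩
        rw [Finset.sum_eq_single a (fun x _ hx => h3 x hx)
          (fun hh => absurd (Finset.mem_univ a) hh)] at he
        omega
      obtain ⟨b, hba, hb⟩ := hpos2
      obtain ⟨P, Q, hS, hM⟩ := ih (fun x => if x = a ∨ x = b then 0 else e x) (by
        have h3 : ∑ x, e x = ∑ x, ((if x = a ∨ x = b then 0 else e x) +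
            ((if x = a then 1 else 0) + if x = b then 1 else 0)) := by
          refine Finset.sum_congr rfl fun x _ => ?_
          by_cases h : x = a
          · subst h; simp [ha, hba.symm]
          · by_cases h' : x = b
            · subst h'; simp [hb, hba]
            · simp [h, h']
        rw [Finset.sum_add_distrib, Finset.sum_add_distrib, Finset.sum_ite_eq' Finset.univ a,
          Finset.sum_ite_eq' Finset.univ b] at h3
        simp only [Finset.mem_univ, if_true] at h3
        omega)
      refine ⟨Fin.cons a P, Fin.cons b Q, ?_, ?_⟩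
      · intro x
        rw [nS_cons, hS]
        have h' : ¬ (a = x ∧ b = x) := fun h3 => hba (h3.2.trans h3.1.symm)
        rw [if_neg h']
        by_cases h : x = a ∨ x = b
        · rw [if_pos h]
          rcases h with h | h <;> subst h <;> omega
        · rw [if_neg h]; omega
      · intro x
        rw [nM_cons, hM]
        by_cases h : x = a ∨ x = b
        · have h' : a ≠ b ∧ (a = x ∨ b = x) := ⟨hba.symm, h.imp Eq.symm Eq.symm⟩
          rw [if_pos h, if_pos h']
          rcases h with h | h <;> subst h <;> omega
        · have h' : ¬ (a ≠ b ∧ (a = x ∨ b = x)) := fun h3 => h (h3.2.imp Eq.symm Eq.symm)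
          rw [if_neg h, if_neg h']; omega

theorem T_PAIRS : S_PAIRS := by
  intro α _ _ e he
  obtain ⟨N, hN⟩ := he
  obtain ⟨P, Q, hS, hM⟩ := T_PAIRS_aux N e (by omega)
  exact ⟨N, P, Q, by omega, hS, hM⟩

end Pool.Agent.H301R2.HR
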