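import Pool.Agent.H301R2.HR.SP

set_option autoImplicit false

/-! Choice of the signs and of the places of the slack. -/

namespace Pool.Agent.H301R2.HR

open Finset

namespace PHIx

theorem choose_min {N : Type} [DecidableEq N] (O : Finset N) (t : N → ℕ) (k : ℕ)
    (hk : k ≤ O.card) : ∃ P ⊆ O, P.card = k ∧ ∀ u ∈ P, ∀ v ∈ O, v ∉ P → t u ≤ t v := by
  induction k with
  | zero => exact ⟨∅, by simp, by simp, by simp⟩
  | succ k ih =>
    obtain ⟨P, hP, hc, hm⟩ := ih (by omega)
    have hne : (O \ P).Nonempty := by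
      rw [← Finset.card_pos, Finset.card_sdiff_of_subset hP]
      omega
    obtain ⟨v0, hv0, hmin⟩ := Finset.exists_min_image (O \ P) t hne
    rw [Finset.mem_sdiff] at hv0
    refine ⟨insert v0 P, ?_, ?_, ?_⟩
    · intro u hu
      rcases Finset.mem_insert.1 hu with rfl | hu
      · exact hv0.1
      · exact hP hu
    · rw [Finset.card_insert_of_notMem hv0.2, hc]
    · intro u hu v hv hvn
      rw [Finset.mem_insert, not_or] at hvn
      rcases Finset.mem_insert.1 hu with rfl | hu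
      · exact hmin v (Finset.mem_sdiff.2 ⟨hv, hvn.2⟩)
      · exact hm u hu v hv hvn.2

/-- the signs -/
def ee {N : Type} [DecidableEq N] (w : N → ℕ) (P : Finset N) (u : N) : ℤ :=
  if u ∈ P then 1 else if w u % 2 = 1 then -1 else 0

theorem sum_ee {N : Type} [Fintype N] [DecidableEq N] (w : N → ℕ) (P : Finset N)
    (hP : ∀ u ∈ P, w u % 2 = 1) :
    ∑ u, ee w P u = 2 * (P.card : ℤ) - ((univ.filter fun u => w u % 2 = 1).card : ℤ) := by
  have h1 : ∀ u, ee w P u = 2 * (if u ∈ P then 1 else 0) - (if w u % 2 = 1 then 1 else 0) := by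
    intro u
    unfold ee
    by_cases h : u ∈ P
    · rw [if_pos h, if_pos h, if_pos (hP u h)]; norm_num
    · rw [if_neg h, if_neg h]
      split_ifs <;> norm_num
  rw [Finset.sum_congr rfl fun u _ => h1 u, Finset.sum_sub_distrib, ← Finset.mul_sum]
  simp

theorem odd_sum {N : Type} [Fintype N] (w : N → ℕ) :
    (∑ u, w u) % 2 = (univ.filter fun u => w u % 2 = 1).card % 2 := by
  rw [Finset.sum_nat_mod, Finset.card_filter]
  congr 1
  refine Finset.sum_congr rfl fun u _ => ?_
  split_ifs with h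
  · exact h
  · omega

theorem ee_even {N : Type} [DecidableEq N] (w : N → ℕ) (P : Finset N)
    (hP : ∀ u ∈ P, w u % 2 = 1) (u : N) : Even ((w u : ℤ) + ee w P u) := by
  unfold ee
  by_cases h : u ∈ P
  · rw [if_pos h]
    have := hP u h
    rw [Int.even_iff]; omega
  · rw [if_neg h]
    by_cases h2 : w u % 2 = 1
    · rw [if_pos h2, Int.even_iff]; omega
    · rw [if_neg h2, Int.even_iff]; omega

theorem ee_bd {N : Type} [DecidableEq N] (w : N → ℕ) (P : Finset N) (u : N) :
    -1 ≤ ee w P u ∧ ee w P u ≤ 1 := by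
  unfold ee
  split_ifs <;> norm_num

/-- the inequality, given the types of the normalised outflows -/
theorem core (hPIN : S_PIN) {N : Type} [DecidableEq N] (w : N → ℕ) (m : ℕ)
    (h : N → N → ℕ) (hw : ∀ u, 2 ≤ w u) (hm : 0 < m)
    (hh : ∀ u v, u ≠ v → h u v ≤ w u ∧ h u v ≤ w v) (hsym : ∀ u v, h u v = h v u)
    (P : Finset N) (τ : N → ℚ)
    (hP : ∀ u ∈ P, w u % 2 = 1)
    (h2 : ∀ u, w u = 2 → τ u = 0 ∨ ∀ v, h u v = 0)
    (ht0 : ∀ u, 0 ≤ τ u) (ht1 : ∀ u, u ∉ P → τ u ≤ m) (ht2 : ∀ u ∈ P, τ u ≤ m / 2)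
    (ht3 : ∀ u ∈ P, ∀ v, v ∉ P → w v % 2 = 1 → τ u ≤ τ v ∨ τ u = 0) (u v : N) (huv : u ≠ v) :
    |(w v : ℚ) * (m * ee w P u + τ u) - w u * (m * ee w P v + τ v)| ≤
      m * ((w u : ℚ) * w v - h u v) := by
  have hm' : (0 : ℚ) < m := by exact_mod_cast hm
  set φ : N → ℚ := fun u => (ee w P u : ℚ) + τ u / m with hφ
  have hφm : ∀ u, (m : ℚ) * ee w P u + τ u = m * φ u := by
    intro u
    rw [hφ]
    field_simp
  have hdiv0 : ∀ u, 0 ≤ τ u / m := fun u => div_nonneg (ht0 u) hm'.le
  have hdiv1 : ∀ u, u ∉ P → τ u / m ≤ 1 := fun u hu => by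
    rw [div_le_one hm']; exact ht1 u hu
  have hdiv2 : ∀ u ∈ P, τ u / m ≤ 1 / 2 := fun u hu => by
    rw [div_le_iff₀ hm']
    have := ht2 u hu
    linarith
  have hee : ∀ u, (u ∈ P ∧ w u % 2 = 1 ∧ (ee w P u : ℚ) = 1) ∨
      (u ∉ P ∧ w u % 2 = 1 ∧ (ee w P u : ℚ) = -1) ∨
      (u ∉ P ∧ w u % 2 = 0 ∧ (ee w P u : ℚ) = 0) := by
    intro u
    unfold ee
    by_cases h : u ∈ P
    · exact Or.inl ⟨h, hP u h, by rw [if_pos h]; norm_num⟩
    · by_cases h2 : w u % 2 = 1
      · exact Or.inr (Or.inl ⟨h, h2, by rw [if_neg h, if_pos h2]; norm_num⟩)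
      · exact Or.inr (Or.inr ⟨h, by omega, by rw [if_neg h, if_neg h2]; norm_num⟩)
  have hty : ∀ u, TyP (w u) (φ u) := by
    intro u
    have h0 := hdiv0 u
    rcases hee u with ⟨h, h3, h4⟩ | ⟨h, h3, h4⟩ | ⟨h, h3, h4⟩
    · have h5 := hdiv2 u h
      refine Or.inr (Or.inl ⟨Nat.odd_iff.2 h3, ?_, ?_⟩)
      · rw [hφ]; simp only; rw [h4]; linarith
      · rw [hφ]; simp only; rw [h4]; linarith
    · have h5 := hdiv1 u h
      refine Or.inr (Or.inr ⟨Nat.odd_iff.2 h3, ?_, ?_⟩)
      · rw [hφ]; simp only; rw [h4]; linarith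
      · rw [hφ]; simp only; rw [h4]; linarith
    · have h5 := hdiv1 u h
      refine Or.inl ⟨Nat.even_iff.2 h3, ?_, ?_⟩
      · rw [hφ]; simp only; rw [h4]; linarith
      · rw [hφ]; simp only; rw [h4]; linarith
  have hz : ∀ u v, w u = 2 → φ u = 0 ∨ h u v = 0 := by
    intro u v hu
    rcases h2 u hu with h3 | h3
    · left
      rcases hee u with ⟨h, h5, h4⟩ | ⟨h, h5, h4⟩ | ⟨h, h5, h4⟩
      · omega
      · omega
      · rw [hφ]; simp only; rw [h4, h3]; simp
    · right; exact h3 v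
  have hcr : ∀ u v, Odd (w u) → Odd (w v) → 1 ≤ φ u → φ v ≤ 0 → φ u - 1 ≤ φ v + 1 := by
    intro u v hu hv h3 h4
    have hu' := Nat.odd_iff.1 hu
    have hv' := Nat.odd_iff.1 hv
    have h0u := hdiv0 u
    have h0v := hdiv0 v
    rcases hee u with ⟨h, h5, h6⟩ | ⟨h, h5, h6⟩ | ⟨h, h5, h6⟩
    · rcases hee v with ⟨k, k5, k6⟩ | ⟨k, k5, k6⟩ | ⟨k, k5, k6⟩
      · exfalso
        rw [hφ] at h4; simp only at h4; rw [k6] at h4; linarith
      · rw [hφ]; simp only; rw [h6, k6]
        rcases ht3 u h v k hv' with h7 | h7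
        · have : τ u / m ≤ τ v / m := div_le_div_of_nonneg_right h7 hm'.le
          linarith
        · rw [h7]; simp only [zero_div]; linarith
      · omega
    · exfalso
      have := hdiv1 u h
      rw [hφ] at h3; simp only at h3; rw [h6] at h3; linarith
    · omega
  have hu0 := hz u v
  have hv0 : w v = 2 → φ v = 0 ∨ h u v = 0 := by
    intro h3
    rw [hsym u v]
    exact hz v u h3
  have key := hPIN (w u) (w v) (h u v) (φ u) (φ v) (hw u) (hw v) (hh u v huv).1 (hh u v huv).2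
    hu0 hv0 (hty u) (hty v) (hcr u v)
    (fun h3 h4 h5 h6 => hcr v u h4 h3 h5 h6)
  rw [hφm, hφm]
  have e : (w v : ℚ) * (m * φ u) - w u * (m * φ v) = m * ((w v : ℚ) * φ u - w u * φ v) := by ring
  rw [e, abs_mul, abs_of_pos hm']
  exact mul_le_mul_of_nonneg_left key hm'.le

end PHIx

open PHIx in
theorem T_PHI (h : S_PIN) : S_PHI := by
  intro N _ _ w t m H hw hm hsym hH hodd
  have hm' : (0 : ℚ) < m := by exact_mod_cast hm
  set O : Finset N := univ.filter fun u => w u % 2 = 1 with hO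
  have hpar := odd_sum w
  rw [← hO] at hpar
  have hOm : ∀ u, u ∈ O ↔ w u % 2 = 1 := by intro u; simp [hO]
  by_cases hev : (∑ u, w u) % 2 = 0
  · -- even
    obtain ⟨P, hPO, hPc, -⟩ := choose_min O t (O.card / 2) (Nat.div_le_self _ _)
    have hP : ∀ u ∈ P, w u % 2 = 1 := fun u hu => (hOm u).1 (hPO hu)
    have hsum := sum_ee w P hP
    rw [← hO, hPc] at hsum
    refine ⟨ee w P, fun _ => 0, ee_even w P hP, ee_bd w P, ?_, ?_, ?_⟩
    · exact fun u => ⟨le_rfl, Nat.cast_nonneg _⟩
    · have h1 : ∑ u, ee w P u = 0 := by rw [hsum]; omega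
      simp only [add_zero]
      rw [← Finset.mul_sum]
      have h2 : ∑ u, (ee w P u : ℚ) = 0 := by exact_mod_cast h1
      rw [h2, mul_zero]
    · intro u v huv
      exact core h w m H hw hm hH hsym P (fun _ => 0) hP (fun _ _ => Or.inl rfl)
        (fun _ => le_rfl) (fun _ _ => hm'.le) (fun _ _ => by positivity)
        (fun _ _ _ _ _ => Or.inr rfl) u v huv
  · -- odd
    have hOdd : Odd (∑ u, w u) := Nat.odd_iff.2 (by omega)
    obtain ⟨hmt, ht2⟩ := hodd hOdd
    obtain ⟨P, hPO, hPc, hPmin⟩ := choose_min O t (O.card / 2) (Nat.div_le_self _ _)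
    have hP : ∀ u ∈ P, w u % 2 = 1 := fun u hu => (hOm u).1 (hPO hu)
    have hsum := sum_ee w P hP
    rw [← hO, hPc] at hsum
    have hsum1 : ∑ u, ee w P u = -1 := by rw [hsum]; omega
    set sQ : ℕ := ∑ u ∈ univ.filter (fun u => u ∉ P), t u with hsQ
    set sP : ℕ := ∑ u ∈ P, t u with hsP
    have hst : sQ + sP = ∑ u, t u := by
      rw [hsQ, hsP, add_comm]
      have h1 := Finset.sum_filter_add_sum_filter_not univ (fun u => u ∈ P) t
      rw [← h1]
      congr 1
      refine Finset.sum_congr ?_ fun _ _ => rfl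
      ext u; simp
    have htQ : ∀ u, u ∉ P → t u ≤ sQ := by
      intro u hu
      rw [hsQ]
      exact Finset.single_le_sum (f := t) (fun _ _ => Nat.zero_le _)
        (Finset.mem_filter.2 ⟨mem_univ u, hu⟩)
    have htP : ∀ u ∈ P, t u ≤ sP := by
      intro u hu
      rw [hsP]
      exact Finset.single_le_sum (f := t) (fun _ _ => Nat.zero_le _) hu
    -- twice the smallest ones
    have htwice : ∀ u ∈ P, 2 * t u ≤ sQ := by
      intro u hu
      have hPpos : 0 < P.card := Finset.card_pos.2 ⟨u, hu⟩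
      have hcard : 2 ≤ (O \ P).card := by
        rw [Finset.card_sdiff_of_subset hPO]
        omega
      have h1 : ∑ v ∈ O \ P, t u ≤ ∑ v ∈ O \ P, t v := by
        refine Finset.sum_le_sum fun v hv => ?_
        rw [Finset.mem_sdiff] at hv
        exact hPmin u hu v hv.1 hv.2
      rw [Finset.sum_const, smul_eq_mul] at h1
      have h2 : ∑ v ∈ O \ P, t v ≤ sQ := by
        rw [hsQ]
        refine Finset.sum_le_sum_of_subset_of_nonneg ?_ (fun _ _ _ => Nat.zero_le _)
        intro v hv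
        rw [Finset.mem_sdiff] at hv
        exact Finset.mem_filter.2 ⟨mem_univ v, hv.2⟩
      have h3 : 2 * t u ≤ (O \ P).card * t u := Nat.mul_le_mul_right _ hcard
      omega
    -- the choice of `τ`
    set α : ℚ := if m ≤ sQ then (m : ℚ) / sQ else 1 with hα
    set β : ℚ := if m ≤ sQ then 0 else ((m : ℚ) - sQ) / sP with hβ
    have hαβ : 0 ≤ α ∧ α ≤ 1 ∧ 0 ≤ β ∧ β ≤ 1 ∧ α * sQ + β * sP = m ∧ α * sQ ≤ m ∧
        (m ≤ sQ → β = 0) ∧ (¬ m ≤ sQ → α = 1) := by
      by_cases hc : m ≤ sQ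
      · have hc' : (m : ℚ) ≤ sQ := by exact_mod_cast hc
        have hs : (0 : ℚ) < sQ := lt_of_lt_of_le hm' hc'
        have e1 : (m : ℚ) / sQ * sQ = m := by field_simp
        rw [hα, hβ, if_pos hc, if_pos hc]
        refine ⟨by positivity, (div_le_one hs).2 hc', le_rfl, zero_le_one, ?_, e1.le,
          fun _ => rfl, fun h' => absurd hc h'⟩
        rw [e1]; ring
      · have hc' : (sQ : ℚ) < m := by
          have : sQ < m := by omega
          exact_mod_cast this
        have hs1 : (m : ℚ) ≤ sQ + sP := by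
          have : m ≤ sQ + sP := by omega
          exact_mod_cast this
        have hs : (0 : ℚ) < sP := by linarith
        have e1 : ((m : ℚ) - sQ) / sP * sP = m - sQ := by field_simp
        rw [hα, hβ, if_neg hc, if_neg hc]
        refine ⟨zero_le_one, le_rfl, div_nonneg (by linarith) hs.le,
          (div_le_one hs).2 (by linarith), ?_, by linarith, fun h' => absurd h' hc, fun _ => rfl⟩
        rw [e1]; ring
    obtain ⟨a0, a1, b0, b1, hab, haQ, hβ0, hα1⟩ := hαβ
    set τ : N → ℚ := fun u => if u ∈ P then β * t u else α * t u with hτ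
    have hτP : ∀ u ∈ P, τ u = β * t u := fun u hu => by rw [hτ]; simp only; rw [if_pos hu]
    have hτQ : ∀ u, u ∉ P → τ u = α * t u := fun u hu => by rw [hτ]; simp only; rw [if_neg hu]
    have hsumτ : ∑ u, τ u = m := by
      rw [hτ]
      simp only
      rw [Finset.sum_ite, ← Finset.mul_sum, ← Finset.mul_sum]
      have e1 : (univ.filter fun u => u ∈ P) = P := by ext u; simp
      rw [e1]
      rw [hsQ, hsP] at hab
      push_cast at hab
      linarith
    refine ⟨ee w P, τ, ee_even w P hP, ee_bd w P, ?_, ?_, ?_⟩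
    · intro u
      have ht : (0 : ℚ) ≤ t u := Nat.cast_nonneg _
      by_cases hu : u ∈ P
      · rw [hτP u hu]
        exact ⟨mul_nonneg b0 ht, by nlinarith⟩
      · rw [hτQ u hu]
        exact ⟨mul_nonneg a0 ht, by nlinarith⟩
    · rw [Finset.sum_add_distrib, ← Finset.mul_sum, hsumτ]
      have h2 : ∑ u, (ee w P u : ℚ) = -1 := by exact_mod_cast hsum1
      rw [h2]; ring
    · intro u v huv
      refine core h w m H hw hm hH hsym P τ hP ?_ ?_ ?_ ?_ ?_ u v huv
      · intro u hu
        rcases ht2 u hu with h3 | h3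
        · left
          by_cases hu : u ∈ P
          · rw [hτP u hu, h3]; simp
          · rw [hτQ u hu, h3]; simp
        · exact Or.inr h3
      · intro u
        have ht : (0 : ℚ) ≤ t u := Nat.cast_nonneg _
        by_cases hu : u ∈ P
        · rw [hτP u hu]; exact mul_nonneg b0 ht
        · rw [hτQ u hu]; exact mul_nonneg a0 ht
      · intro u hu
        rw [hτQ u hu]
        have h1 : (t u : ℚ) ≤ sQ := by exact_mod_cast htQ u hu
        exact (mul_le_mul_of_nonneg_left h1 a0).trans haQ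
      · intro u hu
        rw [hτP u hu]
        by_cases hc : m ≤ sQ
        · rw [hβ0 hc, zero_mul]; positivity
        · have h1 : (2 : ℚ) * t u ≤ sQ := by exact_mod_cast htwice u hu
          have h2 : (sQ : ℚ) ≤ m := by
            have : sQ ≤ m := by omega
            exact_mod_cast this
          have ht : (0 : ℚ) ≤ t u := Nat.cast_nonneg _
          nlinarith
      · intro u hu v hv hvo
        by_cases hc : m ≤ sQ
        · right; rw [hτP u hu, hβ0 hc, zero_mul]
        · left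
          rw [hτP u hu, hτQ v hv, hα1 hc, one_mul]
          have h1 : (t u : ℚ) ≤ t v := by exact_mod_cast hPmin u hu v ((hOm v).2 hvo) hv
          have ht : (0 : ℚ) ≤ t u := Nat.cast_nonneg _
          nlinarith

end Pool.Agent.H301R2.HR
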