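import Pool.Agent.H301R2.HR.SP

set_option autoImplicit false

namespace Pool.Agent.H301R2.HR

theorem PIN_one (x y h : ℕ) (φ ψ : ℚ) (hx : 2 ≤ x) (hy : 2 ≤ y) (hhx : h ≤ x) (hhy : h ≤ y)
    (hx2 : x = 2 → φ = 0 ∨ h = 0) (tx : TyP x φ) (ty : TyP y ψ)
    (c1 : Odd x → Odd y → 1 ≤ φ → ψ ≤ 0 → φ - 1 ≤ ψ + 1) :
    (y : ℚ) * φ - x * ψ ≤ (x : ℚ) * y - h := by
  have hX : (2 : ℚ) ≤ x := by exact_mod_cast hx
  have hY : (2 : ℚ) ≤ y := by exact_mod_cast hy
  have hHX : (h : ℚ) ≤ x := by exact_mod_cast hhx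
  have hHY : (h : ℚ) ≤ y := by exact_mod_cast hhy
  have hH0 : (0 : ℚ) ≤ h := by positivity
  have hxo : Odd x → (3 : ℚ) ≤ x := fun ho => by
    have : 3 ≤ x := by obtain ⟨k, hk⟩ := ho; omega
    exact_mod_cast this
  have hyo : Odd y → (3 : ℚ) ≤ y := fun ho => by
    have : 3 ≤ y := by obtain ⟨k, hk⟩ := ho; omega
    exact_mod_cast this
  have hxe : Even x → x = 2 ∨ (4 : ℚ) ≤ x := fun he => by
    by_cases h2 : x = 2
    · exact Or.inl h2
    · right
      have : 4 ≤ x := by obtain ⟨k, hk⟩ := he; omega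
      exact_mod_cast this
  have hxy : (0 : ℚ) ≤ (x - 2) * (y - 2) := mul_nonneg (by linarith) (by linarith)
  rcases tx with ⟨ex, p0, p1⟩ | ⟨ox, p0, p1⟩ | ⟨ox, p0, p1⟩
  · -- x even
    rcases ty with ⟨ey, q0, q1⟩ | ⟨oy, q0, q1⟩ | ⟨oy, q0, q1⟩
    · rcases hxe ex with h2 | h4
      · rcases hx2 h2 with h0 | h0
        · subst h0; nlinarith
        · subst h0; push_cast; nlinarith
      · nlinarith
    · rcases hxe ex with h2 | h4
      · rcases hx2 h2 with h0 | h0
        · subst h0; nlinarith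
        · subst h0; push_cast; nlinarith
      · nlinarith
    · have h3 := hyo oy
      rcases hxe ex with h2 | h4
      · rcases hx2 h2 with h0 | h0
        · subst h0
          have : (x : ℚ) * (ψ + 1) ≥ 0 := mul_nonneg (by linarith) (by linarith)
          nlinarith
        · subst h0
          push_cast
          have e1 : (x : ℚ) * (ψ + 1) ≥ 0 := mul_nonneg (by linarith) (by linarith)
          have e2 : (y : ℚ) * (1 - φ) ≥ 0 := mul_nonneg (by linarith) (by linarith)
          have e3 : (x : ℚ) = 2 := by exact_mod_cast h2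
          rw [e3] at e1 ⊢
          nlinarith
      · have e1 : (x : ℚ) * (ψ + 1) ≥ 0 := mul_nonneg (by linarith) (by linarith)
        have e2 : (y : ℚ) * (1 - φ) ≥ 0 := mul_nonneg (by linarith) (by linarith)
        have e3 : ((x : ℚ) - 4) * (y - 3) ≥ 0 := mul_nonneg (by linarith) (by linarith)
        nlinarith
  · have h3 := hxo ox
    have e2 : (y : ℚ) * (3 / 2 - φ) ≥ 0 := mul_nonneg (by linarith) (by linarith)
    rcases ty with ⟨ey, q0, q1⟩ | ⟨oy, q0, q1⟩ | ⟨oy, q0, q1⟩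
    · have e3 : ((x : ℚ) - 3) * y ≥ 0 := mul_nonneg (by linarith) (by linarith)
      have e4 : (x : ℚ) * ψ ≥ 0 := mul_nonneg (by linarith) (by linarith)
      nlinarith
    · have e3 : ((x : ℚ) - 3) * y ≥ 0 := mul_nonneg (by linarith) (by linarith)
      have e4 : (x : ℚ) * ψ ≥ 0 := mul_nonneg (by linarith) (by linarith)
      nlinarith
    · have h4 := hyo oy
      have hc := c1 ox oy p0 q1
      have e3 : ((x : ℚ) - 3) * (y - 3) ≥ 0 := mul_nonneg (by linarith) (by linarith)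
      -- `yφ - xψ ≤ max (3/2 y + x/2) (x + y)`
      have e5 : (y : ℚ) * φ - x * ψ ≤ 3 / 2 * y + x / 2 ∨ (y : ℚ) * φ - x * ψ ≤ x + y := by
        by_cases hs : -ψ ≤ 1 / 2
        · left
          have : (x : ℚ) * (1 / 2 + ψ) ≥ 0 := mul_nonneg (by linarith) (by linarith)
          linarith
        · have hs' : (0 : ℚ) ≤ -ψ - 1 / 2 := by linarith
          have f1 : (y : ℚ) * (ψ + 2 - φ) ≥ 0 := mul_nonneg (by linarith) (by linarith)
          by_cases hxy' : (x : ℚ) ≤ y
          · left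
            have f2 : ((y : ℚ) - x) * (-ψ - 1 / 2) ≥ 0 := mul_nonneg (by linarith) hs'
            nlinarith
          · right
            have f2 : ((x : ℚ) - y) * (1 + ψ) ≥ 0 := mul_nonneg (by linarith) (by linarith)
            nlinarith
      have e6 : 3 / 2 * (y : ℚ) + x / 2 ≤ x * y - h := by
        by_cases hxy' : (x : ℚ) ≤ y
        · nlinarith
        · nlinarith
      have e7 : (x : ℚ) + y ≤ x * y - h := by
        by_cases hxy' : (x : ℚ) ≤ y
        · nlinarith
        · nlinarith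
      rcases e5 with e5 | e5 <;> linarith
  · have h3 := hxo ox
    have e2 : (y : ℚ) * (-φ) ≥ 0 := mul_nonneg (by linarith) (by linarith)
    rcases ty with ⟨ey, q0, q1⟩ | ⟨oy, q0, q1⟩ | ⟨oy, q0, q1⟩
    · have e4 : (x : ℚ) * ψ ≥ 0 := mul_nonneg (by linarith) (by linarith)
      nlinarith
    · have e4 : (x : ℚ) * ψ ≥ 0 := mul_nonneg (by linarith) (by linarith)
      nlinarith
    · have h4 := hyo oy
      have e4 : (x : ℚ) * (ψ + 1) ≥ 0 := mul_nonneg (by linarith) (by linarith)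
      have e3 : (x : ℚ) * (y - 3) ≥ 0 := mul_nonneg (by linarith) (by linarith)
      nlinarith

theorem T_PIN : S_PIN := by
  intro x y h φ ψ hx hy hhx hhy hx2 hy2 tx ty c1 c2
  have h1 := PIN_one x y h φ ψ hx hy hhx hhy hx2 tx ty c1
  have h2 := PIN_one y x h ψ φ hy hx hhy hhx hy2 ty tx (fun a b => c2 b a)
  rw [abs_le]
  constructor <;> linarith

end Pool.Agent.H301R2.HR
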