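import Pool.Agent.H301R2.HR.Defs

namespace Pool.Agent.H301R2.HR

theorem T_SEL (h : S_DW) : S_SEL := by
  intro K B _ _ M W d hW hrow hcol
  obtain ⟨X, hX, hr, hc⟩ := h M W hW
  have h0 : (0 : ℕ) < W := hW
  obtain ⟨c₀⟩ : Nonempty (Fin W) := ⟨⟨0, hW⟩⟩
  refine ⟨X c₀, ?_, ?_, ?_, ?_⟩
  · intro c b
    rw [← hX c b]
    exact Finset.single_le_sum (f := fun i => X i c b) (fun i _ => Nat.zero_le _)
      (Finset.mem_univ c₀)
  · intro c
    have h1 := (hr c₀ c).2
    have h2 := hrow c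
    have h3 : ((∑ b, M c b) + (W - 1)) / W ≤ 1 := by
      rw [← Nat.lt_succ_iff, Nat.div_lt_iff_lt_mul hW]
      omega
    omega
  · intro c hcW
    have h1 := hr c₀ c
    rw [hcW, Nat.div_self hW] at h1
    have h3 : (W + (W - 1)) / W ≤ 1 := by
      rw [← Nat.lt_succ_iff, Nat.div_lt_iff_lt_mul hW]
      omega
    omega
  · intro b
    have h1 := hc c₀ b
    rw [hcol b, Nat.mul_div_cancel_left _ hW] at h1
    have h3 : (W * d b + (W - 1)) / W = d b := by
      rw [Nat.mul_add_div hW, Nat.div_eq_of_lt (by omega), add_zero]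
    omega

end Pool.Agent.H301R2.HR
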