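import Pool.Agent.H301R2.HR.SP

set_option autoImplicit false

namespace Pool.Agent.H301R2.HR

open Finset

theorem T_SMALL : S_SMALL := by
  intro ι _ _ a a₀ h2 hex hmin hlt
  obtain ⟨e, he⟩ : ∃ e : ι → ℕ, ∀ i, a i = a₀ + e i :=
    ⟨fun i => a i - a₀, fun i => by have := hmin i; simp only []; omega⟩
  have hesub : ∀ i, a i - a₀ = e i := fun i => by rw [he i]; omega
  have hsumA : ∑ i, a i = Fintype.card ι * a₀ + ∑ i, e i := by
    simp only [he, sum_add_distrib, sum_const, card_univ, smul_eq_mul]
  have hD : ∑ i, a i * (a i - a₀) = ∑ i, (a₀ + e i) * e i := by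
    refine sum_congr rfl fun i _ => ?_
    rw [hesub i, he i]
  have hE : ∑ i, (a i - a₀) = ∑ i, e i := sum_congr rfl fun i _ => hesub i
  rw [hD, hsumA] at hlt
  obtain ⟨i₀, hi₀⟩ := hex
  have hp : 1 ≤ Fintype.card ι := Fintype.card_pos_iff.mpr ⟨i₀⟩
  refine ⟨?_, ?_⟩
  · rw [hE]
    have h1 : a₀ * ∑ i, e i + ∑ i, e i ≤ ∑ i, (a₀ + e i) * e i := by
      rw [mul_sum, ← sum_add_distrib]
      refine sum_le_sum fun i _ => ?_
      rcases Nat.eq_zero_or_pos (e i) with h | h
      · simp [h]
      · nlinarith
    have h3 : a₀ * ∑ i, e i + a₀ < Fintype.card ι * a₀ := by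
      have : a₀ ≤ Fintype.card ι * a₀ := Nat.le_mul_of_pos_left _ hp
      omega
    have h4 : (∑ i, e i + 1) * a₀ < Fintype.card ι * a₀ := by
      calc (∑ i, e i + 1) * a₀ = a₀ * ∑ i, e i + a₀ := by ring
        _ < _ := h3
    have h5 := Nat.lt_of_mul_lt_mul_right h4
    omega
  · intro hodd
    classical
    set Q := univ.filter fun i => a i % 2 = 1 ∧ a i ≠ a₀ with hQ
    set R := univ.filter fun i => a i = a₀ with hR
    have hpt : ∀ i, e i + (if a i = a₀ then 0 else a₀) + (if a i % 2 = 1 ∧ a i ≠ a₀ then a₀ else 0)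
        ≤ (a₀ + e i) * e i := by
      intro i
      by_cases h : a i = a₀
      · have : e i = 0 := by have := he i; omega
        simp [h, this]
      · have hpos : 1 ≤ e i := by have := he i; omega
        by_cases h' : a i % 2 = 1
        · have h6 : 2 ≤ e i := by
            have := he i
            rcases hodd with ⟨k, hk⟩
            omega
          simp only [h, h', if_false, if_true, ne_eq, not_false_eq_true, and_self]
          nlinarith
        · simp only [h, h', if_false, ne_eq, not_false_eq_true, false_and]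
          nlinarith
    have hs := sum_le_sum fun i (_ : i ∈ (univ : Finset ι)) => hpt i
    rw [sum_add_distrib, sum_add_distrib] at hs
    have e1 : ∑ i, (if a i % 2 = 1 ∧ a i ≠ a₀ then a₀ else 0) = Q.card * a₀ := by
      rw [← sum_filter, sum_const, smul_eq_mul]
    have e2 : ∑ i, (if a i = a₀ then 0 else a₀) + R.card * a₀ = Fintype.card ι * a₀ := by
      have : R.card * a₀ = ∑ i, (if a i = a₀ then a₀ else 0) := by
        rw [← sum_filter, sum_const, smul_eq_mul]
      rw [this, ← sum_add_distrib]
      have : ∀ i, ((if a i = a₀ then 0 else a₀) + (if a i = a₀ then a₀ else 0)) = a₀ := by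
        intro i; split_ifs <;> simp
      simp [this]
    have h7 : Q.card * a₀ + a₀ < R.card * a₀ := by
      rw [e1] at hs
      have : a₀ ≤ Fintype.card ι * a₀ := Nat.le_mul_of_pos_left _ hp
      omega
    have h8 : Q.card < R.card := by
      by_contra hcon
      push Not at hcon
      have := Nat.mul_le_mul_right a₀ hcon
      omega
    have h9 : Q.card + R.card ≤ (univ.filter fun i => a i % 2 = 1).card := by
      rw [← card_union_of_disjoint]
      · refine card_le_card ?_
        intro i hi
        rcases mem_union.mp hi with hi | hi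
        · exact mem_filter.mpr ⟨mem_univ _, (mem_filter.mp hi).2.1⟩
        · refine mem_filter.mpr ⟨mem_univ _, ?_⟩
          have := (mem_filter.mp hi).2
          rcases hodd with ⟨k, hk⟩
          omega
      · rw [disjoint_left]
        intro i hi hi'
        exact (mem_filter.mp hi).2.2 (mem_filter.mp hi').2
    have h10 : (univ.filter fun i => a i % 2 = 1 ∧ a i ≠ a₀).card = Q.card := rfl
    omega

end Pool.Agent.H301R2.HR
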