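import Pool.Agent.H301R2.HR.SP

/-! Task SP (helper954): special classes in general, and the transport lemma. -/

set_option autoImplicit false

namespace Pool.Agent.H301R2.HR

open Finset

theorem T_SPT : S_SPT := by
  intro α β _ _ _ _ E b a C H ⟨h1, h2, h3, h4⟩
  refine ⟨fun i u v => H (E i) (E u) (E v), fun i u v => h1 _ _ _, fun i u => h2 _ _, ?_, ?_⟩
  · intro i u
    have e1 := Equiv.sum_comp E (fun v => H (E i) (E u) v)
    simp only at e1 ⊢
    rw [e1, h3]
    simp only [EmbeddingLike.apply_eq_iff_eq]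
  · intro u v huv
    have e1 := Equiv.sum_comp E (fun i => H i (E u) (E v))
    simp only at e1 ⊢
    rw [e1]
    exact h4 _ _ (fun h => huv (E.injective h))

namespace TaskSP

/-- odd number of parts -/
theorem caseOdd (h1 : S_SPoe) (h2 : S_SPoo) {ι : Type} [Fintype ι] [DecidableEq ι]
    (a : ι → ℕ) (a₀ h : ℕ) (ha₀ : 3 ≤ a₀) (ha : ∀ i, a₀ ≤ a i) (hc : Fintype.card ι = 2 * h + 1)
    (hev : Even (∑ i, a i)) (hE : ∑ i, (a i - a₀) + 2 ≤ 2 * h + 1) :
    ∃ H, Special a a₀ (fun i => cE (a i - a₀)) H := by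
  have F : ι ≃ ZMod (2 * h + 1) := Fintype.equivOfCardEq (by rw [hc, ZMod.card])
  obtain ⟨e, he⟩ : ∃ e : ZMod (2 * h + 1) → ℕ, e = fun x => a (F.symm x) - a₀ := ⟨_, rfl⟩
  have hsum : ∑ x, e x = ∑ i, (a i - a₀) := by
    rw [he]
    exact Equiv.sum_comp F.symm (fun i => a i - a₀)
  have htot : ∑ i, a i = (2 * h + 1) * a₀ + ∑ i, (a i - a₀) := by
    have : ∀ i, a i = a₀ + (a i - a₀) := fun i => by have := ha i; omega
    rw [sum_congr rfl (fun i _ => this i), sum_add_distrib]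
    simp [hc]
  have hle : ∑ x, e x ≤ 2 * h := by rw [hsum]; omega
  have hor : 2 ≤ h ∨ ∀ x, e x ≤ 1 := by
    by_cases h2 : 2 ≤ h
    · exact Or.inl h2
    · right
      intro x
      have : e x ≤ ∑ x, e x := single_le_sum (f := e) (fun _ _ => Nat.zero_le _) (mem_univ x)
      rw [hsum] at this
      omega
  have key : ∃ H, Special (fun x => a₀ + e x) a₀ (fun x => cE (e x)) H := by
    rcases Nat.even_or_odd a₀ with hae | hao
    · refine h1 h a₀ e (by omega) hae ?_ hle hor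
      rw [hsum]
      rw [htot] at hev
      have : Even ((2 * h + 1) * a₀) := hae.mul_left _
      exact (Nat.even_add.1 hev).1 this
    · refine h2 h a₀ e (by omega) hao ?_ hle hor
      rw [hsum]
      rw [htot] at hev
      have : ¬ Even ((2 * h + 1) * a₀) := by
        rw [Nat.not_even_iff_odd]
        exact Odd.mul ⟨h, rfl⟩ hao
      rw [← Nat.not_even_iff_odd]
      intro h3
      exact this ((Nat.even_add.1 hev).2 h3)
  obtain ⟨H, hH⟩ := key
  obtain ⟨H', hH'⟩ := T_SPT F _ _ _ H hH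
  refine ⟨H', ?_⟩
  have e1 : (fun x => a₀ + e (F x)) = a := by
    funext x
    rw [he]
    simp only [Equiv.symm_apply_apply]
    have := ha x
    omega
  have e2 : (fun x => cE (e (F x))) = fun i => cE (a i - a₀) := by
    funext x
    rw [he]
    simp only [Equiv.symm_apply_apply]
  rw [e1, e2] at hH'
  exact hH'

/-- even number of parts, with the part `i₁` at infinity -/
theorem caseEven (h3 : S_SPee) (h4 : S_SPeo) {ι : Type} [Fintype ι] [DecidableEq ι]
    (a : ι → ℕ) (a₀ h : ℕ) (ha₀ : 3 ≤ a₀) (ha : ∀ i, a₀ ≤ a i) (hc : Fintype.card ι = 2 * h + 2)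
    (hh : 1 ≤ h) (i₁ : ι) (hpar : Even (a i₁ - a₀))
    (hev : Even (∑ i ∈ univ.erase i₁, (a i - a₀)))
    (hE : ∑ i ∈ univ.erase i₁, (a i - a₀) ≤ 2 * h)
    (hor : 2 ≤ h ∨ ∀ i, i ≠ i₁ → a i - a₀ ≤ 1)
    (hb : a i₁ = a₀ ∨ (a i₁ = a₀ + 2 ∧ h = 1 ∧ ∀ i, i ≠ i₁ → a i - a₀ = 0)) :
    ∃ H, Special a a₀ (fun i => cE (a i - a₀)) H := by
  have hc' : Fintype.card {i // i ≠ i₁} = 2 * h + 1 := by
    rw [Fintype.card_subtype_compl, hc, Fintype.card_subtype_eq]
    omega
  have F : {i // i ≠ i₁} ≃ ZMod (2 * h + 1) := Fintype.equivOfCardEq (by rw [hc', ZMod.card])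
  obtain ⟨e, he⟩ : ∃ e : ZMod (2 * h + 1) → ℕ, e = fun x => a (F.symm x).1 - a₀ := ⟨_, rfl⟩
  have hsum : ∑ x, e x = ∑ i ∈ univ.erase i₁, (a i - a₀) := by
    rw [he]
    have e1 := Equiv.sum_comp F.symm (fun i => a i.1 - a₀)
    simp only at e1 ⊢
    rw [e1]
    symm
    apply Finset.sum_subtype
    intro x
    simp
  have hle : ∑ x, e x ≤ 2 * h := by rw [hsum]; exact hE
  have hor' : 2 ≤ h ∨ ∀ x, e x ≤ 1 := by
    rcases hor with h2 | h2
    · exact Or.inl h2
    · right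
      intro x
      rw [he]
      exact h2 _ (F.symm x).2
  have hb' : a i₁ = a₀ ∨ (a i₁ = a₀ + 2 ∧ h = 1 ∧ ∀ x, e x = 0) := by
    rcases hb with h2 | ⟨h2, h5, h6⟩
    · exact Or.inl h2
    · refine Or.inr ⟨h2, h5, fun x => ?_⟩
      rw [he]
      exact h6 _ (F.symm x).2
  have key : ∃ H, Special (fun x : Option (ZMod (2 * h + 1)) =>
      x.elim (a i₁) (fun x => a₀ + e x)) a₀
      (fun x => x.elim (cE (a i₁ - a₀)) (fun x => cE (e x))) H := by
    have hi := ha i₁
    rcases Nat.even_or_odd a₀ with hae | hao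
    · refine h3 h a₀ (a i₁) e hh (by omega) hae ?_ (by rw [hsum]; exact hev) hle hor' hb'
      have : a i₁ = a₀ + (a i₁ - a₀) := by omega
      rw [this]
      exact hae.add hpar
    · refine h4 h a₀ (a i₁) e hh (by omega) hao ?_ (by rw [hsum]; exact hev) hle hor' hb'
      have : a i₁ = a₀ + (a i₁ - a₀) := by omega
      rw [this]
      exact hao.add_even hpar
  obtain ⟨H, hH⟩ := key
  have G : {G : ι ≃ Option (ZMod (2 * h + 1)) // G i₁ = none ∧
      ∀ (u : ι) (hu : u ≠ i₁), G u = some (F ⟨u, hu⟩)} := by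
    refine ⟨(Equiv.optionSubtypeNe i₁).symm.trans (Equiv.optionCongr F), ?_, ?_⟩
    · simp
    · intro u hu
      rw [Equiv.trans_apply, Equiv.optionSubtypeNe_symm_of_ne hu]
      simp
  obtain ⟨G, G1, G2⟩ := G
  obtain ⟨H', hH'⟩ := T_SPT G _ _ _ H hH
  refine ⟨H', ?_⟩
  have e1 : (fun x => (G x).elim (a i₁) (fun x => a₀ + e x)) = a := by
    funext x
    by_cases hx : x = i₁
    · subst hx
      rw [G1]; rfl
    · rw [G2 x hx, he]
      simp only [Option.elim_some, Equiv.symm_apply_apply]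
      have := ha x
      omega
  have e2 : (fun x => (G x).elim (cE (a i₁ - a₀)) (fun x => cE (e x))) =
      fun i => cE (a i - a₀) := by
    funext x
    by_cases hx : x = i₁
    · subst hx
      rw [G1]; rfl
    · rw [G2 x hx, he]
      simp only [Option.elim_some, Equiv.symm_apply_apply]
  rw [e1, e2] at hH'
  exact hH'

end TaskSP

open TaskSP

theorem T_SP (h1 : S_SPoe) (h2 : S_SPoo) (h3 : S_SPee) (h4 : S_SPeo) (hs : S_SMALL) : S_SP := by
  intro ι _ _ a a₀ ha₀ ⟨i₀, hi₀⟩ ha hcard hev hD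
  obtain ⟨hE, -⟩ := hs a a₀ (by omega) ⟨i₀, hi₀⟩ ha hD
  rcases Nat.even_or_odd' (Fintype.card ι) with ⟨k, hk | hk⟩
  · -- even
    obtain ⟨h, rfl⟩ : ∃ h, k = h + 1 := ⟨k - 1, by omega⟩
    have hc : Fintype.card ι = 2 * h + 2 := by omega
    have hh : 1 ≤ h := by omega
    have htot : ∑ i, a i = (2 * h + 2) * a₀ + ∑ i, (a i - a₀) := by
      have : ∀ i, a i = a₀ + (a i - a₀) := fun i => by have := ha i; omega
      rw [sum_congr rfl (fun i _ => this i), sum_add_distrib]
      simp [hc]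
    have hEev : Even (∑ i, (a i - a₀)) := by
      rw [htot] at hev
      exact (Nat.even_add.1 hev).1 (Even.mul_right ⟨h + 1, by ring⟩ _)
    by_cases hex : h = 1 ∧ ∃ x, 2 ≤ a x - a₀
    · obtain ⟨hh1, x, hx⟩ := hex
      have hadd := add_sum_erase univ (fun i => a i - a₀) (mem_univ x)
      have hx2 : a x - a₀ = 2 ∧ ∑ i ∈ univ.erase x, (a i - a₀) = 0 := by omega
      have hz : ∀ i, i ≠ x → a i - a₀ = 0 := by
        intro i hi
        exact (sum_eq_zero_iff.1 hx2.2) i (mem_erase.2 ⟨hi, mem_univ _⟩)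
      refine caseEven h3 h4 a a₀ h ha₀ ha hc hh x ?_ ?_ ?_ ?_ ?_
      · rw [hx2.1]; exact even_two
      · rw [hx2.2]; exact Even.zero
      · rw [hx2.2]; omega
      · right
        intro i hi
        rw [hz i hi]; omega
      · right
        exact ⟨by omega, hh1, hz⟩
    · have hadd := add_sum_erase univ (fun i => a i - a₀) (mem_univ i₀)
      rw [hi₀, Nat.sub_self, zero_add] at hadd
      refine caseEven h3 h4 a a₀ h ha₀ ha hc hh i₀ ?_ ?_ ?_ ?_ (Or.inl hi₀)
      · rw [hi₀, Nat.sub_self]; exact Even.zero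
      · rw [hadd]; exact hEev
      · rw [hadd]; omega
      · by_cases h2 : 2 ≤ h
        · exact Or.inl h2
        · right
          intro i _
          by_contra hcon
          exact hex ⟨by omega, i, by omega⟩
  · exact caseOdd h1 h2 a a₀ k ha₀ ha hk hev (by omega)

end Pool.Agent.H301R2.HR
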