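import Pool.Agent.H301R2.HR.SP

set_option autoImplicit false

/-! Special classes for parts of sizes `2` and `3` in general, from the two model families. -/

namespace Pool.Agent.H301R2.HR

open Finset

lemma SP2_card_one {α : Type} [Fintype α] (f : α → ℕ) (hf : ∀ x, f x ≤ 1) :
    Fintype.card {x // f x = 1} = ∑ x, f x := by
  classical
  rw [Fintype.card_subtype, Finset.card_filter]
  refine Finset.sum_congr rfl fun x _ => ?_
  have := hf x
  split_ifs with h
  · exact h.symm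
  · omega

lemma SP2_equiv {α β : Type} [Fintype α] [Fintype β] (f : α → ℕ) (g : β → ℕ)
    (hf : ∀ x, f x ≤ 1) (hg : ∀ x, g x ≤ 1) (hc : Fintype.card α = Fintype.card β)
    (hs : ∑ x, f x = ∑ x, g x) : ∃ E : α ≃ β, ∀ x, g (E x) = f x := by
  classical
  have h1 : Fintype.card {x // f x = 1} = Fintype.card {x // g x = 1} := by
    rw [SP2_card_one f hf, SP2_card_one g hg, hs]
  have h2 : Fintype.card {x // ¬ f x = 1} = Fintype.card {x // ¬ g x = 1} := by
    rw [Fintype.card_subtype_compl, Fintype.card_subtype_compl, h1, hc]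
  let e1 := Fintype.equivOfCardEq h1
  let e2 := Fintype.equivOfCardEq h2
  refine ⟨(Equiv.sumCompl (fun x => f x = 1)).symm.trans
    ((Equiv.sumCongr e1 e2).trans (Equiv.sumCompl (fun x => g x = 1))), fun x => ?_⟩
  show g (Equiv.sumCompl (fun x => g x = 1)
    (Sum.map e1 e2 ((Equiv.sumCompl (fun x => f x = 1)).symm x))) = f x
  by_cases h : f x = 1
  · have hx : (Equiv.sumCompl (fun x => f x = 1)).symm x = Sum.inl ⟨x, h⟩ :=
      Equiv.sumCompl_symm_apply_of_pos (p := fun x => f x = 1) h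
    rw [hx, Sum.map_inl, Equiv.sumCompl_apply_inl, h]
    exact (e1 ⟨x, h⟩).2
  · have hx : (Equiv.sumCompl (fun x => f x = 1)).symm x = Sum.inr ⟨x, h⟩ :=
      Equiv.sumCompl_symm_apply_of_neg (p := fun x => f x = 1) h
    rw [hx, Sum.map_inr, Equiv.sumCompl_apply_inr]
    have h3 := (e2 ⟨x, h⟩).2
    have h4 := hg (e2 ⟨x, h⟩ : β)
    have h5 := hf x
    omega

lemma SP2_tr {ι β : Type} [Fintype ι] [DecidableEq ι] [Fintype β] [DecidableEq β] (a : ι → ℕ)
    (ha : ∀ i, a i = 2 ∨ a i = 3) (g : β → ℕ) (hg : ∀ x, g x ≤ 1)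
    (hc : Fintype.card ι = Fintype.card β) (hs : ∑ i, a i % 2 = ∑ x, g x)
    (hH : ∃ H : β → β → β → ℕ, (∀ i u v, H i u v = H i v u) ∧ (∀ i u, H i u u = 0) ∧
      (∀ i u, ∑ v, H i u v = if u = i then g u else 2 + g u) ∧
      (∀ u v, u ≠ v → ∑ i, H i u v ≤ 4 + g u * g v)) :
    ∃ H : ι → ι → ι → ℕ, (∀ i u v, H i u v = H i v u) ∧ (∀ i u, H i u u = 0) ∧
    (∀ i u, ∑ v, H i u v = if u = i then a u % 2 else a u) ∧
    (∀ u v, u ≠ v → ∑ i, H i u v ≤ 4 + (a u % 2) * (a v % 2)) := by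
  obtain ⟨E, hE⟩ := SP2_equiv (fun i => a i % 2) g (fun i => by have := Nat.mod_lt (a i) two_pos; show a i % 2 ≤ 1; omega)
    hg hc hs
  obtain ⟨H, h1, h2, h3, h4⟩ := hH
  refine ⟨fun i u v => H (E i) (E u) (E v), fun i u v => h1 _ _ _, fun i u => h2 _ _,
    fun i u => ?_, fun u v huv => ?_⟩
  · show ∑ v, H (E i) (E u) (E v) = _
    rw [Equiv.sum_comp E (fun w => H (E i) (E u) w), h3, hE]
    simp only [EmbeddingLike.apply_eq_iff_eq]
    split_ifs with h
    · rfl
    · rcases ha u with h | h <;> rw [h]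
  · show ∑ i, H (E i) (E u) (E v) ≤ _
    rw [Equiv.sum_comp E (fun w => H w (E u) (E v)), ← hE u, ← hE v]
    exact h4 _ _ (fun h => huv (E.injective h))

lemma SP2_cast_ne {h t t' : ℕ} (ht : 1 ≤ t) (ht' : 1 ≤ t') (hth : t ≤ h) (hth' : t' ≤ h) :
    (t : ZMod (2 * h + 1)) ≠ -(t' : ZMod (2 * h + 1)) := by
  intro h1
  have h2 : ((t + t' : ℕ) : ZMod (2 * h + 1)) = 0 := by
    push_cast
    rw [h1]
    ring
  rw [ZMod.natCast_eq_zero_iff] at h2
  have := Nat.le_of_dvd (by omega) h2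
  omega

lemma SP2_cast_inj {h t t' : ℕ} (hth : t ≤ h) (hth' : t' ≤ h)
    (h1 : (t : ZMod (2 * h + 1)) = (t' : ZMod (2 * h + 1))) : t = t' := by
  rw [ZMod.natCast_eq_natCast_iff'] at h1
  rwa [Nat.mod_eq_of_lt (by omega), Nat.mod_eq_of_lt (by omega)] at h1

lemma SP2_tt_le {h s : ℕ} (hs : s ≤ h) (u : ZMod (2 * h + 1)) : tt h s u ≤ 1 := by
  unfold tt
  rw [Finset.card_le_one]
  intro t ht t' ht'
  rw [Finset.mem_filter, Finset.mem_Icc] at ht ht'
  obtain ⟨⟨a1, a2⟩, a3⟩ := ht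
  obtain ⟨⟨b1, b2⟩, b3⟩ := ht'
  have c1 := SP2_cast_ne (h := h) a1 b1 (by omega) (by omega)
  have c2 := SP2_cast_ne (h := h) b1 a1 (by omega) (by omega)
  rcases a3 with a3 | a3 <;> rcases b3 with b3 | b3
  · exact SP2_cast_inj (by omega) (by omega) (a3.symm.trans b3)
  · exact absurd (a3.symm.trans b3) c1
  · exact absurd (b3.symm.trans a3) c2
  · exact SP2_cast_inj (by omega) (by omega) (neg_injective (a3.symm.trans b3))

lemma SP2_tt_sum {h s : ℕ} (hs : s ≤ h) : ∑ u : ZMod (2 * h + 1), tt h s u = 2 * s := by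
  unfold tt
  simp only [Finset.card_filter]
  rw [Finset.sum_comm]
  have : ∀ t ∈ Finset.Icc 1 s, (∑ u : ZMod (2 * h + 1),
      if u = (t : ZMod (2 * h + 1)) ∨ u = -(t : ZMod (2 * h + 1)) then 1 else 0) = 2 := by
    intro t ht
    rw [Finset.mem_Icc] at ht
    rw [← Finset.card_filter]
    have e : (Finset.univ.filter fun u : ZMod (2 * h + 1) =>
        u = (t : ZMod (2 * h + 1)) ∨ u = -(t : ZMod (2 * h + 1))) = {(t : ZMod (2 * h + 1)), -(t : ZMod (2 * h + 1))} := by
      ext u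
      simp
    rw [e, Finset.card_pair]
    exact SP2_cast_ne ht.1 ht.1 (by omega) (by omega)
  rw [Finset.sum_congr rfl this, Finset.sum_const, Nat.card_Icc, smul_eq_mul]
  omega

theorem T_SP2 (h1 : S_SP2o) (h2 : S_SP2e) : S_SP2 := by
  intro ι _ _ a ha htwo hcard heven hexc
  -- the number of parts of size three
  have hsum : ∑ i, a i = 2 * Fintype.card ι + ∑ i, a i % 2 := by
    have : ∀ i, a i = 2 + a i % 2 := fun i => by rcases ha i with h | h <;> rw [h]
    calc ∑ i, a i = ∑ i, (2 + a i % 2) := Finset.sum_congr rfl fun i _ => this i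
      _ = _ := by
        rw [Finset.sum_add_distrib, Finset.sum_const, Finset.card_univ, smul_eq_mul, mul_comm]
  have hodd : ∑ i, a i % 2 + (univ.filter fun i => a i = 2).card = Fintype.card ι := by
    rw [Finset.card_filter, ← Finset.sum_add_distrib]
    have : ∀ i ∈ (Finset.univ : Finset ι), (a i % 2 + if a i = 2 then 1 else 0) = 1 := by
      intro i _
      rcases ha i with h | h <;> rw [h] <;> rfl
    rw [Finset.sum_congr rfl this, Finset.sum_const, Finset.card_univ, smul_eq_mul, mul_one]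
  obtain ⟨s, hs⟩ : ∃ s, ∑ i, a i % 2 = 2 * s := by
    obtain ⟨k, hk⟩ := heven
    exact ⟨k - Fintype.card ι, by omega⟩
  rcases Nat.even_or_odd (Fintype.card ι) with hp | hp
  · obtain ⟨k, hk⟩ := hp
    obtain ⟨h, rfl⟩ : ∃ h, k = h + 1 := ⟨k - 1, by omega⟩
    have hsh : s ≤ h := by omega
    have hh : 1 ≤ h := by omega
    have hexc' : 2 ≤ h ∨ s = 0 := by
      by_contra hcon
      rw [not_or] at hcon
      exact hexc ⟨by omega, by omega⟩
    refine SP2_tr a ha (fun u : Option (ZMod (2 * h + 1)) => u.elim 0 (tt h s)) ?_ ?_ ?_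
      (h2 h s hh hsh hexc')
    · intro x
      cases x with
      | none => exact Nat.zero_le _
      | some x => exact SP2_tt_le hsh x
    · rw [Fintype.card_option, ZMod.card]; omega
    · rw [Fintype.sum_option]
      show _ = 0 + ∑ u : ZMod (2 * h + 1), tt h s u
      rw [SP2_tt_sum hsh, hs, zero_add]
  · obtain ⟨h, hh'⟩ := hp
    have hsh : s ≤ h := by omega
    have hh : 1 ≤ h := by omega
    refine SP2_tr a ha (tt h s) (SP2_tt_le hsh) ?_ ?_ (h1 h s hh hsh)
    · rw [ZMod.card]; omega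
    · rw [SP2_tt_sum hsh, hs]

end Pool.Agent.H301R2.HR
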