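import Pool.Agent.H301R2.HR.SP

set_option autoImplicit false

/-! Task SP2e: special classes, parts 2 and 3, even number of parts. -/

namespace Pool.Agent.H301R2.HR

open Finset

namespace SP2eaux

theorem cast_inj (h : ℕ) (a b : ℤ) (hab : |a - b| ≤ 2 * h) (he : (a : ZMod (2 * h + 1)) = b) :
    a = b := by
  have h1 : ((2 * h + 1 : ℕ) : ℤ) ∣ a - b := by
    rw [← ZMod.intCast_zmod_eq_zero_iff_dvd]
    push_cast
    rw [he, sub_self]
  have h2 : a - b = 0 := by
    apply Int.eq_zero_of_abs_lt_dvd h1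
    push_cast
    omega
  omega

theorem natcast_inj (h t t' : ℕ) (ht : t ≤ h) (ht' : t' ≤ h) (he : (t : ZMod (2 * h + 1)) = t') :
    t = t' := by
  have := cast_inj h t t' (by rw [abs_le]; omega) (by push_cast; exact he)
  exact_mod_cast this

theorem natcast_ne_neg (h t t' : ℕ) (ht1 : 1 ≤ t) (ht : t ≤ h) (ht' : t' ≤ h) :
    (t : ZMod (2 * h + 1)) ≠ -(t' : ZMod (2 * h + 1)) := by
  intro he
  have := cast_inj h t (-t') (by rw [abs_le]; omega) (by push_cast; exact he)
  omega

theorem two_inj (h : ℕ) (x y : ZMod (2 * h + 1)) (he : 2 * x = 2 * y) : x = y := by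
  have h1 : ((h + 1 : ℕ) : ZMod (2 * h + 1)) * 2 = 1 := by
    have h2 : ((2 * h + 1 : ℕ) : ZMod (2 * h + 1)) = 0 := ZMod.natCast_self _
    push_cast at h2 ⊢
    linear_combination h2
  calc x = (((h + 1 : ℕ) : ZMod (2 * h + 1)) * 2) * x := by rw [h1, one_mul]
    _ = ((h + 1 : ℕ) : ZMod (2 * h + 1)) * (2 * x) := by ring
    _ = ((h + 1 : ℕ) : ZMod (2 * h + 1)) * (2 * y) := by rw [he]
    _ = (((h + 1 : ℕ) : ZMod (2 * h + 1)) * 2) * y := by ring
    _ = y := by rw [h1, one_mul]

/-- `0`-`1` valued indicator -/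
abbrev ib (p : Prop) [Decidable p] : ℤ := if p then 1 else 0

theorem tt_eq (h s : ℕ) (hs : s ≤ h) (u : ZMod (2 * h + 1)) :
    (tt h s u : ℤ) = ∑ t ∈ Icc 1 s, (ib (u = (t : ZMod (2 * h + 1))) +
      ib (u = -(t : ZMod (2 * h + 1)))) := by
  unfold tt
  rw [card_filter]
  push_cast
  refine sum_congr rfl fun t ht => ?_
  obtain ⟨h1, h2⟩ := mem_Icc.1 ht
  have hne := natcast_ne_neg h t t h1 (h2.trans hs) (h2.trans hs)
  unfold ib
  by_cases ha : u = (t : ZMod (2 * h + 1))
  · rw [if_pos (Or.inl ha), if_pos ha, if_neg (by rw [ha]; exact hne), add_zero]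
  · by_cases hb : u = -(t : ZMod (2 * h + 1))
    · rw [if_pos (Or.inr hb), if_neg ha, if_pos hb, zero_add]
    · rw [if_neg (by tauto), if_neg ha, if_neg hb, add_zero]

theorem tt_le (h s : ℕ) (hs : s ≤ h) (u : ZMod (2 * h + 1)) : tt h s u ≤ 1 := by
  unfold tt
  rw [card_le_one]
  intro t ht t' ht'
  rw [mem_filter, mem_Icc] at ht ht'
  obtain ⟨⟨h1, h2⟩, h3⟩ := ht
  obtain ⟨⟨h4, h5⟩, h6⟩ := ht'
  rcases h3 with h3 | h3 <;> rcases h6 with h6 | h6
  · exact natcast_inj h t t' (h2.trans hs) (h5.trans hs) (by rw [← h3, ← h6])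
  · exact absurd (h3.symm.trans h6) (natcast_ne_neg h t t' h1 (h2.trans hs) (h5.trans hs))
  · exact absurd (h6.symm.trans h3) (natcast_ne_neg h t' t h4 (h5.trans hs) (h2.trans hs))
  · exact natcast_inj h t t' (h2.trans hs) (h5.trans hs) (neg_injective (by rw [← h3, ← h6]))

theorem tt_neg (h s : ℕ) (u : ZMod (2 * h + 1)) : tt h s (-u) = tt h s u := by
  unfold tt
  congr 1
  refine filter_congr fun t _ => ?_
  constructor
  · rintro (h1 | h1)
    · right; rw [← h1, neg_neg]
    · left; exact neg_injective h1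
  · rintro (h1 | h1)
    · right; rw [h1]
    · left; rw [h1, neg_neg]

theorem tt_zero (h s : ℕ) (hs : s ≤ h) : tt h s (0 : ZMod (2 * h + 1)) = 0 := by
  unfold tt
  rw [card_eq_zero, filter_eq_empty_iff]
  intro t ht
  obtain ⟨h1, h2⟩ := mem_Icc.1 ht
  rintro (h3 | h3)
  · have := natcast_inj h t 0 (h2.trans hs) (Nat.zero_le _) (by rw [← h3]; simp)
    omega
  · have := natcast_inj h t 0 (h2.trans hs) (Nat.zero_le _)
      (by rw [Nat.cast_zero]; exact neg_eq_zero.1 h3.symm)
    omega

/-- a position of size three -/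
theorem tt_pos (h s : ℕ) (u : ZMod (2 * h + 1)) (hu : tt h s u ≠ 0) :
    ∃ a : ℤ, (a : ZMod (2 * h + 1)) = u ∧ 1 ≤ |a| ∧ |a| ≤ s := by
  unfold tt at hu
  obtain ⟨t, ht⟩ := card_pos.1 (Nat.pos_of_ne_zero hu)
  rw [mem_filter, mem_Icc] at ht
  obtain ⟨⟨h1, h2⟩, h3⟩ := ht
  rcases h3 with h3 | h3
  · exact ⟨t, by rw [h3]; push_cast; rfl, by rw [abs_of_nonneg] <;> omega,
      by rw [abs_of_nonneg] <;> omega⟩
  · exact ⟨-t, by rw [h3]; push_cast; rfl, by rw [abs_neg, abs_of_nonneg] <;> omega,
      by rw [abs_neg, abs_of_nonneg] <;> omega⟩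

/-! sums of `dl` -/

theorem dl_symm {α : Type} [DecidableEq α] (u v x y : α) : dl u v x y = dl u v y x := by
  unfold dl
  rw [add_comm]
  congr 1
  · congr 1
    exact propext and_comm
  · congr 1
    exact propext and_comm

theorem dl_self {α : Type} [DecidableEq α] (u v x : α) (h : u ≠ v) : dl u v x x = 0 := by
  unfold dl
  rw [if_neg, if_neg, add_zero]
  · rintro ⟨h1, h2⟩; exact h (h2.symm.trans h1)
  · rintro ⟨h1, h2⟩; exact h (h1.symm.trans h2)

theorem dl_nonneg {α : Type} [DecidableEq α] (u v x y : α) : 0 ≤ dl u v x y := by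
  unfold dl
  positivity

theorem dl_row {α : Type} [Fintype α] [DecidableEq α] (u v x : α) :
    ∑ y, dl u v x y = ib (x = u) + ib (x = v) := by
  unfold dl ib
  rw [sum_add_distrib]
  congr 1
  · by_cases h : x = u
    · simp [h]
    · simp [h]
  · by_cases h : x = v
    · simp [h]
    · simp [h]

/-! the classes of the positions -/

/-- the class `some i` on the positions -/
def Hp (h s : ℕ) (i x y : ZMod (2 * h + 1)) : ℤ :=
  (if x + y = 2 * i ∧ x ≠ y then (if i = 0 then 2 + (tt h s x : ℤ) else 2 - (tt h s (x - i) : ℤ))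
    else 0) +
  (if i = 0 then 0 else (tt h s x : ℤ) * ib (y = i + x) + (tt h s y : ℤ) * ib (x = i + y)) -
  dl (i - 1) (i + 1) x y

theorem Hp_symm (h s : ℕ) (i x y : ZMod (2 * h + 1)) : Hp h s i x y = Hp h s i y x := by
  unfold Hp
  rw [dl_symm (i - 1) (i + 1) x y]
  congr 1
  congr 1
  · by_cases hc : x + y = 2 * i ∧ x ≠ y
    · have hc' : y + x = 2 * i ∧ y ≠ x := ⟨(add_comm y x).trans hc.1, hc.2.symm⟩
      rw [if_pos hc, if_pos hc']
      by_cases hi : i = 0
      · rw [if_pos hi, if_pos hi]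
        have : y = -x := by
          have := hc.1
          rw [hi, mul_zero] at this
          linear_combination this
        rw [this, tt_neg]
      · rw [if_neg hi, if_neg hi]
        have : y - i = -(x - i) := by linear_combination hc.1
        rw [this, tt_neg]
    · have hc' : ¬ (y + x = 2 * i ∧ y ≠ x) := by
        rintro ⟨h1, h2⟩
        exact hc ⟨(add_comm x y).trans h1, h2.symm⟩
      rw [if_neg hc, if_neg hc']
  · split_ifs
    · rfl
    · ring

theorem two_ne (h : ℕ) (hh : 1 ≤ h) : (2 : ZMod (2 * h + 1)) ≠ 0 := by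
  intro h0
  have := cast_inj h 2 0 (by rw [abs_le]; omega) (by push_cast; exact h0)
  omega

theorem Hp_self (h s : ℕ) (hh : 1 ≤ h) (i x : ZMod (2 * h + 1)) : Hp h s i x x = 0 := by
  unfold Hp
  rw [if_neg (by tauto), dl_self]
  · split_ifs with hi
    · norm_num
    · have h1 : ¬ (x = i + x) := by
        intro h1
        apply hi
        linear_combination -h1
      simp [ib, h1]
  · intro h1
    apply two_ne h hh
    linear_combination -h1

theorem Hp_row (h s : ℕ) (hs : s ≤ h) (i x : ZMod (2 * h + 1)) :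
    ∑ y, Hp h s i x y = (if x = i then (tt h s x : ℤ) else 2 + (tt h s x : ℤ)) -
      (ib (x = i - 1) + ib (x = i + 1)) := by
  unfold Hp
  rw [sum_sub_distrib, sum_add_distrib, dl_row]
  congr 1
  have h1 : ∑ y, (if x + y = 2 * i ∧ x ≠ y then (if i = 0 then 2 + (tt h s x : ℤ) else
      2 - (tt h s (x - i) : ℤ)) else 0) =
      if x = i then 0 else (if i = 0 then 2 + (tt h s x : ℤ) else 2 - (tt h s (x - i) : ℤ)) := by
    rw [sum_eq_single (2 * i - x)]
    · by_cases hx : x = i
      · rw [if_pos hx, if_neg]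
        rintro ⟨_, h2⟩
        apply h2
        rw [hx]; ring
      · rw [if_neg hx, if_pos]
        refine ⟨by ring, fun h2 => hx (two_inj h x i ?_)⟩
        linear_combination h2
    · intro y _ hy
      rw [if_neg]
      rintro ⟨h2, _⟩
      apply hy
      linear_combination h2
    · intro h2
      exact absurd (mem_univ _) h2
  have h2 : ∑ y, (tt h s x : ℤ) * ib (y = i + x) = tt h s x := by
    simp [ib]
  have h3 : ∑ y, (tt h s y : ℤ) * ib (x = i + y) = tt h s (x - i) := by
    rw [sum_eq_single (x - i)]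
    · have : x = i + (x - i) := by ring
      simp [ib]
    · intro y _ hy
      have : ¬ (x = i + y) := fun h4 => hy (by rw [h4]; ring)
      simp [ib, this]
    · intro h4
      exact absurd (mem_univ _) h4
  rw [h1]
  by_cases hi : i = 0
  · simp only [if_pos hi, sum_const_zero, add_zero]
    by_cases hx : x = i
    · rw [if_pos hx, if_pos hx, hx, hi, tt_zero h s hs]; rfl
    · rw [if_neg hx, if_neg hx]
  · simp only [if_neg hi]
    rw [sum_add_distrib, h2, h3]
    by_cases hx : x = i
    · rw [if_pos hx, if_pos hx, hx, sub_self, tt_zero h s hs]; push_cast; ring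
    · rw [if_neg hx, if_neg hx]; ring

theorem Hp_nonneg (h s : ℕ) (hh : 1 ≤ h) (hs : s ≤ h) (i x y : ZMod (2 * h + 1)) :
    0 ≤ Hp h s i x y := by
  unfold Hp
  have h1 := tt_le h s hs (x - i)
  have h2 : 0 ≤ (if i = 0 then 0 else (tt h s x : ℤ) * ib (y = i + x) +
      (tt h s y : ℤ) * ib (x = i + y)) := by
    unfold ib
    positivity
  have h4 : (i - 1 : ZMod (2 * h + 1)) ≠ i + 1 := by
    intro h5
    apply two_ne h hh
    linear_combination -h5
  have h3 : dl (i - 1) (i + 1) x y ≤ (if x + y = 2 * i ∧ x ≠ y then 1 else 0) := by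
    unfold dl
    by_cases ha : x = i - 1 ∧ y = i + 1
    · have hb : ¬ (x = i + 1 ∧ y = i - 1) := by
        rintro ⟨h5, _⟩
        exact h4 (ha.1.symm.trans h5)
      rw [if_pos ha, if_neg hb, if_pos, add_zero]
      rw [ha.1, ha.2]
      exact ⟨by ring, h4⟩
    · by_cases hb : x = i + 1 ∧ y = i - 1
      · rw [if_neg ha, if_pos hb, if_pos, zero_add]
        rw [hb.1, hb.2]
        exact ⟨by ring, h4.symm⟩
      · rw [if_neg ha, if_neg hb, add_zero]
        split_ifs <;> norm_num
  by_cases hc : x + y = 2 * i ∧ x ≠ y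
  · rw [if_pos hc] at h3 ⊢
    split_ifs at h2 ⊢ with hi
    · omega
    · omega
  · rw [if_neg hc] at h3 ⊢
    omega

theorem ib_nonneg (p : Prop) [Decidable p] : 0 ≤ ib p := by
  unfold ib
  positivity

theorem ib_le_one (p : Prop) [Decidable p] : ib p ≤ 1 := by
  unfold ib
  split_ifs <;> norm_num

/-- at most one element of `S` satisfies `f t = u` -/
theorem sum_ib_le {α β : Type} [DecidableEq β] (S : Finset α) (f : α → β) (u : β)
    (hf : ∀ a ∈ S, ∀ b ∈ S, f a = f b → a = b) : ∑ t ∈ S, ib (f t = u) ≤ 1 := by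
  unfold ib
  rw [sum_boole]
  have : (S.filter fun t => f t = u).card ≤ 1 := by
    rw [card_le_one]
    intro a ha b hb
    rw [mem_filter] at ha hb
    exact hf a ha.1 b hb.1 (ha.2.trans hb.2.symm)
  exact_mod_cast this

theorem sum_dl_cycle (h : ℕ) (x y : ZMod (2 * h + 1)) :
    ∑ i : ZMod (2 * h + 1), dl (i - 1) (i + 1) x y = ib (y = x + 2) + ib (x = y + 2) := by
  unfold dl
  rw [sum_add_distrib]
  congr 1
  · rw [sum_eq_single (x + 1)]
    · unfold ib
      by_cases hc : y = x + 2
      · rw [if_pos hc, if_pos]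
        exact ⟨by ring, by rw [hc]; ring⟩
      · rw [if_neg hc, if_neg]
        rintro ⟨_, h2⟩
        apply hc
        rw [h2]; ring
    · intro i _ hi
      rw [if_neg]
      rintro ⟨h1, _⟩
      apply hi
      rw [h1]; ring
    · intro h1; exact absurd (mem_univ _) h1
  · rw [sum_eq_single (y + 1)]
    · unfold ib
      by_cases hc : x = y + 2
      · rw [if_pos hc, if_pos]
        exact ⟨by rw [hc]; ring, by ring⟩
      · rw [if_neg hc, if_neg]
        rintro ⟨h2, _⟩
        apply hc
        rw [h2]; ring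
    · intro i _ hi
      rw [if_neg]
      rintro ⟨_, h1⟩
      apply hi
      rw [h1]; ring
    · intro h1; exact absurd (mem_univ _) h1

theorem Hp_tot (h s : ℕ) (x y : ZMod (2 * h + 1)) :
    ∑ i, Hp h s i x y ≤ 2 + ib (x + y = 0) * (tt h s x : ℤ) + tt h s x + tt h s y -
      (ib (y = x + 2) + ib (x = y + 2)) := by
  have hpt : ∀ i, Hp h s i x y ≤ 2 * ib (2 * i = x + y) +
      (if i = 0 then ib (x + y = 0) * (tt h s x : ℤ) else 0) +
      (tt h s x : ℤ) * ib (i = y - x) + (tt h s y : ℤ) * ib (i = x - y) -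
      dl (i - 1) (i + 1) x y := by
    intro i
    unfold Hp
    have e1 : ib (y = i + x) = ib (i = y - x) := by
      unfold ib
      congr 1
      exact propext ⟨fun h1 => by rw [h1]; ring, fun h1 => by rw [h1]; ring⟩
    have e2 : ib (x = i + y) = ib (i = x - y) := by
      unfold ib
      congr 1
      exact propext ⟨fun h1 => by rw [h1]; ring, fun h1 => by rw [h1]; ring⟩
    rw [e1, e2]
    have n1 := ib_nonneg (i = y - x)
    have n2 := ib_nonneg (i = x - y)
    have n3 : 0 ≤ (tt h s x : ℤ) * ib (i = y - x) := by positivity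
    have n4 : 0 ≤ (tt h s y : ℤ) * ib (i = x - y) := by positivity
    have n5 : (0 : ℤ) ≤ tt h s (x - i) := by positivity
    have n6 := ib_nonneg (2 * i = x + y)
    by_cases hc : x + y = 2 * i ∧ x ≠ y
    · rw [if_pos hc]
      have e3 : ib (2 * i = x + y) = 1 := if_pos hc.1.symm
      rw [e3]
      by_cases hi : i = 0
      · have e4 : ib (x + y = 0) = 1 := by
          unfold ib
          rw [if_pos]
          rw [hc.1, hi, mul_zero]
        rw [if_pos hi, if_pos hi, if_pos hi, e4]
        linarith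
      · rw [if_neg hi, if_neg hi, if_neg hi]
        linarith
    · rw [if_neg hc]
      by_cases hi : i = 0
      · rw [if_pos hi, if_pos hi]
        have n7 := ib_nonneg (x + y = 0)
        have n8 : 0 ≤ ib (x + y = 0) * (tt h s x : ℤ) := by positivity
        linarith
      · rw [if_neg hi, if_neg hi]
        linarith
  refine (sum_le_sum fun i _ => hpt i).trans ?_
  rw [sum_sub_distrib, sum_add_distrib, sum_add_distrib, sum_add_distrib, sum_dl_cycle]
  have h1 : ∑ i : ZMod (2 * h + 1), 2 * ib (2 * i = x + y) ≤ 2 := by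
    rw [← mul_sum]
    have := sum_ib_le (univ : Finset (ZMod (2 * h + 1))) (fun i => 2 * i) (x + y)
      (fun a _ b _ hab => two_inj h a b hab)
    linarith
  have h2 : ∑ i : ZMod (2 * h + 1), (if i = 0 then ib (x + y = 0) * (tt h s x : ℤ) else 0) =
      ib (x + y = 0) * (tt h s x : ℤ) := by
    rw [sum_ite_eq' univ (0 : ZMod (2 * h + 1)), if_pos (mem_univ _)]
  have h3 : ∑ i : ZMod (2 * h + 1), (tt h s x : ℤ) * ib (i = y - x) = tt h s x := by
    simp [ib]
  have h4 : ∑ i : ZMod (2 * h + 1), (tt h s y : ℤ) * ib (i = x - y) = tt h s y := by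
    simp [ib]
  rw [h2, h3, h4]
  linarith

/-! the class `none` on the positions -/

/-- the edge used by the pair `± t` -/
def cc (h t : ℕ) : ZMod (2 * h + 1) := if t < h then (t : ZMod (2 * h + 1)) else 0

/-- the vertex to which `t` is attached -/
def g1 (h t : ℕ) : ZMod (2 * h + 1) := if t < h then (t : ZMod (2 * h + 1)) + 1 else -1

/-- the vertex to which `-t` is attached -/
def g2 (h t : ℕ) : ZMod (2 * h + 1) := if t < h then (t : ZMod (2 * h + 1)) - 1 else 1

/-- the class `none` on the positions -/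
def Hn (h s : ℕ) (x y : ZMod (2 * h + 1)) : ℤ :=
  ib (y = x + 2) + ib (x = y + 2) + ∑ t ∈ Icc 1 s, (dl (-(t : ZMod (2 * h + 1))) (g2 h t) x y +
    dl (t : ZMod (2 * h + 1)) (g1 h t) x y - dl (cc h t - 1) (cc h t + 1) x y)

theorem Hn_symm (h s : ℕ) (x y : ZMod (2 * h + 1)) : Hn h s x y = Hn h s y x := by
  unfold Hn
  congr 1
  · ring
  · refine sum_congr rfl fun t _ => ?_
    rw [dl_symm (-(t : ZMod (2 * h + 1))), dl_symm (t : ZMod (2 * h + 1)), dl_symm (cc h t - 1)]

theorem neg_ne_g2 (h s : ℕ) (hs : s ≤ h) (t : ℕ) (ht : t ∈ Icc 1 s) :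
    -(t : ZMod (2 * h + 1)) ≠ g2 h t := by
  obtain ⟨h1, h2⟩ := mem_Icc.1 ht
  intro he
  unfold g2 at he
  split_ifs at he with hc
  · have := cast_inj h (-t) (t - 1) (by rw [abs_le]; omega) (by push_cast; exact he)
    omega
  · have := cast_inj h (-t) 1 (by rw [abs_le]; omega) (by push_cast; exact he)
    omega

theorem ne_g1 (h s : ℕ) (hs : s ≤ h) (t : ℕ) (ht : t ∈ Icc 1 s) :
    (t : ZMod (2 * h + 1)) ≠ g1 h t := by
  obtain ⟨h1, h2⟩ := mem_Icc.1 ht
  intro he
  unfold g1 at he
  split_ifs at he with hc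
  · have := cast_inj h t (t + 1) (by rw [abs_le]; omega) (by push_cast; exact he)
    omega
  · have := cast_inj h t (-1) (by rw [abs_le]; omega) (by push_cast; exact he)
    omega

theorem Hn_self (h s : ℕ) (hh : 1 ≤ h) (hs : s ≤ h) (x : ZMod (2 * h + 1)) : Hn h s x x = 0 := by
  unfold Hn
  have h1 : ¬ (x = x + 2) := by
    intro h1
    apply two_ne h hh
    linear_combination -h1
  have h2 : ∑ t ∈ Icc 1 s, (dl (-(t : ZMod (2 * h + 1))) (g2 h t) x x +
    dl (t : ZMod (2 * h + 1)) (g1 h t) x x - dl (cc h t - 1) (cc h t + 1) x x) = 0 := by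
    refine sum_eq_zero fun t ht => ?_
    rw [dl_self _ _ _ (neg_ne_g2 h s hs t ht), dl_self _ _ _ (ne_g1 h s hs t ht), dl_self]
    · ring
    · intro h3
      apply two_ne h hh
      linear_combination -h3
  rw [h2]
  simp [ib, h1]

theorem Hn_row (h s : ℕ) (hs : s ≤ h) (x : ZMod (2 * h + 1)) :
    ∑ y, Hn h s x y = 2 + (tt h s x : ℤ) := by
  unfold Hn
  rw [sum_add_distrib, sum_add_distrib]
  have h1 : ∑ y : ZMod (2 * h + 1), ib (y = x + 2) = 1 := by simp [ib]
  have h2 : ∑ y : ZMod (2 * h + 1), ib (x = y + 2) = 1 := by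
    rw [sum_eq_single (x - 2)]
    · simp [ib]
    · intro y _ hy
      have : ¬ (x = y + 2) := fun h3 => hy (by rw [h3]; ring)
      simp [ib, this]
    · intro h3; exact absurd (mem_univ _) h3
  have h3 : ∑ y, ∑ t ∈ Icc 1 s, (dl (-(t : ZMod (2 * h + 1))) (g2 h t) x y +
    dl (t : ZMod (2 * h + 1)) (g1 h t) x y - dl (cc h t - 1) (cc h t + 1) x y) = tt h s x := by
    rw [sum_comm, tt_eq h s hs]
    refine sum_congr rfl fun t _ => ?_
    rw [sum_sub_distrib, sum_add_distrib, dl_row, dl_row, dl_row]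
    have e : ib (x = g2 h t) + ib (x = g1 h t) = ib (x = cc h t - 1) + ib (x = cc h t + 1) := by
      unfold g2 g1 cc
      split_ifs with hc
      · rfl
      · rw [zero_sub, zero_add, add_comm]
    linarith
  rw [h1, h2, h3]
  ring

theorem cc_inj (h s : ℕ) (hs : s ≤ h) : ∀ a ∈ Icc 1 s, ∀ b ∈ Icc 1 s, cc h a = cc h b → a = b := by
  intro a ha b hb hab
  obtain ⟨h1, h2⟩ := mem_Icc.1 ha
  obtain ⟨h3, h4⟩ := mem_Icc.1 hb
  unfold cc at hab
  split_ifs at hab with hc hd hd
  · exact natcast_inj h a b (by omega) (by omega) hab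
  · have := natcast_inj h a 0 (by omega) (by omega) (by rw [hab]; simp)
    omega
  · have := natcast_inj h b 0 (by omega) (by omega) (by rw [← hab]; simp)
    omega
  · omega

theorem Hn_nonneg (h s : ℕ) (hs : s ≤ h) (x y : ZMod (2 * h + 1)) :
    0 ≤ Hn h s x y := by
  unfold Hn
  have h1 : ∑ t ∈ Icc 1 s, dl (cc h t - 1) (cc h t + 1) x y ≤ ib (y = x + 2) + ib (x = y + 2) := by
    have hpt : ∀ t ∈ Icc 1 s, dl (cc h t - 1) (cc h t + 1) x y ≤
        ib (y = x + 2) * ib (cc h t = x + 1) + ib (x = y + 2) * ib (cc h t = y + 1) := by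
      intro t _
      unfold dl
      apply add_le_add
      · by_cases hc : x = cc h t - 1 ∧ y = cc h t + 1
        · have e1 : ib (y = x + 2) = 1 := if_pos (by rw [hc.1, hc.2]; ring)
          have e2 : ib (cc h t = x + 1) = 1 := if_pos (by rw [hc.1]; ring)
          rw [if_pos hc, e1, e2]; norm_num
        · rw [if_neg hc]
          exact mul_nonneg (ib_nonneg _) (ib_nonneg _)
      · by_cases hc : x = cc h t + 1 ∧ y = cc h t - 1
        · have e1 : ib (x = y + 2) = 1 := if_pos (by rw [hc.1, hc.2]; ring)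
          have e2 : ib (cc h t = y + 1) = 1 := if_pos (by rw [hc.2]; ring)
          rw [if_pos hc, e1, e2]; norm_num
        · rw [if_neg hc]
          exact mul_nonneg (ib_nonneg _) (ib_nonneg _)
    refine (sum_le_sum hpt).trans ?_
    rw [sum_add_distrib, ← mul_sum, ← mul_sum]
    have k1 := sum_ib_le (Icc 1 s) (cc h) (x + 1) (cc_inj h s hs)
    have k2 := sum_ib_le (Icc 1 s) (cc h) (y + 1) (cc_inj h s hs)
    have k3 := ib_nonneg (y = x + 2)
    have k4 := ib_nonneg (x = y + 2)
    nlinarith
  rw [sum_sub_distrib]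
  have h2 : 0 ≤ ∑ t ∈ Icc 1 s, (dl (-(t : ZMod (2 * h + 1))) (g2 h t) x y +
    dl (t : ZMod (2 * h + 1)) (g1 h t) x y) :=
    sum_nonneg fun t _ => add_nonneg (dl_nonneg _ _ _ _) (dl_nonneg _ _ _ _)
  linarith

/-- the attachments from `x` to `y` -/
def Na (h s : ℕ) (x y : ZMod (2 * h + 1)) : ℤ :=
  ∑ t ∈ Icc 1 s, (ib (x = -(t : ZMod (2 * h + 1)) ∧ y = g2 h t) +
    ib (x = (t : ZMod (2 * h + 1)) ∧ y = g1 h t))

theorem Hn_le (h s : ℕ) (x y : ZMod (2 * h + 1)) :
    Hn h s x y ≤ ib (y = x + 2) + ib (x = y + 2) + (Na h s x y + Na h s y x) := by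
  unfold Hn Na
  rw [← sum_add_distrib]
  apply add_le_add_right
  refine sum_le_sum fun t _ => ?_
  have h1 := dl_nonneg (cc h t - 1) (cc h t + 1) x y
  have e1 : dl (-(t : ZMod (2 * h + 1))) (g2 h t) x y =
      ib (x = -(t : ZMod (2 * h + 1)) ∧ y = g2 h t) + ib (y = -(t : ZMod (2 * h + 1)) ∧ x = g2 h t) := by
    unfold dl ib
    congr 2
    exact propext and_comm
  have e2 : dl (t : ZMod (2 * h + 1)) (g1 h t) x y =
      ib (x = (t : ZMod (2 * h + 1)) ∧ y = g1 h t) + ib (y = (t : ZMod (2 * h + 1)) ∧ x = g1 h t) := by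
    unfold dl ib
    congr 2
    exact propext and_comm
  rw [e1, e2]
  linarith

theorem ib_and_le (p q : Prop) [Decidable p] [Decidable q] : ib (p ∧ q) ≤ ib p := by
  unfold ib
  by_cases hp : p
  · rw [if_pos hp]; split_ifs <;> norm_num
  · rw [if_neg (by tauto), if_neg hp]

theorem Na_le (h s : ℕ) (hs : s ≤ h) (x y : ZMod (2 * h + 1)) : Na h s x y ≤ tt h s x := by
  rw [tt_eq h s hs]
  unfold Na
  refine sum_le_sum fun t _ => ?_
  have h1 := ib_and_le (x = -(t : ZMod (2 * h + 1))) (y = g2 h t)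
  have h2 := ib_and_le (x = (t : ZMod (2 * h + 1))) (y = g1 h t)
  linarith

/-- the target on integers -/
def gz (h : ℕ) (a : ℤ) : ℤ :=
  if 0 < a then (if a < h then a + 1 else -1) else (if -a < h then -a - 1 else 1)

theorem Na_zero (h s : ℕ) (hs : s ≤ h) (a : ℤ) (ha1 : 1 ≤ |a|) (ha2 : |a| ≤ s)
    (y : ZMod (2 * h + 1)) (hy : y ≠ (gz h a : ZMod (2 * h + 1))) :
    Na h s (a : ZMod (2 * h + 1)) y = 0 := by
  unfold Na
  refine sum_eq_zero fun t ht => ?_
  obtain ⟨h1, h2⟩ := mem_Icc.1 ht
  have ha3 := abs_le.1 ha2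
  have k1 : ¬ ((a : ZMod (2 * h + 1)) = -(t : ZMod (2 * h + 1)) ∧ y = g2 h t) := by
    rintro ⟨h3, h4⟩
    have h5 : a = -t := cast_inj h a (-t) (by rw [abs_le]; omega) (by push_cast; exact h3)
    apply hy
    have e : gz h (-(t : ℤ)) = if t < h then (t : ℤ) - 1 else 1 := by
      unfold gz; split_ifs <;> omega
    rw [h4, h5, e]
    unfold g2
    by_cases hc : t < h
    · rw [if_pos hc, if_pos hc]; push_cast; ring
    · rw [if_neg hc, if_neg hc]; push_cast; rfl
  have k2 : ¬ ((a : ZMod (2 * h + 1)) = (t : ZMod (2 * h + 1)) ∧ y = g1 h t) := by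
    rintro ⟨h3, h4⟩
    have h5 : a = t := cast_inj h a t (by rw [abs_le]; omega) (by push_cast; exact h3)
    apply hy
    have e : gz h (t : ℤ) = if t < h then (t : ℤ) + 1 else -1 := by
      unfold gz; split_ifs <;> omega
    rw [h4, h5, e]
    unfold g1
    by_cases hc : t < h
    · rw [if_pos hc, if_pos hc]; push_cast; ring
    · rw [if_neg hc, if_neg hc]; push_cast; rfl
  unfold ib
  rw [if_neg k1, if_neg k2, add_zero]

theorem key (h s : ℕ) (hs : s ≤ h) (hhs : 2 ≤ h ∨ s = 0) (x y : ZMod (2 * h + 1)) :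
    ib (x + y = 0) * (tt h s x : ℤ) + tt h s x + tt h s y + (Na h s x y + Na h s y x) ≤
      2 + tt h s x * tt h s y := by
  have hx := tt_le h s hs x
  have hy := tt_le h s hs y
  have n1 := Na_le h s hs x y
  have n2 := Na_le h s hs y x
  have i1 := ib_le_one (x + y = 0)
  have i0 := ib_nonneg (x + y = 0)
  rcases Nat.eq_zero_or_pos (tt h s x) with hx0 | hx1
  · rw [hx0] at n1 ⊢
    have : (tt h s y : ℤ) ≤ 1 := by exact_mod_cast hy
    push_cast at n1 ⊢
    linarith
  · have hx1' : tt h s x = 1 := by omega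
    rcases Nat.eq_zero_or_pos (tt h s y) with hy0 | hy1
    · have hxy : ib (x + y = 0) = 0 := by
        unfold ib
        rw [if_neg]
        intro h0
        have : y = -x := by linear_combination h0
        rw [this, tt_neg, hx1'] at hy0
        omega
      rw [hy0] at n2 ⊢
      rw [hx1'] at n1 ⊢
      rw [hxy]
      push_cast at n1 n2 ⊢
      linarith
    · have hy1' : tt h s y = 1 := by omega
      rw [hx1'] at n1 ⊢
      rw [hy1'] at n2 ⊢
      obtain ⟨a, ha, ha1, ha2⟩ := tt_pos h s x (by omega)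
      obtain ⟨b, hb, hb1, hb2⟩ := tt_pos h s y (by omega)
      have hs1 : 1 ≤ s := by
        have : (1 : ℤ) ≤ s := ha1.trans ha2
        exact_mod_cast this
      have hh2 : 2 ≤ h := by omega
      have ha3 := abs_le.1 ha2
      have hb3 := abs_le.1 hb2
      have ha0 : a ≠ 0 := by rintro rfl; simp at ha1
      have hb0 : b ≠ 0 := by rintro rfl; simp at hb1
      have m1 : ib (x + y = 0) ≤ ib (a + b = 0) := by
        unfold ib
        by_cases hc : a + b = 0
        · rw [if_pos hc]; split_ifs <;> norm_num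
        · rw [if_neg hc, if_neg]
          intro h0
          apply hc
          have := cast_inj h (a + b) 0 (by rw [abs_le]; omega) (by push_cast; rw [ha, hb]; exact h0)
          exact this
      have m2 : Na h s x y ≤ ib (b = gz h a) := by
        unfold ib
        by_cases hc : b = gz h a
        · rw [if_pos hc]; exact_mod_cast n1
        · rw [if_neg hc, ← ha]
          refine (Na_zero h s hs a ha1 ha2 y ?_).le
          intro h0
          apply hc
          refine cast_inj h b (gz h a) ?_ (by rw [hb]; exact h0)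
          unfold gz
          rw [abs_le]
          split_ifs <;> omega
      have m3 : Na h s y x ≤ ib (a = gz h b) := by
        unfold ib
        by_cases hc : a = gz h b
        · rw [if_pos hc]; exact_mod_cast n2
        · rw [if_neg hc, ← hb]
          refine (Na_zero h s hs b hb1 hb2 x ?_).le
          intro h0
          apply hc
          refine cast_inj h a (gz h b) ?_ (by rw [ha]; exact h0)
          unfold gz
          rw [abs_le]
          split_ifs <;> omega
      have m4 : ib (a + b = 0) + ib (b = gz h a) + ib (a = gz h b) ≤ 1 := by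
        have k1 : ¬ (a + b = 0 ∧ b = gz h a) := by
          rintro ⟨q1, q2⟩
          unfold gz at q2
          split_ifs at q2 <;> omega
        have k2 : ¬ (a + b = 0 ∧ a = gz h b) := by
          rintro ⟨q1, q2⟩
          unfold gz at q2
          split_ifs at q2 <;> omega
        have k3 : ¬ (b = gz h a ∧ a = gz h b) := by
          rintro ⟨q1, q2⟩
          unfold gz at q1 q2
          split_ifs at q1 q2 <;> omega
        unfold ib
        split_ifs <;> first | (exfalso; tauto) | norm_num
      push_cast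
      linarith

/-- the integer valued classes -/
def Hs (h s : ℕ) : Option (ZMod (2 * h + 1)) → Option (ZMod (2 * h + 1)) →
    Option (ZMod (2 * h + 1)) → ℤ
  | some i, some x, some y => Hp h s i x y
  | some i, none, some x => ib (x = i - 1) + ib (x = i + 1)
  | some i, some x, none => ib (x = i - 1) + ib (x = i + 1)
  | some _, none, none => 0
  | none, some x, some y => Hn h s x y
  | none, none, _ => 0
  | none, some _, none => 0

theorem Hs_nonneg (h s : ℕ) (hh : 1 ≤ h) (hs : s ≤ h) (i u v : Option (ZMod (2 * h + 1))) :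
    0 ≤ Hs h s i u v := by
  rcases i with _ | i <;> rcases u with _ | u <;> rcases v with _ | v
  · exact le_rfl
  · exact le_rfl
  · exact le_rfl
  · exact Hn_nonneg h s hs u v
  · exact le_rfl
  · exact add_nonneg (ib_nonneg _) (ib_nonneg _)
  · exact add_nonneg (ib_nonneg _) (ib_nonneg _)
  · exact Hp_nonneg h s hh hs i u v

end SP2eaux

open SP2eaux

theorem T_SP2e : S_SP2e := by
  intro h s hh hs hhs
  have hnn := Hs_nonneg h s hh hs
  have hcast : ∀ i u v, (((Hs h s i u v).toNat : ℕ) : ℤ) = Hs h s i u v :=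
    fun i u v => Int.toNat_of_nonneg (hnn i u v)
  refine ⟨fun i u v => (Hs h s i u v).toNat, ?_, ?_, ?_, ?_⟩
  · intro i u v
    show (Hs h s i u v).toNat = (Hs h s i v u).toNat
    congr 1
    rcases i with _ | i <;> rcases u with _ | u <;> rcases v with _ | v
    · rfl
    · rfl
    · rfl
    · exact Hn_symm h s u v
    · rfl
    · rfl
    · rfl
    · exact Hp_symm h s i u v
  · intro i u
    show (Hs h s i u u).toNat = 0
    have : Hs h s i u u = 0 := by
      rcases i with _ | i <;> rcases u with _ | u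
      · rfl
      · exact Hn_self h s hh hs u
      · rfl
      · exact Hp_self h s hh i u
    rw [this]; rfl
  · intro i u
    have hgoal : (((∑ v, (Hs h s i u v).toNat : ℕ)) : ℤ) =
        ((if u = i then u.elim 0 (tt h s) else 2 + u.elim 0 (tt h s) : ℕ) : ℤ) := by
      push_cast
      rw [sum_congr rfl fun v _ => hcast i u v]
      rw [Fintype.sum_option]
      rcases i with _ | i <;> rcases u with _ | u
      · show (0 : ℤ) + ∑ x : ZMod (2 * h + 1), (0 : ℤ) = _
        simp
      · show (0 : ℤ) + ∑ y : ZMod (2 * h + 1), Hn h s u y = _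
        rw [Hn_row h s hs]
        simp
      · show (0 : ℤ) + ∑ x : ZMod (2 * h + 1), (ib (x = i - 1) + ib (x = i + 1)) = _
        rw [sum_add_distrib]
        simp [ib]
      · show (ib (u = i - 1) + ib (u = i + 1)) + ∑ y : ZMod (2 * h + 1), Hp h s i u y = _
        rw [Hp_row h s hs]
        by_cases hc : u = i
        · simp [hc]
        · have hc' : ¬ (some u = some i) := fun h0 => hc (Option.some.inj h0)
          simp [hc]
    exact_mod_cast hgoal
  · intro u v huv
    have hgoal : (((∑ i, (Hs h s i u v).toNat : ℕ)) : ℤ) ≤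
        ((4 + u.elim 0 (tt h s) * v.elim 0 (tt h s) : ℕ) : ℤ) := by
      push_cast
      rw [sum_congr rfl fun i _ => hcast i u v]
      rw [Fintype.sum_option]
      rcases u with _ | u <;> rcases v with _ | v
      · exact absurd rfl huv
      · show (0 : ℤ) + ∑ i : ZMod (2 * h + 1), (ib (v = i - 1) + ib (v = i + 1)) ≤ _
        rw [sum_add_distrib]
        have k1 : ∑ i : ZMod (2 * h + 1), ib (v = i - 1) ≤ 1 := by
          have := sum_ib_le (univ : Finset (ZMod (2 * h + 1))) (fun i => i - 1) v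
            (fun a _ b _ hab => sub_left_injective hab)
          refine le_trans (le_of_eq (sum_congr rfl fun i _ => ?_)) this
          unfold ib
          congr 1
          exact propext eq_comm
        have k2 : ∑ i : ZMod (2 * h + 1), ib (v = i + 1) ≤ 1 := by
          have := sum_ib_le (univ : Finset (ZMod (2 * h + 1))) (fun i => i + 1) v
            (fun a _ b _ hab => add_left_injective 1 hab)
          refine le_trans (le_of_eq (sum_congr rfl fun i _ => ?_)) this
          unfold ib
          congr 1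
          exact propext eq_comm
        simp only [Option.elim]
        push_cast
        linarith
      · show (0 : ℤ) + ∑ i : ZMod (2 * h + 1), (ib (u = i - 1) + ib (u = i + 1)) ≤ _
        rw [sum_add_distrib]
        have k1 : ∑ i : ZMod (2 * h + 1), ib (u = i - 1) ≤ 1 := by
          have := sum_ib_le (univ : Finset (ZMod (2 * h + 1))) (fun i => i - 1) u
            (fun a _ b _ hab => sub_left_injective hab)
          refine le_trans (le_of_eq (sum_congr rfl fun i _ => ?_)) this
          unfold ib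
          congr 1
          exact propext eq_comm
        have k2 : ∑ i : ZMod (2 * h + 1), ib (u = i + 1) ≤ 1 := by
          have := sum_ib_le (univ : Finset (ZMod (2 * h + 1))) (fun i => i + 1) u
            (fun a _ b _ hab => add_left_injective 1 hab)
          refine le_trans (le_of_eq (sum_congr rfl fun i _ => ?_)) this
          unfold ib
          congr 1
          exact propext eq_comm
        simp only [Option.elim]
        push_cast
        linarith
      · show Hn h s u v + ∑ i : ZMod (2 * h + 1), Hp h s i u v ≤ _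
        have k1 := Hp_tot h s u v
        have k2 := Hn_le h s u v
        have k3 := key h s hs hhs u v
        simp only [Option.elim]
        linarith
    exact_mod_cast hgoal

end Pool.Agent.H301R2.HR
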