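import Pool.Agent.H301R2.HR.SP

set_option autoImplicit false

/-! Task SP2o: special classes for parts of sizes two and three, odd number of parts. -/

namespace Pool.Agent.H301R2.HR

open Finset

namespace TaskSP2o

variable {h : ℕ}

theorem cast_inj {t t' : ℕ} (ht : t ≤ h) (ht' : t' ≤ h)
    (e : (t : ZMod (2 * h + 1)) = (t' : ZMod (2 * h + 1))) : t = t' := by
  rw [ZMod.natCast_eq_natCast_iff'] at e
  rwa [Nat.mod_eq_of_lt (by omega), Nat.mod_eq_of_lt (by omega)] at e

theorem cast_ne {t t' : ℕ} (h1 : 1 ≤ t) (ht : t ≤ h) (ht' : t' ≤ h) :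
    (t : ZMod (2 * h + 1)) ≠ -(t' : ZMod (2 * h + 1)) := by
  intro e
  have e1 : ((t + t' : ℕ) : ZMod (2 * h + 1)) = 0 := by
    push_cast
    rw [e]
    ring
  rw [ZMod.natCast_eq_zero_iff] at e1
  have := Nat.le_of_dvd (by omega) e1
  omega

theorem two_inj {i j : ZMod (2 * h + 1)} (e : 2 * i = 2 * j) : i = j := by
  have h2 : ((h : ZMod (2 * h + 1)) + 1) * 2 = 1 := by
    have h0 : ((2 * h + 1 : ℕ) : ZMod (2 * h + 1)) = 0 := ZMod.natCast_self _
    push_cast at h0
    linear_combination h0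
  calc i = (((h : ZMod (2 * h + 1)) + 1) * 2) * i := by rw [h2, one_mul]
    _ = ((h : ZMod (2 * h + 1)) + 1) * (2 * i) := by ring
    _ = ((h : ZMod (2 * h + 1)) + 1) * (2 * j) := by rw [e]
    _ = (((h : ZMod (2 * h + 1)) + 1) * 2) * j := by ring
    _ = j := by rw [h2, one_mul]

section dlsec
variable {α : Type} [DecidableEq α]

theorem dl_symm (u v x y : α) : dl u v x y = dl u v y x := by
  unfold dl
  rw [add_comm]
  congr 1 <;> (congr 1; apply propext; exact and_comm)

theorem dl_diag {u v : α} (huv : u ≠ v) (x : α) : dl u v x x = 0 := by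
  unfold dl
  rw [if_neg, if_neg, add_zero]
  · rintro ⟨h1, h2⟩
    exact huv (h2.symm.trans h1)
  · rintro ⟨h1, h2⟩
    exact huv (h1.symm.trans h2)

theorem dl_nonneg (u v x y : α) : 0 ≤ dl u v x y := by
  unfold dl
  split_ifs <;> norm_num

theorem dl_row [Fintype α] (u v x : α) :
    ∑ y, dl u v x y = (if x = u then 1 else 0) + (if x = v then 1 else 0) := by
  unfold dl
  rw [Finset.sum_add_distrib]
  congr 1
  · by_cases hx : x = u
    · simp [hx]
    · simp [hx]
  · by_cases hx : x = v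
    · simp [hx]
    · simp [hx]

end dlsec

/-- the indicator of `± t` -/
def ind (t : ℕ) (x : ZMod (2 * h + 1)) : ℤ :=
  (if x = (t : ZMod (2 * h + 1)) then 1 else 0) + (if x = -(t : ZMod (2 * h + 1)) then 1 else 0)

theorem ind_nonneg (t : ℕ) (x : ZMod (2 * h + 1)) : 0 ≤ ind t x := by
  unfold ind
  split_ifs <;> norm_num

theorem tt_eq {s : ℕ} (hs : s ≤ h) (x : ZMod (2 * h + 1)) :
    (tt h s x : ℤ) = ∑ t ∈ Icc 1 s, ind t x := by
  unfold tt
  rw [Finset.card_filter]
  push_cast
  apply Finset.sum_congr rfl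
  intro t ht
  rw [mem_Icc] at ht
  unfold ind
  by_cases h1 : x = (t : ZMod (2 * h + 1))
  · have h2 : x ≠ -(t : ZMod (2 * h + 1)) := by
      intro e
      exact cast_ne ht.1 (by omega) (by omega) (h1.symm.trans e)
    rw [if_pos (Or.inl h1), if_pos h1, if_neg h2, add_zero]
  · by_cases h2 : x = -(t : ZMod (2 * h + 1))
    · rw [if_pos (Or.inr h2), if_neg h1, if_pos h2, zero_add]
    · rw [if_neg (by tauto), if_neg h1, if_neg h2, add_zero]

theorem tt_le {s : ℕ} (hs : s ≤ h) (x : ZMod (2 * h + 1)) : tt h s x ≤ 1 := by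
  unfold tt
  rw [Finset.card_le_one]
  intro t ht t' ht'
  rw [mem_filter, mem_Icc] at ht ht'
  obtain ⟨⟨h1, h2⟩, h3⟩ := ht
  obtain ⟨⟨h4, h5⟩, h6⟩ := ht'
  rcases h3 with h3 | h3 <;> rcases h6 with h6 | h6
  · exact cast_inj (by omega) (by omega) (h3.symm.trans h6)
  · exact absurd (h3.symm.trans h6) (cast_ne h1 (by omega) (by omega))
  · exact absurd (h6.symm.trans h3) (cast_ne h4 (by omega) (by omega))
  · have := h3.symm.trans h6
    rw [neg_inj] at this
    exact cast_inj (by omega) (by omega) this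

/-- the extra term for `t` -/
def ex (t : ℕ) (i x y : ZMod (2 * h + 1)) : ℤ :=
  if i = 0 then dl (-(t : ZMod (2 * h + 1))) t x y else
    dl (-(t : ZMod (2 * h + 1))) (i - t) x y + dl (t : ZMod (2 * h + 1)) (i + t) x y -
      dl (i - (t : ZMod (2 * h + 1))) (i + t) x y

/-- the classes -/
def HI (s : ℕ) (i x y : ZMod (2 * h + 1)) : ℤ :=
  (if x + y = 2 * i ∧ x ≠ y then 2 else 0) + ∑ t ∈ Icc 1 s, ex t i x y

theorem ex_symm (t : ℕ) (i x y : ZMod (2 * h + 1)) : ex t i x y = ex t i y x := by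
  unfold ex
  rw [dl_symm (-(t : ZMod (2 * h + 1))) t x y, dl_symm (-(t : ZMod (2 * h + 1))) (i - t) x y,
    dl_symm (t : ZMod (2 * h + 1)) (i + t) x y, dl_symm (i - (t : ZMod (2 * h + 1))) (i + t) x y]

theorem HI_symm (s : ℕ) (i x y : ZMod (2 * h + 1)) : HI s i x y = HI s i y x := by
  unfold HI
  congr 1
  · rw [add_comm x y]
    congr 1
    apply propext
    constructor
    · rintro ⟨h1, h2⟩
      exact ⟨h1, h2.symm⟩
    · rintro ⟨h1, h2⟩
      exact ⟨h1, h2.symm⟩
  · exact Finset.sum_congr rfl (fun t _ => ex_symm t i x y)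

theorem ex_diag {t : ℕ} (ht : 1 ≤ t) (ht' : t ≤ h) (i x : ZMod (2 * h + 1)) :
    ex t i x x = 0 := by
  have h1 : -(t : ZMod (2 * h + 1)) ≠ t := fun e => cast_ne ht ht' ht' e.symm
  unfold ex
  split_ifs with hi
  · exact dl_diag h1 x
  · rw [dl_diag, dl_diag, dl_diag]
    · norm_num
    · intro e
      apply h1
      linear_combination e
    · intro e
      apply hi
      linear_combination -e
    · intro e
      apply hi
      linear_combination -e

theorem HI_diag {s : ℕ} (hs : s ≤ h) (i x : ZMod (2 * h + 1)) : HI s i x x = 0 := by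
  unfold HI
  rw [if_neg (fun e => e.2 rfl), zero_add]
  apply Finset.sum_eq_zero
  intro t ht
  rw [mem_Icc] at ht
  exact ex_diag ht.1 (by omega) i x

theorem ex_row (t : ℕ) (i x : ZMod (2 * h + 1)) : ∑ y, ex t i x y = ind t x := by
  unfold ex ind
  by_cases hi : i = 0
  · simp only [if_pos hi]
    rw [dl_row, add_comm]
  · simp only [if_neg hi]
    rw [Finset.sum_sub_distrib, Finset.sum_add_distrib, dl_row, dl_row, dl_row]
    ring

theorem base_row (i x : ZMod (2 * h + 1)) :
    ∑ y, (if x + y = 2 * i ∧ x ≠ y then (2 : ℤ) else 0) = if x = i then 0 else 2 := by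
  by_cases hx : x = i
  · rw [if_pos hx]
    apply Finset.sum_eq_zero
    intro y _
    rw [if_neg]
    rintro ⟨h1, h2⟩
    apply h2
    rw [hx] at h1 ⊢
    linear_combination -h1
  · rw [if_neg hx]
    rw [Finset.sum_eq_single (2 * i - x)]
    · rw [if_pos]
      refine ⟨by ring, ?_⟩
      intro e
      apply hx
      apply two_inj
      linear_combination e
    · intro y _ hy
      rw [if_neg]
      rintro ⟨h1, _⟩
      apply hy
      linear_combination h1
    · intro hn
      exact absurd (mem_univ _) hn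

theorem HI_row {s : ℕ} (hs : s ≤ h) (i x : ZMod (2 * h + 1)) :
    ∑ y, HI s i x y = (if x = i then 0 else 2) + (tt h s x : ℤ) := by
  unfold HI
  rw [Finset.sum_add_distrib, base_row, Finset.sum_comm, tt_eq hs]
  congr 1
  exact Finset.sum_congr rfl (fun t _ => ex_row t i x)

theorem refl_le (t : ℕ) (i x y : ZMod (2 * h + 1)) :
    dl (i - (t : ZMod (2 * h + 1))) (i + t) x y ≤ ind t (x - i) := by
  unfold dl ind
  have h1 : (if x = i - (t : ZMod (2 * h + 1)) ∧ y = i + t then (1 : ℤ) else 0) ≤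
      (if x - i = -(t : ZMod (2 * h + 1)) then 1 else 0) := by
    split_ifs with h1 h2 h2
    · exact le_rfl
    · exfalso
      apply h2
      rw [h1.1]
      ring
    · norm_num
    · exact le_rfl
  have h2 : (if x = i + (t : ZMod (2 * h + 1)) ∧ y = i - t then (1 : ℤ) else 0) ≤
      (if x - i = (t : ZMod (2 * h + 1)) then 1 else 0) := by
    split_ifs with h1 h2 h2
    · exact le_rfl
    · exfalso
      apply h2
      rw [h1.1]
      ring
    · norm_num
    · exact le_rfl
  linarith

theorem HI_nonneg {s : ℕ} (hs : s ≤ h) (i x y : ZMod (2 * h + 1)) : 0 ≤ HI s i x y := by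
  by_cases hi : i = 0
  · unfold HI
    apply add_nonneg
    · split_ifs <;> norm_num
    · apply Finset.sum_nonneg
      intro t _
      unfold ex
      rw [if_pos hi]
      exact dl_nonneg _ _ _ _
  · by_cases hb : x + y = 2 * i ∧ x ≠ y
    · have h1 : ∑ t ∈ Icc 1 s, - ind t (x - i) ≤ ∑ t ∈ Icc 1 s, ex t i x y := by
        apply Finset.sum_le_sum
        intro t _
        unfold ex
        rw [if_neg hi]
        have a1 := dl_nonneg (-(t : ZMod (2 * h + 1))) (i - t) x y
        have a2 := dl_nonneg (t : ZMod (2 * h + 1)) (i + t) x y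
        have a3 := refl_le t i x y
        linarith
      rw [Finset.sum_neg_distrib, ← tt_eq hs] at h1
      have h2 := tt_le hs (x - i)
      have h3 : (tt h s (x - i) : ℤ) ≤ 1 := by exact_mod_cast h2
      unfold HI
      rw [if_pos hb]
      linarith
    · unfold HI
      rw [if_neg hb, zero_add]
      apply Finset.sum_nonneg
      intro t ht
      rw [mem_Icc] at ht
      have a1 := dl_nonneg (-(t : ZMod (2 * h + 1))) (i - t) x y
      have a2 := dl_nonneg (t : ZMod (2 * h + 1)) (i + t) x y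
      have a3 : dl (i - (t : ZMod (2 * h + 1))) (i + t) x y = 0 := by
        unfold dl
        rw [if_neg, if_neg, add_zero]
        · rintro ⟨h1, h2⟩
          apply hb
          refine ⟨by rw [h1, h2]; ring, ?_⟩
          intro e
          apply cast_ne (h := h) ht.1 (show t ≤ h by omega) (show t ≤ h by omega)
          linear_combination -h1 + h2 + e
        · rintro ⟨h1, h2⟩
          apply hb
          refine ⟨by rw [h1, h2]; ring, ?_⟩
          intro e
          apply cast_ne (h := h) ht.1 (show t ≤ h by omega) (show t ≤ h by omega)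
          linear_combination h1 - h2 - e
      unfold ex
      rw [if_neg hi]
      linarith

theorem sum_shift (c x : ZMod (2 * h + 1)) (q : Prop) [Decidable q] :
    ∑ i : ZMod (2 * h + 1), (if q ∧ x = i + c then (1 : ℤ) else 0) = if q then 1 else 0 := by
  by_cases hq : q
  · rw [if_pos hq, Finset.sum_eq_single (x - c)]
    · rw [if_pos ⟨hq, by ring⟩]
    · intro i _ hi
      rw [if_neg]
      rintro ⟨_, h2⟩
      apply hi
      rw [h2]
      ring
    · intro hn
      exact absurd (mem_univ _) hn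
  · rw [if_neg hq]
    apply Finset.sum_eq_zero
    intro i _
    rw [if_neg (fun e => hq e.1)]

theorem sum_dl (u c x y : ZMod (2 * h + 1)) :
    ∑ i : ZMod (2 * h + 1), dl u (i + c) x y = (if x = u then 1 else 0) + (if y = u then 1 else 0) := by
  unfold dl
  rw [Finset.sum_add_distrib, sum_shift c y (x = u)]
  congr 1
  rw [← sum_shift c x (y = u)]
  apply Finset.sum_congr rfl
  intro i _
  congr 1
  apply propext
  exact and_comm

theorem ex_tot {t : ℕ} (x y : ZMod (2 * h + 1)) :
    ∑ i : ZMod (2 * h + 1), ex t i x y ≤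
      ind t x + ind t y + dl (-(t : ZMod (2 * h + 1))) t x y := by
  have h1 : ∀ i : ZMod (2 * h + 1), ex t i x y ≤
      (if i = 0 then dl (-(t : ZMod (2 * h + 1))) t x y else 0) +
        (dl (-(t : ZMod (2 * h + 1))) (i + (-(t : ZMod (2 * h + 1)))) x y +
          dl (t : ZMod (2 * h + 1)) (i + t) x y) := by
    intro i
    have a1 := dl_nonneg (-(t : ZMod (2 * h + 1))) (i + (-(t : ZMod (2 * h + 1)))) x y
    have a2 := dl_nonneg (t : ZMod (2 * h + 1)) (i + t) x y
    have a3 := dl_nonneg (i - (t : ZMod (2 * h + 1))) (i + t) x y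
    unfold ex
    rw [sub_eq_add_neg i (t : ZMod (2 * h + 1))] at *
    split_ifs with hi
    · linarith
    · linarith
  refine (Finset.sum_le_sum (fun i _ => h1 i)).trans (le_of_eq ?_)
  rw [Finset.sum_add_distrib, Finset.sum_add_distrib, sum_dl, sum_dl, Finset.sum_ite_eq',
    if_pos (mem_univ _)]
  unfold ind
  ring

theorem dl_le_ind (t : ℕ) (x y : ZMod (2 * h + 1)) :
    dl (-(t : ZMod (2 * h + 1))) t x y ≤ ind t x * ind t y := by
  have key : ∀ (p q : Prop) [Decidable p] [Decidable q], (if p ∧ q then (1 : ℤ) else 0) =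
      (if p then 1 else 0) * (if q then 1 else 0) := by
    intro p q _ _
    by_cases hp : p
    · by_cases hq : q
      · rw [if_pos ⟨hp, hq⟩, if_pos hp, if_pos hq, one_mul]
      · rw [if_neg (fun e => hq e.2), if_pos hp, if_neg hq, mul_zero]
    · rw [if_neg (fun e => hp e.1), if_neg hp, zero_mul]
  have nn : ∀ (p : Prop) [Decidable p], 0 ≤ (if p then (1 : ℤ) else 0) := by
    intro p _
    by_cases hp : p
    · rw [if_pos hp]; norm_num
    · rw [if_neg hp]
  unfold dl ind
  rw [key, key]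
  have a1 := mul_nonneg (nn (x = (t : ZMod (2 * h + 1)))) (nn (y = (t : ZMod (2 * h + 1))))
  have a2 := mul_nonneg (nn (x = -(t : ZMod (2 * h + 1)))) (nn (y = -(t : ZMod (2 * h + 1))))
  linarith

theorem sum_mul_le {s : ℕ} (f g : ℕ → ℤ) (hf : ∀ t, 0 ≤ f t) (hg : ∀ t, 0 ≤ g t) :
    ∑ t ∈ Icc 1 s, f t * g t ≤ (∑ t ∈ Icc 1 s, f t) * ∑ t ∈ Icc 1 s, g t := by
  rw [Finset.sum_mul]
  apply Finset.sum_le_sum
  intro t ht
  apply mul_le_mul_of_nonneg_left _ (hf t)
  exact Finset.single_le_sum (f := g) (fun t _ => hg t) ht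

theorem base_tot (x y : ZMod (2 * h + 1)) :
    ∑ i : ZMod (2 * h + 1), (if x + y = 2 * i ∧ x ≠ y then (2 : ℤ) else 0) ≤ 2 := by
  by_cases hx : ∃ i : ZMod (2 * h + 1), x + y = 2 * i ∧ x ≠ y
  · obtain ⟨i, hi, hxy⟩ := hx
    rw [Finset.sum_eq_single i]
    · rw [if_pos ⟨hi, hxy⟩]
    · intro j _ hj
      rw [if_neg]
      rintro ⟨h1, _⟩
      exact hj (two_inj (h1.symm.trans hi))
    · intro hn
      exact absurd (mem_univ _) hn
  · push Not at hx
    rw [Finset.sum_eq_zero]
    · norm_num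
    · intro i _
      rw [if_neg]
      rintro ⟨h1, h2⟩
      exact h2 (hx i h1)

theorem HI_tot {s : ℕ} (hs : s ≤ h) (x y : ZMod (2 * h + 1)) :
    ∑ i : ZMod (2 * h + 1), HI s i x y ≤ 4 + (tt h s x : ℤ) * tt h s y := by
  unfold HI
  rw [Finset.sum_add_distrib, Finset.sum_comm]
  have h1 := base_tot x y
  have h2 : ∑ t ∈ Icc 1 s, ∑ i : ZMod (2 * h + 1), ex t i x y ≤
      ∑ t ∈ Icc 1 s, (ind t x + ind t y + ind t x * ind t y) := by
    apply Finset.sum_le_sum
    intro t _
    have a1 := ex_tot (t := t) x y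
    have a2 := dl_le_ind t x y
    linarith
  rw [Finset.sum_add_distrib, Finset.sum_add_distrib, ← tt_eq hs, ← tt_eq hs] at h2
  have h3 := sum_mul_le (s := s) (fun t => ind t x) (fun t => ind t y) (fun t => ind_nonneg t x)
    (fun t => ind_nonneg t y)
  rw [← tt_eq hs, ← tt_eq hs] at h3
  have h4 : (tt h s x : ℤ) ≤ 1 := by exact_mod_cast tt_le hs x
  have h5 : (tt h s y : ℤ) ≤ 1 := by exact_mod_cast tt_le hs y
  linarith

end TaskSP2o

open TaskSP2o

theorem T_SP2o : S_SP2o := by
  intro h s _ hs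
  refine ⟨fun i x y => (HI s i x y).toNat, ?_, ?_, ?_, ?_⟩
  · intro i u v
    simp only
    rw [HI_symm]
  · intro i u
    simp only
    rw [HI_diag hs]
    rfl
  · intro i u
    have h1 := HI_row hs i u
    have h2 : ((∑ v, (HI s i u v).toNat : ℕ) : ℤ) = ∑ v, HI s i u v := by
      push_cast
      exact Finset.sum_congr rfl (fun v _ => Int.toNat_of_nonneg (HI_nonneg hs i u v))
    simp only
    rw [h1] at h2
    split_ifs at h2 ⊢ <;> omega
  · intro u v _
    have h1 := HI_tot hs u v
    have h2 : ((∑ i, (HI s i u v).toNat : ℕ) : ℤ) = ∑ i, HI s i u v := by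
      push_cast
      exact Finset.sum_congr rfl (fun i _ => Int.toNat_of_nonneg (HI_nonneg hs i u v))
    simp only
    rw [← h2] at h1
    exact_mod_cast h1

end Pool.Agent.H301R2.HR
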