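import Pool.Agent.H301R2.HR.Defs

set_option autoImplicit false

namespace Pool.Agent.H301R2.HR

open Finset

namespace SPLITh

variable {N K : Type} [DecidableEq N]

/-- the edges removed from the node `u₀` -/
def zz (y : K → Option N → ℕ) (u₀ : N) (c : K) (u v : N) : ℕ :=
  if u = u₀ then y c (some v) else if v = u₀ then y c (some u) else 0

/-- new edge numbers -/
def xx (x : K → N → N → ℕ) (y : K → Option N → ℕ) (u₀ : N) (c : K) : Option N → Option N → ℕ
  | none, none => 0
  | none, some v => y c (some v)
  | some u, none => y c (some u)
  | some u, some v => x c u v - zz y u₀ c u v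

/-- new own colours -/
def ss (s : K → N → ℕ) (y : K → Option N → ℕ) (u₀ : N) (c : K) : Option N → ℕ
  | none => y c none
  | some u => s c u - if u = u₀ then y c none else 0

end SPLITh

open SPLITh

theorem T_SPLIT (h : S_SEL) : S_SPLIT := by
  intro N K _ _ _ w A _ x s κ u₀ hκ hA hw hO
  obtain ⟨y, hy1, hy2, hy3, hy4⟩ := h (K := K) (B := Option N)
    (fun c b => b.elim (s c u₀) (fun v => x c u₀ v + if v = u₀ then x c u₀ u₀ else 0)) (w u₀)
    (fun b => b.elim κ (fun v => if A u₀ v then (if v = u₀ then w u₀ - 1 else w v) else 0))
    (by omega)
    (by
      intro c
      simp only [Fintype.sum_option, Option.elim_none, Option.elim_some]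
      rw [Finset.sum_add_distrib, Finset.sum_ite_eq', if_pos (Finset.mem_univ _), ← add_assoc]
      exact hO.deg c u₀)
    (by
      intro b
      rcases b with _ | v
      · simp only [Option.elim_none]
        rw [hO.own, mul_comm]
      · simp only [Option.elim_some]
        by_cases hv : v = u₀
        · subst hv
          simp only [if_true]
          rw [Finset.sum_add_distrib, ← two_mul, hO.loop]
          by_cases hAv : A v v
          · rw [if_pos hAv, if_pos hAv]
          · rw [if_neg hAv, if_neg hAv, mul_zero]
        · simp only [if_neg hv, add_zero]
          rw [hO.tot u₀ v (Ne.symm hv)]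
          by_cases hAv : A u₀ v
          · rw [if_pos hAv, if_pos hAv]
          · rw [if_neg hAv, if_neg hAv, mul_zero])
  simp only [Fintype.sum_option, Option.elim_none, Option.elim_some] at hy2 hy3
  have hys : ∀ c, y c none ≤ s c u₀ := fun c => by simpa using hy1 c none
  have hyx : ∀ c v, y c (some v) ≤ x c u₀ v := by
    intro c v
    have h1 : y c (some v) ≤ x c u₀ v + if v = u₀ then x c u₀ u₀ else 0 := by
      simpa using hy1 c (some v)
    have h2 : y c (some v) ≤ ∑ v, y c (some v) :=
      Finset.single_le_sum (f := fun v => y c (some v)) (fun _ _ => Nat.zero_le _)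
        (Finset.mem_univ v)
    have h3 := hy2 c
    by_cases hv : v = u₀
    · subst hv
      rw [if_pos rfl] at h1
      omega
    · rw [if_neg hv] at h1
      exact h1
  have hsumn : ∑ c, y c none = κ := by simpa using hy4 none
  have hsums : ∀ v, ∑ c, y c (some v) =
      if A u₀ v then (if v = u₀ then w u₀ - 1 else w v) else 0 := fun v => by
    simpa using hy4 (some v)
  have hzx : ∀ c u v, zz y u₀ c u v ≤ x c u v := by
    intro c u v
    unfold zz
    split_ifs with h1 h2
    · rw [h1]; exact hyx c v
    · rw [h2, hO.symm]; exact hyx c u
    · exact Nat.zero_le _
  have hzsym : ∀ c u v, zz y u₀ c u v = zz y u₀ c v u := by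
    intro c u v
    unfold zz
    split_ifs with h1 h2 h2
    · rw [h1, h2]
    · rfl
    · rfl
    · rfl
  have hxsym : ∀ c a b, xx x y u₀ c a b = xx x y u₀ c b a := by
    intro c a b
    rcases a with _ | u <;> rcases b with _ | v
    · rfl
    · rfl
    · rfl
    · simp only [xx]
      rw [hO.symm, hzsym]
  have hsub : ∀ u v, ∑ c, (x c u v - zz y u₀ c u v) = ∑ c, x c u v - ∑ c, zz y u₀ c u v := by
    intro u v
    exact Finset.sum_tsub_distrib _ (fun c _ => hzx c u v)
  have hsz : ∀ u v, ∑ c, zz y u₀ c u v = if u = u₀ then ∑ c, y c (some v) else
      if v = u₀ then ∑ c, y c (some u) else 0 := by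
    intro u v
    unfold zz
    split_ifs <;> simp
  have hsle : ∀ c a, ss s y u₀ c a ≤ s c (a.getD u₀) := by
    intro c a
    rcases a with _ | u
    · exact hys c
    · exact Nat.sub_le _ _
  refine ⟨xx x y u₀, ss s y u₀, ⟨hxsym, ?_, ?_, ?_, ?_, ?_, ?_⟩, ?_⟩
  · -- tot
    have key1 : ∀ v, ∑ c, xx x y u₀ c none (some v) =
        if A u₀ v then 1 * (if v = u₀ then w v - 1 else w v) else 0 := by
      intro v
      simp only [xx]
      rw [hsums, one_mul]
      by_cases hv : v = u₀
      · rw [hv]
      · rw [if_neg hv]
        simp only [if_neg hv]
    have key2 : ∀ u v, u ≠ v → v ≠ u₀ → ∑ c, xx x y u₀ c (some u) (some v) =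
        if A u v then (if u = u₀ then w u - 1 else w u) * (if v = u₀ then w v - 1 else w v)
        else 0 := by
      intro u v huv hv
      simp only [xx]
      rw [hsub, hsz, hO.tot u v huv, if_neg hv, if_neg hv, hsums]
      by_cases hu : u = u₀
      · subst hu
        simp only [if_true, if_neg hv]
        by_cases hAu : A u v
        · simp only [if_pos hAu]
          rw [Nat.sub_mul, one_mul]
        · simp only [if_neg hAu]
      · simp only [if_neg hu, Nat.sub_zero]
    intro a b hab
    rcases a with _ | u <;> rcases b with _ | v
    · exact absurd rfl hab
    · simp only [Option.getD_none, Option.getD_some, Option.elim_none, Option.elim_some]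
      exact key1 v
    · simp only [Option.getD_none, Option.getD_some, Option.elim_none, Option.elim_some]
      rw [Finset.sum_congr rfl (fun c _ => hxsym c (some u) none), key1 u]
      by_cases hAu : A u₀ u
      · rw [if_pos hAu, if_pos (hA _ _ hAu), mul_comm]
      · rw [if_neg hAu, if_neg (fun h' => hAu (hA _ _ h'))]
    · have huv : u ≠ v := fun h' => hab (by rw [h'])
      simp only [Option.getD_some, Option.elim_some]
      by_cases hv : v = u₀
      · have hu : u ≠ u₀ := fun h' => huv (by rw [h', hv])
        rw [Finset.sum_congr rfl (fun c _ => hxsym c (some u) (some v)), key2 v u huv.symm hu]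
        by_cases hAu : A v u
        · rw [if_pos hAu, if_pos (hA _ _ hAu), mul_comm]
        · rw [if_neg hAu, if_neg (fun h' => hAu (hA _ _ h'))]
      · exact key2 u v huv hv
  · -- loop
    intro a
    rcases a with _ | u
    · simp [xx]
    · simp only [Option.getD_some, Option.elim_some, xx]
      rw [hsub, hsz, Nat.mul_sub, hO.loop]
      by_cases hu : u = u₀
      · subst hu
        simp only [if_true]
        rw [hsums]
        by_cases hAu : A u u
        · simp only [if_pos hAu, if_true]
          obtain ⟨W, hW⟩ : ∃ W, w u = W + 2 := ⟨w u - 2, by omega⟩
          rw [hW]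
          have e1 : W + 2 - 1 = W + 1 := by omega
          have e2 : W + 1 - 1 = W := by omega
          rw [e1, e2]
          have e3 : (W + 2) * (W + 1) = (W + 1) * W + 2 * (W + 1) := by ring
          omega
        · simp only [if_neg hAu]
      · simp only [if_neg hu]
        omega
  · -- own
    intro a
    rcases a with _ | u
    · simp only [ss, Option.elim_none]
      rw [hsumn, mul_one]
    · simp only [ss, Option.elim_some]
      rw [Finset.sum_tsub_distrib _ (fun c _ => by
        split_ifs with h1
        · rw [h1]; exact hys c
        · exact Nat.zero_le _), hO.own]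
      by_cases hu : u = u₀
      · simp only [if_pos hu]
        rw [hsumn, Nat.mul_sub, mul_one]
      · simp only [if_neg hu]
        simp
  · -- deg
    intro c a
    rcases a with _ | u
    · simp only [Fintype.sum_option, xx, ss, Option.elim_none]
      have := hy2 c
      omega
    · simp only [Fintype.sum_option, xx, ss, Option.elim_some]
      have h1 : ∑ v, (x c u v - zz y u₀ c u v) = ∑ v, x c u v - ∑ v, zz y u₀ c u v :=
        Finset.sum_tsub_distrib _ (fun v _ => hzx c u v)
      have h2 : ∑ v, zz y u₀ c u v ≤ ∑ v, x c u v := Finset.sum_le_sum fun v _ => hzx c u v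
      have h3 := hO.deg c u
      have h4 := hzx c u u
      rw [h1]
      by_cases hu : u = u₀
      · subst hu
        have h5 : ∑ v, zz y u c u v = ∑ v, y c (some v) :=
          Finset.sum_congr rfl fun v _ => by unfold zz; rw [if_pos rfl]
        have h6 : zz y u c u u = y c (some u) := by unfold zz; rw [if_pos rfl]
        have h7 := hys c
        have h8 := hy2 c
        have h9 : ∑ v, (x c u v + if v = u then x c u u else 0) = ∑ v, x c u v + x c u u := by
          rw [Finset.sum_add_distrib, Finset.sum_ite_eq', if_pos (Finset.mem_univ _)]
        have h10 : s c u + (∑ v, x c u v + x c u u) = w u →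
            y c none + ∑ v, y c (some v) = 1 := by
          intro h'
          apply hy3 c
          rw [h9]
          exact h'
        have h11 : y c (some u) ≤ x c u u := hyx c u
        rw [h5] at h2 ⊢
        rw [h6]
        simp only [if_true]
        by_cases h12 : s c u + (∑ v, x c u v + x c u u) = w u
        · have h13 := h10 h12
          omega
        · omega
      · have h5 : ∑ v, zz y u₀ c u v = y c (some u) := by
          have : ∀ v ∈ Finset.univ, zz y u₀ c u v = if v = u₀ then y c (some u) else 0 := by
            intro v _
            unfold zz
            rw [if_neg hu]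
          rw [Finset.sum_congr rfl this, Finset.sum_ite_eq', if_pos (Finset.mem_univ _)]
        have h6 : zz y u₀ c u u = 0 := by
          unfold zz
          rw [if_neg hu, if_neg hu]
        rw [h5] at h2 ⊢
        rw [h6]
        simp only [if_neg hu]
        omega
  · -- excl
    intro c a b hab hAab
    rcases a with _ | u <;> rcases b with _ | v
    · exact absurd rfl hab
    · simp only [Option.getD_none, Option.getD_some] at hAab
      by_cases hv : v = u₀
      · subst hv
        have h1 := hO.exclL c v hAab
        have h2 := hys c
        simp only [ss, if_true]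
        omega
      · rcases hO.excl c u₀ v (Ne.symm hv) hAab with h1 | h1
        · left
          have := hsle c none
          simp only [Option.getD_none] at this
          omega
        · right
          have := hsle c (some v)
          simp only [Option.getD_some] at this
          omega
    · simp only [Option.getD_none, Option.getD_some] at hAab
      by_cases hv : u = u₀
      · subst hv
        have h1 := hO.exclL c u hAab
        have h2 := hys c
        simp only [ss, if_true]
        omega
      · rcases hO.excl c u u₀ hv hAab with h1 | h1
        · left
          have := hsle c (some u)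
          simp only [Option.getD_some] at this
          omega
        · right
          have := hsle c none
          simp only [Option.getD_none] at this
          omega
    · simp only [Option.getD_some] at hAab
      have huv : u ≠ v := fun h' => hab (by rw [h'])
      rcases hO.excl c u v huv hAab with h1 | h1
      · left
        have := hsle c (some u)
        simp only [Option.getD_some] at this
        omega
      · right
        have := hsle c (some v)
        simp only [Option.getD_some] at this
        omega
  · -- exclL
    intro c a hAa
    exact (hsle c a).trans (hO.exclL c _ hAa)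
  · -- nonvanishing
    intro c a b hx0
    rcases a with _ | u <;> rcases b with _ | v
    · rfl
    · simp only [Option.getD_none, Option.getD_some] at hx0
      have := hyx c v
      simp only [xx]
      omega
    · simp only [Option.getD_none, Option.getD_some] at hx0
      have := hyx c u
      rw [hO.symm] at hx0
      simp only [xx]
      omega
    · simp only [Option.getD_some] at hx0
      simp only [xx]
      omega

end Pool.Agent.H301R2.HR
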