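import Pool.Agent.H301R2.HR.SP

/-! Task SPee (helper485): special classes, `a` even, even number of parts. -/

set_option autoImplicit false

namespace Pool.Agent.H301R2.HR

open Finset

namespace SPee

theorem cnt {α : Type} [DecidableEq α] {N : ℕ} (P Q : Fin N → α) (i x : α) :
    (univ.filter fun π => (decide (¬ (P π = Q π ∧ P π = i))) = true ∧ P π = x).card +
    (univ.filter fun π => (decide (¬ (P π = Q π ∧ P π = i))) = true ∧ Q π = x).card =
    if x = i then nM P Q x else 2 * nS P Q x + nM P Q x := by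
  unfold nM nS
  simp only [card_filter, mul_sum, ← sum_add_distrib, decide_eq_true_eq]
  split_ifs with h
  · subst h
    apply sum_congr rfl
    intro π _
    by_cases h1 : P π = x
    · by_cases h2 : Q π = x
      · simp [h1, h2]
      · have h3 : x ≠ Q π := fun hh => h2 hh.symm
        simp [h1, h2, h3]
    · by_cases h2 : Q π = x
      · simp [h1, h2]
      · simp [h1, h2]
  · apply sum_congr rfl
    intro π _
    by_cases h1 : P π = x
    · by_cases h2 : Q π = x
      · simp [h1, h2, h]
      · have h3 : x ≠ Q π := fun hh => h2 hh.symm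
        simp [h1, h2, h3]
    · by_cases h2 : Q π = x
      · simp [h1, h2]
      · simp [h1, h2]

theorem two_ne {h : ℕ} (hh : 1 ≤ h) : (2 : ZMod (2 * h + 1)) ≠ 0 := by
  intro h2
  have h3 : ((2 : ℕ) : ZMod (2 * h + 1)) = 0 := by exact_mod_cast h2
  rw [ZMod.natCast_eq_zero_iff] at h3
  have := Nat.le_of_dvd (by norm_num) h3
  omega

theorem ne_pm {h : ℕ} (hh : 1 ≤ h) (i : ZMod (2 * h + 1)) : i - 1 ≠ i + 1 := by
  intro h1
  apply two_ne hh
  linear_combination -h1

theorem dl_le {h : ℕ} (hh : 1 ≤ h) (i x y : ZMod (2 * h + 1)) :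
    dl (i - 1) (i + 1) x y ≤ if x + y = 2 * i ∧ x ≠ y then 1 else 0 := by
  unfold dl
  have h0 := ne_pm hh i
  by_cases h1 : x = i - 1 ∧ y = i + 1
  · obtain ⟨h1, h2⟩ := h1
    subst h1 h2
    rw [if_pos ⟨rfl, rfl⟩, if_neg (fun h => h0 h.1), if_pos ⟨by ring, h0⟩]
    norm_num
  · rw [if_neg h1]
    by_cases h2 : x = i + 1 ∧ y = i - 1
    · obtain ⟨h2, h3⟩ := h2
      subst h2 h3
      rw [if_pos ⟨rfl, rfl⟩, if_pos ⟨by ring, h0.symm⟩]
      norm_num
    · rw [if_neg h2]
      split_ifs <;> norm_num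

theorem dl_nn {α : Type} [DecidableEq α] (u v x y : α) : 0 ≤ dl u v x y := by
  unfold dl
  split_ifs <;> norm_num

theorem dl_symm {α : Type} [DecidableEq α] (u v x y : α) : dl u v x y = dl u v y x := by
  unfold dl
  rw [add_comm, if_congr (and_comm (a := x = v) (b := y = u)) rfl rfl,
    if_congr (and_comm (a := x = u) (b := y = v)) rfl rfl]

theorem dl_diag {h : ℕ} (hh : 1 ≤ h) (i x : ZMod (2 * h + 1)) : dl (i - 1) (i + 1) x x = 0 := by
  have h1 := dl_le hh i x x
  rw [if_neg (fun h => h.2 rfl)] at h1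
  exact le_antisymm h1 (dl_nn _ _ _ _)

theorem sum_dl {α : Type} [Fintype α] [DecidableEq α] (u v x : α) :
    ∑ y, dl u v x y = (if x = u then 1 else 0) + (if x = v then 1 else 0) := by
  unfold dl
  rw [sum_add_distrib]
  congr 1
  · by_cases h : x = u
    · simp [h]
    · simp [h]
  · by_cases h : x = v
    · simp [h]
    · simp [h]

theorem sum_dl_i {h : ℕ} (x y : ZMod (2 * h + 1)) :
    (if x = y + 2 ∨ y = x + 2 then (1 : ℤ) else 0) ≤ ∑ i, dl (i - 1) (i + 1) x y := by
  split_ifs with h1
  · rcases h1 with h1 | h1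
    · have h2 := single_le_sum (f := fun i => dl (i - 1) (i + 1) x y)
        (fun i _ => dl_nn _ _ _ _) (mem_univ (y + 1))
      refine le_trans ?_ h2
      show 1 ≤ dl (y + 1 - 1) (y + 1 + 1) x y
      unfold dl
      rw [if_pos (⟨by rw [h1]; ring, by ring⟩ : x = y + 1 + 1 ∧ y = y + 1 - 1)]
      split_ifs <;> norm_num
    · have h2 := single_le_sum (f := fun i => dl (i - 1) (i + 1) x y)
        (fun i _ => dl_nn _ _ _ _) (mem_univ (x + 1))
      refine le_trans ?_ h2
      show 1 ≤ dl (x + 1 - 1) (x + 1 + 1) x y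
      unfold dl
      rw [if_pos (⟨by ring, by rw [h1]; ring⟩ : x = x + 1 - 1 ∧ y = x + 1 + 1)]
      split_ifs <;> norm_num
  · exact sum_nonneg fun i _ => dl_nn _ _ _ _

theorem sum_e {h : ℕ} (i : ZMod (2 * h + 1)) :
    ∑ x, ((if x = i - 1 then 1 else 0) + (if x = i + 1 then 1 else 0)) = 2 := by
  rw [sum_add_distrib]
  simp

theorem sum_e' {h : ℕ} (x : ZMod (2 * h + 1)) :
    ∑ i, ((if x = i - 1 then 1 else 0) + (if x = i + 1 then 1 else 0)) = 2 := by
  rw [sum_add_distrib]
  have h1 : ∀ i : ZMod (2 * h + 1), (x = i - 1) ↔ (i = x + 1) := by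
    intro i
    constructor
    · intro h; rw [h]; ring
    · intro h; rw [h]; ring
  have h2 : ∀ i : ZMod (2 * h + 1), (x = i + 1) ↔ (i = x - 1) := by
    intro i
    constructor
    · intro h; rw [h]; ring
    · intro h; rw [h]; ring
  simp only [h1, h2]
  simp

/-- the activity -/
def ac {α : Type} [DecidableEq α] {N : ℕ} (P Q : Fin N → α) (i : α) (π : Fin N) : Bool :=
  decide (¬ (P π = Q π ∧ P π = i))

/-- the classes -/
def HH {h N : ℕ} (a b : ℕ) (P Q : Fin N → ZMod (2 * h + 1))
    (G : ZMod (2 * h + 1) → ZMod (2 * h + 1) → ℕ) :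
    Option (ZMod (2 * h + 1)) → Option (ZMod (2 * h + 1)) → Option (ZMod (2 * h + 1)) → ℕ
  | some i, some x, some y =>
    (Fc a P Q (ac P Q) i x y - ((b / 2 : ℕ) : ℤ) * dl (i - 1) (i + 1) x y).toNat
  | some i, none, some x => (b / 2) * ((if x = i - 1 then 1 else 0) + (if x = i + 1 then 1 else 0))
  | some i, some x, none => (b / 2) * ((if x = i - 1 then 1 else 0) + (if x = i + 1 then 1 else 0))
  | some _, none, none => 0
  | none, some x, some y => G x y
  | none, none, _ => 0
  | none, some _, none => 0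

theorem nn {h N : ℕ} (h4 : S_A4) (a b : ℕ) (P Q : Fin N → ZMod (2 * h + 1)) (hh : 1 ≤ h)
    (ha : 4 ≤ a) (hN : N ≤ h) (hP : ∀ π, P π = Q π → 2 ≤ h)
    (hb : b = a ∨ (b = a + 2 ∧ N = 0)) (i x y : ZMod (2 * h + 1)) :
    0 ≤ Fc a P Q (ac P Q) i x y - ((b / 2 : ℕ) : ℤ) * dl (i - 1) (i + 1) x y := by
  have h1 := dl_le hh i x y
  have h0 := dl_nn (i - 1) (i + 1) x y
  have h3 : (0 : ℤ) ≤ ((b / 2 : ℕ) : ℤ) := Int.natCast_nonneg _
  rcases hb with hb | ⟨hb, hN0⟩
  · have h2 := h4 h N a P Q (ac P Q) hN hP (by omega) i x y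
    have h5 : ((b / 2 : ℕ) : ℤ) ≤ (a : ℤ) - 2 := by omega
    split_ifs at h1 h2 with hc
    · nlinarith
    · have : dl (i - 1) (i + 1) x y = 0 := le_antisymm h1 h0
      rw [this]
      linarith
  · subst hN0
    have h2 : Fc a P Q (ac P Q) i x y = Bs a i x y := by
      unfold Fc
      simp
    rw [h2]
    unfold Bs
    have h5 : ((b / 2 : ℕ) : ℤ) ≤ (a : ℤ) := by omega
    split_ifs at h1 ⊢ with hc
    · nlinarith
    · have : dl (i - 1) (i + 1) x y = 0 := le_antisymm h1 h0
      rw [this]
      linarith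

end SPee

open SPee in
theorem T_SPee (h3 : S_A3) (h4 : S_A4) (h5 : S_A5) (hp : S_PAIRS) (hc : S_CLI) : S_SPee := by
  intro h a b e hh ha hae hbe hev hsum hsm hb
  obtain ⟨N, P, Q, hN2, hnS, hnM⟩ := hp e hev
  have hN : N ≤ h := by omega
  have hPQ : ∀ π, P π = Q π → 2 ≤ h := by
    intro π hπ
    rcases hsm with hsm | hsm
    · exact hsm
    · exfalso
      have h1 := hnS (P π)
      have h2 : 0 < nS P Q (P π) := by
        unfold nS
        apply card_pos.2
        exact ⟨π, by simp [hπ]⟩
      have h3 := hsm (P π)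
      omega
  have ha4 : 4 ≤ a := by
    obtain ⟨k, hk⟩ := hae
    omega
  obtain ⟨G, hGs, hGd, hGdeg, hGb⟩ := hc h N a P Q hh hN (by omega) hPQ
  have ha2 : a % 2 = 0 := Nat.even_iff.1 hae
  have hb2 : b % 2 = 0 := Nat.even_iff.1 hbe
  have hbN : b = a ∨ (b = a + 2 ∧ N = 0) := by
    rcases hb with hb | ⟨hb, -, he⟩
    · exact Or.inl hb
    · right
      refine ⟨hb, ?_⟩
      have : ∑ x, e x = 0 := sum_eq_zero fun x _ => he x
      omega
  have hnn := nn h4 a b P Q hh ha4 hN hPQ hbN
  obtain ⟨hFs, hFd, hFdeg⟩ := h3 h N a P Q (ac P Q) hN hPQ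
  have hF5 := h5 h N a P Q (ac P Q) hN hPQ
  have hex : ∀ x, 2 * nS P Q x + nM P Q x = e x := by
    intro x
    rw [hnS, hnM]
    omega
  refine ⟨HH a b P Q G, ?_, ?_, ?_, ?_⟩
  · -- symmetry
    rintro (_ | i) (_ | x) (_ | y)
    · rfl
    · rfl
    · rfl
    · exact hGs x y
    · rfl
    · rfl
    · rfl
    · show (_ : ℤ).toNat = (_ : ℤ).toNat
      rw [hFs, dl_symm]
  · -- diagonal
    rintro (_ | i) (_ | x)
    · rfl
    · exact hGd x
    · rfl
    · show (_ : ℤ).toNat = 0
      rw [hFd, dl_diag hh]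
      simp
  · -- degrees
    rintro (_ | i) (_ | x)
    · rw [Fintype.sum_option, if_pos rfl]
      have h1 : HH a b P Q G none none none = 0 := rfl
      have h2 : ∀ y, HH a b P Q G none none (some y) = 0 := fun _ => rfl
      simp only [h1, h2]
      simp [hb2]
    · rw [Fintype.sum_option, if_neg (by simp)]
      have h1 : HH a b P Q G none (some x) none = 0 := rfl
      have h2 : ∀ y, HH a b P Q G none (some x) (some y) = G x y := fun _ => rfl
      simp only [h1, h2]
      have h6 := hGdeg x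
      rw [ha2] at h6
      have h7 := hex x
      simp only [ite_self, add_zero, zero_add] at h6 ⊢
      show _ = a + e x
      omega
    · rw [Fintype.sum_option, if_neg (by simp)]
      have h1 : HH a b P Q G (some i) none none = 0 := rfl
      have h2 : ∀ y, HH a b P Q G (some i) none (some y) =
        (b / 2) * ((if y = i - 1 then 1 else 0) + (if y = i + 1 then 1 else 0)) := fun _ => rfl
      simp only [h1, h2]
      rw [← mul_sum, sum_e]
      show _ = b
      omega
    · rw [Fintype.sum_option]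
      have h1 : HH a b P Q G (some i) (some x) none =
        (b / 2) * ((if x = i - 1 then 1 else 0) + (if x = i + 1 then 1 else 0)) := rfl
      have h2 : ∀ y, HH a b P Q G (some i) (some x) (some y) =
        (Fc a P Q (ac P Q) i x y - ((b / 2 : ℕ) : ℤ) * dl (i - 1) (i + 1) x y).toNat :=
        fun _ => rfl
      simp only [h1, h2]
      have h6 := hFdeg i x
      have h7 := cnt P Q i x
      have h8 : ((∑ y, (Fc a P Q (ac P Q) i x y -
          ((b / 2 : ℕ) : ℤ) * dl (i - 1) (i + 1) x y).toNat : ℕ) : ℤ) =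
          ∑ y, Fc a P Q (ac P Q) i x y - ((b / 2 : ℕ) : ℤ) *
            ((if x = i - 1 then 1 else 0) + (if x = i + 1 then 1 else 0)) := by
        rw [Nat.cast_sum, ← sum_dl, mul_sum, ← sum_sub_distrib]
        apply sum_congr rfl
        intro y _
        exact Int.toNat_of_nonneg (hnn i x y)
      have h9 : ((if x = i then (0 : ℤ) else (a : ℤ)) +
          (univ.filter fun π => ac P Q i π ∧ P π = x).card +
          (univ.filter fun π => ac P Q i π ∧ Q π = x).card) =
          (if x = i then (e x % 2 : ℕ) else (a + e x : ℕ)) := by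
        have h10 : (((univ.filter fun π => ac P Q i π ∧ P π = x).card : ℕ) : ℤ) +
          (((univ.filter fun π => ac P Q i π ∧ Q π = x).card : ℕ) : ℤ) =
          ((if x = i then nM P Q x else 2 * nS P Q x + nM P Q x : ℕ) : ℤ) := by
          rw [← h7]
          push_cast
          rfl
        rw [add_assoc, h10]
        split_ifs with hxi
        · rw [hnM]; simp
        · rw [hex]; push_cast; ring
      rw [h9] at h6
      rw [h6] at h8
      have h11 : (((b / 2) * ((if x = i - 1 then 1 else 0) + (if x = i + 1 then 1 else 0)) : ℕ) : ℤ)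
          = ((b / 2 : ℕ) : ℤ) * ((if x = i - 1 then 1 else 0) + (if x = i + 1 then 1 else 0)) := by
        push_cast
        rfl
      have h12 : ((((b / 2) * ((if x = i - 1 then 1 else 0) + (if x = i + 1 then 1 else 0)) +
          ∑ y, (Fc a P Q (ac P Q) i x y -
          ((b / 2 : ℕ) : ℤ) * dl (i - 1) (i + 1) x y).toNat : ℕ)) : ℤ) =
          ((if x = i then (e x % 2) else (a + e x) : ℕ) : ℤ) := by
        rw [Nat.cast_add, h8, h11]
        split_ifs <;> ring
      have h13 := Int.natCast_inj.1 h12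
      rw [h13]
      by_cases hxi : x = i
      · subst hxi
        rw [if_pos rfl, if_pos rfl]
        show _ = (a + e x) % 2
        omega
      · rw [if_neg hxi, if_neg (fun hh => hxi (Option.some_injective _ hh))]
        rfl
  · -- totals
    have key : ∀ x : ZMod (2 * h + 1),
        ∑ i, HH a b P Q G i (some x) none ≤ a + 1 + cE (e x) + cE (b - a) := by
      intro x
      rw [Fintype.sum_option]
      have h1 : HH a b P Q G none (some x) none = 0 := rfl
      have h2 : ∀ i, HH a b P Q G (some i) (some x) none =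
        (b / 2) * ((if x = i - 1 then 1 else 0) + (if x = i + 1 then 1 else 0)) := fun _ => rfl
      simp only [h1, h2]
      rw [← mul_sum, sum_e']
      have h6 : b ≤ a + 1 + cE (b - a) := by
        unfold cE
        rcases hb with hb | ⟨hb, -, -⟩ <;> omega
      omega
    rintro (_ | x) (_ | y) huv
    · exact absurd rfl huv
    · have h1 := key y
      have h2 : ∀ i, HH a b P Q G i none (some y) = HH a b P Q G i (some y) none := by
        rintro (_ | i) <;> rfl
      simp only [h2]
      show _ ≤ a + 1 + cE (b - a) + cE (e y)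
      omega
    · exact key x
    · have hxy : x ≠ y := fun hh => huv (by rw [hh])
      rw [Fintype.sum_option]
      have h1 : HH a b P Q G none (some x) (some y) = G x y := rfl
      have h2 : ∀ i, HH a b P Q G (some i) (some x) (some y) =
        (Fc a P Q (ac P Q) i x y - ((b / 2 : ℕ) : ℤ) * dl (i - 1) (i + 1) x y).toNat :=
        fun _ => rfl
      simp only [h1, h2]
      show _ ≤ a + 1 + cE (e x) + cE (e y)
      have h8 : ((∑ i, (Fc a P Q (ac P Q) i x y -
          ((b / 2 : ℕ) : ℤ) * dl (i - 1) (i + 1) x y).toNat : ℕ) : ℤ) =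
          ∑ i, Fc a P Q (ac P Q) i x y - ((b / 2 : ℕ) : ℤ) * ∑ i, dl (i - 1) (i + 1) x y := by
        rw [Nat.cast_sum, mul_sum, ← sum_sub_distrib]
        apply sum_congr rfl
        intro i _
        exact Int.toNat_of_nonneg (hnn i x y)
      have h6 := hF5 x y hxy
      have h7 := hGb x y hxy
      have h9 := sum_dl_i x y
      have h10 := hex x
      have h11 := hex y
      have h12 : (((if x = y + 2 ∨ y = x + 2 then a / 2 else 0) : ℕ) : ℤ) ≤
          ((b / 2 : ℕ) : ℤ) * ∑ i, dl (i - 1) (i + 1) x y := by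
        have hab : ((a / 2 : ℕ) : ℤ) ≤ ((b / 2 : ℕ) : ℤ) := by
          rcases hbN with hb | ⟨hb, -⟩ <;> omega
        have hb0 : (0 : ℤ) ≤ ((b / 2 : ℕ) : ℤ) := Int.natCast_nonneg _
        split_ifs at h9 ⊢ with hc
        · nlinarith
        · have : (0 : ℤ) ≤ ((b / 2 : ℕ) : ℤ) * ∑ i, dl (i - 1) (i + 1) x y := mul_nonneg hb0 h9
          simpa using this
      have h13 := hnM x
      have h14 := hnM y
      unfold cE
      rw [← h13, ← h14]
      omega

end Pool.Agent.H301R2.HR
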