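import Pool.Agent.H301R2.HR.SP

set_option autoImplicit false

/-! Special classes, `a` odd, odd number of parts. -/

namespace Pool.Agent.H301R2.HR

open Finset

namespace SPooAux

lemma dl_row {α : Type} [Fintype α] [DecidableEq α] (u v x : α) :
    ∑ y, dl u v x y = (if x = u then 1 else 0) + (if x = v then 1 else 0) := by
  unfold dl
  rw [Finset.sum_add_distrib]
  congr 1
  · by_cases hx : x = u
    · simp [hx]
    · simp [hx]
  · by_cases hx : x = v
    · simp [hx]
    · simp [hx]

lemma dl_nonneg {α : Type} [DecidableEq α] (u v x y : α) : 0 ≤ dl u v x y := by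
  unfold dl
  split_ifs <;> norm_num

lemma dl_symm {α : Type} [DecidableEq α] (u v x y : α) : dl u v x y = dl u v y x := by
  unfold dl
  have e1 : (x = u ∧ y = v) ↔ (y = v ∧ x = u) := and_comm
  have e2 : (x = v ∧ y = u) ↔ (y = u ∧ x = v) := and_comm
  rw [add_comm, if_congr e1 rfl rfl, if_congr e2 rfl rfl]

/-- mixed pairs with ends `i, x` -/
def MM {α : Type} [DecidableEq α] {N : ℕ} (P Q : Fin N → α) (i x : α) : ℕ :=
  (univ.filter fun π => P π ≠ Q π ∧ ((P π = i ∧ Q π = x) ∨ (P π = x ∧ Q π = i))).card

lemma cnt_pair {α : Type} [DecidableEq α] {N : ℕ} (P Q : Fin N → α) (i x : α) (hx : x ≠ i) :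
    (univ.filter fun π => decide (P π ≠ i ∧ Q π ≠ i) = true ∧ P π = x).card +
      (univ.filter fun π => decide (P π ≠ i ∧ Q π ≠ i) = true ∧ Q π = x).card + MM P Q i x =
      2 * nS P Q x + nM P Q x := by
  unfold MM nS nM
  rw [Finset.card_filter, Finset.card_filter, Finset.card_filter, Finset.card_filter,
    Finset.card_filter, ← Finset.sum_add_distrib, ← Finset.sum_add_distrib, Finset.mul_sum,
    ← Finset.sum_add_distrib]
  apply Finset.sum_congr rfl
  intro π _
  by_cases h1 : P π = x
  · by_cases h2 : Q π = x
    · simp [h1, h2, hx]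
    · by_cases h3 : Q π = i
      · simp [h1, h3, hx, Ne.symm hx]
      · simp [h1, h2, h3, hx, Ne.symm h2]
  · by_cases h2 : Q π = x
    · by_cases h3 : P π = i
      · simp [h2, h3, hx, Ne.symm hx]
      · simp [h1, h2, h3, hx]
    · simp [h1, h2]

lemma cnt_self {α : Type} [DecidableEq α] {N : ℕ} (P Q : Fin N → α) (i : α) :
    (univ.filter fun π => decide (P π ≠ i ∧ Q π ≠ i) = true ∧ P π = i).card +
      (univ.filter fun π => decide (P π ≠ i ∧ Q π ≠ i) = true ∧ Q π = i).card = 0 := by
  rw [Finset.card_filter, Finset.card_filter, ← Finset.sum_add_distrib]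
  apply Finset.sum_eq_zero
  intro π _
  by_cases h1 : P π = i <;> by_cases h2 : Q π = i <;> simp [h1, h2]

/-- the number of mixed pairs with ends `i, x` -/
lemma MM_eq {α : Type} [DecidableEq α] {N : ℕ} (P Q : Fin N → α) (e : α → ℕ) (ρ : α → α)
    (hnM : ∀ x, nM P Q x = e x % 2) (hρ0 : ∀ x, e x % 2 = 0 → ρ x = x)
    (hρ1 : ∀ x, e x % 2 = 1 → ρ x ≠ x ∧ e (ρ x) % 2 = 1 ∧
      ∃ π, P π ≠ Q π ∧ ((P π = x ∧ Q π = ρ x) ∨ (P π = ρ x ∧ Q π = x)))
    (i x : α) (hx : x ≠ i) : MM P Q i x = if x = ρ i then 1 else 0 := by
  have hle : ∀ i, nM P Q i ≤ 1 := by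
    intro i; rw [hnM]; omega
  have huniq : ∀ i π π', (P π ≠ Q π ∧ (P π = i ∨ Q π = i)) →
      (P π' ≠ Q π' ∧ (P π' = i ∨ Q π' = i)) → π = π' := by
    intro i π π' h1 h2
    have h3 := hle i
    unfold nM at h3
    rw [Finset.card_le_one] at h3
    exact h3 π (by simp only [mem_filter, mem_univ, true_and]; exact h1) π'
      (by simp only [mem_filter, mem_univ, true_and]; exact h2)
  by_cases hxi : x = ρ i
  · rw [if_pos hxi]
    have hi : e i % 2 = 1 := by
      by_contra hcon
      have : e i % 2 = 0 := by omega
      rw [hρ0 i this] at hxi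
      exact hx hxi
    obtain ⟨_, _, π, hπ, hπ2⟩ := hρ1 i hi
    unfold MM
    rw [Finset.card_eq_one]
    refine ⟨π, ?_⟩
    ext π'
    simp only [mem_filter, mem_univ, true_and, mem_singleton]
    constructor
    · rintro ⟨h1, h2⟩
      apply huniq i π' π ⟨h1, by tauto⟩ ⟨hπ, by tauto⟩
    · rintro rfl
      rw [hxi]
      exact ⟨hπ, hπ2⟩
  · rw [if_neg hxi]
    unfold MM
    rw [Finset.card_eq_zero, Finset.filter_eq_empty_iff]
    rintro π _ ⟨h1, h2⟩
    have hi : e i % 2 = 1 := by
      rw [← hnM]
      have h3 : 0 < nM P Q i := by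
        unfold nM
        rw [Finset.card_pos]
        exact ⟨π, by simp only [mem_filter, mem_univ, true_and]; exact ⟨h1, by tauto⟩⟩
      have := hle i
      omega
    obtain ⟨_, _, π', hπ, hπ2⟩ := hρ1 i hi
    have h4 := huniq i π π' ⟨h1, by tauto⟩ ⟨hπ, by tauto⟩
    subst h4
    apply hxi
    rcases h2 with ⟨h2a, h2b⟩ | ⟨h2a, h2b⟩ <;> rcases hπ2 with ⟨h3a, h3b⟩ | ⟨h3a, h3b⟩
    · rw [← h2b, h3b]
    · exact absurd (h2b.symm.trans h3b) hx
    · exact absurd (h2a.symm.trans h3a) hx
    · rw [← h2a, h3a]

end SPooAux

open SPooAux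

theorem T_SPoo (h3 : S_A3) (h4 : S_A4) (h5 : S_A5) (hp : S_PAIRS) (hm : S_MATE) : S_SPoo := by
  intro h a e ha hodd hsum hle hh
  obtain ⟨v, hv⟩ : ∃ v, Odd (e v) := by
    by_contra hcon
    push Not at hcon
    have h1 : Even (∑ x, e x) := Finset.even_sum _ (fun x _ => Nat.not_odd_iff_even.mp (hcon x))
    exact (Nat.not_even_iff_odd.mpr hsum) h1
  obtain ⟨e', he'⟩ : ∃ e' : ZMod (2 * h + 1) → ℕ, ∀ x, e' x = if x = v then e x - 1 else e x :=
    ⟨_, fun x => rfl⟩
  have hev : 1 ≤ e v := hv.pos
  have he'v : e' v + 1 = e v := by rw [he', if_pos rfl]; omega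
  have he'n : ∀ x, x ≠ v → e' x = e x := fun x hx => by rw [he', if_neg hx]
  have hse : ∑ x, e' x + 1 = ∑ x, e x := by
    rw [← Finset.add_sum_erase univ e' (mem_univ v), ← Finset.add_sum_erase univ e (mem_univ v)]
    have : ∑ x ∈ univ.erase v, e' x = ∑ x ∈ univ.erase v, e x :=
      Finset.sum_congr rfl (fun x hx => he'n x (Finset.ne_of_mem_erase hx))
    rw [this]
    omega
  have heven : Even (∑ x, e' x) := by
    rw [← hse] at hsum
    by_contra hcon
    rw [Nat.not_even_iff_odd] at hcon
    have := hcon.add_one
    exact (Nat.not_even_iff_odd.mpr hsum) this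
  obtain ⟨N, P, Q, hN, hnS, hnM⟩ := hp e' heven
  obtain ⟨ρ, hρ0, hρρ, hρ1⟩ := hm e' N P Q hnM
  have hNh : N ≤ h := by omega
  have hPQ : ∀ π, P π = Q π → 2 ≤ h := by
    intro π hπ
    rcases hh with hh | hh
    · exact hh
    · exfalso
      have h1 : 0 < nS P Q (P π) := by
        unfold nS
        rw [Finset.card_pos]
        exact ⟨π, by simp [hπ]⟩
      rw [hnS] at h1
      have h2 : e' (P π) ≤ e (P π) := by
        rw [he']; split_ifs <;> omega
      have h3 := hh (P π)
      omega
  set act : ZMod (2 * h + 1) → Fin N → Bool := fun i π => decide (P π ≠ i ∧ Q π ≠ i) with hact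
  obtain ⟨hsymm, hdiag, hdeg⟩ := h3 h N a P Q act hNh hPQ
  have hpos := h4 h N a P Q act hNh hPQ ha
  have htot := h5 h N a P Q act hNh hPQ
  have ha' : (2:ℤ) ≤ a := by exact_mod_cast ha
  have hF0 : ∀ i x y, 0 ≤ Fc a P Q act i x y := by
    intro i x y
    refine le_trans ?_ (hpos i x y)
    split_ifs
    · linarith
    · exact le_refl _
  have hve : e' v % 2 = 0 := by
    have := Nat.odd_iff.mp hv
    omega
  have hρv : ρ v = v := hρ0 v hve
  have hρne : ∀ i, i ≠ v → ρ i ≠ v := by
    intro i hi hcon
    apply hi
    rw [← hρρ i, hcon, hρv]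
  set G : ZMod (2 * h + 1) → ZMod (2 * h + 1) → ZMod (2 * h + 1) → ℤ := fun i x y =>
    Fc a P Q act i x y + (if i ≠ v then dl v (ρ i) x y else 0) with hG
  have hG0 : ∀ i x y, 0 ≤ G i x y := by
    intro i x y
    simp only [hG]
    have := hF0 i x y
    split_ifs
    · have := dl_nonneg v (ρ i) x y
      linarith
    · linarith
  have hGn : ∀ i x y, (((G i x y).toNat : ℕ) : ℤ) = G i x y := fun i x y =>
    Int.toNat_of_nonneg (hG0 i x y)
  have hao : a % 2 = 1 := Nat.odd_iff.mp hodd
  refine ⟨fun i x y => (G i x y).toNat, ?_, ?_, ?_, ?_⟩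
  · intro i x y
    simp only [hG]
    rw [hsymm i x y, dl_symm v (ρ i) x y]
  · intro i x
    simp only [hG]
    rw [hdiag i x, zero_add]
    split_ifs with hi
    · have h1 : dl v (ρ i) x x = 0 := by
        unfold dl
        have h2 := hρne i hi
        have h3 : ¬ (x = v ∧ x = ρ i) := by
          rintro ⟨h4, h5⟩
          exact h2 (h5.symm.trans h4)
        have h4 : ¬ (x = ρ i ∧ x = v) := by
          rintro ⟨h4, h5⟩
          exact h2 (h4.symm.trans h5)
        rw [if_neg h3, if_neg h4]; rfl
      rw [h1]; rfl
    · rfl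
  · intro i x
    have hcast : ((∑ y, (G i x y).toNat : ℕ) : ℤ) = ∑ y, G i x y := by
      push_cast
      exact Finset.sum_congr rfl (fun y _ => hGn i x y)
    have hsumG : ∑ y, G i x y = ((if x = i then 0 else (a : ℤ)) +
        (univ.filter fun π => act i π ∧ P π = x).card +
        (univ.filter fun π => act i π ∧ Q π = x).card) +
        (if i ≠ v then ((if x = v then 1 else 0) + (if x = ρ i then 1 else 0)) else 0) := by
      simp only [hG]
      rw [Finset.sum_add_distrib, hdeg i x]
      congr 1
      split_ifs
      · rw [dl_row]; simp_all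
      all_goals simp_all [dl_row]
    have hgoal : ((∑ y, (G i x y).toNat : ℕ) : ℤ) =
        (((if x = i then (a + e x) % 2 else a + e x : ℕ)) : ℤ) := by
      rw [hcast, hsumG]
      by_cases hxi : x = i
      · subst hxi
        have h0 := cnt_self P Q x
        have h0' : ((univ.filter fun π => act x π ∧ P π = x).card : ℤ) +
            (univ.filter fun π => act x π ∧ Q π = x).card = 0 := by
          simp only [hact]
          exact_mod_cast h0
        rw [if_pos rfl, if_pos rfl]
        by_cases hxv : x = v
        · subst hxv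
          simp only [ne_eq, not_true_eq_false, if_false]
          have h1 : (a + e x) % 2 = 0 := by
            have := Nat.odd_iff.mp hv
            omega
          rw [h1]
          push_cast
          linarith
        · rw [if_pos hxv, if_neg hxv]
          by_cases hpar : e' x % 2 = 0
          · rw [hρ0 x hpar, if_pos rfl]
            have h1 : (a + e x) % 2 = 1 := by
              rw [he'n x hxv] at hpar
              omega
            rw [h1]
            push_cast
            linarith
          · have hpar' : e' x % 2 = 1 := by omega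
            have h1 := (hρ1 x hpar').1
            rw [if_neg (Ne.symm h1)]
            have h2 : (a + e x) % 2 = 0 := by
              rw [he'n x hxv] at hpar'
              omega
            rw [h2]
            push_cast
            linarith
      · rw [if_neg hxi, if_neg hxi]
        have h0 := cnt_pair P Q i x hxi
        rw [MM_eq P Q e' ρ hnM hρ0 hρ1 i x hxi, hnS, hnM] at h0
        have h1 : 2 * (e' x / 2) + e' x % 2 = e' x := Nat.div_add_mod (e' x) 2
        rw [h1] at h0
        have h0' : ((univ.filter fun π => act i π ∧ P π = x).card : ℤ) +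
            (univ.filter fun π => act i π ∧ Q π = x).card + (if x = ρ i then 1 else 0) =
            e' x := by
          simp only [hact]
          exact_mod_cast h0
        by_cases hiv : i = v
        · subst hiv
          rw [hρv, if_neg hxi] at h0'
          simp only [ne_eq, not_true_eq_false, if_false]
          rw [he'n x hxi] at h0'
          push_cast
          linarith
        · rw [if_pos hiv]
          by_cases hxv : x = v
          · subst hxv
            rw [if_neg (Ne.symm (hρne i hiv))] at h0' ⊢
            rw [if_pos rfl]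
            have h2 : ((e' x : ℕ) : ℤ) + 1 = e x := by exact_mod_cast he'v
            push_cast
            linarith
          · rw [if_neg hxv]
            rw [he'n x hxv] at h0'
            push_cast
            linarith
    exact_mod_cast hgoal
  · intro x y hxy
    have hcast : ((∑ i, (G i x y).toNat : ℕ) : ℤ) = ∑ i, G i x y := by
      push_cast
      exact Finset.sum_congr rfl (fun i _ => hGn i x y)
    have h1 := htot x y hxy
    have hextra : ∑ i, (if i ≠ v then dl v (ρ i) x y else 0) ≤
        (1:ℤ) := by
      have hinj : Function.Injective ρ := fun s t hst => by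
        rw [← hρρ s, ← hρρ t, hst]
      by_cases hxv : x = v
      · subst hxv
        calc ∑ i, (if i ≠ x then dl x (ρ i) x y else 0)
            ≤ ∑ i, (if i = ρ y then (1:ℤ) else 0) := by
              apply Finset.sum_le_sum
              intro i _
              by_cases hi : i = x
              · rw [if_neg (by simpa using hi)]
                split_ifs <;> norm_num
              · rw [if_pos hi]
                unfold dl
                have h2 : ¬ (x = ρ i ∧ y = x) := fun h => hxy h.2.symm
                rw [if_neg h2, add_zero]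
                by_cases h3 : y = ρ i
                · rw [if_pos ⟨rfl, h3⟩, if_pos (by rw [h3, hρρ])]
                · rw [if_neg (fun h => h3 h.2)]
                  split_ifs <;> norm_num
          _ = 1 := by simp
          _ ≤ 1 := le_refl _
      · calc ∑ i, (if i ≠ v then dl v (ρ i) x y else 0)
            ≤ ∑ i, (if i = ρ x then (1:ℤ) else 0) := by
              apply Finset.sum_le_sum
              intro i _
              by_cases hi : i = v
              · rw [if_neg (by simpa using hi)]
                split_ifs <;> norm_num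
              · rw [if_pos hi]
                unfold dl
                rw [if_neg (fun h : x = v ∧ y = ρ i => hxv h.1), zero_add]
                by_cases h3 : x = ρ i
                · rw [if_pos (by rw [h3, hρρ] : i = ρ x)]
                  split_ifs <;> norm_num
                · rw [if_neg (fun h => h3 h.1)]
                  split_ifs <;> norm_num
          _ = 1 := by simp
          _ ≤ 1 := le_refl _
    have hC : ∀ z, 3 * nS P Q z + 2 * nM P Q z ≤ cE (e z) := by
      intro z
      rw [hnS, hnM]
      unfold cE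
      have : e' z ≤ e z := by rw [he']; split_ifs <;> omega
      have h5 : z ≠ v → e' z = e z := he'n z
      by_cases hz : z = v
      · subst hz; omega
      · have := h5 hz
        omega
    have h6 := hC x
    have h7 := hC y
    have hgoal : ((∑ i, (G i x y).toNat : ℕ) : ℤ) ≤
        ((a + 1 + cE (e x) + cE (e y) : ℕ) : ℤ) := by
      rw [hcast]
      simp only [hG]
      rw [Finset.sum_add_distrib]
      have h8 : ((3 * nS P Q x + 2 * nM P Q x : ℕ) : ℤ) ≤ ((cE (e x) : ℕ) : ℤ) := by
        exact_mod_cast h6
      have h9 : ((3 * nS P Q y + 2 * nM P Q y : ℕ) : ℤ) ≤ ((cE (e y) : ℕ) : ℤ) := by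
        exact_mod_cast h7
      push_cast at h1 h8 h9 ⊢
      linarith
    exact_mod_cast hgoal

end Pool.Agent.H301R2.HR
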