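import Pool.Agent.H301R2.HR.T_SPee
import Pool.Agent.H301R2.HR.T_SPoo

/-! Task SPeo (helper642): special classes, `a` odd, even number of parts. -/

set_option autoImplicit false

namespace Pool.Agent.H301R2.HR

open Finset

namespace SPeo

open SPee SPooAux

/-- the activity -/
def ac' {α : Type} [DecidableEq α] {N : ℕ} (P Q : Fin N → α) (i : α) (π : Fin N) : Bool :=
  decide (P π ≠ i ∧ Q π ≠ i)

/-- the classes -/
def HH' {h N : ℕ} (a b : ℕ) (P Q : Fin N → ZMod (2 * h + 1))
    (ρ : ZMod (2 * h + 1) → ZMod (2 * h + 1))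
    (G : ZMod (2 * h + 1) → ZMod (2 * h + 1) → ℕ) :
    Option (ZMod (2 * h + 1)) → Option (ZMod (2 * h + 1)) → Option (ZMod (2 * h + 1)) → ℕ
  | some i, some x, some y =>
    (Fc a P Q (ac' P Q) i x y - ((b / 2 : ℕ) : ℤ) * dl (i - 1) (i + 1) x y).toNat
  | some i, none, some x =>
    (b / 2) * ((if x = i - 1 then 1 else 0) + (if x = i + 1 then 1 else 0)) +
      (if x = ρ i then 1 else 0)
  | some i, some x, none =>
    (b / 2) * ((if x = i - 1 then 1 else 0) + (if x = i + 1 then 1 else 0)) +
      (if x = ρ i then 1 else 0)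
  | some _, none, none => 0
  | none, some x, some y => G x y
  | none, none, none => 0
  | none, none, some x => if x = 0 then 1 else 0
  | none, some x, none => if x = 0 then 1 else 0

theorem nn' {h N : ℕ} (h4 : S_A4) (a b : ℕ) (P Q : Fin N → ZMod (2 * h + 1)) (hh : 1 ≤ h)
    (ha : 3 ≤ a) (hN : N ≤ h) (hP : ∀ π, P π = Q π → 2 ≤ h)
    (hb : b = a ∨ (b = a + 2 ∧ N = 0)) (i x y : ZMod (2 * h + 1)) :
    0 ≤ Fc a P Q (ac' P Q) i x y - ((b / 2 : ℕ) : ℤ) * dl (i - 1) (i + 1) x y := by
  have h1 := dl_le hh i x y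
  have h0 := dl_nn (i - 1) (i + 1) x y
  have h3 : (0 : ℤ) ≤ ((b / 2 : ℕ) : ℤ) := Int.natCast_nonneg _
  rcases hb with hb | ⟨hb, hN0⟩
  · have h2 := h4 h N a P Q (ac' P Q) hN hP (by omega) i x y
    have h5 : ((b / 2 : ℕ) : ℤ) ≤ (a : ℤ) - 2 := by omega
    split_ifs at h1 h2 with hc
    · nlinarith
    · have : dl (i - 1) (i + 1) x y = 0 := le_antisymm h1 h0
      rw [this]
      linarith
  · subst hN0
    have h2 : Fc a P Q (ac' P Q) i x y = Bs a i x y := by
      unfold Fc
      simp
    rw [h2]
    unfold Bs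
    have h5 : ((b / 2 : ℕ) : ℤ) ≤ (a : ℤ) := by omega
    split_ifs at h1 ⊢ with hc
    · nlinarith
    · have : dl (i - 1) (i + 1) x y = 0 := le_antisymm h1 h0
      rw [this]
      linarith

end SPeo

open SPee SPooAux SPeo in
theorem T_SPeo (h3 : S_A3) (h4 : S_A4) (h5 : S_A5) (hp : S_PAIRS) (hm : S_MATE) (hc : S_CLI) :
    S_SPeo := by
  intro h a b e hh ha hao hbo hev hsum hsm hb
  obtain ⟨N, P, Q, hN2, hnS, hnM⟩ := hp e hev
  obtain ⟨ρ, hρ0, hρρ, hρ1⟩ := hm e N P Q hnM
  have hN : N ≤ h := by omega
  have hPQ : ∀ π, P π = Q π → 2 ≤ h := by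
    intro π hπ
    rcases hsm with hsm | hsm
    · exact hsm
    · exfalso
      have h1 := hnS (P π)
      have h2 : 0 < nS P Q (P π) := by
        unfold nS
        apply card_pos.2
        exact ⟨π, by simp [hπ]⟩
      have h3 := hsm (P π)
      omega
  obtain ⟨G, hGs, hGd, hGdeg, hGb⟩ := hc h N a P Q hh hN (by omega) hPQ
  have ha2 : a % 2 = 1 := Nat.odd_iff.1 hao
  have hb2 : b % 2 = 1 := Nat.odd_iff.1 hbo
  have hbN : b = a ∨ (b = a + 2 ∧ N = 0) := by
    rcases hb with hb | ⟨hb, -, he⟩
    · exact Or.inl hb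
    · right
      refine ⟨hb, ?_⟩
      have : ∑ x, e x = 0 := sum_eq_zero fun x _ => he x
      omega
  have hnn := nn' h4 a b P Q hh ha hN hPQ hbN
  obtain ⟨hFs, hFd, hFdeg⟩ := h3 h N a P Q (ac' P Q) hN hPQ
  have hF5 := h5 h N a P Q (ac' P Q) hN hPQ
  have hex : ∀ x, 2 * nS P Q x + nM P Q x = e x := by
    intro x
    rw [hnS, hnM]
    omega
  have hρs : ∀ i, ∑ x, (if x = ρ i then 1 else 0) = 1 := by
    intro i
    simp
  have hρs' : ∀ x : ZMod (2 * h + 1), ∑ i, (if x = ρ i then 1 else 0) = 1 := by
    intro x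
    have h1 : ∀ i : ZMod (2 * h + 1), (x = ρ i) ↔ (i = ρ x) := by
      intro i
      constructor
      · intro h; rw [h, hρρ]
      · intro h; rw [h, hρρ]
    simp only [h1]
    simp
  refine ⟨HH' a b P Q ρ G, ?_, ?_, ?_, ?_⟩
  · -- symmetry
    rintro (_ | i) (_ | x) (_ | y)
    · rfl
    · rfl
    · rfl
    · exact hGs x y
    · rfl
    · rfl
    · rfl
    · show (_ : ℤ).toNat = (_ : ℤ).toNat
      rw [hFs, SPee.dl_symm]
  · -- diagonal
    rintro (_ | i) (_ | x)
    · rfl
    · exact hGd x
    · rfl
    · show (_ : ℤ).toNat = 0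
      rw [hFd, SPee.dl_diag hh]
      simp
  · -- degrees
    rintro (_ | i) (_ | x)
    · rw [Fintype.sum_option, if_pos rfl]
      have h1 : HH' a b P Q ρ G none none none = 0 := rfl
      have h2 : ∀ y, HH' a b P Q ρ G none none (some y) = if y = 0 then 1 else 0 := fun _ => rfl
      simp only [h1, h2]
      show _ = b % 2
      rw [hb2]
      simp
    · rw [Fintype.sum_option, if_neg (by simp)]
      have h1 : HH' a b P Q ρ G none (some x) none = if x = 0 then 1 else 0 := rfl
      have h2 : ∀ y, HH' a b P Q ρ G none (some x) (some y) = G x y := fun _ => rfl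
      simp only [h1, h2]
      have h6 := hGdeg x
      rw [ha2] at h6
      have h7 := hex x
      show _ = a + e x
      omega
    · rw [Fintype.sum_option, if_neg (by simp)]
      have h1 : HH' a b P Q ρ G (some i) none none = 0 := rfl
      have h2 : ∀ y, HH' a b P Q ρ G (some i) none (some y) =
        (b / 2) * ((if y = i - 1 then 1 else 0) + (if y = i + 1 then 1 else 0)) +
          (if y = ρ i then 1 else 0) := fun _ => rfl
      simp only [h1, h2]
      rw [sum_add_distrib, ← mul_sum, sum_e, hρs]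
      show _ = b
      omega
    · rw [Fintype.sum_option]
      have h1 : HH' a b P Q ρ G (some i) (some x) none =
        (b / 2) * ((if x = i - 1 then 1 else 0) + (if x = i + 1 then 1 else 0)) +
          (if x = ρ i then 1 else 0) := rfl
      have h2 : ∀ y, HH' a b P Q ρ G (some i) (some x) (some y) =
        (Fc a P Q (ac' P Q) i x y - ((b / 2 : ℕ) : ℤ) * dl (i - 1) (i + 1) x y).toNat :=
        fun _ => rfl
      simp only [h1, h2]
      have h6 := hFdeg i x
      have h8 : ((∑ y, (Fc a P Q (ac' P Q) i x y -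
          ((b / 2 : ℕ) : ℤ) * dl (i - 1) (i + 1) x y).toNat : ℕ) : ℤ) =
          ∑ y, Fc a P Q (ac' P Q) i x y - ((b / 2 : ℕ) : ℤ) *
            ((if x = i - 1 then 1 else 0) + (if x = i + 1 then 1 else 0)) := by
        rw [Nat.cast_sum, ← sum_dl, mul_sum, ← sum_sub_distrib]
        apply sum_congr rfl
        intro y _
        exact Int.toNat_of_nonneg (hnn i x y)
      have h9 : ((if x = i then (0 : ℤ) else (a : ℤ)) +
          (univ.filter fun π => ac' P Q i π ∧ P π = x).card +
          (univ.filter fun π => ac' P Q i π ∧ Q π = x).card) + (if x = ρ i then 1 else 0) =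
          (if x = i then ((a + e x) % 2 : ℕ) else (a + e x : ℕ)) := by
        by_cases hxi : x = i
        · subst hxi
          have h10 := cnt_self P Q x
          have h10' : ((univ.filter fun π => ac' P Q x π ∧ P π = x).card : ℤ) +
              (univ.filter fun π => ac' P Q x π ∧ Q π = x).card = 0 := by
            exact_mod_cast h10
          rw [if_pos rfl, if_pos rfl]
          rcases Nat.mod_two_eq_zero_or_one (e x) with hpar | hpar
          · rw [hρ0 x hpar, if_pos rfl]
            have h11 : (a + e x) % 2 = 1 := by omega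
            rw [h11]
            push_cast
            linarith
          · rw [if_neg (Ne.symm (hρ1 x hpar).1)]
            have h11 : (a + e x) % 2 = 0 := by omega
            rw [h11]
            push_cast
            linarith
        · rw [if_neg hxi, if_neg hxi]
          have h10 := cnt_pair P Q i x hxi
          rw [MM_eq P Q e ρ hnM hρ0 hρ1 i x hxi, hex] at h10
          have h10' : ((univ.filter fun π => ac' P Q i π ∧ P π = x).card : ℤ) +
              (univ.filter fun π => ac' P Q i π ∧ Q π = x).card + (if x = ρ i then 1 else 0) =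
              e x := by
            exact_mod_cast h10
          push_cast
          linarith
      have h11 : (((b / 2) * ((if x = i - 1 then 1 else 0) + (if x = i + 1 then 1 else 0)) +
          (if x = ρ i then 1 else 0) : ℕ) : ℤ)
          = ((b / 2 : ℕ) : ℤ) * ((if x = i - 1 then 1 else 0) + (if x = i + 1 then 1 else 0)) +
            (if x = ρ i then 1 else 0) := by
        push_cast
        rfl
      have h12 : ((((b / 2) * ((if x = i - 1 then 1 else 0) + (if x = i + 1 then 1 else 0)) +
          (if x = ρ i then 1 else 0) + ∑ y, (Fc a P Q (ac' P Q) i x y -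
          ((b / 2 : ℕ) : ℤ) * dl (i - 1) (i + 1) x y).toNat : ℕ)) : ℤ) =
          ((if x = i then ((a + e x) % 2) else (a + e x) : ℕ) : ℤ) := by
        rw [Nat.cast_add, h8, h11, h6, ← h9]
        ring
      have h13 := Int.natCast_inj.1 h12
      rw [h13]
      by_cases hxi : x = i
      · subst hxi
        rw [if_pos rfl, if_pos rfl]
        rfl
      · rw [if_neg hxi, if_neg (fun hh => hxi (Option.some_injective _ hh))]
        rfl
  · -- totals
    have key : ∀ x : ZMod (2 * h + 1),
        ∑ i, HH' a b P Q ρ G i (some x) none ≤ a + 1 + cE (e x) + cE (b - a) := by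
      intro x
      rw [Fintype.sum_option]
      have h1 : HH' a b P Q ρ G none (some x) none ≤ 1 := by
        show (if x = 0 then 1 else 0) ≤ 1
        split_ifs <;> omega
      have h2 : ∀ i, HH' a b P Q ρ G (some i) (some x) none =
        (b / 2) * ((if x = i - 1 then 1 else 0) + (if x = i + 1 then 1 else 0)) +
          (if x = ρ i then 1 else 0) := fun _ => rfl
      simp only [h2]
      rw [sum_add_distrib, ← mul_sum, sum_e', hρs']
      have h6 : b ≤ a + cE (b - a) := by
        unfold cE
        rcases hb with hb | ⟨hb, -, -⟩ <;> omega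
      omega
    rintro (_ | x) (_ | y) huv
    · exact absurd rfl huv
    · have h1 := key y
      have h2 : ∀ i, HH' a b P Q ρ G i none (some y) = HH' a b P Q ρ G i (some y) none := by
        rintro (_ | i) <;> rfl
      simp only [h2]
      show _ ≤ a + 1 + cE (b - a) + cE (e y)
      omega
    · exact key x
    · have hxy : x ≠ y := fun hh => huv (by rw [hh])
      rw [Fintype.sum_option]
      have h1 : HH' a b P Q ρ G none (some x) (some y) = G x y := rfl
      have h2 : ∀ i, HH' a b P Q ρ G (some i) (some x) (some y) =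
        (Fc a P Q (ac' P Q) i x y - ((b / 2 : ℕ) : ℤ) * dl (i - 1) (i + 1) x y).toNat :=
        fun _ => rfl
      simp only [h1, h2]
      show _ ≤ a + 1 + cE (e x) + cE (e y)
      have h8 : ((∑ i, (Fc a P Q (ac' P Q) i x y -
          ((b / 2 : ℕ) : ℤ) * dl (i - 1) (i + 1) x y).toNat : ℕ) : ℤ) =
          ∑ i, Fc a P Q (ac' P Q) i x y - ((b / 2 : ℕ) : ℤ) * ∑ i, dl (i - 1) (i + 1) x y := by
        rw [Nat.cast_sum, mul_sum, ← sum_sub_distrib]
        apply sum_congr rfl
        intro i _
        exact Int.toNat_of_nonneg (hnn i x y)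
      have h6 := hF5 x y hxy
      have h7 := hGb x y hxy
      have h9 := sum_dl_i x y
      have h10 := hex x
      have h11 := hex y
      have h12 : (((if x = y + 2 ∨ y = x + 2 then a / 2 else 0) : ℕ) : ℤ) ≤
          ((b / 2 : ℕ) : ℤ) * ∑ i, dl (i - 1) (i + 1) x y := by
        have hab : ((a / 2 : ℕ) : ℤ) ≤ ((b / 2 : ℕ) : ℤ) := by
          rcases hbN with hb | ⟨hb, -⟩ <;> omega
        have hb0 : (0 : ℤ) ≤ ((b / 2 : ℕ) : ℤ) := Int.natCast_nonneg _
        split_ifs at h9 ⊢ with hc
        · nlinarith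
        · have : (0 : ℤ) ≤ ((b / 2 : ℕ) : ℤ) * ∑ i, dl (i - 1) (i + 1) x y := mul_nonneg hb0 h9
          simpa using this
      have h13 := hnM x
      have h14 := hnM y
      unfold cE
      rw [← h13, ← h14]
      omega

end Pool.Agent.H301R2.HR
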