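import Pool.Agent.H301R2.HR.SP

set_option autoImplicit false

namespace Pool.Agent.H301R2.HR

open Finset

theorem T_SPoe (h3 : S_A3) (h4 : S_A4) (h5 : S_A5) (hp : S_PAIRS) : S_SPoe := by
  intro h a e ha hae hee hle hh
  obtain ⟨N, P, Q, hN, hS, hM⟩ := hp e hee
  have hNh : N ≤ h := by omega
  have hPQ : ∀ π, P π = Q π → 2 ≤ h := by
    intro π hπ
    rcases hh with hh | hh
    · exact hh
    · exfalso
      have h1 : nS P Q (P π) ≠ 0 := by
        unfold nS
        rw [Finset.card_ne_zero]
        exact ⟨π, by simp [← hπ]⟩
      rw [hS] at h1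
      have := hh (P π)
      omega
  set act : ZMod (2 * h + 1) → Fin N → Bool := fun i π => decide (¬ (P π = Q π ∧ P π = i))
    with hact
  obtain ⟨hs, hd, hdeg⟩ := h3 h N a P Q act hNh hPQ
  have hpos : ∀ i x y, 0 ≤ Fc a P Q act i x y := by
    intro i x y
    have h6 := h4 h N a P Q act hNh hPQ ha i x y
    have h7 : (2 : ℤ) ≤ a := by exact_mod_cast ha
    split_ifs at h6
    · linarith
    · exact h6
  have htot := h5 h N a P Q act hNh hPQ
  refine ⟨fun i x y => (Fc a P Q act i x y).toNat, ?_, ?_, ?_, ?_⟩
  · intro i u v
    show (Fc a P Q act i u v).toNat = (Fc a P Q act i v u).toNat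
    rw [hs i u v]
  · intro i u
    show (Fc a P Q act i u u).toNat = 0
    rw [hd]
    rfl
  · intro i u
    show ∑ v, (Fc a P Q act i u v).toNat = if u = i then (a + e u) % 2 else a + e u
    have e1 : ((∑ v, (Fc a P Q act i u v).toNat : ℕ) : ℤ) = ∑ v, Fc a P Q act i u v := by
      push_cast
      exact Finset.sum_congr rfl fun v _ => Int.toNat_of_nonneg (hpos i u v)
    rw [hdeg i u] at e1
    by_cases hui : u = i
    · rw [if_pos hui] at e1 ⊢
      have e2 : (univ.filter fun π => act i π ∧ P π = u).card +
          (univ.filter fun π => act i π ∧ Q π = u).card = nM P Q u := by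
        simp only [Finset.card_filter, nM, ← Finset.sum_add_distrib]
        refine Finset.sum_congr rfl fun π _ => ?_
        simp only [hact, decide_eq_true_eq, hui]
        by_cases h8 : P π = Q π
        · by_cases h9 : P π = i
          · simp [← h8, h9]
          · simp [← h8, h9]
        · by_cases h9 : P π = i
          · have h10 : Q π ≠ i := fun h => h8 (h9.trans h.symm)
            simp [h9, h10]
          · by_cases h10 : Q π = i <;> simp [h8, h9, h10]
      rw [hM] at e2
      have hae' : a % 2 = 0 := Nat.even_iff.1 hae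
      have e3 : (a + e u) % 2 = e u % 2 := by omega
      rw [e3]
      omega
    · rw [if_neg hui] at e1 ⊢
      have e2 : (univ.filter fun π => act i π ∧ P π = u).card +
          (univ.filter fun π => act i π ∧ Q π = u).card = 2 * nS P Q u + nM P Q u := by
        simp only [Finset.card_filter, nM, nS, Finset.mul_sum, ← Finset.sum_add_distrib]
        refine Finset.sum_congr rfl fun π _ => ?_
        simp only [hact, decide_eq_true_eq]
        by_cases h9 : P π = u
        · by_cases h10 : Q π = u
          · simp [h9, h10, hui]
          · have h8 : P π ≠ Q π := fun h => h10 (h ▸ h9)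
            have h11 : ¬ (u = Q π) := fun h => h10 h.symm
            simp [h9, h10, h11]
        · by_cases h10 : Q π = u
          · simp [h9, h10]
          · simp [h9, h10]
      rw [hM, hS] at e2
      omega
  · intro u v huv
    show ∑ i, (Fc a P Q act i u v).toNat ≤ a + 1 + cE (e u) + cE (e v)
    have e1 : ((∑ i, (Fc a P Q act i u v).toNat : ℕ) : ℤ) = ∑ i, Fc a P Q act i u v := by
      push_cast
      exact Finset.sum_congr rfl fun i _ => Int.toNat_of_nonneg (hpos i u v)
    have e2 := htot u v huv
    rw [← e1, hS, hS, hM, hM] at e2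
    unfold cE
    omega

end Pool.Agent.H301R2.HR
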