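import Pool.Agent.H301R2.HR.SP

set_option autoImplicit false

/-! Task YCH: choice of the edges for the class at infinity. -/

namespace Pool.Agent.H301R2.HR

open Finset

theorem T_YCH : S_YCH := by
  classical
  intro h N P Q hh hN hPQ
  let T : Fin N → Finset (ZMod (2 * h + 1)) := fun π =>
    if P π = Q π then univ \ {P π + 1, P π - 1} else univ
  have hcard : ∀ π, h ≤ (T π).card := by
    intro π
    have hu : (univ : Finset (ZMod (2 * h + 1))).card = 2 * h + 1 := by
      rw [card_univ, ZMod.card]
    show h ≤ (if P π = Q π then univ \ {P π + 1, P π - 1} else univ :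
      Finset (ZMod (2 * h + 1))).card
    split_ifs with hc
    · have h1 := le_card_sdiff ({P π + 1, P π - 1} : Finset (ZMod (2 * h + 1))) univ
      have h2 : ({P π + 1, P π - 1} : Finset (ZMod (2 * h + 1))).card ≤ 2 := card_le_two
      rw [hu] at h1
      omega
    · rw [hu]; omega
  have hall : ∀ s : Finset (Fin N), s.card ≤ (s.biUnion T).card := by
    intro s
    rcases s.eq_empty_or_nonempty with rfl | ⟨π, hπ⟩
    · simp
    · have h1 : (T π).card ≤ (s.biUnion T).card := card_le_card (subset_biUnion_of_mem T hπ)
      have h2 : s.card ≤ N := by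
        have := card_le_univ s
        rwa [Fintype.card_fin] at this
      exact (h2.trans hN).trans ((hcard π).trans h1)
  obtain ⟨y, hy1, hy2⟩ := (Finset.all_card_le_biUnion_card_iff_exists_injective T).1 hall
  refine ⟨y, hy1, fun π hπ => ?_⟩
  have h3 := hy2 π
  have h4 : T π = univ \ {P π + 1, P π - 1} := if_pos hπ
  rw [h4, mem_sdiff, mem_insert, mem_singleton, not_or] at h3
  refine ⟨fun h5 => h3.2.1 ?_, fun h5 => h3.2.2 ?_⟩
  · rw [h5]; ring
  · rw [h5]; ring

end Pool.Agent.H301R2.HR
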